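import Pool.Agent.Work.MP_c58d8b_pr.PT.Stmts3

/-!
# MP_c58d8b_pr, block PT, item EA: two trees with parent maps are isomorphic
-/

set_option autoImplicit false

namespace Pool.Agent.Work.MP_c58d8b_pr.PT

open MeasureTheory ProbabilityTheory Set Filter Topology
open scoped ENNReal unitInterval Classical
open Pool.Agent.Work.MP_c58d8b_pr.SO

universe u

namespace IX_EA

/-- A partial isomorphism, as a set of pairs closed under the parent maps. -/
structure Good {T₁ T₂ : Type u} (par₁ : T₁ → T₁) (par₂ : T₂ → T₂) (R : Set (T₁ × T₂)) : Prop where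
  cl : ∀ v w, (v, w) ∈ R → (par₁ v, par₂ w) ∈ R
  fn : ∀ v w w', (v, w) ∈ R → (v, w') ∈ R → w = w'
  inj : ∀ v v' w, (v, w) ∈ R → (v', w) ∈ R → v = v'

/-- Heights of ancestors. -/
theorem h_iter {T : Type u} {par : T → T} {h : T → ℤ} {a : ℕ} (H : Tr par h a) (n : ℕ) (x : T) :
    h (par^[n] x) = h x + n := by
  induction n with
  | zero => simp
  | succ n ih =>
    rw [Function.iterate_succ_apply', H.hpar, ih]
    push_cast
    ring

/-- The inverse of a partial isomorphism. -/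
theorem Good.swap {T₁ T₂ : Type u} {par₁ : T₁ → T₁} {par₂ : T₂ → T₂} {R : Set (T₁ × T₂)}
    (hR : Good par₁ par₂ R) : Good par₂ par₁ (Prod.swap ⁻¹' R) where
  cl := fun v w hvw => hR.cl w v hvw
  fn := fun v w w' h1 h2 => hR.inj w w' v h1 h2
  inj := fun v v' w h1 h2 => hR.fn w v v' h1 h2

/-- Extension by one pair. -/
theorem Good.ext {T₁ T₂ : Type u} {par₁ : T₁ → T₁} {h₁ : T₁ → ℤ} {par₂ : T₂ → T₂} {h₂ : T₂ → ℤ}
    {a : ℕ} (H₁ : Tr par₁ h₁ a) (H₂ : Tr par₂ h₂ a) {R : Set (T₁ × T₂)}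
    (hR : Good par₁ par₂ R) (v : T₁) (w : T₂) (hvw : (par₁ v, w) ∈ R) (hv : ∀ w', (v, w') ∉ R) :
    ∃ w', Good par₁ par₂ (insert (v, w') R) := by
  have f1 : {y | par₁ y = par₁ v}.Finite := by
    apply Set.finite_of_ncard_ne_zero
    rw [H₁.kids]
    have := H₁.two
    omega
  have key : ∃ w', par₂ w' = w ∧ ∀ v', (v', w') ∉ R := by
    by_contra hcon
    push Not at hcon
    have hch : ∀ w' : T₂, ∃ v' : T₁, par₂ w' = w → (v', w') ∈ R := by
      intro w'
      by_cases hw : par₂ w' = w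
      · obtain ⟨v', hv'⟩ := hcon w' hw
        exact ⟨v', fun _ => hv'⟩
      · exact ⟨v, fun hx => absurd hx hw⟩
    choose g hg using hch
    have hle : {y | par₂ y = w}.ncard ≤ ({y | par₁ y = par₁ v} \ {v}).ncard := by
      refine Set.ncard_le_ncard_of_injOn g ?_ ?_ (f1.subset Set.sdiff_subset)
      · intro w' hw'
        have h1 : (g w', w') ∈ R := hg w' hw'
        refine ⟨?_, ?_⟩
        · have h2 := hR.cl _ _ h1
          have hw'' : par₂ w' = w := hw'
          rw [hw''] at h2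
          exact hR.inj _ _ _ h2 hvw
        · intro h3
          have h3' : g w' = v := h3
          rw [h3'] at h1
          exact hv _ h1
      · intro w1 hw1 w2 hw2 h12
        have h1 : (g w1, w1) ∈ R := hg w1 hw1
        have h2 : (g w2, w2) ∈ R := hg w2 hw2
        rw [← h12] at h2
        exact hR.fn _ _ _ h1 h2
    have hd : ({y | par₁ y = par₁ v} \ {v}).ncard = a - 1 := by
      have h0 : v ∈ {y | par₁ y = par₁ v} := rfl
      rw [Set.ncard_sdiff_singleton_of_mem h0, H₁.kids]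
    rw [hd, H₂.kids] at hle
    have := H₁.two
    omega
  obtain ⟨w', hw1, hw2⟩ := key
  refine ⟨w', ?_, ?_, ?_⟩
  · intro v1 w1 h1
    rcases h1 with h1 | h1
    · obtain ⟨rfl, rfl⟩ := Prod.mk.inj h1
      right
      rw [hw1]
      exact hvw
    · right
      exact hR.cl _ _ h1
  · intro v1 w1 w2 h1 h2
    rcases h1 with h1 | h1 <;> rcases h2 with h2 | h2
    · exact (Prod.mk.inj h1).2.trans (Prod.mk.inj h2).2.symm
    · rw [(Prod.mk.inj h1).1] at h2
      exact absurd h2 (hv _)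
    · rw [(Prod.mk.inj h2).1] at h1
      exact absurd h1 (hv _)
    · exact hR.fn _ _ _ h1 h2
  · intro v1 v2 w1 h1 h2
    rcases h1 with h1 | h1 <;> rcases h2 with h2 | h2
    · exact (Prod.mk.inj h1).1.trans (Prod.mk.inj h2).1.symm
    · rw [(Prod.mk.inj h1).2] at h2
      exact absurd h2 (hw2 _)
    · rw [(Prod.mk.inj h2).2] at h1
      exact absurd h1 (hw2 _)
    · exact hR.inj _ _ _ h1 h2

/-- A maximal partial isomorphism which contains a pair is defined everywhere. -/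
theorem total {T₁ T₂ : Type u} {par₁ : T₁ → T₁} {h₁ : T₁ → ℤ} {par₂ : T₂ → T₂} {h₂ : T₂ → ℤ}
    {a : ℕ} (H₁ : Tr par₁ h₁ a) (H₂ : Tr par₂ h₂ a) {R : Set (T₁ × T₂)}
    (hR : Good par₁ par₂ R) (hmax : ∀ R', Good par₁ par₂ R' → R ⊆ R' → R' ⊆ R)
    (x : T₁) (y : T₂) (hxy : (x, y) ∈ R) (v : T₁) : ∃ w, (v, w) ∈ R := by
  have up : ∀ n, (par₁^[n] x, par₂^[n] y) ∈ R := by
    intro n
    induction n with
    | zero => exact hxy
    | succ n ih =>
      rw [Function.iterate_succ_apply', Function.iterate_succ_apply']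
      exact hR.cl _ _ ih
  have step : ∀ v : T₁, (∃ w, (par₁ v, w) ∈ R) → ∃ w, (v, w) ∈ R := by
    rintro v ⟨w, hw⟩
    by_contra hcon
    push Not at hcon
    obtain ⟨w', hw'⟩ := hR.ext H₁ H₂ v w hw hcon
    exact hcon w' (hmax _ hw' (Set.subset_insert _ _) (Set.mem_insert _ _))
  have down : ∀ (m : ℕ) (v : T₁), (∃ w, (par₁^[m] v, w) ∈ R) → ∃ w, (v, w) ∈ R := by
    intro m
    induction m with
    | zero => intro v hv; exact hv
    | succ m ih =>
      intro v hv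
      apply ih
      apply step
      rw [← Function.iterate_succ_apply' par₁ m v]
      exact hv
  obtain ⟨m, n, hmn⟩ := H₁.common v x
  apply down m v
  rw [hmn]
  exact ⟨_, up n⟩

end IX_EA

open IX_EA in
/-- Item EA. -/
theorem pt_EA : StEA.{u} := by
  intro T₁ T₂ par₁ h₁ par₂ h₂ a H₁ H₂ x y
  have hR₀ : Good par₁ par₂ {p : T₁ × T₂ | ∃ n : ℕ, p = (par₁^[n] x, par₂^[n] y)} := by
    refine ⟨?_, ?_, ?_⟩
    · rintro v w ⟨n, hn⟩
      obtain ⟨rfl, rfl⟩ := Prod.mk.inj hn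
      refine ⟨n + 1, ?_⟩
      rw [Function.iterate_succ_apply', Function.iterate_succ_apply']
    · rintro v w w' ⟨n, hn⟩ ⟨m, hm⟩
      have e1 := congrArg h₁ ((Prod.mk.inj hn).1.symm.trans (Prod.mk.inj hm).1)
      rw [h_iter H₁, h_iter H₁] at e1
      have e2 : n = m := by omega
      subst e2
      exact (Prod.mk.inj hn).2.trans (Prod.mk.inj hm).2.symm
    · rintro v v' w ⟨n, hn⟩ ⟨m, hm⟩
      have e1 := congrArg h₂ ((Prod.mk.inj hn).2.symm.trans (Prod.mk.inj hm).2)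
      rw [h_iter H₂, h_iter H₂] at e1
      have e2 : n = m := by omega
      subst e2
      exact (Prod.mk.inj hn).1.trans (Prod.mk.inj hm).1.symm
  obtain ⟨R, hsub, hmax⟩ := zorn_subset_nonempty {R : Set (T₁ × T₂) | Good par₁ par₂ R}
    (by
      intro c hc hch _
      refine ⟨⋃₀ c, ⟨?_, ?_, ?_⟩, fun s hs => Set.subset_sUnion_of_mem hs⟩
      · rintro v w ⟨s, hs, hvw⟩
        exact ⟨s, hs, (hc hs).cl _ _ hvw⟩
      · rintro v w w' ⟨s, hs, h1⟩ ⟨s', hs', h2⟩
        rcases hch.total hs hs' with h | h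
        · exact (hc hs').fn _ _ _ (h h1) h2
        · exact (hc hs).fn _ _ _ h1 (h h2)
      · rintro v v' w ⟨s, hs, h1⟩ ⟨s', hs', h2⟩
        rcases hch.total hs hs' with h | h
        · exact (hc hs').inj _ _ _ (h h1) h2
        · exact (hc hs).inj _ _ _ h1 (h h2))
    _ hR₀
  have hR : Good par₁ par₂ R := hmax.prop
  have hm : ∀ R', Good par₁ par₂ R' → R ⊆ R' → R' ⊆ R := fun R' h1 h2 => hmax.le_of_ge h1 h2
  have hxy : (x, y) ∈ R := hsub ⟨0, rfl⟩
  have tot : ∀ v, ∃ w, (v, w) ∈ R := total H₁ H₂ hR hm x y hxy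
  have sur : ∀ w, ∃ v, (v, w) ∈ R := by
    intro w
    obtain ⟨v, hv⟩ := total H₂ H₁ hR.swap
      (fun R' h1 h2 => by
        have h3 : R ⊆ Prod.swap ⁻¹' R' := by
          rintro ⟨p, q⟩ hpq
          exact h2 (show ((q, p) : T₂ × T₁) ∈ Prod.swap ⁻¹' R from hpq)
        have h4 := hm _ h1.swap h3
        rintro ⟨p, q⟩ hpq
        exact h4 (show ((q, p) : T₁ × T₂) ∈ Prod.swap ⁻¹' R' from hpq)) y x hxy w
    exact ⟨v, hv⟩
  choose f hf using tot
  choose g hg using sur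
  refine ⟨⟨f, g, fun v => hR.inj _ _ _ (hg (f v)) (hf v), fun w => hR.fn _ _ _ (hf (g w)) (hg w)⟩,
    ?_, ?_⟩
  · intro z
    exact hR.fn _ _ _ (hf (par₁ z)) (hR.cl _ _ (hf z))
  · exact hR.fn _ _ _ (hf x) hxy

end Pool.Agent.Work.MP_c58d8b_pr.PT
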