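import Pool.Agent.Work.MP_c58d8b_pr.PT.Stmts3

/-! Block PT, item EB: the full groups satisfy the hypotheses (helper57). -/

set_option autoImplicit false

namespace Pool.Agent.Work.MP_c58d8b_pr.PT

open MeasureTheory ProbabilityTheory Set Filter Topology
open scoped ENNReal unitInterval Classical
open Pool.Agent.Work.MP_c58d8b_pr.SO

universe u

namespace IX_EB

theorem iter {T : Type u} {p2 p3 : T → T} {f : T ≃ T} (hf : ∀ z, f (p2 z) = p3 (f z)) :
    ∀ (n : ℕ) (z : T), f (p2^[n] z) = p3^[n] (f z) := by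
  intro n
  induction n with
  | zero => intro z; rfl
  | succ n ih =>
    intro z
    rw [Function.iterate_succ_apply, Function.iterate_succ_apply, ih, hf]

theorem td_eq {T : Type u} {p2 p3 : T → T} {f : T ≃ T} (hf : ∀ z, f (p2 z) = p3 (f z)) (v w : T) :
    td p3 (f v) (f w) = td p2 v w := by
  have hit := iter hf
  have hset : {k | ∃ m n : ℕ, m + n = k ∧ p3^[m] (f v) = p3^[n] (f w)} =
      {k | ∃ m n : ℕ, m + n = k ∧ p2^[m] v = p2^[n] w} := by
    ext k
    constructor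
    · rintro ⟨m, n, hk, he⟩
      refine ⟨m, n, hk, f.injective ?_⟩
      rw [hit, hit]
      exact he
    · rintro ⟨m, n, hk, he⟩
      exact ⟨m, n, hk, by rw [← hit, ← hit, he]⟩
  unfold td
  rw [hset]

end IX_EB

theorem pt_EB (hRC : StRC.{u}) (hEA : StEA.{u}) (hEC : StEC.{u}) (hED : StED.{u}) : StEB.{u} := by
  intro T par h a hT
  refine ⟨?_, ?_, ?_⟩
  · intro x y
    obtain ⟨f, hf, hfx⟩ := hEA T T par h par h a hT hT x y
    exact ⟨f, hf, hfx⟩
  · intro x y
    obtain ⟨f, hf, hfx⟩ := hEA T T par h par h a hT hT x y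
    exact ⟨f, (hRC T par h a hT f hf).2.2.2.1, hf, hfx⟩
  · intro x y x₁ y₁ hd
    obtain ⟨p2, h2, hT2, hadj2, hy2⟩ := hED T par h a hT x y
    obtain ⟨p3, h3, hT3, hadj3, hy3⟩ := hED T par h a hT x₁ y₁
    obtain ⟨f, hf, hfx⟩ := hEA T T p2 h2 p3 h3 a hT2 hT3 x x₁
    refine ⟨f, ?_, hfx, ?_⟩
    · intro v w
      rw [hEC T par h p3 h3 a hT hT3 hadj3 (f v) (f w), IX_EB.td_eq hf v w,
        ← hEC T par h p2 h2 a hT hT2 hadj2 v w]
    · rw [← hy2, IX_EB.iter hf, hfx, hd, hy3]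

end Pool.Agent.Work.MP_c58d8b_pr.PT
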