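import Pool.Agent.Work.MP_c58d8b_pr.PT.Stmts3

set_option autoImplicit false

namespace Pool.Agent.Work.MP_c58d8b_pr.PT

open MeasureTheory ProbabilityTheory Set Filter Topology
open scoped ENNReal unitInterval Classical
open Pool.Agent.Work.MP_c58d8b_pr.SO

universe u

namespace IX_EC

theorem le_of (hRB : StRB.{u}) (T : Type u) (par : T → T) (h : T → ℤ) (par₂ : T → T) (h₂ : T → ℤ)
    (a : ℕ) (ht : Tr par h a) (ht₂ : Tr par₂ h₂ a)
    (hadj : ∀ v w, (par v = w ∨ par w = v) → (par₂ v = w ∨ par₂ w = v)) (x y : T) :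
    td par₂ x y ≤ td par x y := by
  obtain ⟨-, -, -, h4, -⟩ := hRB T par h a ht
  obtain ⟨k1, k2, k3, -, k5, -⟩ := hRB T par₂ h₂ a ht₂
  have hA : ∀ v w, (par v = w ∨ par w = v) → td par₂ v w ≤ 1 := by
    intro v w hvw
    rcases hadj v w hvw with e | e
    · exact k5 v w 1 0 e
    · exact k5 v w 0 1 e.symm
  have hB : ∀ (m : ℕ) (z : T), td par₂ z (par^[m] z) ≤ m := by
    intro m z
    induction m with
    | zero =>
      have : td par₂ z z = 0 := (k1 z z).2 rfl
      simp only [Function.iterate_zero, id]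
      omega
    | succ m ih =>
      have e1 := k3 z (par^[m] z) (par^[m + 1] z)
      have e2 : td par₂ (par^[m] z) (par^[m + 1] z) ≤ 1 := by
        refine hA _ _ (Or.inl ?_)
        rw [Function.iterate_succ_apply']
      omega
  obtain ⟨m, n, hmn, he⟩ := h4 x y
  have e1 := k3 x (par^[m] x) y
  have e2 := hB m x
  have e3 := hB n y
  rw [← he, k2] at e3
  omega

end IX_EC

theorem pt_EC (hRB : StRB.{u}) : StEC.{u} := by
  intro T par h par₂ h₂ a ht ht₂ hadj x y
  exact le_antisymm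
    (IX_EC.le_of hRB T par₂ h₂ par h a ht₂ ht (fun v w e => (hadj v w).2 e) x y)
    (IX_EC.le_of hRB T par h par₂ h₂ a ht ht₂ (fun v w e => (hadj v w).1 e) x y)

end Pool.Agent.Work.MP_c58d8b_pr.PT
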