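import Pool.Agent.Work.MP_c58d8b_pr.PT.Stmts3

/-!
# MP_c58d8b_pr, block PT: item ED (changing the end of the tree)
-/

set_option autoImplicit false

namespace Pool.Agent.Work.MP_c58d8b_pr.PT

open MeasureTheory ProbabilityTheory Set Filter Topology
open scoped ENNReal unitInterval Classical
open Pool.Agent.Work.MP_c58d8b_pr.SO

universe u

namespace IX_ED

variable {T : Type u} {par : T → T} {h : T → ℤ} {a : ℕ}

/-- a line through `y` -/
theorem exLine (H : Tr par h a) (y : T) : ∃ l : ℤ → T, (∀ i, par (l i) = l (i - 1)) ∧ l 0 = y := by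
  have hk : ∀ x, ∃ z, par z = x := by
    intro x
    have h1 : ({z | par z = x} : Set T).ncard ≠ 0 := by
      rw [H.kids x]
      have := H.two
      omega
    exact Set.nonempty_of_ncard_ne_zero h1
  choose ch hch using hk
  refine ⟨fun i => if 0 ≤ i then ch^[i.toNat] y else par^[(-i).toNat] y, fun i => ?_, ?_⟩
  · rcases lt_trichotomy i 0 with hi | hi | hi
    · have h1 : ¬ (0 ≤ i) := by omega
      have h2 : ¬ (0 ≤ i - 1) := by omega
      have h3 : (-(i - 1)).toNat = (-i).toNat + 1 := by omega
      simp only [h1, h2, if_false, h3]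
      rw [Function.iterate_succ_apply']
    · subst hi
      have h2 : ¬ ((0 : ℤ) ≤ 0 - 1) := by omega
      have h3 : (-((0 : ℤ) - 1)).toNat = 1 := by omega
      simp only [le_refl, if_true, h2, if_false, h3]
      rfl
    · have h1 : 0 ≤ i := hi.le
      have h2 : 0 ≤ i - 1 := by omega
      have h3 : i.toNat = (i - 1).toNat + 1 := by omega
      simp only [h1, h2, if_true]
      rw [h3, Function.iterate_succ_apply', hch]
  · simp

section line
variable (H : Tr par h a) (l : ℤ → T) (hl : ∀ i, par (l i) = l (i - 1))
include H hl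

theorem hh (i : ℤ) : h (l i) = h (l 0) - i := by
  induction i using Int.induction_on with
  | zero => simp
  | succ n ih =>
    have h1 := H.hpar (l (n + 1))
    rw [hl, show ((n : ℤ) + 1 - 1) = n by ring, ih] at h1
    linarith
  | pred n ih =>
    have h1 := H.hpar (l (-n))
    rw [hl, ih] at h1
    linarith

theorem inj {i j : ℤ} (e : l i = l j) : i = j := by
  have h1 := hh H l hl i
  have h2 := hh H l hl j
  rw [e] at h1
  linarith

theorem iter (n : ℕ) (i : ℤ) : par^[n] (l i) = l (i - n) := by
  induction n with
  | zero => simp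
  | succ n ih =>
    rw [Function.iterate_succ_apply', ih, hl]
    congr 1
    push_cast
    ring

end line

/-- the new parent map -/
noncomputable def p2 (par : T → T) (h : T → ℤ) (l : ℤ → T) (v : T) : T :=
  if v ∈ Set.range l then l (h (l 0) - h v + 1) else par v

section line2
variable (H : Tr par h a) (l : ℤ → T) (hl : ∀ i, par (l i) = l (i - 1))

theorem p2_off {v : T} (hv : v ∉ Set.range l) : p2 par h l v = par v := if_neg hv

include H hl

theorem p2_on (i : ℤ) : p2 par h l (l i) = l (i + 1) := by
  have h1 : p2 par h l (l i) = l (h (l 0) - h (l i) + 1) := if_pos ⟨i, rfl⟩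
  rw [h1, hh H l hl i]
  congr 1
  ring

theorem iter2 (n : ℕ) (i : ℤ) : (p2 par h l)^[n] (l i) = l (i + n) := by
  induction n with
  | zero => simp
  | succ n ih =>
    rw [Function.iterate_succ_apply', ih, p2_on H l hl]
    congr 1
    push_cast
    ring

theorem ex (v : T) : ∃ n : ℕ, par^[n] v ∈ Set.range l := by
  obtain ⟨m, n, e⟩ := H.common v (l 0)
  exact ⟨m, by rw [e, iter H l hl]; exact ⟨_, rfl⟩⟩

theorem reach (n : ℕ) : ∀ v : T, par^[n] v ∈ Set.range l → ∃ (m : ℕ) (i : ℤ), (p2 par h l)^[m] v = l i := by
  induction n with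
  | zero =>
    rintro v ⟨i, hi⟩
    exact ⟨0, i, hi.symm⟩
  | succ n ih =>
    intro v hv
    by_cases h0 : v ∈ Set.range l
    · obtain ⟨i, hi⟩ := h0
      exact ⟨0, i, hi.symm⟩
    · obtain ⟨m, i, e⟩ := ih (par v) hv
      refine ⟨m + 1, i, ?_⟩
      rw [Function.iterate_succ_apply, p2_off l h0]
      exact e

theorem common2 (x y : T) : ∃ m n : ℕ, (p2 par h l)^[m] x = (p2 par h l)^[n] y := by
  obtain ⟨n, hn⟩ := ex H l hl x
  obtain ⟨n', hn'⟩ := ex H l hl y
  obtain ⟨m, i, e⟩ := reach H l hl n x hn
  obtain ⟨m', j, e'⟩ := reach H l hl n' y hn'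
  refine ⟨(max i j - i).toNat + m, (max i j - j).toNat + m', ?_⟩
  rw [Function.iterate_add_apply, Function.iterate_add_apply, e, e', iter2 H l hl, iter2 H l hl]
  congr 1
  have h1 : i ≤ max i j := le_max_left _ _
  have h2 : j ≤ max i j := le_max_right _ _
  omega

theorem kids2 (x : T) : {y | p2 par h l y = x}.ncard = a := by
  have hfin : ∀ z, ({y | par y = z} : Set T).Finite := by
    intro z
    apply Set.finite_of_ncard_ne_zero
    rw [H.kids z]
    have := H.two
    omega
  by_cases hx : x ∈ Set.range l
  · obtain ⟨i, rfl⟩ := hx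
    have e1 : {y | p2 par h l y = l i} = insert (l (i - 1)) ({y | par y = l i} \ {l (i + 1)}) := by
      ext y
      simp only [Set.mem_setOf_eq, Set.mem_insert_iff, Set.mem_diff, Set.mem_singleton_iff]
      by_cases hy : y ∈ Set.range l
      · obtain ⟨j, rfl⟩ := hy
        rw [p2_on H l hl]
        constructor
        · intro e
          left
          have := inj H l hl e
          congr 1
          omega
        · rintro (e | ⟨e, e'⟩)
          · have := inj H l hl e
            congr 1
            omega
          · exfalso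
            apply e'
            rw [hl] at e
            have := inj H l hl e
            congr 1
            omega
      · rw [p2_off l hy]
        constructor
        · intro e
          exact Or.inr ⟨e, fun e' => hy ⟨_, e'.symm⟩⟩
        · rintro (e | ⟨e, e'⟩)
          · exact absurd ⟨_, e.symm⟩ hy
          · exact e
    have h1 : l (i + 1) ∈ ({y | par y = l i} : Set T) := by
      show par (l (i + 1)) = l i
      rw [hl]
      congr 1
      ring
    have h2 : l (i - 1) ∉ ({y | par y = l i} \ {l (i + 1)} : Set T) := by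
      rintro ⟨e, -⟩
      have e' : par (l (i - 1)) = l i := e
      rw [hl] at e'
      have := inj H l hl e'
      omega
    rw [e1, Set.ncard_insert_of_notMem h2 ((hfin _).subset Set.diff_subset),
      Set.ncard_diff_singleton_add_one h1 (hfin _), H.kids]
  · have e1 : {y | p2 par h l y = x} = {y | par y = x} := by
      ext y
      simp only [Set.mem_setOf_eq]
      by_cases hy : y ∈ Set.range l
      · obtain ⟨j, rfl⟩ := hy
        rw [p2_on H l hl, hl]
        constructor
        · intro e
          exact absurd ⟨_, e⟩ hx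
        · intro e
          exact absurd ⟨_, e⟩ hx
      · rw [p2_off l hy]
    rw [e1, H.kids]

theorem exHeight : ∃ h₂ : T → ℤ, ∀ x, h₂ (p2 par h l x) = h₂ x + 1 := by
  refine ⟨fun v => -h v - 2 * (Nat.find (ex H l hl v) : ℤ), fun v => ?_⟩
  have hon : ∀ i, Nat.find (ex H l hl (l i)) = 0 := by
    intro i
    rw [Nat.find_eq_zero]
    exact ⟨i, rfl⟩
  by_cases hv : v ∈ Set.range l
  · obtain ⟨i, rfl⟩ := hv
    rw [p2_on H l hl]
    simp only [hon]
    rw [hh H l hl i, hh H l hl (i + 1)]
    push_cast
    ring
  · rw [p2_off l hv]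
    have h1 : Nat.find (ex H l hl v) = Nat.find (ex H l hl (par v)) + 1 :=
      Nat.find_comp_succ (ex H l hl v) (ex H l hl (par v)) hv
    simp only [h1]
    rw [H.hpar]
    push_cast
    ring

theorem adj2 (v w : T) : (par v = w ∨ par w = v) ↔ (p2 par h l v = w ∨ p2 par h l w = v) := by
  have f : ∀ v w, par v = w → (p2 par h l v = w ∨ p2 par h l w = v) := by
    intro v w e
    by_cases hv : v ∈ Set.range l
    · obtain ⟨i, rfl⟩ := hv
      right
      rw [← e, hl, p2_on H l hl]
      congr 1
      ring
    · left
      rw [p2_off l hv, e]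
  have g : ∀ v w, p2 par h l v = w → (par v = w ∨ par w = v) := by
    intro v w e
    by_cases hv : v ∈ Set.range l
    · obtain ⟨i, rfl⟩ := hv
      right
      rw [← e, p2_on H l hl, hl]
      congr 1
      ring
    · left
      rw [← e, p2_off l hv]
  constructor
  · rintro (e | e)
    · exact f v w e
    · exact (f w v e).symm
  · rintro (e | e)
    · exact g v w e
    · exact (g w v e).symm

end line2

theorem off_iter (l : ℤ → T) (m : ℕ) : ∀ x : T, (∀ k < m, par^[k] x ∉ Set.range l) →
    (p2 par h l)^[m] x = par^[m] x := by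
  induction m with
  | zero => intro x _; rfl
  | succ m ih =>
    intro x hx
    have h0 : x ∉ Set.range l := hx 0 (Nat.succ_pos m)
    rw [Function.iterate_succ_apply, Function.iterate_succ_apply, p2_off l h0]
    exact ih (par x) (fun k hk => hx (k + 1) (by omega))

end IX_ED

open IX_ED in
theorem pt_ED (hRB : StRB.{u}) : StED.{u} := by
  intro T par h a H x y
  obtain ⟨-, -, -, hmn, hle, -, -, -, -, -⟩ := hRB T par h a H
  obtain ⟨m, n, htd, e⟩ := hmn x y
  rcases Nat.eq_zero_or_pos n with hn | hn
  · subst hn
    refine ⟨par, h, H, fun v w => Iff.rfl, ?_⟩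
    rw [htd]
    exact e
  · obtain ⟨l, hl, hl0⟩ := exLine H y
    obtain ⟨h₂, hh₂⟩ := exHeight H l hl
    have hn0 : par^[n] y = l (-n) := by
      rw [← hl0, iter H l hl]
      congr 1
      ring
    have hoff : ∀ k < m, par^[k] x ∉ Set.range l := by
      rintro k hk ⟨i, hi⟩
      have h1 : par^[m] x = l (i - (m - k : ℕ)) := by
        rw [← iter H l hl, hi, ← Function.iterate_add_apply]
        congr 2
        omega
      have h2 : i = (m - k : ℕ) - n := by
        rw [e, hn0] at h1
        have := inj H l hl h1
        omega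
      have h3 : par^[m - 1] x = l (1 - n) := by
        have h4 : par^[m - 1] x = par^[m - 1 - k] (par^[k] x) := by
          rw [← Function.iterate_add_apply]
          congr 2
          omega
        rw [h4, ← hi, iter H l hl]
        congr 1
        omega
      have h5 : par^[n - 1] y = l (1 - n) := by
        rw [← hl0, iter H l hl]
        congr 1
        omega
      have h6 := hle x y (m - 1) (n - 1) (h3.trans h5.symm)
      omega
    refine ⟨p2 par h l, h₂, ⟨H.two, hh₂, kids2 H l hl, common2 H l hl⟩, adj2 H l hl, ?_⟩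
    rw [htd, add_comm, Function.iterate_add_apply, off_iter l m x hoff, e, hn0, iter2 H l hl,
      neg_add_cancel, hl0]

end Pool.Agent.Work.MP_c58d8b_pr.PT
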