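import Pool.Agent.Work.MP_c58d8b_pr.PT.Stmts

/-!
# MP_c58d8b_pr, block PT, item FB: the inequality of Harris
-/

set_option autoImplicit false

namespace Pool.Agent.Work.MP_c58d8b_pr.PT

open MeasureTheory ProbabilityTheory Set Filter Topology
open scoped ENNReal unitInterval Classical
open Pool.Agent.Work.MP_c58d8b_pr.SO

universe u

namespace IX_FB

theorem inc_ins {ι : Type u} {A : Set (Set ι)} (hA : Inc A) (e : ι) :
    Inc {s : Set ι | insert e s ∈ A} := fun _ _ hst hs => hA _ _ (insert_subset_insert hst) hs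

theorem arith {p a₀ a₁ b₀ b₁ : ℝ} (hp : 0 ≤ p) (hp1 : p ≤ 1) (ha : a₀ ≤ a₁) (hb : b₀ ≤ b₁) :
    (p * a₁ + (1 - p) * a₀) * (p * b₁ + (1 - p) * b₀) ≤ p * (a₁ * b₁) + (1 - p) * (a₀ * b₀) := by
  have h : 0 ≤ (p * (1 - p)) * ((a₁ - a₀) * (b₁ - b₀)) :=
    mul_nonneg (mul_nonneg hp (by linarith)) (mul_nonneg (by linarith) (by linarith))
  have e1 : p * (a₁ * b₁) + (1 - p) * (a₀ * b₀) -
      (p * a₁ + (1 - p) * a₀) * (p * b₁ + (1 - p) * b₀) =
      (p * (1 - p)) * ((a₁ - a₀) * (b₁ - b₀)) := by ring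
  linarith

end IX_FB

open IX_FB in
theorem pt_FB (hFA : StFA.{u}) (hPB : SO.StPB.{u}) : StFB.{u} := by
  intro ι E p hp hp1
  induction E using Finset.induction_on with
  | empty =>
    intro A B _ _
    have h : ∀ C : Set (Set ι), Pr (∅ : Finset ι) p C = if (∅ : Set ι) ∈ C then 1 else 0 := by
      intro C
      rw [(hPB ι ∅ p hp hp1).2.2.2.2 C]
      simp
    rw [h A, h B, h (A ∩ B)]
    by_cases hA : (∅ : Set ι) ∈ A
    · by_cases hB : (∅ : Set ι) ∈ B
      · rw [if_pos hA, if_pos hB, if_pos ⟨hA, hB⟩, one_mul]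
      · rw [if_neg hB, mul_zero]
        split_ifs <;> norm_num
    · rw [if_neg hA, zero_mul]
      split_ifs <;> norm_num
  | insert e E he ih =>
    intro A B hA hB
    have hF := (hFA ι p).2 E e he
    rw [hF A, hF B, hF (A ∩ B)]
    have hmono := (hPB ι E p hp hp1).2.2.1
    have hA1 : Pr E p A ≤ Pr E p {s | insert e s ∈ A} :=
      hmono _ _ fun s _ hs => hA _ _ (subset_insert e _) hs
    have hB1 : Pr E p B ≤ Pr E p {s | insert e s ∈ B} :=
      hmono _ _ fun s _ hs => hB _ _ (subset_insert e _) hs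
    have h1 := ih A B hA hB
    have h2 := ih {s | insert e s ∈ A} {s | insert e s ∈ B} (inc_ins hA e) (inc_ins hB e)
    have h3 : ({s : Set ι | insert e s ∈ A} ∩ {s : Set ι | insert e s ∈ B}) =
        {s : Set ι | insert e s ∈ A ∩ B} := rfl
    rw [h3] at h2
    refine (arith hp hp1 hA1 hB1).trans ?_
    exact add_le_add (mul_le_mul_of_nonneg_left h2 hp)
      (mul_le_mul_of_nonneg_left h1 (by linarith))

end Pool.Agent.Work.MP_c58d8b_pr.PT
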