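import Pool.Agent.Work.MP_c58d8b_pr.PT.Stmts

/-!
# MP_c58d8b_pr, block PT, item FC: continuity and monotonicity in `p`
-/

set_option autoImplicit false

namespace Pool.Agent.Work.MP_c58d8b_pr.PT

open MeasureTheory ProbabilityTheory Set Filter Topology
open scoped ENNReal unitInterval Classical
open Pool.Agent.Work.MP_c58d8b_pr.SO

universe u

namespace IX_FC

theorem cont (ι : Type u) (E : Finset ι) (A : Set (Set ι)) :
    Continuous fun p : ℝ => Pr E p A := by
  unfold Pr
  fun_prop

theorem emp (ι : Type u) (p q : ℝ) (A : Set (Set ι)) :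
    Pr (∅ : Finset ι) p A = Pr (∅ : Finset ι) q A := by
  unfold Pr
  refine Finset.sum_congr rfl fun s hs => ?_
  have h : s = ∅ := by
    have := (Finset.mem_filter.1 hs).1
    rw [Finset.powerset_empty, Finset.mem_singleton] at this
    exact this
  rw [h]
  simp

end IX_FC

theorem pt_FC (hFA : StFA.{u}) (hPB : SO.StPB.{u}) : StFC.{u} := by
  intro ι E A
  refine ⟨IX_FC.cont ι E A, ?_⟩
  induction E using Finset.induction_on generalizing A with
  | empty =>
    intro _ p q _ _ _
    exact (IX_FC.emp ι p q A).le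
  | insert e E he ih =>
    intro hA p q hp hpq hq
    rw [(hFA ι p).2 E e he A, (hFA ι q).2 E e he A]
    have hA' : Inc {s : Set ι | insert e s ∈ A} := by
      intro s t hst hs
      exact hA _ _ (Set.insert_subset_insert hst) hs
    have h1 := ih _ hA' p q hp hpq hq
    have h0 := ih A hA p q hp hpq hq
    have h2 : Pr E q A ≤ Pr E q {s : Set ι | insert e s ∈ A} := by
      refine (hPB ι E q (hp.trans hpq) hq).2.2.1 _ _ fun s _ hs => ?_
      exact hA _ _ (Set.subset_insert e _) hs
    have h3 : 0 ≤ (q - p) * (Pr E q {s : Set ι | insert e s ∈ A} - Pr E q A) :=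
      mul_nonneg (by linarith) (by linarith)
    have h4 : p * Pr E p {s : Set ι | insert e s ∈ A} ≤
        p * Pr E q {s : Set ι | insert e s ∈ A} := mul_le_mul_of_nonneg_left h1 hp
    have h5 : (1 - p) * Pr E p A ≤ (1 - p) * Pr E q A :=
      mul_le_mul_of_nonneg_left h0 (by linarith)
    linarith

end Pool.Agent.Work.MP_c58d8b_pr.PT
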