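import Pool.Agent.Work.MP_c58d8b_pr.PT.Stmts

set_option autoImplicit false

namespace Pool.Agent.Work.MP_c58d8b_pr.PT

open MeasureTheory ProbabilityTheory Set Filter Topology
open scoped ENNReal unitInterval Classical
open Pool.Agent.Work.MP_c58d8b_pr.SO

universe u

namespace IX_FE

variable {ι : Type u}

/-- the weight of a finite set -/
noncomputable def w (E : Finset ι) (p : ℝ) (s : Finset ι) : ℝ :=
  p ^ s.card * (1 - p) ^ (E.card - s.card)

/-- the indicator -/
noncomputable def ind (A : Set (Set ι)) (s : Finset ι) : ℝ := if (s : Set ι) ∈ A then 1 else 0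

theorem w_nonneg {E : Finset ι} {p : ℝ} (h0 : 0 ≤ p) (h1 : p ≤ 1) (s : Finset ι) :
    0 ≤ w E p s :=
  mul_nonneg (pow_nonneg h0 _) (pow_nonneg (by linarith) _)

theorem ind_nonneg (A : Set (Set ι)) (s : Finset ι) : 0 ≤ ind A s := by
  unfold ind
  split_ifs <;> norm_num

theorem ind_inter (A B : Set (Set ι)) (s : Finset ι) : ind (A ∩ B) s = ind A s * ind B s := by
  unfold ind
  by_cases ha : (s : Set ι) ∈ A <;> by_cases hb : (s : Set ι) ∈ B <;> simp [ha, hb]

theorem pr_eq (E : Finset ι) (p : ℝ) (A : Set (Set ι)) :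
    Pr E p A = ∑ s ∈ E.powerset, w E p s * ind A s := by
  unfold Pr
  rw [Finset.sum_filter]
  refine Finset.sum_congr rfl fun s _ => ?_
  unfold w ind
  split_ifs <;> simp

theorem pr_nonneg {E : Finset ι} {p : ℝ} (h0 : 0 ≤ p) (h1 : p ≤ 1) (A : Set (Set ι)) :
    0 ≤ Pr E p A := by
  rw [pr_eq]
  exact Finset.sum_nonneg fun s _ => mul_nonneg (w_nonneg h0 h1 s) (ind_nonneg A s)

end IX_FE

open IX_FE in
theorem pt_FE : StFE.{u} := by
  intro ι E p h0 h1 J F α β γ hα hγ hF hFF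
  have hsum1 : ∑ s ∈ E.powerset, w E p s * ∑ j ∈ J, ind (F j) s = ∑ j ∈ J, Pr E p (F j) := by
    simp_rw [Finset.mul_sum]
    rw [Finset.sum_comm]
    exact Finset.sum_congr rfl fun j _ => (pr_eq E p (F j)).symm
  have hsum2 : ∑ s ∈ E.powerset, w E p s * (∑ j ∈ J, ind (F j) s) ^ 2 =
      ∑ i ∈ J, ∑ j ∈ J, Pr E p (F i ∩ F j) := by
    have e1 : ∀ s : Finset ι, w E p s * (∑ j ∈ J, ind (F j) s) ^ 2 =
        ∑ i ∈ J, ∑ j ∈ J, w E p s * ind (F i ∩ F j) s := by
      intro s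
      rw [sq, Finset.sum_mul_sum, Finset.mul_sum]
      refine Finset.sum_congr rfl fun i _ => ?_
      rw [Finset.mul_sum]
      refine Finset.sum_congr rfl fun j _ => ?_
      rw [ind_inter]
    rw [Finset.sum_congr rfl fun s _ => e1 s, Finset.sum_comm]
    refine Finset.sum_congr rfl fun i _ => ?_
    rw [Finset.sum_comm]
    exact Finset.sum_congr rfl fun j _ => (pr_eq E p _).symm
  have hCS : (∑ s ∈ E.powerset, w E p s * ∑ j ∈ J, ind (F j) s) ^ 2 ≤
      (∑ s ∈ E.powerset, w E p s * ind {s | ∃ j ∈ J, s ∈ F j} s) *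
        ∑ s ∈ E.powerset, w E p s * (∑ j ∈ J, ind (F j) s) ^ 2 := by
    refine Finset.sum_sq_le_sum_mul_sum_of_sq_eq_mul _
      (fun s _ => mul_nonneg (w_nonneg h0 h1 s) (ind_nonneg _ s))
      (fun s _ => mul_nonneg (w_nonneg h0 h1 s) (sq_nonneg _)) ?_
    intro s _
    by_cases hs : (s : Set ι) ∈ {s : Set ι | ∃ j ∈ J, s ∈ F j}
    · have : ind {s : Set ι | ∃ j ∈ J, s ∈ F j} s = 1 := by unfold ind; rw [if_pos hs]
      rw [this]; ring
    · have h2 : ∑ j ∈ J, ind (F j) s = 0 := by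
        refine Finset.sum_eq_zero fun j hj => ?_
        unfold ind
        rw [if_neg]
        intro h
        exact hs ⟨j, hj, h⟩
      rw [h2]; ring
  rw [hsum1, hsum2, ← pr_eq] at hCS
  have hlow : (J.card : ℝ) * α ≤ ∑ j ∈ J, Pr E p (F j) := by
    rw [← nsmul_eq_mul]
    exact Finset.card_nsmul_le_sum _ _ _ fun j hj => (hF j hj).1
  have hup : ∑ i ∈ J, ∑ j ∈ J, Pr E p (F i ∩ F j) ≤ J.card * β + (J.card : ℝ) ^ 2 * γ := by
    have e2 : ∀ i ∈ J, ∀ j ∈ J, Pr E p (F i ∩ F j) ≤ (if i = j then β else 0) + γ := by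
      intro i hi j hj
      rcases lt_trichotomy i j with h | h | h
      · rw [if_neg h.ne, zero_add]
        exact hFF i hi j hj h
      · subst h
        rw [if_pos rfl, Set.inter_self]
        have := (hF i hi).2
        linarith
      · rw [if_neg h.ne', zero_add, Set.inter_comm]
        exact hFF j hj i hi h
    calc ∑ i ∈ J, ∑ j ∈ J, Pr E p (F i ∩ F j)
        ≤ ∑ i ∈ J, ∑ j ∈ J, ((if i = j then β else 0) + γ) :=
          Finset.sum_le_sum fun i hi => Finset.sum_le_sum fun j hj => e2 i hi j hj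
      _ = J.card * β + (J.card : ℝ) ^ 2 * γ := by
          have e3 : ∀ i ∈ J, ∑ j ∈ J, ((if i = j then β else 0) + γ) = β + J.card * γ := by
            intro i hi
            rw [Finset.sum_add_distrib, Finset.sum_ite_eq, if_pos hi, Finset.sum_const,
              nsmul_eq_mul]
          rw [Finset.sum_congr rfl e3, Finset.sum_const, nsmul_eq_mul]
          ring
  calc ((J.card : ℝ) * α) ^ 2 ≤ (∑ j ∈ J, Pr E p (F j)) ^ 2 :=
        pow_le_pow_left₀ (by positivity) hlow 2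
    _ ≤ Pr E p {s | ∃ j ∈ J, s ∈ F j} * ∑ i ∈ J, ∑ j ∈ J, Pr E p (F i ∩ F j) := hCS
    _ ≤ _ := mul_le_mul_of_nonneg_left hup (pr_nonneg h0 h1 _)

end Pool.Agent.Work.MP_c58d8b_pr.PT
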