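import Pool.Agent.Work.MP_c58d8b_pr.PT.Stmts

/-!
# MP_c58d8b_pr, block PT, item FI: independence of several events
-/

set_option autoImplicit false

namespace Pool.Agent.Work.MP_c58d8b_pr.PT

open MeasureTheory ProbabilityTheory Set Filter Topology
open scoped ENNReal unitInterval Classical
open Pool.Agent.Work.MP_c58d8b_pr.SO

universe u

namespace IX_FI

theorem inter_sub {ι : Type u} (s : Set ι) (U F : Finset ι) (h : F ⊆ U) :
    s ∩ (U : Set ι) ∩ (F : Set ι) = s ∩ (F : Set ι) := by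
  rw [Set.inter_assoc, Set.inter_eq_right.2 (Finset.coe_subset.2 h)]

theorem key (hPB : SO.StPB.{u}) (hPI : SO.StPI.{u}) (ι : Type u) (p : ℝ) (hp0 : 0 ≤ p)
    (hp1 : p ≤ 1) (n : ℕ) : ∀ (F : Fin n → Finset ι), (∀ i j, i ≠ j → Disjoint (F i) (F j)) →
    ∀ A : Fin n → Set (Set ι),
      Pr (Finset.univ.biUnion F) p {s | ∀ i, s ∩ (F i : Set ι) ∈ A i} =
        ∏ i, Pr (F i) p (A i) := by
  induction n with
  | zero =>
    intro F _ A
    have h1 := (hPB ι (Finset.univ.biUnion F) p hp0 hp1).1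
    have h2 : {s : Set ι | ∀ i, s ∩ (F i : Set ι) ∈ A i} = Set.univ := by
      ext s
      simp
    rw [h2, h1]
    simp
  | succ n ih =>
    intro F hd A
    set U' : Finset ι := Finset.univ.biUnion (fun i : Fin n => F i.succ) with hU'
    have hU : Finset.univ.biUnion F = F 0 ∪ U' := by
      ext x
      simp only [Finset.mem_biUnion, Finset.mem_univ, true_and, Finset.mem_union, hU',
        Fin.exists_fin_succ]
    have hset : {s : Set ι | ∀ i, s ∩ (F i : Set ι) ∈ A i} =
        {s | s ∩ (F 0 : Set ι) ∈ A 0 ∧ s ∩ (U' : Set ι) ∈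
          {s : Set ι | ∀ i : Fin n, s ∩ (F i.succ : Set ι) ∈ A i.succ}} := by
      ext s
      have h3 : ∀ i : Fin n, s ∩ (U' : Set ι) ∩ (F i.succ : Set ι) = s ∩ (F i.succ : Set ι) :=
        fun i => inter_sub s U' (F i.succ)
          (Finset.subset_biUnion_of_mem (fun i : Fin n => F i.succ) (Finset.mem_univ i))
      simp only [Set.mem_setOf_eq, Fin.forall_fin_succ, h3]
    have hdis : Disjoint (F 0) U' := by
      rw [hU', Finset.disjoint_biUnion_right]
      intro i _
      exact hd 0 i.succ (Fin.succ_ne_zero i).symm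
    rw [hU, hset, hPI ι (F 0) U' p hp0 hp1 hdis, hU',
      ih (fun i => F i.succ) (fun i j hij => hd _ _ (fun h => hij (Fin.succ_injective n h)))
        (fun i => A i.succ), Fin.prod_univ_succ]

end IX_FI

open IX_FI in
theorem pt_FI (hPB : SO.StPB.{u}) (hPI : SO.StPI.{u}) (hPL : SO.StPL.{u}) : StFI.{u} := by
  intro ι E p hp0 hp1 n F hFE hdis A
  rw [← key hPB hPI ι p hp0 hp1 n F hdis A]
  refine hPL ι E (Finset.univ.biUnion F) p hp0 hp1
    (Finset.biUnion_subset.2 fun i _ => hFE i) _ fun s _ => ?_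
  simp only [Set.mem_setOf_eq]
  refine forall_congr' fun i => ?_
  rw [inter_sub _ _ _ (Finset.subset_biUnion_of_mem F (Finset.mem_univ i))]

end Pool.Agent.Work.MP_c58d8b_pr.PT
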