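import Pool.Agent.Work.MP_c58d8b_pr.PT.Stmts

set_option autoImplicit false

namespace Pool.Agent.Work.MP_c58d8b_pr.PT

open MeasureTheory ProbabilityTheory Set Filter Topology
open scoped ENNReal unitInterval Classical
open Pool.Agent.Work.MP_c58d8b_pr.SO

universe u

namespace IX_FU

theorem pr_compl (hPB : SO.StPB.{u}) {ι : Type u} (E : Finset ι) (p : ℝ) (h0 : 0 ≤ p) (h1 : p ≤ 1)
    (A : Set (Set ι)) : Pr E p A + Pr E p Aᶜ = 1 := by
  obtain ⟨b1, -, -, b4, -⟩ := hPB ι E p h0 h1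
  have := b4 univ A
  rw [b1, univ_inter, univ_inter] at this
  exact this.symm

theorem none_le (hPB : SO.StPB.{u}) (hPI : SO.StPI.{u}) {ι κ : Type u} (p : ℝ) (h0 : 0 ≤ p)
    (h1 : p ≤ 1) (F : κ → Finset ι) (Z : κ → Set (Set ι)) (z : ℝ) (hz : z ≤ 1) (W : Finset κ) :
    ∀ G : Finset ι, (∀ y ∈ W, F y ⊆ G) → (∀ y ∈ W, ∀ y' ∈ W, y ≠ y' → Disjoint (F y) (F y')) →
      (∀ y ∈ W, z ≤ Pr (F y) p (Z y)) →
      Pr G p {s | ∀ y ∈ W, s ∩ (F y : Set ι) ∉ Z y} ≤ (1 - z) ^ W.card := by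
  induction W using Finset.induction_on with
  | empty =>
    intro G _ _ _
    simp only [Finset.card_empty, pow_zero]
    exact ((hPB ι G p h0 h1).2.1 _).2
  | insert y W hy ih =>
    intro G hG hd hZ
    have e1 : G = F y ∪ (G \ F y) :=
      (Finset.union_sdiff_of_subset (hG y (Finset.mem_insert_self _ _))).symm
    have hsub : ∀ y' ∈ W, F y' ⊆ G \ F y := by
      intro y' hy' x hx
      rw [Finset.mem_sdiff]
      refine ⟨hG y' (Finset.mem_insert_of_mem hy') hx, fun hx' => ?_⟩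
      have hne : y ≠ y' := fun h => hy (h ▸ hy')
      exact Finset.disjoint_left.1 (hd y (Finset.mem_insert_self _ _) y'
        (Finset.mem_insert_of_mem hy') hne) hx' hx
    have e2 : ({s : Set ι | ∀ y' ∈ insert y W, s ∩ (F y' : Set ι) ∉ Z y'}) =
        {s | s ∩ (F y : Set ι) ∈ (Z y)ᶜ ∧ s ∩ ((G \ F y : Finset ι) : Set ι) ∈
          {s : Set ι | ∀ y' ∈ W, s ∩ (F y' : Set ι) ∉ Z y'}} := by
      ext s
      have key : ∀ y' ∈ W, s ∩ ((G \ F y : Finset ι) : Set ι) ∩ (F y' : Set ι) =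
          s ∩ (F y' : Set ι) := by
        intro y' hy'
        ext x
        constructor
        · rintro ⟨⟨a, _⟩, c⟩
          exact ⟨a, c⟩
        · rintro ⟨a, c⟩
          exact ⟨⟨a, by exact_mod_cast hsub y' hy' (by exact_mod_cast c)⟩, c⟩
      constructor
      · intro h
        refine ⟨h y (Finset.mem_insert_self _ _), fun y' hy' => ?_⟩
        rw [key y' hy']
        exact h y' (Finset.mem_insert_of_mem hy')
      · rintro ⟨ha, hb⟩ y' hy'
        rcases Finset.mem_insert.1 hy' with rfl | hy'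
        · exact ha
        · have := hb y' hy'
          rwa [key y' hy'] at this
    have e3 := hPI ι (F y) (G \ F y) p h0 h1 Finset.disjoint_sdiff (Z y)ᶜ
      {s : Set ι | ∀ y' ∈ W, s ∩ (F y' : Set ι) ∉ Z y'}
    rw [← e1, ← e2] at e3
    rw [e3, Finset.card_insert_of_notMem hy, pow_succ, mul_comm]
    have i1 := ih (G \ F y) hsub
      (fun a ha b hb hab => hd a (Finset.mem_insert_of_mem ha) b (Finset.mem_insert_of_mem hb) hab)
      (fun a ha => hZ a (Finset.mem_insert_of_mem ha))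
    have i2 : Pr (F y) p (Z y)ᶜ ≤ 1 - z := by
      have := pr_compl hPB (F y) p h0 h1 (Z y)
      have := hZ y (Finset.mem_insert_self _ _)
      linarith
    exact mul_le_mul i1 i2 ((hPB ι (F y) p h0 h1).2.1 _).1 (pow_nonneg (by linarith) _)

theorem poly (z : ℝ) (hz0 : 0 ≤ z) (hz : z ≤ 1) (k : ℕ) :
    (1 - z) ^ k ≤ 1 - k * z + k * (k - 1) / 2 * z ^ 2 := by
  induction k with
  | zero => simp
  | succ k ih =>
    have hk : (0 : ℝ) ≤ (k : ℝ) * (k - 1) := by
      rcases Nat.eq_zero_or_pos k with h | h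
      · simp [h]
      · have : (1 : ℝ) ≤ k := by exact_mod_cast h
        exact mul_nonneg (by linarith) (by linarith)
    have h1 : (1 - z) ^ (k + 1) ≤ (1 - k * z + k * (k - 1) / 2 * z ^ 2) * (1 - z) := by
      rw [pow_succ]
      exact mul_le_mul_of_nonneg_right ih (by linarith)
    have h2 : 0 ≤ (k : ℝ) * (k - 1) / 2 * z ^ 3 := by positivity
    push_cast
    nlinarith

end IX_FU

open IX_FU in
theorem pt_FU (hFA : StFA.{u}) (hPB : SO.StPB.{u}) (hPI : SO.StPI.{u}) (hPL : SO.StPL.{u}) :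
    StFU.{u} := by
  intro ι κ E E₀ p h0 h1 Y F D Z β z hE₀ hF hd0 hd hβ hz0 hz hD hZ hYne
  set A : Set (Set ι) := {s | ∃ y ∈ Y, s ∩ (E₀ : Set ι) ∈ D y ∧ s ∩ (F y : Set ι) ∈ Z y} with hA
  have hPrA := ((hPB ι E p h0 h1).2.1 A).1
  refine ⟨?_, ?_⟩
  · rcases lt_or_ge (1 - (Y.card : ℝ) * z / 2) 0 with hneg | hpos
    · refine le_trans ?_ hPrA
      exact mul_nonpos_of_nonneg_of_nonpos (by positivity) hneg.le
    have hdis : Disjoint E₀ (E \ E₀) := Finset.disjoint_sdiff
    have hE : E = E₀ ∪ (E \ E₀) := (Finset.union_sdiff_of_subset hE₀).symm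
    have hFa := (hFA ι p).1 E₀ (E \ E₀) hdis A
    rw [← hE] at hFa
    have hFG : ∀ y ∈ Y, F y ⊆ E \ E₀ := by
      intro y hy x hx
      rw [Finset.mem_sdiff]
      exact ⟨hF y hy hx, fun hx' => Finset.disjoint_left.1 (hd0 y hy) hx' hx⟩
    have hstep : ∀ t ∈ E₀.powerset,
        ((Y.filter (fun y => (t : Set ι) ∈ D y)).card : ℝ) * z * (1 - (Y.card : ℝ) * z / 2) ≤
          Pr (E \ E₀) p {s | (t : Set ι) ∪ s ∈ A} := by
      intro t ht
      rw [Finset.mem_powerset] at ht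
      set W := Y.filter (fun y => (t : Set ι) ∈ D y) with hW
      have hWY : ∀ y ∈ W, y ∈ Y := fun y hy => (Finset.mem_filter.1 hy).1
      have c1 := none_le hPB hPI p h0 h1 F Z z hz W (E \ E₀) (fun y hy => hFG y (hWY y hy))
        (fun a ha b hb hab => hd a (hWY a ha) b (hWY b hb) hab) (fun a ha => hZ a (hWY a ha))
      have c2 := pr_compl hPB (E \ E₀) p h0 h1 {s | ∀ y ∈ W, s ∩ (F y : Set ι) ∉ Z y}
      have c3 : Pr (E \ E₀) p {s | ∀ y ∈ W, s ∩ (F y : Set ι) ∉ Z y}ᶜ ≤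
          Pr (E \ E₀) p {s | (t : Set ι) ∪ s ∈ A} := by
        apply (hPB ι (E \ E₀) p h0 h1).2.2.1
        intro s hs hsc
        have hsc' : ∃ y ∈ W, (s : Set ι) ∩ (F y : Set ι) ∈ Z y := by
          by_contra hcon
          push Not at hcon
          exact hsc hcon
        obtain ⟨y, hy, hyZ⟩ := hsc'
        refine ⟨y, hWY y hy, ?_, ?_⟩
        · have e : ((t : Set ι) ∪ (s : Set ι)) ∩ (E₀ : Set ι) = t := by
            ext x
            constructor
            · rintro ⟨h | h, h'⟩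
              · exact h
              · have h3 := hs (by exact_mod_cast h)
                rw [Finset.mem_sdiff] at h3
                exact absurd (by exact_mod_cast h') h3.2
            · intro h
              exact ⟨Or.inl h, by exact_mod_cast ht (by exact_mod_cast h)⟩
          rw [e]
          exact (Finset.mem_filter.1 hy).2
        · have e : ((t : Set ι) ∪ (s : Set ι)) ∩ (F y : Set ι) = (s : Set ι) ∩ (F y : Set ι) := by
            ext x
            constructor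
            · rintro ⟨h | h, h'⟩
              · exact absurd (by exact_mod_cast h')
                  (Finset.disjoint_left.1 (hd0 y (hWY y hy)) (ht (by exact_mod_cast h)))
              · exact ⟨h, h'⟩
            · rintro ⟨h, h'⟩
              exact ⟨Or.inr h, h'⟩
          rw [e]
          exact hyZ
      have c4 := poly z hz0 hz W.card
      have c5 : (W.card : ℝ) ≤ Y.card := by exact_mod_cast Finset.card_filter_le _ _
      have c6 : (0 : ℝ) ≤ W.card := Nat.cast_nonneg _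
      have c7 : 0 ≤ (W.card : ℝ) * ((Y.card : ℝ) - W.card) * z ^ 2 :=
        mul_nonneg (mul_nonneg c6 (by linarith)) (sq_nonneg z)
      have c8 : (0 : ℝ) ≤ (W.card : ℝ) * z ^ 2 := mul_nonneg c6 (sq_nonneg z)
      nlinarith
    have hw : ∀ t ∈ E₀.powerset, (0 : ℝ) ≤ p ^ t.card * (1 - p) ^ (E₀.card - t.card) := by
      intro t _
      have : 0 ≤ 1 - p := by linarith
      positivity
    have hsum : ∑ t ∈ E₀.powerset, p ^ t.card * (1 - p) ^ (E₀.card - t.card) *
        (((Y.filter (fun y => (t : Set ι) ∈ D y)).card : ℝ) * z * (1 - (Y.card : ℝ) * z / 2)) ≤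
        Pr E p A := by
      rw [hFa]
      exact Finset.sum_le_sum fun t ht => mul_le_mul_of_nonneg_left (hstep t ht) (hw t ht)
    have hcount : ∑ t ∈ E₀.powerset, p ^ t.card * (1 - p) ^ (E₀.card - t.card) *
        ((Y.filter (fun y => (t : Set ι) ∈ D y)).card : ℝ) = ∑ y ∈ Y, Pr E₀ p (D y) := by
      have e1 : ∀ t : Finset ι, ((Y.filter (fun y => (t : Set ι) ∈ D y)).card : ℝ) =
          ∑ y ∈ Y, if (t : Set ι) ∈ D y then (1 : ℝ) else 0 := by
        intro t
        rw [Finset.sum_boole]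
      have e2 : ∑ t ∈ E₀.powerset, p ^ t.card * (1 - p) ^ (E₀.card - t.card) *
          ((Y.filter (fun y => (t : Set ι) ∈ D y)).card : ℝ) =
          ∑ t ∈ E₀.powerset, ∑ y ∈ Y, p ^ t.card * (1 - p) ^ (E₀.card - t.card) *
            (if (t : Set ι) ∈ D y then (1 : ℝ) else 0) := by
        refine Finset.sum_congr rfl fun t _ => ?_
        rw [e1 t, Finset.mul_sum]
      rw [e2, Finset.sum_comm]
      refine Finset.sum_congr rfl fun y _ => ?_
      rw [(hPB ι E₀ p h0 h1).2.2.2.2 (D y)]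
      refine Finset.sum_congr rfl fun t _ => ?_
      ring
    have hbig : (Y.card : ℝ) * β ≤ ∑ y ∈ Y, Pr E₀ p (D y) := by
      rw [← nsmul_eq_mul]
      exact Finset.card_nsmul_le_sum Y _ β hD
    have hfac : ∑ t ∈ E₀.powerset, p ^ t.card * (1 - p) ^ (E₀.card - t.card) *
        (((Y.filter (fun y => (t : Set ι) ∈ D y)).card : ℝ) * z * (1 - (Y.card : ℝ) * z / 2)) =
        (∑ y ∈ Y, Pr E₀ p (D y)) * (z * (1 - (Y.card : ℝ) * z / 2)) := by
      rw [← hcount, Finset.sum_mul]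
      refine Finset.sum_congr rfl fun t _ => ?_
      ring
    rw [hfac] at hsum
    refine le_trans ?_ hsum
    have := mul_le_mul_of_nonneg_right hbig (mul_nonneg hz0 hpos)
    calc (Y.card : ℝ) * β * z * (1 - (Y.card : ℝ) * z / 2)
        = (Y.card : ℝ) * β * (z * (1 - (Y.card : ℝ) * z / 2)) := by ring
      _ ≤ _ := this
  · obtain ⟨y, hy⟩ := hYne
    have e1 : Pr E p {s | s ∩ (E₀ : Set ι) ∈ D y ∧ s ∩ (F y : Set ι) ∈ Z y} =
        Pr (E₀ ∪ F y) p {s | s ∩ (E₀ : Set ι) ∈ D y ∧ s ∩ (F y : Set ι) ∈ Z y} := by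
      apply hPL ι E (E₀ ∪ F y) p h0 h1 (Finset.union_subset hE₀ (hF y hy))
      intro s _
      have k1 : (s : Set ι) ∩ ((E₀ ∪ F y : Finset ι) : Set ι) ∩ (E₀ : Set ι) =
          (s : Set ι) ∩ (E₀ : Set ι) := by
        ext x
        simp only [Finset.coe_union, mem_inter_iff, mem_union, Finset.mem_coe]
        tauto
      have k2 : (s : Set ι) ∩ ((E₀ ∪ F y : Finset ι) : Set ι) ∩ (F y : Set ι) =
          (s : Set ι) ∩ (F y : Set ι) := by
        ext x
        simp only [Finset.coe_union, mem_inter_iff, mem_union, Finset.mem_coe]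
        tauto
      show _ ↔ ((s : Set ι) ∩ ((E₀ ∪ F y : Finset ι) : Set ι) ∩ (E₀ : Set ι) ∈ D y ∧
        (s : Set ι) ∩ ((E₀ ∪ F y : Finset ι) : Set ι) ∩ (F y : Set ι) ∈ Z y)
      rw [k1, k2]
      rfl
    have e2 := hPI ι E₀ (F y) p h0 h1 (hd0 y hy) (D y) (Z y)
    have e3 : Pr E p {s | s ∩ (E₀ : Set ι) ∈ D y ∧ s ∩ (F y : Set ι) ∈ Z y} ≤ Pr E p A := by
      apply (hPB ι E p h0 h1).2.2.1
      intro s _ hs
      exact ⟨y, hy, hs⟩
    calc β * z ≤ Pr E₀ p (D y) * Pr (F y) p (Z y) :=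
          mul_le_mul (hD y hy) (hZ y hy) hz0 (hβ.trans (hD y hy))
      _ = Pr E p {s | s ∩ (E₀ : Set ι) ∈ D y ∧ s ∩ (F y : Set ι) ∈ Z y} := by rw [e1, e2]
      _ ≤ Pr E p A := e3

end Pool.Agent.Work.MP_c58d8b_pr.PT
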