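import Pool.Agent.Work.MP_c58d8b_pr.PT.Stmts2

/-!
# MP_c58d8b_pr, block PT, item IH: counting in the tree
-/

set_option autoImplicit false

namespace Pool.Agent.Work.MP_c58d8b_pr.PT

open MeasureTheory ProbabilityTheory Set Filter Topology
open scoped ENNReal unitInterval Classical
open Pool.Agent.Work.MP_c58d8b_pr.SO

universe u

namespace IX_IH

variable {T : Type u}

/-- The good descendants of `o` in the `k`-th generation. -/
def GG (par : T → T) (g : T → Prop) (o : T) (m k : ℕ) : Set T :=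
  {t | par^[k * m] t = o ∧ ∀ l < k, g (par^[l * m] t)}

theorem iter_succ (par : T → T) (m k : ℕ) (t : T) :
    par^[(k + 1) * m] t = par^[k * m] (par^[m] t) := by
  rw [← Function.iterate_add_apply]
  congr 1
  rw [add_mul, one_mul]

theorem mem_succ {par : T → T} {g : T → Prop} {o : T} {m k : ℕ} {t t' : T}
    (ht : t ∈ GG par g o m k) (htt : par^[m] t' = t) (hg : g t') : t' ∈ GG par g o m (k + 1) := by
  refine ⟨?_, ?_⟩
  · rw [iter_succ, htt]; exact ht.1
  · intro l hl
    rcases Nat.eq_zero_or_pos l with rfl | hl0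
    · simpa using hg
    · obtain ⟨l', rfl⟩ : ∃ l', l = l' + 1 := ⟨l - 1, by omega⟩
      rw [iter_succ, htt]
      exact ht.2 l' (by omega)

theorem step {par : T → T} {a : ℕ} (hfin : ∀ n x, {y | par^[n] y = x}.Finite)
    (hcard : ∀ n x, {y | par^[n] y = x}.ncard = a ^ n) {g : T → Prop} {o : T} {m k : ℕ}
    (G G' E : Finset T) (hG : ∀ t ∈ G, t ∈ GG par g o m k)
    (hG' : ∀ t, t ∈ GG par g o m (k + 1) → t ∈ G')
    (hE : ∀ t ∈ G, t ∉ E → ∀ t', par^[m] t' = t → g t') :
    a ^ m * (G \ E).card ≤ G'.card := by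
  have hsub : ((G \ E).biUnion fun t => (hfin m t).toFinset) ⊆ G' := by
    intro t' ht'
    rw [Finset.mem_biUnion] at ht'
    obtain ⟨t, ht, htt⟩ := ht'
    rw [Finset.mem_sdiff] at ht
    rw [Set.Finite.mem_toFinset] at htt
    have htt' : par^[m] t' = t := htt
    exact hG' t' (mem_succ (hG t ht.1) htt' (hE t ht.1 ht.2 t' htt'))
  have hc : ((G \ E).biUnion fun t => (hfin m t).toFinset).card = a ^ m * (G \ E).card := by
    rw [Finset.card_biUnion]
    · have : ∀ t ∈ G \ E, (hfin m t).toFinset.card = a ^ m := by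
        intro t _
        rw [← Set.ncard_eq_toFinset_card _ (hfin m t)]
        exact hcard m t
      rw [Finset.sum_congr rfl this, Finset.sum_const, smul_eq_mul, mul_comm]
    · intro z _ w _ hzw
      rw [Function.onFun, Finset.disjoint_left]
      intro y hy hy'
      rw [Set.Finite.mem_toFinset] at hy hy'
      exact hzw (by rw [← (hy : par^[m] y = z), ← (hy' : par^[m] y = w)])
  rw [← hc]
  exact Finset.card_le_card hsub

theorem tele {ρ A : ℝ} (hρ : 0 ≤ ρ) (hA : 1 ≤ A * ρ) (G E : ℕ → ℝ) (hE : ∀ k, E k ≤ G k)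
    (hst : ∀ k, A * (G k - E k) ≤ G (k + 1)) (K : ℕ) :
    G 0 ≤ ρ ^ K * G K + ∑ k ∈ Finset.range K, ρ ^ k * E k := by
  induction K with
  | zero => simp
  | succ K ih =>
    rw [Finset.sum_range_succ]
    have h1 : ρ ^ K * (G K - E K) ≤ ρ ^ (K + 1) * G (K + 1) := by
      have hk : 0 ≤ ρ ^ K := pow_nonneg hρ K
      have h2 : ρ ^ (K + 1) * (A * (G K - E K)) ≤ ρ ^ (K + 1) * G (K + 1) :=
        mul_le_mul_of_nonneg_left (hst K) (pow_nonneg hρ _)
      have h3 : 0 ≤ ρ ^ K * (G K - E K) := mul_nonneg hk (sub_nonneg.2 (hE K))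
      calc ρ ^ K * (G K - E K) ≤ (A * ρ) * (ρ ^ K * (G K - E K)) := le_mul_of_one_le_left h3 hA
        _ = ρ ^ (K + 1) * (A * (G K - E K)) := by ring
        _ ≤ _ := h2
    nlinarith [h1, ih]

end IX_IH

theorem pt_IH (hRA : StRA.{u}) : StIH.{u} := by
  intro T par h a H m K ρ o g hm hρ hA hK
  obtain ⟨-, -, hR, -⟩ := hRA T par h a H
  have hfin : ∀ n x, {y | par^[n] y = x}.Finite := fun n x => (hR n x).1
  have hcard : ∀ n x, {y | par^[n] y = x}.ncard = a ^ n := fun n x => (hR n x).2
  have hGf : ∀ k, (IX_IH.GG par g o m k).Finite := fun k =>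
    (hfin (k * m) o).subset fun t ht => ht.1
  set G : ℕ → Finset T := fun k => (hGf k).toFinset with hGdef
  have memG : ∀ k t, t ∈ G k ↔ t ∈ IX_IH.GG par g o m k := fun k t => by
    rw [hGdef, Set.Finite.mem_toFinset]
  set E : ℕ → Finset T := fun k => (G k).filter fun t => ∃ t', par^[m] t' = t ∧ ¬ g t' with hEdef
  have memE : ∀ k t, t ∈ E k ↔ t ∈ G k ∧ ∃ t', par^[m] t' = t ∧ ¬ g t' := fun k t => by
    rw [hEdef, Finset.mem_filter]
  refine ⟨E, ?_, ?_⟩
  · intro k t ht
    rw [memE, memG] at ht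
    exact ⟨ht.1.1, ht.1.2, ht.2⟩
  · have hsub : ∀ k, E k ⊆ G k := fun k t ht => ((memE k t).1 ht).1
    have hst : ∀ k, (a : ℝ) ^ m * (((G k).card : ℝ) - ((E k).card : ℝ)) ≤ ((G (k + 1)).card : ℝ) := by
      intro k
      have h1 := IX_IH.step hfin hcard (g := g) (o := o) (m := m) (k := k) (G k) (G (k + 1)) (E k)
        (fun t ht => (memG k t).1 ht) (fun t ht => (memG (k + 1) t).2 ht) (by
          intro t ht hn t' htt
          by_contra hg
          exact hn ((memE k t).2 ⟨ht, t', htt, hg⟩))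
      have h2 : ((G k \ E k).card : ℝ) = ((G k).card : ℝ) - ((E k).card : ℝ) := by
        rw [Finset.card_sdiff_of_subset (hsub k), Nat.cast_sub (Finset.card_le_card (hsub k))]
      rw [← h2]
      exact_mod_cast h1
    have h0 : (G 0).card = 1 := by
      rw [Finset.card_eq_one]
      refine ⟨o, ?_⟩
      ext t
      rw [memG, Finset.mem_singleton]
      constructor
      · intro ht
        have := ht.1
        simpa using this
      · rintro rfl
        exact ⟨by simp, fun l hl => absurd hl (Nat.not_lt_zero l)⟩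
    have hKe : (G K).card = 0 := by
      rw [Finset.card_eq_zero, Finset.eq_empty_iff_forall_notMem]
      intro t ht
      rw [memG] at ht
      obtain ⟨l, hl, hn⟩ := hK t ht.1
      exact hn (ht.2 l hl)
    have := IX_IH.tele hρ hA (fun k => ((G k).card : ℝ)) (fun k => ((E k).card : ℝ))
      (fun k => by exact_mod_cast Finset.card_le_card (hsub k)) hst K
    simp only [h0, hKe] at this
    simpa using this

end Pool.Agent.Work.MP_c58d8b_pr.PT
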