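import Pool.Agent.Work.MP_c58d8b_pr.PT.Stmts

set_option autoImplicit false

namespace Pool.Agent.Work.MP_c58d8b_pr.PT

open MeasureTheory ProbabilityTheory Set Filter Topology
open scoped ENNReal unitInterval Classical
open Pool.Agent.Work.MP_c58d8b_pr.SO

universe u

namespace IX_QA

theorem mem_EI {V : Type u} {H : SimpleGraph V} {S : Finset V} {a b : V}
    (h : s(a, b) ∈ EI H S) : a ∈ S ∧ b ∈ S := by
  unfold EI at h
  rw [Finset.mem_image] at h
  obtain ⟨⟨c, d⟩, hq, he⟩ := h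
  rw [Finset.mem_filter, Finset.mem_product] at hq
  rcases Sym2.eq_iff.mp he with ⟨h1, h2⟩ | ⟨h1, h2⟩
  · exact ⟨h1 ▸ hq.1.1, h2 ▸ hq.1.2⟩
  · exact ⟨h2 ▸ hq.1.2, h1 ▸ hq.1.1⟩

theorem EI_mem {V : Type u} {H : SimpleGraph V} {S : Finset V} {a b : V}
    (ha : a ∈ S) (hb : b ∈ S) (hab : H.Adj a b) : s(a, b) ∈ EI H S := by
  unfold EI
  rw [Finset.mem_image]
  exact ⟨(a, b), by rw [Finset.mem_filter, Finset.mem_product]; exact ⟨⟨ha, hb⟩, hab⟩, rfl⟩

end IX_QA

theorem pt_QA (hPB : SO.StPB.{u}) (hPA : SO.StPA.{u}) (hCB : SO.StCB.{u}) (hFB : StFB.{u}) :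
    StQA.{u} := by
  intro V H p hp0 hp1
  have hinc : ∀ x y : V, Inc {s : Set (Sym2 V) | y ∈ Cluster s x} := by
    intro x y s t hst hs
    exact (hCB V s).2.2.2.1 t hst x hs
  have hsymm : ∀ (S : Finset V) (x y : V), tau H p S x y = tau H p S y x := by
    intro S x y
    unfold tau
    congr 1
    ext s
    exact ⟨fun h => (hCB V s).2.1 x y h, fun h => (hCB V s).2.1 y x h⟩
  have hiso : ∀ (S : Finset V) (x y : V), x ≠ y → x ∉ S → tau H p S x y = 0 := by
    intro S x y hxy hx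
    unfold tau Pr
    apply Finset.sum_eq_zero
    intro s hs
    exfalso
    rw [Finset.mem_filter, Finset.mem_powerset] at hs
    obtain ⟨hsE, hsy⟩ := hs
    have hsub : Cluster (s : Set (Sym2 V)) x ⊆ {x} := by
      refine (hCB V (s : Set (Sym2 V))).2.2.2.2.2 {x} x rfl ?_
      intro a ha b hb
      rw [Set.mem_singleton_iff] at ha
      subst ha
      exact absurd (IX_QA.mem_EI (hsE (by exact_mod_cast hb))).1 hx
    have := hsub hsy
    rw [Set.mem_singleton_iff] at this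
    exact hxy this.symm
  refine ⟨?_, ?_, hsymm, ?_, ?_, ?_⟩
  · intro S x y
    exact (hPB (Sym2 V) (EI H S) p hp0 hp1).2.1 _
  · intro S x
    unfold tau
    have : {s : Set (Sym2 V) | x ∈ Cluster s x} = Set.univ := by
      ext s
      exact ⟨fun _ => trivial, fun _ => (hCB V s).1 x⟩
    rw [this]
    exact (hPB (Sym2 V) (EI H S) p hp0 hp1).1
  · intro S x y z
    refine le_trans (hFB (Sym2 V) (EI H S) p hp0 hp1 _ _ (hinc x y) (hinc y z)) ?_
    refine (hPB (Sym2 V) (EI H S) p hp0 hp1).2.2.1 _ _ ?_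
    intro s _ hs
    exact (hCB V (s : Set (Sym2 V))).2.2.1 x y z hs.1 hs.2
  · intro S x y hxy hS
    rcases hS with hx | hy
    · exact hiso S x y hxy hx
    · rw [hsymm]
      exact hiso S y x (Ne.symm hxy) hy
  · intro S x y hx hy hxy
    have hE : ({s(x, y)} : Finset (Sym2 V)) ⊆ EI H S := by
      intro e he
      rw [Finset.mem_singleton] at he
      subst he
      exact IX_QA.EI_mem hx hy hxy
    have h1 := hPA (Sym2 V) (EI H S) {s(x, y)} p hp0 hp1 hE
    rw [Finset.card_singleton, pow_one] at h1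
    refine le_trans h1.symm.le ?_
    unfold tau
    refine (hPB (Sym2 V) (EI H S) p hp0 hp1).2.2.1 _ _ ?_
    intro s _ hs
    refine (hCB V (s : Set (Sym2 V))).2.2.2.2.1 x y ?_
    exact hs (by simp)

end Pool.Agent.Work.MP_c58d8b_pr.PT
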