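import Pool.Agent.Work.MP_c58d8b_pr.PT.Stmts

/-!
# MP_c58d8b_pr, block PT, item QB (helper42): monotonicity and continuity of `tau`
-/

set_option autoImplicit false

namespace Pool.Agent.Work.MP_c58d8b_pr.PT

open MeasureTheory ProbabilityTheory Set Filter Topology
open scoped ENNReal unitInterval Classical
open Pool.Agent.Work.MP_c58d8b_pr.SO

universe u

namespace IX_QB

theorem ei_mono {V : Type u} {H H' : SimpleGraph V} {S S' : Finset V} (hH : H ≤ H')
    (hS : S ⊆ S') : EI H S ⊆ EI H' S' := by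
  unfold EI
  refine Finset.image_subset_image ?_
  intro q hq
  rw [Finset.mem_filter, Finset.mem_product] at hq ⊢
  exact ⟨⟨hS hq.1.1, hS hq.1.2⟩, hH hq.2⟩

end IX_QB

/-- item QB -/
theorem pt_QB (hPB : SO.StPB.{u}) (hPL : SO.StPL.{u}) (hCB : SO.StCB.{u}) (hFC : StFC.{u}) :
    StQB.{u} := by
  intro V
  refine ⟨?_, ?_⟩
  · intro H H' S S' p q hH hS hp hpq hq x y
    have hE : EI H S ⊆ EI H' S' := IX_QB.ei_mono hH hS
    have hq0 : 0 ≤ q := hp.trans hpq
    have hinc : Inc {s : Set (Sym2 V) | y ∈ Cluster s x} := by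
      intro s t hst hs
      exact (hCB V s).2.2.2.1 t hst x hs
    have h1 : Pr (EI H S) p {s | y ∈ Cluster s x} ≤ Pr (EI H S) q {s | y ∈ Cluster s x} :=
      (hFC (Sym2 V) (EI H S) _).2 hinc p q hp hpq hq
    have h2 : Pr (EI H S) q {s | y ∈ Cluster s x} ≤
        Pr (EI H S) q {s | y ∈ Cluster (s ∩ (EI H S : Set (Sym2 V))) x} := by
      refine (hPB (Sym2 V) (EI H S) q hq0 hq).2.2.1 _ _ fun s hs hy => ?_
      have h3 : (s : Set (Sym2 V)) ∩ (EI H S : Set (Sym2 V)) = (s : Set (Sym2 V)) :=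
        Set.inter_eq_left.mpr (Finset.coe_subset.mpr hs)
      show y ∈ Cluster ((s : Set (Sym2 V)) ∩ (EI H S : Set (Sym2 V))) x
      rw [h3]
      exact hy
    have h4 : Pr (EI H' S') q {s | y ∈ Cluster (s ∩ (EI H S : Set (Sym2 V))) x} =
        Pr (EI H S) q {s | y ∈ Cluster (s ∩ (EI H S : Set (Sym2 V))) x} := by
      refine hPL (Sym2 V) (EI H' S') (EI H S) q hq0 hq hE _ fun s _ => ?_
      show y ∈ Cluster ((s : Set (Sym2 V)) ∩ (EI H S : Set (Sym2 V))) x ↔
        y ∈ Cluster ((s : Set (Sym2 V)) ∩ (EI H S : Set (Sym2 V)) ∩ (EI H S : Set (Sym2 V))) x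
      rw [Set.inter_assoc, Set.inter_self]
    have h5 : Pr (EI H' S') q {s | y ∈ Cluster (s ∩ (EI H S : Set (Sym2 V))) x} ≤
        Pr (EI H' S') q {s | y ∈ Cluster s x} := by
      refine (hPB (Sym2 V) (EI H' S') q hq0 hq).2.2.1 _ _ fun s _ hy => ?_
      exact (hCB V _).2.2.2.1 (s : Set (Sym2 V)) Set.inter_subset_left x hy
    show Pr (EI H S) p {s | y ∈ Cluster s x} ≤ Pr (EI H' S') q {s | y ∈ Cluster s x}
    exact h1.trans (h2.trans (h4.symm.le.trans h5))
  · intro H S x y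
    exact (hFC (Sym2 V) (EI H S) {s | y ∈ Cluster s x}).1

end Pool.Agent.Work.MP_c58d8b_pr.PT
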