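import Pool.Agent.Work.MP_c58d8b_pr.PT.Stmts

set_option autoImplicit false

namespace Pool.Agent.Work.MP_c58d8b_pr.PT

open MeasureTheory ProbabilityTheory Set Filter Topology
open scoped ENNReal unitInterval Classical
open Pool.Agent.Work.MP_c58d8b_pr.SO

universe u

namespace IX_QD

theorem supp {V : Type u} (H : SimpleGraph V) (S : Finset V) {x y : V}
    (w : (within H (S : Set V)).Walk x y) : x ∈ S → ∀ a ∈ w.support, a ∈ S := by
  induction w with
  | nil =>
    intro hx a ha
    rw [SimpleGraph.Walk.support_nil, List.mem_singleton] at ha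
    rw [ha]; exact hx
  | cons h p ih =>
    intro hx a ha
    rw [SimpleGraph.Walk.support_cons, List.mem_cons] at ha
    rcases ha with ha | ha
    · rw [ha]; exact hx
    · exact ih (Finset.mem_coe.1 h.2.2) a ha

theorem len {V : Type u} (H : SimpleGraph V) (S : Finset V) {x y : V}
    (w : (within H (S : Set V)).Walk x y) (hw : w.IsPath) : w.length ≤ S.card := by
  cases w with
  | nil => simp
  | cons h p =>
    have hx : x ∈ S := Finset.mem_coe.1 h.2.1
    have h1 := supp H S (SimpleGraph.Walk.cons h p) hx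
    have h2 : (SimpleGraph.Walk.cons h p).support.toFinset ⊆ S := by
      intro a ha
      exact h1 a (List.mem_toFinset.1 ha)
    have h3 := Finset.card_le_card h2
    rw [List.toFinset_card_of_nodup hw.support_nodup, SimpleGraph.Walk.length_support] at h3
    omega

theorem edg {V : Type u} (H : SimpleGraph V) (S : Finset V) (e : Sym2 V)
    (he : e ∈ (within H (S : Set V)).edgeSet) : e ∈ EI H S := by
  induction e using Sym2.ind with
  | _ a b =>
    rw [SimpleGraph.mem_edgeSet] at he
    unfold EI
    rw [Finset.mem_image]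
    exact ⟨(a, b), Finset.mem_filter.2 ⟨Finset.mem_product.2 ⟨Finset.mem_coe.1 he.2.1,
      Finset.mem_coe.1 he.2.2⟩, he.1⟩, rfl⟩

theorem part2 {V : Type u} (H : SimpleGraph V) (x y : V) (h : H.Reachable x y) :
    ∃ S : Finset V, x ∈ S ∧ y ∈ S ∧ ∀ v ∈ S, (within H (S : Set V)).Reachable x v := by
  rw [SimpleGraph.reachable_iff_reflTransGen] at h
  induction h with
  | refl =>
    refine ⟨{x}, Finset.mem_singleton_self x, Finset.mem_singleton_self x, ?_⟩
    intro v hv
    rw [Finset.mem_singleton.1 hv]
  | tail _ hbc ih =>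
    rename_i b c _
    obtain ⟨S, hx, hb, hS⟩ := ih
    refine ⟨insert c S, Finset.mem_insert_of_mem hx, Finset.mem_insert_self c S, ?_⟩
    have hmono : within H (S : Set V) ≤ within H ((insert c S : Finset V) : Set V) := by
      intro a a' haa
      exact ⟨haa.1, Finset.mem_coe.2 (Finset.mem_insert_of_mem (Finset.mem_coe.1 haa.2.1)),
        Finset.mem_coe.2 (Finset.mem_insert_of_mem (Finset.mem_coe.1 haa.2.2))⟩
    have hb' : (within H ((insert c S : Finset V) : Set V)).Reachable x b := (hS b hb).mono hmono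
    intro v hv
    rcases Finset.mem_insert.1 hv with hv | hv
    · rw [hv]
      refine hb'.trans (SimpleGraph.Adj.reachable ?_)
      exact ⟨hbc, Finset.mem_coe.2 (Finset.mem_insert_of_mem hb),
        Finset.mem_coe.2 (Finset.mem_insert_self c S)⟩
    · exact (hS v hv).mono hmono

end IX_QD

open IX_QD

theorem pt_QD (hPB : SO.StPB.{u}) (hPA : SO.StPA.{u}) : StQD.{u} := by
  intro V H
  refine ⟨?_, fun x y h => part2 H x y h⟩
  intro p S x y hp hp1 hr
  obtain ⟨w, hw⟩ := hr.exists_isPath
  have hT : w.edges.toFinset ⊆ EI H S := by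
    intro e he
    exact edg H S e (w.edges_subset_edgeSet (List.mem_toFinset.1 he))
  have h1 := hPA (Sym2 V) (EI H S) w.edges.toFinset p hp hp1 hT
  have h2 : w.edges.toFinset.card ≤ S.card := by
    refine (List.toFinset_card_le _).trans ?_
    rw [SimpleGraph.Walk.length_edges]
    exact len H S w hw
  have h3 : p ^ S.card ≤ p ^ w.edges.toFinset.card := pow_le_pow_of_le_one hp hp1 h2
  refine h3.trans ?_
  rw [← h1]
  unfold tau
  refine (hPB (Sym2 V) (EI H S) p hp hp1).2.2.1 _ _ ?_
  intro s hs hTs
  show (SimpleGraph.fromEdgeSet (s : Set (Sym2 V))).Reachable x y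
  refine ⟨w.transfer _ ?_⟩
  intro e he
  rw [SimpleGraph.edgeSet_fromEdgeSet]
  refine ⟨hTs (Finset.mem_coe.2 (List.mem_toFinset.2 he)), ?_⟩
  exact (within H (S : Set V)).not_isDiag_of_mem_edgeSet (w.edges_subset_edgeSet he)

end Pool.Agent.Work.MP_c58d8b_pr.PT
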