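import Pool.Agent.Work.MP_c58d8b_pr.PT.Stmts

/-!
# MP_c58d8b_pr, block PT, item QE: rules for `Ach`
-/

set_option autoImplicit false

namespace Pool.Agent.Work.MP_c58d8b_pr.PT

open MeasureTheory ProbabilityTheory Set Filter Topology
open scoped ENNReal unitInterval Classical
open Pool.Agent.Work.MP_c58d8b_pr.SO

universe u

namespace IX_QE

theorem within_mono {V : Type u} (G : SimpleGraph V) {W W' : Set V} (h : W ⊆ W') :
    within G W ≤ within G W' := fun _ _ hxy => ⟨hxy.1, h hxy.2.1, h hxy.2.2⟩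

end IX_QE

theorem pt_QE (hQA : StQA.{u}) (hQB : StQB.{u}) (hQC : StQC.{u}) (hQD : StQD.{u}) : StQE.{u} := by
  intro V G p hp0 hp1
  refine ⟨?_, ?_, ?_, ?_, ?_, ?_, ?_, ?_⟩
  · rintro W W' u v c hW ⟨S, hS⟩
    exact ⟨S, hS.trans ((hQB V).1 _ _ S S p p (IX_QE.within_mono G hW) (Finset.Subset.refl S) hp0
      le_rfl hp1 u v)⟩
  · rintro W u v c c' hc ⟨S, hS⟩
    exact ⟨S, hc.trans hS⟩
  · rintro W u v w c c' hc hc' ⟨S, hS⟩ ⟨S', hS'⟩
    obtain ⟨h1, -, -, h4, -, -⟩ := hQA V (within G W) p hp0 hp1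
    have hm := (hQB V).1 (within G W) (within G W)
    have h5 := hS.trans (hm S (S ∪ S') p p le_rfl Finset.subset_union_left hp0 le_rfl hp1 u v)
    have h6 := hS'.trans (hm S' (S ∪ S') p p le_rfl Finset.subset_union_right hp0 le_rfl hp1 v w)
    exact ⟨S ∪ S', (mul_le_mul h5 h6 hc' (h1 _ _ _).1).trans (h4 (S ∪ S') u v w)⟩
  · rintro W u v c ⟨S, hS⟩
    obtain ⟨h1, -, h3, -, -, -⟩ := hQA V (within G W) p hp0 hp1
    exact ⟨⟨S, by rw [h3 S v u]; exact hS⟩, hS.trans (h1 S u v).2⟩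
  · rintro φ hφ W u v c ⟨S, hS⟩
    refine ⟨S.image φ, ?_⟩
    rw [(hQC V).1 (within G W) (within G (φ '' W)) φ (fun x y => ?_) p S u v]
    · exact hS
    · show (G.Adj (φ x) (φ y) ∧ φ x ∈ φ '' W ∧ φ y ∈ φ '' W) ↔ (G.Adj x y ∧ x ∈ W ∧ y ∈ W)
      rw [φ.injective.mem_set_image, φ.injective.mem_set_image, hφ x y]
  · rintro hp W u v huv
    obtain ⟨S, hu, hv, hS⟩ := (hQD V (within G W)).2 u v huv
    have h := (hQD V (within G W)).1 p S u v hp0 hp1 (hS v hv)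
    exact ⟨p ^ S.card, pow_pos hp _, pow_le_one₀ hp0 hp1, S, h⟩
  · rintro W u v c ⟨S, hS⟩
    exact (ENNReal.ofReal_le_ofReal hS).trans
      (le_iSup (fun S : Finset V => ENNReal.ofReal (tau (within G W) p S u v)) S)
  · intro W u v c hc
    obtain ⟨S, hS⟩ := lt_iSup_iff.1 hc
    exact ⟨S, ((ENNReal.ofReal_lt_ofReal_iff'.1 hS).1).le⟩

end Pool.Agent.Work.MP_c58d8b_pr.PT
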