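import Pool.Agent.Work.MP_c58d8b_pr.PT.Stmts

/-!
# MP_c58d8b_pr, block PT, item QF: rules for the connection probability in infinite volume
-/

set_option autoImplicit false

namespace Pool.Agent.Work.MP_c58d8b_pr.PT

open MeasureTheory ProbabilityTheory Set Filter Topology
open scoped ENNReal unitInterval Classical
open Pool.Agent.Work.MP_c58d8b_pr.SO

universe u

theorem pt_QF (hQA : StQA.{u}) (hQB : StQB.{u}) (hQC : StQC.{u}) : StQF.{u} := by
  intro V H p hp0 hp1
  obtain ⟨h1, h2, h3, h4, _, h6⟩ := hQA V H p hp0 hp1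
  obtain ⟨hmono, _⟩ := hQB V
  obtain ⟨himg, _, _⟩ := hQC V
  have hle : ∀ S x y, ENNReal.ofReal (tau H p S x y) ≤ tt H p x y := fun S x y =>
    le_iSup (fun S : Finset V => ENNReal.ofReal (tau H p S x y)) S
  refine ⟨fun x y => ?_, fun x => ?_, fun x y => ?_, fun x y z => ?_, fun x y hxy => ?_, hle,
    fun H' q hH hpq hq1 x y => ?_, fun H' φ hφ x y => ?_⟩
  · refine iSup_le fun S => ?_
    rw [ENNReal.ofReal_le_one]
    exact (h1 S x y).2
  · refine le_antisymm (iSup_le fun S => ?_) ?_
    · rw [ENNReal.ofReal_le_one]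
      exact (h1 S x x).2
    · have := hle ∅ x x
      rw [h2, ENNReal.ofReal_one] at this
      exact this
  · show (⨆ S : Finset V, ENNReal.ofReal (tau H p S x y)) =
      ⨆ S : Finset V, ENNReal.ofReal (tau H p S y x)
    refine iSup_congr fun S => ?_
    rw [h3]
  · show (⨆ S : Finset V, ENNReal.ofReal (tau H p S x y)) *
      (⨆ S : Finset V, ENNReal.ofReal (tau H p S y z)) ≤ tt H p x z
    rw [ENNReal.iSup_mul]
    refine iSup_le fun S => ?_
    rw [ENNReal.mul_iSup]
    refine iSup_le fun S' => ?_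
    rw [← ENNReal.ofReal_mul (h1 S x y).1]
    refine le_trans (ENNReal.ofReal_le_ofReal ?_) (hle (S ∪ S') x z)
    refine le_trans ?_ (h4 (S ∪ S') x y z)
    exact mul_le_mul
      (hmono H H S (S ∪ S') p p le_rfl Finset.subset_union_left hp0 le_rfl hp1 x y)
      (hmono H H S' (S ∪ S') p p le_rfl Finset.subset_union_right hp0 le_rfl hp1 y z)
      (h1 S' y z).1 (h1 (S ∪ S') x y).1
  · refine le_trans (ENNReal.ofReal_le_ofReal ?_) (hle {x, y} x y)
    exact h6 {x, y} x y (by simp) (by simp) hxy
  · refine iSup_le fun S => ?_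
    refine le_trans (ENNReal.ofReal_le_ofReal
      (hmono H H' S S p q hH (Finset.Subset.refl S) hp0 hpq hq1 x y)) ?_
    exact le_iSup (fun S : Finset V => ENNReal.ofReal (tau H' q S x y)) S
  · refine le_antisymm (iSup_le fun S => ?_) (iSup_le fun S => ?_)
    · have hS : S = (S.image φ.symm).image φ := by
        ext v
        simp only [Finset.mem_image]
        constructor
        · intro hv
          exact ⟨φ.symm v, ⟨v, hv, rfl⟩, φ.apply_symm_apply v⟩
        · rintro ⟨w, ⟨v', hv', rfl⟩, rfl⟩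
          rw [φ.apply_symm_apply]
          exact hv'
      rw [hS, himg H H' φ hφ]
      exact hle _ x y
    · rw [← himg H H' φ hφ]
      exact le_iSup (fun S : Finset V => ENNReal.ofReal (tau H' p S (φ x) (φ y))) (S.image φ)

end Pool.Agent.Work.MP_c58d8b_pr.PT
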