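import Pool.Agent.Work.MP_c58d8b_pr.PT.Stmts

/-!
# MP_c58d8b_pr, block PT, item QP: `tt` is the connection probability
-/

set_option autoImplicit false

namespace Pool.Agent.Work.MP_c58d8b_pr.PT

open MeasureTheory ProbabilityTheory Set Filter Topology
open scoped ENNReal unitInterval Classical
open Pool.Agent.Work.MP_c58d8b_pr.SO

universe u

namespace IX_QP

theorem mem_EI {V : Type u} (H : SimpleGraph V) (S : Finset V) (a b : V) (ha : a ∈ S) (hb : b ∈ S)
    (h : H.Adj a b) : s(a, b) ∈ EI H S := by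
  unfold EI
  rw [Finset.mem_image]
  refine ⟨(a, b), ?_, rfl⟩
  rw [Finset.mem_filter, Finset.mem_product]
  exact ⟨⟨ha, hb⟩, h⟩

theorem EI_sub {V : Type u} (H : SimpleGraph V) (S : Finset V) :
    ((EI H S : Finset (Sym2 V)) : Set (Sym2 V)) ⊆ H.edgeSet := by
  intro e he
  rw [Finset.mem_coe] at he
  unfold EI at he
  rw [Finset.mem_image] at he
  obtain ⟨q, hq, rfl⟩ := he
  rw [Finset.mem_filter] at hq
  exact hq.2

theorem exists_S {V : Type u} (H : SimpleGraph V) (s : Set (Sym2 V)) (hs : s ⊆ H.edgeSet) (x y : V)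
    (h : y ∈ Cluster s x) :
    ∃ S : Finset V, y ∈ Cluster (s ∩ ((EI H S : Finset (Sym2 V)) : Set (Sym2 V))) x := by
  obtain ⟨w⟩ := (h : (SimpleGraph.fromEdgeSet s).Reachable x y)
  refine ⟨w.support.toFinset, ?_⟩
  have key : ∀ e ∈ w.edges, e ∈ (SimpleGraph.fromEdgeSet
      (s ∩ ((EI H w.support.toFinset : Finset (Sym2 V)) : Set (Sym2 V)))).edgeSet := by
    intro e he
    have h1 : e ∈ (SimpleGraph.fromEdgeSet s).edgeSet := w.edges_subset_edgeSet he
    induction e using Sym2.ind with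
    | _ a b =>
      have h2 : (SimpleGraph.fromEdgeSet s).Adj a b := h1
      rw [SimpleGraph.fromEdgeSet_adj] at h2
      have ha : a ∈ w.support := w.fst_mem_support_of_mem_edges he
      have hb : b ∈ w.support := w.snd_mem_support_of_mem_edges he
      show (SimpleGraph.fromEdgeSet
        (s ∩ ((EI H w.support.toFinset : Finset (Sym2 V)) : Set (Sym2 V)))).Adj a b
      rw [SimpleGraph.fromEdgeSet_adj]
      refine ⟨⟨h2.1, ?_⟩, h2.2⟩
      rw [Finset.mem_coe]
      exact mem_EI H _ a b (List.mem_toFinset.2 ha) (List.mem_toFinset.2 hb) (hs h2.1)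
  exact ⟨w.transfer _ key⟩

theorem EI_mono {V : Type u} (H : SimpleGraph V) {S S' : Finset V} (h : S ⊆ S') :
    EI H S ⊆ EI H S' := by
  unfold EI
  exact Finset.image_subset_image (Finset.filter_subset_filter _ (Finset.product_subset_product h h))

end IX_QP

theorem pt_QP (hPM : SO.StPM.{u}) (hCB : SO.StCB.{u}) : StQP.{u} := by
  intro V _ H p x y
  let A : Finset V → Set (Set (Sym2 V)) := fun S =>
    {s | s ∩ ((EI H S : Finset (Sym2 V)) : Set (Sym2 V)) ∈ {s : Set (Sym2 V) | y ∈ Cluster s x}}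
  have hA : ∀ S, perc H p (A S) = ENNReal.ofReal (tau H (p : ℝ) S x y) := fun S =>
    hPM (Sym2 V) H.edgeSet p (EI H S) (IX_QP.EI_sub H S) _
  have hmono : ∀ S S' : Finset V, S ⊆ S' → A S ⊆ A S' := by
    intro S S' hSS s hs
    have h4 := (hCB V (s ∩ ((EI H S : Finset (Sym2 V)) : Set (Sym2 V)))).2.2.2.1
      (s ∩ ((EI H S' : Finset (Sym2 V)) : Set (Sym2 V)))
      (Set.inter_subset_inter_right s (Finset.coe_subset.2 (IX_QP.EI_mono H hSS))) x
    exact h4 hs
  have hdir : Directed (· ⊆ ·) A := fun S S' =>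
    ⟨S ∪ S', hmono _ _ Finset.subset_union_left, hmono _ _ Finset.subset_union_right⟩
  have hae : ({s : Set (Sym2 V) | y ∈ Cluster s x} : Set (Set (Sym2 V))) =ᵐ[perc H p]
      (⋃ S, A S : Set (Set (Sym2 V))) := by
    unfold perc
    filter_upwards [setBernoulli_ae_subset] with s hs
    apply propext
    constructor
    · intro h
      obtain ⟨S, hS⟩ := IX_QP.exists_S H s hs x y h
      exact Set.mem_iUnion.2 ⟨S, hS⟩
    · intro h
      obtain ⟨S, hS⟩ := Set.mem_iUnion.1 h
      exact (hCB V (s ∩ ((EI H S : Finset (Sym2 V)) : Set (Sym2 V)))).2.2.2.1 s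
        Set.inter_subset_left x hS
  rw [measure_congr hae, hdir.measure_iUnion]
  unfold tt
  exact iSup_congr hA

end Pool.Agent.Work.MP_c58d8b_pr.PT
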