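import Pool.Agent.Work.MP_c58d8b_pr.PT.Stmts

/-!
# MP_c58d8b_pr, block PT, item QS: the edge at which an open path leaves `A`
-/

set_option autoImplicit false

namespace Pool.Agent.Work.MP_c58d8b_pr.PT

open MeasureTheory ProbabilityTheory Set Filter Topology
open scoped ENNReal unitInterval Classical
open Pool.Agent.Work.MP_c58d8b_pr.SO

universe u

namespace IX_QS

theorem mem_EI {V : Type u} (H : SimpleGraph V) (S : Finset V) (z w : V) :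
    s(z, w) ∈ EI H S ↔ z ∈ S ∧ w ∈ S ∧ H.Adj z w := by
  unfold EI
  rw [Finset.mem_image]
  constructor
  · rintro ⟨q, hq, he⟩
    rw [Finset.mem_filter, Finset.mem_product] at hq
    rcases Sym2.eq_iff.mp he with ⟨h1, h2⟩ | ⟨h1, h2⟩
    · rw [← h1, ← h2]
      exact ⟨hq.1.1, hq.1.2, hq.2⟩
    · rw [← h1, ← h2]
      exact ⟨hq.1.2, hq.1.1, hq.2.symm⟩
  · rintro ⟨hz, hw, hzw⟩
    exact ⟨(z, w), Finset.mem_filter.mpr ⟨Finset.mem_product.mpr ⟨hz, hw⟩, hzw⟩, rfl⟩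

end IX_QS

/-- item QS -/
theorem pt_QS (hCB : StCB.{u}) : StQS.{u} := by
  intro V H S A u v s hs hu hv hvs
  obtain ⟨C, hC⟩ : ∃ C, C = Cluster (s ∩ (EI H (S.filter (· ∈ A)) : Set (Sym2 V))) u := ⟨_, rfl⟩
  rw [← hC]
  obtain ⟨s', hs'⟩ : ∃ s', s' = s \ {e | ∃ y ∈ C, y ∈ e} := ⟨_, rfl⟩
  rw [← hs']
  obtain ⟨-, -, hAt, -, hAe, hAc⟩ := hCB V (s ∩ (EI H (S.filter (· ∈ A)) : Set (Sym2 V)))
  obtain ⟨hB1, hB2, hB3, -, hB5, hB6⟩ := hCB V s'
  obtain ⟨-, -, -, -, -, hD6⟩ := hCB V s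
  -- `C ⊆ A`
  have hCA : C ⊆ A := by
    rw [hC]
    refine hAc A u hu ?_
    intro a ha b hab
    have h1 := (IX_QS.mem_EI H (S.filter (· ∈ A)) a b).mp (Finset.mem_coe.mp hab.2)
    exact (Finset.mem_filter.mp h1.2.1).2
  have huC : u ∈ C := by
    rw [hC]
    exact (hCB V _).1 u
  have hvC : v ∉ C := fun h => hv (hCA h)
  -- the cluster of `v` without the edges at `C` is disjoint from `C`
  have hC' : ∀ y ∈ Cluster s' v, y ∉ C := by
    have h1 : Cluster s' v ⊆ Cᶜ := by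
      refine hB6 Cᶜ v hvC ?_
      intro a _ b hab hb
      rw [hs'] at hab
      exact hab.2 ⟨b, hb, Sym2.mem_mk_right a b⟩
    exact fun y hy => h1 hy
  have hex : ∃ z, z ∉ Cluster s' v ∧ ∃ w ∈ Cluster s' v, s(z, w) ∈ s := by
    by_contra hno
    push Not at hno
    have h1 : Cluster s u ⊆ (Cluster s' v)ᶜ := by
      refine hD6 _ u (fun h => hC' u h huC) ?_
      intro a ha b hab hb
      exact hno a ha b hb hab
    exact h1 hvs (hB1 v)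
  obtain ⟨z, hz, w, hw, hzw⟩ := hex
  have hwC := hC' w hw
  have hzC : z ∈ C := by
    by_contra hzC
    apply hz
    refine hB3 v w z hw (hB5 w z ?_)
    rw [hs', Sym2.eq_swap]
    refine ⟨hzw, ?_⟩
    rintro ⟨y, hy, hye⟩
    rcases Sym2.mem_iff.mp hye with h | h
    · exact hzC (h ▸ hy)
    · exact hwC (h ▸ hy)
  obtain ⟨hzS, hwS, hadj⟩ := (IX_QS.mem_EI H S z w).mp (Finset.mem_coe.mp (hs hzw))
  refine ⟨z, hzS, w, hwS, hCA hzC, ?_, hadj, hzw, hzC, hB2 v w hw⟩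
  intro hwA
  apply hwC
  rw [hC] at hzC ⊢
  refine hAt u z w hzC (hAe z w ⟨hzw, ?_⟩)
  rw [Finset.mem_coe, IX_QS.mem_EI]
  refine ⟨Finset.mem_filter.mpr ⟨hzS, hCA ?_⟩, Finset.mem_filter.mpr ⟨hwS, hwA⟩, hadj⟩
  rw [hC]
  exact hzC

end Pool.Agent.Work.MP_c58d8b_pr.PT
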