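import Pool.Agent.Work.MP_c58d8b_pr.PT.Stmts

/-!
# MP_c58d8b_pr, block PT, item QT: Simon-Lieb inequality in finite volume
-/

set_option autoImplicit false

namespace Pool.Agent.Work.MP_c58d8b_pr.PT

open MeasureTheory ProbabilityTheory Set Filter Topology
open scoped ENNReal unitInterval Classical
open Pool.Agent.Work.MP_c58d8b_pr.SO

universe u

namespace IX_QT

theorem wnn {ι : Type u} {E : Finset ι} {p : ℝ} (h0 : 0 ≤ p) (h1 : p ≤ 1) (s : Finset ι) :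
    0 ≤ p ^ s.card * (1 - p) ^ (E.card - s.card) :=
  mul_nonneg (pow_nonneg h0 _) (pow_nonneg (by linarith) _)

theorem ub {ι : Type u} (hPB : StPB.{u}) {κ : Type u} (E : Finset ι) (p : ℝ) (h0 : 0 ≤ p)
    (h1 : p ≤ 1) (A : Set (Set ι)) (K : Finset κ) (B : κ → Set (Set ι))
    (h : ∀ s : Finset ι, s ⊆ E → (s : Set ι) ∈ A → ∃ i ∈ K, (s : Set ι) ∈ B i) :
    Pr E p A ≤ ∑ i ∈ K, Pr E p (B i) := by
  obtain ⟨_, _, _, _, hw⟩ := hPB ι E p h0 h1
  rw [hw A, Finset.sum_congr rfl (fun i _ => hw (B i)), Finset.sum_comm]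
  refine Finset.sum_le_sum fun s hs => ?_
  rw [Finset.mem_powerset] at hs
  have hnn : ∀ i ∈ K, 0 ≤ (if (s : Set ι) ∈ B i then (1 : ℝ) else 0) *
      (p ^ s.card * (1 - p) ^ (E.card - s.card)) := by
    intro i _
    refine mul_nonneg ?_ (wnn h0 h1 s)
    split_ifs <;> norm_num
  by_cases hA : (s : Set ι) ∈ A
  · obtain ⟨i, hi, hB⟩ := h s hs hA
    refine le_trans (le_of_eq ?_) (Finset.single_le_sum hnn hi)
    rw [if_pos hA, if_pos hB]
  · rw [if_neg hA, zero_mul]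
    exact Finset.sum_nonneg hnn

theorem dj {ι : Type u} (hPB : StPB.{u}) {κ : Type u} (E : Finset ι) (p : ℝ) (h0 : 0 ≤ p)
    (h1 : p ≤ 1) (A : Set (Set ι)) (K : Finset κ) (B : κ → Set (Set ι))
    (h : ∀ i ∈ K, ∀ s : Finset ι, s ⊆ E → (s : Set ι) ∈ B i → (s : Set ι) ∈ A)
    (hd : ∀ i ∈ K, ∀ j ∈ K, ∀ s : Finset ι, (s : Set ι) ∈ B i → (s : Set ι) ∈ B j → i = j) :
    ∑ i ∈ K, Pr E p (B i) ≤ Pr E p A := by
  obtain ⟨_, _, _, _, hw⟩ := hPB ι E p h0 h1
  rw [hw A, Finset.sum_congr rfl (fun i _ => hw (B i)), Finset.sum_comm]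
  refine Finset.sum_le_sum fun s hs => ?_
  rw [Finset.mem_powerset] at hs
  by_cases hB : ∃ i ∈ K, (s : Set ι) ∈ B i
  · obtain ⟨i, hi, hBi⟩ := hB
    rw [Finset.sum_eq_single i, if_pos hBi, if_pos (h i hi s hs hBi)]
    · intro j hj hji
      rw [if_neg, zero_mul]
      intro hBj
      exact hji (hd j hj i hi s hBj hBi)
    · intro hi'
      exact absurd hi hi'
  · have h0' : ∑ i ∈ K, (if (s : Set ι) ∈ B i then (1 : ℝ) else 0) *
        (p ^ s.card * (1 - p) ^ (E.card - s.card)) = 0 := by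
      refine Finset.sum_eq_zero fun i hi => ?_
      rw [if_neg, zero_mul]
      intro hBi
      exact hB ⟨i, hi, hBi⟩
    rw [h0']
    refine mul_nonneg ?_ (wnn h0 h1 s)
    split_ifs <;> norm_num

theorem ind3 {ι : Type u} (hPI : StPI.{u}) (hPL : StPL.{u}) (E F1 F2 F3 : Finset ι) (p : ℝ)
    (h0 : 0 ≤ p) (h1 : p ≤ 1) (hF1 : F1 ⊆ E) (hF2 : F2 ⊆ E) (hF3 : F3 ⊆ E)
    (d12 : Disjoint F1 F2) (d13 : Disjoint F1 F3) (d23 : Disjoint F2 F3)
    (A1 A2 A3 : Set (Set ι)) :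
    Pr E p {s | s ∩ (F1 : Set ι) ∈ A1 ∧ s ∩ (F2 : Set ι) ∈ A2 ∧ s ∩ (F3 : Set ι) ∈ A3} =
      Pr F1 p A1 * (Pr F2 p A2 * Pr F3 p A3) := by
  have c2 : ∀ s : Set ι, s ∩ ((F2 ∪ F3 : Finset ι) : Set ι) ∩ (F2 : Set ι) = s ∩ (F2 : Set ι) := by
    intro s
    ext x
    simp only [Finset.coe_union, mem_inter_iff, mem_union, Finset.mem_coe]
    tauto
  have c3 : ∀ s : Set ι, s ∩ ((F2 ∪ F3 : Finset ι) : Set ι) ∩ (F3 : Set ι) = s ∩ (F3 : Set ι) := by
    intro s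
    ext x
    simp only [Finset.coe_union, mem_inter_iff, mem_union, Finset.mem_coe]
    tauto
  have g1 : ∀ s : Set ι, s ∩ ((F1 ∪ (F2 ∪ F3) : Finset ι) : Set ι) ∩ (F1 : Set ι) =
      s ∩ (F1 : Set ι) := by
    intro s
    ext x
    simp only [Finset.coe_union, mem_inter_iff, mem_union, Finset.mem_coe]
    tauto
  have g2 : ∀ s : Set ι, s ∩ ((F1 ∪ (F2 ∪ F3) : Finset ι) : Set ι) ∩ (F2 : Set ι) =
      s ∩ (F2 : Set ι) := by
    intro s
    ext x
    simp only [Finset.coe_union, mem_inter_iff, mem_union, Finset.mem_coe]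
    tauto
  have g3 : ∀ s : Set ι, s ∩ ((F1 ∪ (F2 ∪ F3) : Finset ι) : Set ι) ∩ (F3 : Set ι) =
      s ∩ (F3 : Set ι) := by
    intro s
    ext x
    simp only [Finset.coe_union, mem_inter_iff, mem_union, Finset.mem_coe]
    tauto
  have e1 := hPL ι E (F1 ∪ (F2 ∪ F3)) p h0 h1
    (Finset.union_subset hF1 (Finset.union_subset hF2 hF3))
    {s | s ∩ (F1 : Set ι) ∈ A1 ∧ s ∩ (F2 : Set ι) ∈ A2 ∧ s ∩ (F3 : Set ι) ∈ A3} (by
      intro s _
      simp only [mem_ofPred_eq]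
      rw [g1, g2, g3])
  have e2 := hPI ι F1 (F2 ∪ F3) p h0 h1 (Finset.disjoint_union_right.2 ⟨d12, d13⟩) A1
    {t | t ∩ (F2 : Set ι) ∈ A2 ∧ t ∩ (F3 : Set ι) ∈ A3}
  have e3 := hPI ι F2 F3 p h0 h1 d23 A2 A3
  simp only [mem_ofPred_eq, c2, c3] at e2
  rw [e1, e2, e3]

theorem loc_le {ι : Type u} (hPB : StPB.{u}) (hPL : StPL.{u}) (E F : Finset ι) (p : ℝ)
    (h0 : 0 ≤ p) (h1 : p ≤ 1) (hF : F ⊆ E) (B : Set (Set ι))
    (hB : ∀ s t : Set ι, s ⊆ t → s ∈ B → t ∈ B) : Pr F p B ≤ Pr E p B := by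
  obtain ⟨_, _, hmF, _, _⟩ := hPB ι F p h0 h1
  obtain ⟨_, _, hmE, _, _⟩ := hPB ι E p h0 h1
  have e1 := hPL ι E F p h0 h1 hF {s | s ∩ (F : Set ι) ∈ B} (by
    intro s _
    simp only [mem_ofPred_eq]
    rw [inter_assoc, inter_self])
  calc Pr F p B ≤ Pr F p {s | s ∩ (F : Set ι) ∈ B} := by
        refine hmF _ _ fun s hs hsB => ?_
        show (s : Set ι) ∩ (F : Set ι) ∈ B
        rw [inter_eq_self_of_subset_left (Finset.coe_subset.2 hs)]
        exact hsB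
    _ = Pr E p {s | s ∩ (F : Set ι) ∈ B} := e1.symm
    _ ≤ Pr E p B := by
        refine hmE _ _ fun s _ hsB => ?_
        exact hB _ _ inter_subset_left hsB

theorem mem_EI {V : Type u} (H : SimpleGraph V) (S : Finset V) (a b : V) :
    s(a, b) ∈ EI H S ↔ a ∈ S ∧ b ∈ S ∧ H.Adj a b := by
  unfold EI
  rw [Finset.mem_image]
  constructor
  · rintro ⟨⟨x, y⟩, hxy, he⟩
    rw [Finset.mem_filter, Finset.mem_product] at hxy
    obtain ⟨⟨hx, hy⟩, hadj⟩ := hxy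
    simp only at hx hy hadj he
    rw [Sym2.eq_iff] at he
    rcases he with ⟨rfl, rfl⟩ | ⟨rfl, rfl⟩
    · exact ⟨hx, hy, hadj⟩
    · exact ⟨hy, hx, hadj.symm⟩
  · rintro ⟨ha, hb, hadj⟩
    exact ⟨(a, b), Finset.mem_filter.2 ⟨Finset.mem_product.2 ⟨ha, hb⟩, hadj⟩, rfl⟩

theorem cl_loc (hCB : StCB.{u}) {V : Type u} (C0 : Set V) (u : V) (s : Set (Sym2 V)) :
    Cluster s u = C0 ↔ Cluster (s ∩ {e | ∃ y ∈ C0, y ∈ e}) u = C0 := by
  obtain ⟨h1, -, -, h4, -, -⟩ := hCB V s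
  obtain ⟨k1, -, k3, -, k5, -⟩ := hCB V (s ∩ {e | ∃ y ∈ C0, y ∈ e})
  obtain ⟨-, -, -, k4, -, -⟩ := hCB V (s ∩ {e | ∃ y ∈ C0, y ∈ e})
  have hmono : Cluster (s ∩ {e | ∃ y ∈ C0, y ∈ e}) u ⊆ Cluster s u := k4 s inter_subset_left u
  have hcl : Cluster (s ∩ {e | ∃ y ∈ C0, y ∈ e}) u ⊆ C0 →
      Cluster s u ⊆ Cluster (s ∩ {e | ∃ y ∈ C0, y ∈ e}) u := by
    intro hD
    refine (hCB V s).2.2.2.2.2 _ u (k1 u) ?_
    intro a ha b hab
    refine k3 u a b ha (k5 a b ⟨hab, ⟨a, hD ha, Sym2.mem_mk_left a b⟩⟩)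
  constructor
  · intro h
    have hD : Cluster (s ∩ {e | ∃ y ∈ C0, y ∈ e}) u ⊆ C0 := by
      rw [← h] at hmono ⊢
      rw [h] at hmono ⊢
      exact hmono
    exact Subset.antisymm hD (by
      have := hcl hD
      rw [h] at this
      exact this)
  · intro h
    have hD : Cluster (s ∩ {e | ∃ y ∈ C0, y ∈ e}) u ⊆ C0 := h.le
    exact Subset.antisymm ((hcl hD).trans hD) (h.ge.trans hmono)

end IX_QT

open IX_QT

theorem pt_QT (hPB : SO.StPB.{u}) (hPI : SO.StPI.{u}) (hPL : SO.StPL.{u}) (hPA : SO.StPA.{u})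
    (hCB : SO.StCB.{u}) (hWB : SO.StWB.{u}) (hQS : StQS.{u}) : StQT.{u} := by
  intro V H hLF S A u v p h0 h1 hu hv
  obtain ⟨hnb, -⟩ := hWB V H hLF
  have hEAE : EI H (S.filter (· ∈ A)) ⊆ EI H S := by
    intro e
    refine Sym2.ind (fun a b => ?_) e
    rw [mem_EI, mem_EI]
    rintro ⟨ha, hb, hab⟩
    exact ⟨(Finset.mem_filter.1 ha).1, (Finset.mem_filter.1 hb).1, hab⟩
  set EA : Finset (Sym2 V) := EI H (S.filter (· ∈ A)) with hEA
  -- the events
  let Ev : V → V → Set (Set (Sym2 V)) := fun z w => {s | s(z, w) ∈ s ∧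
    z ∈ Cluster (s ∩ (EA : Set (Sym2 V))) u ∧
    v ∈ Cluster (s \ {e | ∃ y ∈ Cluster (s ∩ (EA : Set (Sym2 V))) u, y ∈ e}) w}
  have step1 : tau H p S u v ≤ ∑ z ∈ S.filter (· ∈ A),
      ∑ w ∈ (nb H z).filter (fun w => w ∈ S ∧ w ∉ A), Pr (EI H S) p (Ev z w) := by
    refine (ub hPB (EI H S) p h0 h1 {s | v ∈ Cluster s u} (S.filter (· ∈ A))
      (fun z => {s | ∃ w ∈ (nb H z).filter (fun w => w ∈ S ∧ w ∉ A), s ∈ Ev z w}) ?_).trans ?_
    · intro s hs hsv
      obtain ⟨z, hzS, w, hwS, hzA, hwA, hadj, hmem, hz, hvw⟩ :=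
        hQS V H S A u v (s : Set (Sym2 V)) (Finset.coe_subset.2 hs) hu hv hsv
      refine ⟨z, Finset.mem_filter.2 ⟨hzS, hzA⟩, w, ?_, hmem, hz, hvw⟩
      exact Finset.mem_filter.2 ⟨(hnb z w).2 hadj, hwS, hwA⟩
    · refine Finset.sum_le_sum fun z _ => ?_
      exact ub hPB (EI H S) p h0 h1 _ _ (Ev z) (fun s _ hs => hs)
  refine step1.trans (Finset.sum_le_sum fun z hz => Finset.sum_le_sum fun w hw => ?_)
  obtain ⟨hzS, hzA⟩ := Finset.mem_filter.1 hz
  obtain ⟨hwnb, hwS, hwA⟩ := Finset.mem_filter.1 hw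
  have hadj : H.Adj z w := (hnb z w).1 hwnb
  -- the sum over the values of the cluster
  let J : Finset (Finset V) := (insert u (S.filter (· ∈ A))).powerset.filter (fun C => z ∈ C)
  let F1 : Finset V → Finset (Sym2 V) := fun C => EA.filter (fun e => ∃ y ∈ C, y ∈ e)
  let F3 : Finset V → Finset (Sym2 V) := fun C => (EI H S).filter (fun e => ¬ ∃ y ∈ C, y ∈ e)
  let Bv : Finset V → Set (Set (Sym2 V)) := fun C =>
    {s | s ∩ (F1 C : Set (Sym2 V)) ∈ {t : Set (Sym2 V) | Cluster t u = (C : Set V)} ∧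
      s ∩ (({s(z, w)} : Finset (Sym2 V)) : Set (Sym2 V)) ∈
        {t : Set (Sym2 V) | ((({s(z, w)} : Finset (Sym2 V)) : Set (Sym2 V))) ⊆ t} ∧
      s ∩ (F3 C : Set (Sym2 V)) ∈ {t : Set (Sym2 V) | v ∈ Cluster t w}}
  have step2 : Pr (EI H S) p (Ev z w) ≤ ∑ C ∈ J, Pr (EI H S) p (Bv C) := by
    refine ub hPB (EI H S) p h0 h1 (Ev z w) J Bv ?_
    rintro s hs ⟨hzw, hzc, hvc⟩
    have hsub : Cluster ((s : Set (Sym2 V)) ∩ (EA : Set (Sym2 V))) u ⊆
        ((insert u (S.filter (· ∈ A)) : Finset V) : Set V) := by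
      refine (hCB V _).2.2.2.2.2 _ u ?_ ?_
      · exact Finset.mem_coe.2 (Finset.mem_insert_self _ _)
      · intro a _ b hab
        have hb := ((mem_EI H (S.filter (· ∈ A)) a b).1 (Finset.mem_coe.1 hab.2)).2.1
        exact Finset.mem_coe.2 (Finset.mem_insert_of_mem hb)
    have hcoe : (((insert u (S.filter (· ∈ A))).filter
        (fun x => x ∈ Cluster ((s : Set (Sym2 V)) ∩ (EA : Set (Sym2 V))) u) : Finset V) : Set V) =
        Cluster ((s : Set (Sym2 V)) ∩ (EA : Set (Sym2 V))) u := by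
      ext x
      rw [Finset.mem_coe, Finset.mem_filter]
      exact ⟨fun h => h.2, fun h => ⟨Finset.mem_coe.1 (hsub h), h⟩⟩
    refine ⟨(insert u (S.filter (· ∈ A))).filter
        (fun x => x ∈ Cluster ((s : Set (Sym2 V)) ∩ (EA : Set (Sym2 V))) u), ?_, ?_, ?_, ?_⟩
    · refine Finset.mem_filter.2 ⟨Finset.mem_powerset.2 (Finset.filter_subset _ _), ?_⟩
      rw [← Finset.mem_coe, hcoe]
      exact hzc
    · show Cluster _ u = _
      have h2 := (cl_loc hCB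
        (((insert u (S.filter (· ∈ A))).filter
        (fun x => x ∈ Cluster ((s : Set (Sym2 V)) ∩ (EA : Set (Sym2 V))) u) : Finset V) : Set V) u
        ((s : Set (Sym2 V)) ∩ (EA : Set (Sym2 V)))).1 hcoe.symm
      have h3 : (s : Set (Sym2 V)) ∩ ((F1 ((insert u (S.filter (· ∈ A))).filter
          (fun x => x ∈ Cluster ((s : Set (Sym2 V)) ∩ (EA : Set (Sym2 V))) u)) :
            Finset (Sym2 V)) : Set (Sym2 V)) =
          (s : Set (Sym2 V)) ∩ (EA : Set (Sym2 V)) ∩ {e | ∃ y ∈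
            (((insert u (S.filter (· ∈ A))).filter
        (fun x => x ∈ Cluster ((s : Set (Sym2 V)) ∩ (EA : Set (Sym2 V))) u) : Finset V) : Set V),
              y ∈ e} := by
        ext e
        simp only [F1, mem_inter_iff, Finset.mem_coe, Finset.mem_filter, mem_ofPred_eq]
        tauto
      rw [h3]
      exact h2
    · intro e he
      have he' : e = s(z, w) := Finset.mem_singleton.1 (Finset.mem_coe.1 he)
      exact ⟨by rw [he']; exact hzw, he⟩
    · show v ∈ Cluster _ w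
      have h3 : (s : Set (Sym2 V)) ∩ ((F3 ((insert u (S.filter (· ∈ A))).filter
          (fun x => x ∈ Cluster ((s : Set (Sym2 V)) ∩ (EA : Set (Sym2 V))) u)) :
            Finset (Sym2 V)) : Set (Sym2 V)) =
          (s : Set (Sym2 V)) \ {e | ∃ y ∈
            Cluster ((s : Set (Sym2 V)) ∩ (EA : Set (Sym2 V))) u, y ∈ e} := by
        have h4 : ∀ y, y ∈ ((insert u (S.filter (· ∈ A))).filter
            (fun x => x ∈ Cluster ((s : Set (Sym2 V)) ∩ (EA : Set (Sym2 V))) u)) ↔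
            y ∈ Cluster ((s : Set (Sym2 V)) ∩ (EA : Set (Sym2 V))) u := by
          intro y
          rw [← Finset.mem_coe, hcoe]
        ext e
        simp only [F3, mem_inter_iff, Finset.mem_coe, Finset.mem_filter (s := EI H S), Set.mem_sdiff,
          mem_ofPred_eq, h4]
        constructor
        · rintro ⟨a1, a2, a3⟩
          exact ⟨a1, a3⟩
        · rintro ⟨a1, a3⟩
          exact ⟨a1, hs a1, a3⟩
      rw [h3]
      exact hvc
  refine step2.trans ?_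
  have step3 : ∀ C ∈ J, Pr (EI H S) p (Bv C) ≤
      Pr EA p {s | Cluster s u = (C : Set V)} * (p * tau H p S w v) := by
    intro C hC
    obtain ⟨-, hzC⟩ := Finset.mem_filter.1 hC
    have d12 : Disjoint (F1 C) ({s(z, w)} : Finset (Sym2 V)) := by
      rw [Finset.disjoint_singleton_right]
      intro h
      have h2 := (mem_EI H (S.filter (· ∈ A)) z w).1 (Finset.mem_filter.1 h).1
      exact hwA (Finset.mem_filter.1 h2.2.1).2
    have d13 : Disjoint (F1 C) (F3 C) := by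
      rw [Finset.disjoint_left]
      intro e he1 he3
      exact (Finset.mem_filter.1 he3).2 (Finset.mem_filter.1 he1).2
    have d23 : Disjoint ({s(z, w)} : Finset (Sym2 V)) (F3 C) := by
      rw [Finset.disjoint_singleton_left]
      intro h
      exact (Finset.mem_filter.1 h).2 ⟨z, hzC, Sym2.mem_mk_left z w⟩
    have hF1 : F1 C ⊆ EI H S := (Finset.filter_subset _ _).trans hEAE
    have hF2 : ({s(z, w)} : Finset (Sym2 V)) ⊆ EI H S :=
      Finset.singleton_subset_iff.2 ((mem_EI H S z w).2 ⟨hzS, hwS, hadj⟩)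
    have hF3 : F3 C ⊆ EI H S := Finset.filter_subset _ _
    have e0 := ind3 hPI hPL (EI H S) (F1 C) {s(z, w)} (F3 C) p h0 h1 hF1 hF2 hF3 d12 d13 d23
      {t : Set (Sym2 V) | Cluster t u = (C : Set V)}
      {t : Set (Sym2 V) | ((({s(z, w)} : Finset (Sym2 V)) : Set (Sym2 V))) ⊆ t}
      {t : Set (Sym2 V) | v ∈ Cluster t w}
    have e1 : Pr (F1 C) p {t : Set (Sym2 V) | Cluster t u = (C : Set V)} =
        Pr EA p {s | Cluster s u = (C : Set V)} := by
      symm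
      refine hPL (Sym2 V) EA (F1 C) p h0 h1 (Finset.filter_subset _ _) _ ?_
      intro s hs
      have h3 : (s : Set (Sym2 V)) ∩ (F1 C : Set (Sym2 V)) =
          (s : Set (Sym2 V)) ∩ {e | ∃ y ∈ (C : Set V), y ∈ e} := by
        ext e
        simp only [F1, mem_inter_iff, Finset.mem_coe, Finset.mem_filter, mem_ofPred_eq]
        constructor
        · rintro ⟨a1, a2, a3⟩
          exact ⟨a1, a3⟩
        · rintro ⟨a1, a3⟩
          exact ⟨a1, hs a1, a3⟩
      rw [h3]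
      exact cl_loc hCB (C : Set V) u (s : Set (Sym2 V))
    have e2 : Pr ({s(z, w)} : Finset (Sym2 V)) p
        {t : Set (Sym2 V) | ((({s(z, w)} : Finset (Sym2 V)) : Set (Sym2 V))) ⊆ t} = p := by
      rw [hPA (Sym2 V) {s(z, w)} {s(z, w)} p h0 h1 (Finset.Subset.refl _), Finset.card_singleton,
        pow_one]
    have e3 : Pr (F3 C) p {t : Set (Sym2 V) | v ∈ Cluster t w} ≤ tau H p S w v := by
      refine loc_le hPB hPL (EI H S) (F3 C) p h0 h1 hF3 _ ?_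
      intro s t hst hs
      exact (hCB V s).2.2.2.1 t hst w hs
    show Pr (EI H S) p (Bv C) ≤ _
    have e4 : Pr (EI H S) p (Bv C) = Pr EA p {s | Cluster s u = (C : Set V)} *
        (p * Pr (F3 C) p {t : Set (Sym2 V) | v ∈ Cluster t w}) := by
      rw [← e1]
      rw [e2] at e0
      exact e0
    rw [e4]
    refine mul_le_mul_of_nonneg_left (mul_le_mul_of_nonneg_left e3 h0) ?_
    exact ((hPB _ EA p h0 h1).2.1 _).1
  refine (Finset.sum_le_sum step3).trans ?_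
  rw [← Finset.sum_mul]
  refine mul_le_mul_of_nonneg_right ?_ ?_
  · show _ ≤ Pr (EI H (S.filter (· ∈ A))) p {s | z ∈ Cluster s u}
    refine dj hPB EA p h0 h1 {s | z ∈ Cluster s u} J
      (fun C => {s | Cluster s u = (C : Set V)}) ?_ ?_
    · intro C hC s _ hsC
      obtain ⟨-, hzC⟩ := Finset.mem_filter.1 hC
      show z ∈ Cluster (s : Set (Sym2 V)) u
      rw [show Cluster (s : Set (Sym2 V)) u = (C : Set V) from hsC]
      exact Finset.mem_coe.2 hzC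
    · intro C _ C' _ s hsC hsC'
      have h3 : (C : Set V) = (C' : Set V) := by
        rw [← show Cluster (s : Set (Sym2 V)) u = (C : Set V) from hsC]
        exact hsC'
      exact Finset.coe_injective h3
  · exact mul_nonneg h0 ((hPB _ (EI H S) p h0 h1).2.1 _).1

end Pool.Agent.Work.MP_c58d8b_pr.PT
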