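import Pool.Agent.Work.MP_c58d8b_pr.PT.Stmts

/-!
# MP_c58d8b_pr, block PT, item QU: the Simon-Lieb inequality, product form
-/

set_option autoImplicit false

namespace Pool.Agent.Work.MP_c58d8b_pr.PT

open MeasureTheory ProbabilityTheory Set Filter Topology
open scoped ENNReal unitInterval Classical
open Pool.Agent.Work.MP_c58d8b_pr.SO

universe u

namespace IX_QU

variable {V : Type u}

/-- the last edge -/
theorem step (hQA : StQA.{u}) (hQB : StQB.{u}) (hQC : StQC.{u}) (H : SimpleGraph V)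
    (S : Finset V) (A : Set V) (u z w : V) (p : ℝ) (hp : 0 ≤ p) (hp1 : p ≤ 1) (hzS : z ∈ S)
    (hzA : z ∈ A) (hwS : w ∈ S) (hzw : H.Adj z w) :
    p * tau H p (S.filter (· ∈ A)) u z ≤ tau (within H (insert w A)) p S u w := by
  obtain ⟨h1, -, -, h4, -, h6⟩ := hQA V H p hp hp1
  obtain ⟨W, hW⟩ : ∃ W : Set V, W = insert w A := ⟨_, rfl⟩
  have hwW : w ∈ W := hW ▸ Set.mem_insert w A
  have hAW : ∀ y ∈ A, y ∈ W := fun y hy => hW ▸ Set.mem_insert_of_mem w hy
  rw [← hW, (hQC V).2.1 H W p S u w]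
  have hz : z ∈ S.filter (· ∈ W) := Finset.mem_filter.2 ⟨hzS, hAW z hzA⟩
  have hw : w ∈ S.filter (· ∈ W) := Finset.mem_filter.2 ⟨hwS, hwW⟩
  have hsub : S.filter (· ∈ A) ⊆ S.filter (· ∈ W) := by
    intro y hy
    rw [Finset.mem_filter] at hy ⊢
    exact ⟨hy.1, hAW y hy.2⟩
  have e1 : tau H p (S.filter (· ∈ A)) u z ≤ tau H p (S.filter (· ∈ W)) u z :=
    (hQB V).1 H H _ _ p p le_rfl hsub hp le_rfl hp1 u z
  have e2 : p ≤ tau H p (S.filter (· ∈ W)) z w := h6 _ z w hz hw hzw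
  have e3 := h4 (S.filter (· ∈ W)) u z w
  calc p * tau H p (S.filter (· ∈ A)) u z
      = tau H p (S.filter (· ∈ A)) u z * p := mul_comm _ _
    _ ≤ tau H p (S.filter (· ∈ W)) u z * tau H p (S.filter (· ∈ W)) z w :=
        mul_le_mul e1 e2 hp (h1 _ _ _).1
    _ ≤ _ := e3

end IX_QU

open IX_QU in
theorem pt_QU (hWB : SO.StWB.{u}) (hQA : StQA.{u}) (hQB : StQB.{u}) (hQC : StQC.{u})
    (hQT : StQT.{u}) : StQU.{u} := by
  intro V H hL Δ hΔ A u v p hp hp1 hu hv
  obtain ⟨F, hF⟩ : ∃ F : V → ℝ≥0∞, F = fun w => if w ∉ A ∧ ∃ z ∈ A, H.Adj z w then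
    tt (within H (insert w A)) p u w * tt H p w v else 0 := ⟨_, rfl⟩
  rw [← hF]
  unfold tt
  refine iSup_le (fun S => ?_)
  have h1 := hQT V H hL S A u v p hp hp1 hu hv
  have hT : ∀ (H' : SimpleGraph V) S' x y, 0 ≤ tau H' p S' x y := fun H' S' x y =>
    ((hQA V H' p hp hp1).1 S' x y).1
  have hmem : ∀ x y, y ∈ nb H x ↔ H.Adj x y := (hWB V H hL).1
  have h2 : ENNReal.ofReal (∑ z ∈ S.filter (· ∈ A), ∑ w ∈ (nb H z).filter
      (fun w => w ∈ S ∧ w ∉ A), tau H p (S.filter (· ∈ A)) u z * (p * tau H p S w v)) ≤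
      ∑ z ∈ S.filter (· ∈ A), ∑ w ∈ (nb H z).filter (fun w => w ∈ S ∧ w ∉ A), F w := by
    rw [ENNReal.ofReal_sum_of_nonneg (fun z _ => Finset.sum_nonneg (fun w _ =>
      mul_nonneg (hT _ _ _ _) (mul_nonneg hp (hT _ _ _ _))))]
    refine Finset.sum_le_sum (fun z hz => ?_)
    rw [ENNReal.ofReal_sum_of_nonneg (fun w _ =>
      mul_nonneg (hT _ _ _ _) (mul_nonneg hp (hT _ _ _ _)))]
    refine Finset.sum_le_sum (fun w hw => ?_)
    rw [Finset.mem_filter] at hz
    rw [Finset.mem_filter, hmem] at hw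
    have e1 : F w = tt (within H (insert w A)) p u w * tt H p w v := by
      rw [hF]
      show (if w ∉ A ∧ ∃ z ∈ A, H.Adj z w then
        tt (within H (insert w A)) p u w * tt H p w v else 0) = _
      rw [if_pos ⟨hw.2.2, z, hz.2, hw.1⟩]
    have e2 : tau H p (S.filter (· ∈ A)) u z * (p * tau H p S w v) =
        (p * tau H p (S.filter (· ∈ A)) u z) * tau H p S w v := by ring
    rw [e1, e2, ENNReal.ofReal_mul (mul_nonneg hp (hT _ _ _ _))]
    refine mul_le_mul' ?_ ?_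
    · refine (ENNReal.ofReal_le_ofReal (step hQA hQB hQC H S A u z w p hp hp1 hz.1 hz.2
        hw.2.1 hw.1)).trans ?_
      exact le_iSup (fun S' : Finset V =>
        ENNReal.ofReal (tau (within H (insert w A)) p S' u w)) S
    · exact le_iSup (fun S' : Finset V => ENNReal.ofReal (tau H p S' w v)) S
  refine (ENNReal.ofReal_le_ofReal h1).trans (h2.trans ?_)
  rw [Finset.sum_comm' (s' := fun w => (S.filter (· ∈ A)).filter
    (fun z => w ∈ nb H z ∧ w ∉ A)) (t' := S) (by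
      intro z w
      simp only [Finset.mem_filter]
      tauto)]
  have h3 : ∀ w ∈ S, ∑ z ∈ (S.filter (· ∈ A)).filter (fun z => w ∈ nb H z ∧ w ∉ A), F w ≤
      (Δ : ℝ≥0∞) * F w := by
    intro w _
    rw [Finset.sum_const, nsmul_eq_mul]
    refine mul_le_mul' ?_ le_rfl
    have hc : ((S.filter (· ∈ A)).filter (fun z => w ∈ nb H z ∧ w ∉ A)).card ≤ Δ := by
      refine (Finset.card_le_card ?_).trans (hΔ w)
      intro z hz
      rw [Finset.mem_filter] at hz
      rw [hmem]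
      exact ((hmem z w).1 hz.2.1).symm
    exact_mod_cast hc
  refine (Finset.sum_le_sum h3).trans ?_
  rw [← Finset.mul_sum]
  exact mul_le_mul' le_rfl (ENNReal.sum_le_tsum S)

end Pool.Agent.Work.MP_c58d8b_pr.PT
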