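import Pool.Agent.Work.MP_c58d8b_pr.PT.Stmts

/-!
# MP_c58d8b_pr, block PT, item RA: heights and descendants
-/

set_option autoImplicit false

namespace Pool.Agent.Work.MP_c58d8b_pr.PT

open MeasureTheory ProbabilityTheory Set Filter Topology
open scoped ENNReal unitInterval Classical
open Pool.Agent.Work.MP_c58d8b_pr.SO

universe u

namespace IX_RA

variable {T : Type u} {par : T → T} {h : T → ℤ} {a : ℕ}

theorem height (H : Tr par h a) (n : ℕ) (x : T) : h (par^[n] x) = h x + n := by
  induction n with
  | zero => simp
  | succ n ih =>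
    rw [Function.iterate_succ_apply', H.hpar, ih]
    push_cast
    ring

theorem kids_finite (H : Tr par h a) (x : T) : {y | par y = x}.Finite := by
  refine Set.finite_of_ncard_ne_zero ?_
  rw [H.kids x]
  have := H.two
  omega

theorem desc_card (H : Tr par h a) (n : ℕ) : ∀ x : T,
    {y | par^[n] y = x}.Finite ∧ {y | par^[n] y = x}.ncard = a ^ n := by
  induction n with
  | zero =>
    intro x
    have : {y : T | par^[0] y = x} = {x} := by
      ext y; simp
    rw [this]
    exact ⟨Set.finite_singleton x, by simp⟩
  | succ n ih =>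
    intro x
    have hK := (ih x).1
    have hset : {y : T | par^[n + 1] y = x} =
        ((hK.toFinset.biUnion fun z => (kids_finite H z).toFinset : Finset T) : Set T) := by
      ext y
      simp only [Set.mem_ofPred_eq, Finset.coe_biUnion, Set.mem_iUnion, Finset.mem_coe,
        Set.Finite.mem_toFinset, exists_prop]
      constructor
      · intro hy
        exact ⟨par y, by rw [← Function.iterate_succ_apply]; exact hy, rfl⟩
      · rintro ⟨z, hz, rfl⟩
        rw [Function.iterate_succ_apply]; exact hz
    rw [hset]
    refine ⟨Finset.finite_toSet _, ?_⟩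
    rw [Set.ncard_coe_finset, Finset.card_biUnion]
    · have hc : ∀ z ∈ hK.toFinset, (kids_finite H z).toFinset.card = a := by
        intro z _
        rw [← Set.ncard_eq_toFinset_card _ (kids_finite H z)]
        exact H.kids z
      rw [Finset.sum_congr rfl hc, Finset.sum_const, smul_eq_mul,
        ← Set.ncard_eq_toFinset_card _ hK, (ih x).2, pow_succ]
    · intro z _ w _ hzw
      rw [Function.onFun, Finset.disjoint_left]
      intro y hy hy'
      rw [Set.Finite.mem_toFinset] at hy hy'
      exact hzw (by rw [← (hy : par y = z), ← (hy' : par y = w)])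

end IX_RA

theorem pt_RA : StRA.{u} := by
  intro T par h a H
  have hh := IX_RA.height H
  have part2 : ∀ x y (m n m' n' : ℕ), par^[m] x = par^[n] y → m ≤ m' → m' + n = m + n' →
      par^[m'] x = par^[n'] y := by
    intro x y m n m' n' hxy hm hs
    obtain ⟨k, rfl⟩ := Nat.exists_eq_add_of_le hm
    have hn : n' = n + k := by omega
    subst hn
    rw [Nat.add_comm m k, Nat.add_comm n k, Function.iterate_add_apply,
      Function.iterate_add_apply, hxy]
  refine ⟨hh, part2, fun n x => IX_RA.desc_card H n x, ?_, ?_, ?_⟩
  · rintro x y ⟨n, hn⟩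
    have hy := hh n y
    rw [hn] at hy
    refine ⟨?_, by omega, ?_⟩
    · rintro z ⟨m, hm⟩
      exact ⟨n + m, by rw [Function.iterate_add_apply, hm, hn]⟩
    · have : (h x - h y).toNat = n := by omega
      rw [this]; exact hn
  · intro x n
    exact ⟨⟨0, rfl⟩, ⟨n, rfl⟩⟩
  · rintro x y z ⟨m, hm⟩ ⟨n, hn⟩ hxy
    have h1 := hh m z
    have h2 := hh n z
    rw [hm] at h1
    rw [hn] at h2
    have hmn : m ≤ n := by omega
    obtain ⟨k, rfl⟩ := Nat.exists_eq_add_of_le hmn
    refine ⟨k, ?_⟩
    rw [← hm, ← Function.iterate_add_apply, Nat.add_comm k m]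
    exact hn

end Pool.Agent.Work.MP_c58d8b_pr.PT
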