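import Pool.Agent.Work.MP_c58d8b_pr.PT.Stmts

/-!
# MP_c58d8b_pr, block PT, item RC (helper94): permutations which commute with par
-/

set_option autoImplicit false

namespace Pool.Agent.Work.MP_c58d8b_pr.PT

open MeasureTheory ProbabilityTheory Set Filter Topology
open scoped ENNReal unitInterval Classical
open Pool.Agent.Work.MP_c58d8b_pr.SO

universe u

namespace IX_RC

theorem h_iter {T : Type u} {par : T → T} {h : T → ℤ} (hp : ∀ x, h (par x) = h x + 1) (n : ℕ) :
    ∀ x, h (par^[n] x) = h x + n := by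
  induction n with
  | zero => intro x; simp
  | succ n ih => intro x; rw [Function.iterate_succ_apply, ih, hp]; push_cast; ring

theorem comm {T : Type u} {par : T → T} {β : Equiv.Perm T} (hb : ∀ z, β (par z) = par (β z))
    (n : ℕ) : ∀ z, β (par^[n] z) = par^[n] (β z) := by
  induction n with
  | zero => intro z; rfl
  | succ n ih =>
    intro z
    rw [Function.iterate_succ_apply, ih, hb, ← Function.iterate_succ_apply]

theorem iff_iter {T : Type u} {par : T → T} {β : Equiv.Perm T} (hb : ∀ z, β (par z) = par (β z))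
    (m n : ℕ) (x y : T) : par^[m] (β x) = par^[n] (β y) ↔ par^[m] x = par^[n] y := by
  rw [← comm hb m, ← comm hb n, β.injective.eq_iff]

end IX_RC

theorem pt_RC : StRC.{u} := by
  intro T par h a hT β hb
  refine ⟨?_, fun n z => IX_RC.comm hb n z, ?_, ?_, ?_⟩
  · intro z
    rw [Equiv.Perm.inv_eq_iff_eq, hb]
    simp
  · intro x y
    obtain ⟨m, n, hmn⟩ := hT.common x y
    have h1 := IX_RC.h_iter hT.hpar m x
    have h2 := IX_RC.h_iter hT.hpar n y
    have h3 := IX_RC.h_iter hT.hpar m (β x)
    have h4 := IX_RC.h_iter hT.hpar n (β y)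
    rw [hmn] at h1
    rw [(IX_RC.iff_iter hb m n x y).2 hmn] at h3
    omega
  · intro x y
    unfold td
    simp only [IX_RC.iff_iter hb]
  · intro x y
    constructor
    · rintro ⟨n, hn⟩
      exact ⟨n, (IX_RC.iff_iter hb n 0 y x).1 hn⟩
    · rintro ⟨n, hn⟩
      exact ⟨n, (IX_RC.iff_iter hb n 0 y x).2 hn⟩

end Pool.Agent.Work.MP_c58d8b_pr.PT
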