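import Pool.Agent.Work.MP_c58d8b_pr.PT.Stmts

/-!
# MP_c58d8b_pr, block PT, item RE: the convergent sum over a tree
-/

set_option autoImplicit false

namespace Pool.Agent.Work.MP_c58d8b_pr.PT

open MeasureTheory ProbabilityTheory Set Filter Topology
open scoped ENNReal unitInterval Classical
open Pool.Agent.Work.MP_c58d8b_pr.SO

universe u

namespace IX_RE

/-- the sum over the fibre of `par^n` -/
theorem fibre {T : Type u} (P : Set T) (hP : P.Finite) (N : ℕ) (hN : P.ncard = N) (K : ℝ≥0∞) :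
    ∑' s : T, (if s ∈ P then K else 0) = N * K := by
  rw [tsum_eq_sum (s := hP.toFinset) (by
    intro s hs
    rw [Set.Finite.mem_toFinset] at hs
    exact if_neg hs)]
  rw [Finset.sum_congr rfl (g := fun _ => K) (by
    intro s hs
    rw [Set.Finite.mem_toFinset] at hs
    exact if_pos hs), Finset.sum_const, nsmul_eq_mul, ← hN, Set.ncard_eq_toFinset_card P hP]

/-- the term of the sum -/
theorem term {r : ℝ} (hr : 0 < r) (m n : ℕ) (z : ℤ) (hz : z = m - n) :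
    r ^ z * ((r * r)⁻¹) ^ (m + n) = (r⁻¹) ^ (m + 3 * n) := by
  rw [hz, zpow_sub₀ hr.ne', zpow_natCast, zpow_natCast, inv_pow, inv_pow, mul_pow, ← pow_add]
  rw [div_mul_eq_mul_div, div_eq_iff (pow_ne_zero _ hr.ne'), ← div_eq_mul_inv,
    div_eq_iff (pow_ne_zero _ hr.ne'), mul_assoc, mul_comm, eq_comm, mul_inv_eq_iff_eq_mul₀
    (pow_ne_zero _ hr.ne')]
  rw [← pow_add, ← pow_add]
  congr 1
  ring

theorem coef {r : ℝ} (hr : 0 < r) (m n : ℕ) :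
    (r * r) ^ n * (r⁻¹) ^ (m + 3 * n) = (r⁻¹) ^ m * (r⁻¹) ^ n := by
  rw [inv_pow, inv_pow, inv_pow, mul_pow, ← pow_add, mul_inv_eq_iff_eq_mul₀ (pow_ne_zero _ hr.ne'),
    ← mul_inv, inv_mul_eq_div, eq_div_iff (mul_ne_zero (pow_ne_zero _ hr.ne') (pow_ne_zero _ hr.ne')),
    ← pow_add, ← pow_add]
  congr 1
  ring

end IX_RE

open IX_RE in
theorem pt_RE (hRA : StRA.{u}) (hRB : StRB.{u}) : StRE.{u} := by
  intro T par h a hT
  obtain ⟨hA1, -, hA3, -, -, -⟩ := hRA T par h a hT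
  obtain ⟨-, -, -, hB4, -, -, -, -, -, -⟩ := hRB T par h a hT
  have ha : (2 : ℝ) ≤ a := by exact_mod_cast hT.two
  have ha0 : (0 : ℝ) ≤ a := by linarith
  set r : ℝ := √(a : ℝ) with hr
  have hr1 : 1 < r := by
    rw [hr, Real.lt_sqrt zero_le_one]
    linarith
  have hr0 : 0 < r := by linarith
  have hrr : r * r = a := Real.mul_self_sqrt ha0
  have hc0 : 0 ≤ r⁻¹ := inv_nonneg.2 hr0.le
  have hc1 : r⁻¹ < 1 := inv_lt_one_of_one_lt₀ hr1
  set q : ℝ≥0∞ := ENNReal.ofReal r⁻¹ with hq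
  have hq1 : q < 1 := by
    rw [hq, ENNReal.ofReal_lt_one]
    exact hc1
  refine ⟨(1 - q)⁻¹ * (1 - q)⁻¹, ?_, fun t => ?_⟩
  · have h1 : (1 - q)⁻¹ ≠ ⊤ := by
      rw [Ne, ENNReal.inv_eq_top]
      exact (tsub_pos_of_lt hq1).ne'
    exact ENNReal.mul_ne_top h1 h1
  · have hterm : ∀ s : T, ENNReal.ofReal (r ^ (h s - h t) * ((a : ℝ)⁻¹) ^ td par t s) ≤
        ∑' mn : ℕ × ℕ, (if s ∈ {s | par^[mn.2] s = par^[mn.1] t} then
          ENNReal.ofReal ((r⁻¹) ^ (mn.1 + 3 * mn.2)) else 0) := by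
      intro s
      obtain ⟨m, n, h1, h2⟩ := hB4 t s
      have h3 : h t + m = h s + n := by
        rw [← hA1 m t, ← hA1 n s, h2]
      have h4 : h s - h t = m - n := by omega
      rw [h1, ← hrr, term hr0 m n _ h4]
      refine le_trans (le_of_eq ?_) (ENNReal.le_tsum ((m, n) : ℕ × ℕ))
      rw [if_pos]
      exact h2.symm
    have hsum : ∀ mn : ℕ × ℕ, ∑' s : T, (if s ∈ {s | par^[mn.2] s = par^[mn.1] t} then
        ENNReal.ofReal ((r⁻¹) ^ (mn.1 + 3 * mn.2)) else 0) = q ^ mn.1 * q ^ mn.2 := by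
      rintro ⟨m, n⟩
      obtain ⟨hf, hn⟩ := hA3 n (par^[m] t)
      rw [fibre _ hf (a ^ n) hn]
      have h5 : (((a ^ n : ℕ) : ℕ) : ℝ≥0∞) = ENNReal.ofReal ((r * r) ^ n) := by
        rw [hrr, ← Nat.cast_pow, ENNReal.ofReal_natCast]
      rw [h5, ← ENNReal.ofReal_mul (by positivity), coef hr0, ENNReal.ofReal_mul (by positivity),
        ENNReal.ofReal_pow hc0, ENNReal.ofReal_pow hc0]
    calc ∑' s : T, ENNReal.ofReal (r ^ (h s - h t) * ((a : ℝ)⁻¹) ^ td par t s)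
        ≤ ∑' s : T, ∑' mn : ℕ × ℕ, (if s ∈ {s | par^[mn.2] s = par^[mn.1] t} then
          ENNReal.ofReal ((r⁻¹) ^ (mn.1 + 3 * mn.2)) else 0) := ENNReal.tsum_le_tsum hterm
      _ = ∑' mn : ℕ × ℕ, ∑' s : T, (if s ∈ {s | par^[mn.2] s = par^[mn.1] t} then
          ENNReal.ofReal ((r⁻¹) ^ (mn.1 + 3 * mn.2)) else 0) := ENNReal.tsum_comm
      _ = ∑' mn : ℕ × ℕ, q ^ mn.1 * q ^ mn.2 := tsum_congr hsum
      _ = ∑' m : ℕ, ∑' n : ℕ, q ^ m * q ^ n := ENNReal.tsum_prod (f := fun m n => q ^ m * q ^ n)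
      _ = (1 - q)⁻¹ * (1 - q)⁻¹ := by
          simp only [ENNReal.tsum_mul_left, ENNReal.tsum_mul_right, ENNReal.tsum_geometric]
      _ ≤ (1 - q)⁻¹ * (1 - q)⁻¹ := le_rfl

end Pool.Agent.Work.MP_c58d8b_pr.PT
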