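import Pool.Agent.Work.MP_c58d8b_pr.PT.Stmts

/-!
# MP_c58d8b_pr, block PT, item RZ: comparison of exponential growth rates (helper6)
-/

set_option autoImplicit false

namespace Pool.Agent.Work.MP_c58d8b_pr.PT

open MeasureTheory ProbabilityTheory Set Filter Topology
open scoped ENNReal unitInterval Classical
open Pool.Agent.Work.MP_c58d8b_pr.SO

theorem pt_RZ : StRZ := by
  intro x y C M hx hy h
  by_contra hxy
  push Not at hxy
  have hr : 1 < x / y := by rwa [one_lt_div hy]
  have h1 := tendsto_pow_const_div_const_pow_of_one_lt 1 hr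
  have h0 := tendsto_pow_const_div_const_pow_of_one_lt 0 hr
  have h2 : Tendsto (fun k : ℕ => C * M * ((k : ℝ) ^ 1 / (x / y) ^ k) +
      C * ((k : ℝ) ^ 0 / (x / y) ^ k)) atTop (𝓝 (C * M * 0 + C * 0)) :=
    (h1.const_mul (C * M)).add (h0.const_mul C)
  have h3 : ∀ᶠ k : ℕ in atTop, (1 : ℝ) ≤ C * M * ((k : ℝ) ^ 1 / (x / y) ^ k) +
      C * ((k : ℝ) ^ 0 / (x / y) ^ k) := by
    filter_upwards [eventually_ge_atTop 1] with k hk
    have hp : 0 < (x / y) ^ k := pow_pos (by linarith) k
    have hyk : 0 < y ^ k := pow_pos hy k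
    have hk' := h k hk
    have h4 : (x / y) ^ k ≤ C * (M * k + 1) := by
      rw [div_pow, div_le_iff₀ hyk]
      exact hk'
    have h5 : C * M * ((k : ℝ) ^ 1 / (x / y) ^ k) + C * ((k : ℝ) ^ 0 / (x / y) ^ k) =
        C * (M * k + 1) / (x / y) ^ k := by
      rw [pow_one, pow_zero]
      field_simp
    rw [h5, le_div_iff₀ hp, one_mul]
    exact h4
  have h6 := ge_of_tendsto h2 h3
  norm_num at h6

end Pool.Agent.Work.MP_c58d8b_pr.PT
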