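import Pool.Agent.Work.MP_c58d8b_pr.PT.Stmts

/-!
# MP_c58d8b_pr, block PT, item FA: Fubini for the finite probability
-/

set_option autoImplicit false

namespace Pool.Agent.Work.MP_c58d8b_pr.PT

open MeasureTheory ProbabilityTheory Set Filter Topology
open scoped ENNReal unitInterval Classical
open Pool.Agent.Work.MP_c58d8b_pr.SO

universe u

namespace IX_FA

theorem inter_left {ι : Type u} {E₁ E₂ s₁ s₂ : Finset ι} (hd : Disjoint E₁ E₂) (h1 : s₁ ⊆ E₁)
    (h2 : s₂ ⊆ E₂) : (s₁ ∪ s₂) ∩ E₁ = s₁ := by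
  ext x
  simp only [Finset.mem_inter, Finset.mem_union]
  constructor
  · rintro ⟨hx | hx, hE⟩
    · exact hx
    · exact absurd (h2 hx) (Finset.disjoint_left.1 hd hE)
  · intro hx
    exact ⟨Or.inl hx, h1 hx⟩

theorem inter_right {ι : Type u} {E₁ E₂ s₁ s₂ : Finset ι} (hd : Disjoint E₁ E₂) (h1 : s₁ ⊆ E₁)
    (h2 : s₂ ⊆ E₂) : (s₁ ∪ s₂) ∩ E₂ = s₂ := by
  rw [Finset.union_comm]
  exact inter_left hd.symm h2 h1

theorem main {ι : Type u} (p : ℝ) (E₁ E₂ : Finset ι) (hd : Disjoint E₁ E₂) (A : Set (Set ι)) :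
    Pr (E₁ ∪ E₂) p A = ∑ t ∈ E₁.powerset, p ^ t.card * (1 - p) ^ (E₁.card - t.card) *
      Pr E₂ p {s | (t : Set ι) ∪ s ∈ A} := by
  unfold Pr
  simp_rw [Finset.mul_sum]
  rw [Finset.sum_sigma']
  refine Finset.sum_nbij' (fun s => ⟨s ∩ E₁, s ∩ E₂⟩) (fun q => q.1 ∪ q.2) ?_ ?_ ?_ ?_ ?_
  · intro s hs
    simp only [Finset.mem_filter, Finset.mem_powerset] at hs
    simp only [Finset.mem_sigma, Finset.mem_filter, Finset.mem_powerset, Set.mem_ofPred_eq]
    refine ⟨Finset.inter_subset_right, Finset.inter_subset_right, ?_⟩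
    rw [← Finset.coe_union, ← Finset.inter_union_distrib_left, Finset.inter_eq_left.2 hs.1]
    exact hs.2
  · rintro ⟨s₁, s₂⟩ hq
    simp only [Finset.mem_sigma, Finset.mem_filter, Finset.mem_powerset, Set.mem_ofPred_eq] at hq
    obtain ⟨h1, h2, hA⟩ := hq
    simp only [Finset.mem_filter, Finset.mem_powerset]
    refine ⟨Finset.union_subset_union h1 h2, ?_⟩
    rw [Finset.coe_union]
    exact hA
  · intro s hs
    simp only [Finset.mem_filter, Finset.mem_powerset] at hs
    show s ∩ E₁ ∪ s ∩ E₂ = s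
    rw [← Finset.inter_union_distrib_left]
    exact Finset.inter_eq_left.2 hs.1
  · rintro ⟨s₁, s₂⟩ hq
    simp only [Finset.mem_sigma, Finset.mem_filter, Finset.mem_powerset] at hq
    obtain ⟨h1, h2, -⟩ := hq
    show (⟨(s₁ ∪ s₂) ∩ E₁, (s₁ ∪ s₂) ∩ E₂⟩ : (_ : Finset ι) × Finset ι) = ⟨s₁, s₂⟩
    rw [inter_left hd h1 h2, inter_right hd h1 h2]
  · intro s hs
    simp only [Finset.mem_filter, Finset.mem_powerset] at hs
    show p ^ s.card * (1 - p) ^ ((E₁ ∪ E₂).card - s.card) =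
      p ^ (s ∩ E₁).card * (1 - p) ^ (E₁.card - (s ∩ E₁).card) *
        (p ^ (s ∩ E₂).card * (1 - p) ^ (E₂.card - (s ∩ E₂).card))
    have hs' : s.card = (s ∩ E₁).card + (s ∩ E₂).card := by
      rw [← Finset.card_union_of_disjoint
        (hd.mono Finset.inter_subset_right Finset.inter_subset_right),
        ← Finset.inter_union_distrib_left, Finset.inter_eq_left.2 hs.1]
    have h1 : (s ∩ E₁).card ≤ E₁.card := Finset.card_le_card Finset.inter_subset_right
    have h2 : (s ∩ E₂).card ≤ E₂.card := Finset.card_le_card Finset.inter_subset_right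
    have hE : (E₁ ∪ E₂).card - s.card = (E₁.card - (s ∩ E₁).card) + (E₂.card - (s ∩ E₂).card) := by
      rw [Finset.card_union_of_disjoint hd]
      omega
    rw [hE, hs', pow_add, pow_add]
    ring

end IX_FA

/-- Item FA. -/
theorem pt_FA : StFA.{u} := by
  intro ι p
  refine ⟨fun E₁ E₂ hd A => IX_FA.main p E₁ E₂ hd A, fun E e he A => ?_⟩
  have hd : Disjoint ({e} : Finset ι) E := Finset.disjoint_singleton_left.2 he
  have h := IX_FA.main p {e} E hd A
  have hps : ({e} : Finset ι).powerset = {∅, {e}} := by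
    ext x
    simp [Finset.subset_singleton_iff]
  rw [← Finset.insert_eq, hps, Finset.sum_pair (by
    intro h0
    exact Finset.singleton_ne_empty e h0.symm)] at h
  rw [h]
  simp only [Finset.card_empty, Finset.card_singleton, Finset.coe_empty, Finset.coe_singleton,
    pow_zero, one_mul, Nat.sub_zero, pow_one, Set.empty_union, Nat.sub_self, mul_one,
    Set.ofPred_mem_eq, Set.singleton_union]
  rw [add_comm]

end Pool.Agent.Work.MP_c58d8b_pr.PT
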