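import Pool.Agent.Work.MP_c58d8b_pr.PT.Stmts2

set_option autoImplicit false

namespace Pool.Agent.Work.MP_c58d8b_pr.PT

open MeasureTheory ProbabilityTheory Set Filter Topology
open scoped ENNReal unitInterval Classical
open Pool.Agent.Work.MP_c58d8b_pr.SO

universe u

namespace IX_IA

/-- every vertex is in the slab `Sl x L L` for all large `L` -/
theorem mem_Sl (X : Sys.{u}) (x : X.T') (v : X.T × X.T') :
    ∃ K : ℕ, ∀ L : ℕ, K ≤ L → v ∈ X.Sl x L L := by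
  obtain ⟨m, n, hmn⟩ := X.tr'.common v.2 x
  refine ⟨max n ((X.h' x - X.h' v.2).toNat + 1), fun L hL => ?_⟩
  have h1 : n ≤ L := le_trans (le_max_left _ _) hL
  have h2 : (X.h' x - X.h' v.2).toNat + 1 ≤ L := le_trans (le_max_right _ _) hL
  have h3 : X.h' x - X.h' v.2 ≤ ((X.h' x - X.h' v.2).toNat : ℤ) := Int.self_le_toNat _
  refine ⟨⟨(L - n) + m, ?_⟩, ?_⟩
  · rw [Function.iterate_add_apply, hmn, ← Function.iterate_add_apply]
    unfold Sys.up
    rw [Nat.sub_add_cancel h1]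
  · have h4 : (((X.h' x - X.h' v.2).toNat + 1 : ℕ) : ℤ) ≤ (L : ℤ) := by exact_mod_cast h2
    push_cast at h4
    linarith

end IX_IA

theorem pt_IA (hQA : StQA.{u}) (hQC : StQC.{u}) (hVD : StVD.{u}) : StIA.{u} := by
  intro X p hp0 hp1 hBd
  unfold Sys.Bd at hBd
  push Not at hBd
  obtain ⟨S, t₀, s₀, x₀, j, hlt⟩ := hBd
  choose f hf using IX_IA.mem_Sl X x₀
  have hc := (hQA (X.T × X.T') X.G p hp0 hp1).1 S (t₀, x₀) (s₀, X.up j x₀)
  have hS : ∀ v ∈ S, v ∈ X.Sl x₀ (S.sup f) (S.sup f) := fun v hv => hf v _ (Finset.le_sup hv)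
  refine ⟨X.d t₀ s₀, j, S.sup f, tau X.G p S (t₀, x₀) (s₀, X.up j x₀), ?_, hc.2, hlt, ?_⟩
  · rcases lt_or_eq_of_le hc.1 with h | h
    · exact h
    · rw [← h, mul_zero] at hlt
      exact absurd hlt (by norm_num)
  · intro t s x hd
    refine ((hVD X p hp0 hp1).2.1 j x₀ t₀ s₀ x t s _ hd.symm).2.2.2 _ _ ⟨S, ?_⟩
    rw [(hQC (X.T × X.T')).2.1, Finset.filter_true_of_mem hS]

end Pool.Agent.Work.MP_c58d8b_pr.PT
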