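import Pool.Agent.Work.MP_c58d8b_pr.PT.Stmts2

/-!
# MP_c58d8b_pr, block PT, item IC (helper3): the block
-/

set_option autoImplicit false

namespace Pool.Agent.Work.MP_c58d8b_pr.PT

open MeasureTheory ProbabilityTheory Set Filter Topology
open scoped ENNReal unitInterval Classical
open Pool.Agent.Work.MP_c58d8b_pr.SO

universe u

namespace IX_IC

lemma up_up (X : Sys.{u}) (m n : ℕ) (x : X.T') : X.up m (X.up n x) = X.up (m + n) x := by
  unfold Sys.up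
  rw [Function.iterate_add_apply]

lemma desc_up (X : Sys.{u}) (hRA : StRA.{u}) (x : X.T') {k n : ℕ} (h : k ≤ n) :
    desc X.par' (X.up k x) ⊆ desc X.par' (X.up n x) := by
  obtain ⟨-, -, -, h4, -, -⟩ := hRA X.T' X.par' X.h' X.b X.tr'
  refine (h4 (X.up n x) (X.up k x) ?_).1
  refine ⟨n - k, ?_⟩
  unfold Sys.up
  rw [← Function.iterate_add_apply, Nat.sub_add_cancel h]

lemma mem_desc_self (X : Sys.{u}) (x : X.T') : x ∈ desc X.par' x := ⟨0, rfl⟩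

lemma h_up (X : Sys.{u}) (hRA : StRA.{u}) (x : X.T') (n : ℕ) :
    X.h' (X.up n x) = X.h' x + n :=
  (hRA X.T' X.par' X.h' X.b X.tr').1 n x

lemma mem_Sl_up (X : Sys.{u}) (hRA : StRA.{u}) (x : X.T') (s : X.T) {k n : ℕ} (h : k ≤ n)
    (hk : 1 ≤ k) : (s, X.up k x) ∈ X.Sl x n 0 := by
  refine ⟨desc_up X hRA x h (mem_desc_self X _), ?_⟩
  show X.h' x < X.h' (X.up k x) + ((0 : ℕ) : ℤ)
  rw [h_up X hRA]
  push_cast
  omega

end IX_IC

open IX_IC in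
theorem pt_IC (hQE : StQE.{u}) (hRA : StRA.{u}) (hRB : StRB.{u}) (hVP : StVP.{u})
    (hIA : StIA.{u}) (hIB : StIB.{u}) : StIC.{u} := by
  intro X p hp hp1 hBd
  obtain ⟨e, j, L, c₀, hc₀, hc₀1, hB, hA⟩ := hIA X p hp.le hp1 hBd
  have hchain := hIB X p hp.le hp1 e j L c₀ hc₀.le hc₀1 hA
  obtain ⟨qa, hqa1, hqa⟩ := hVP X p hp hp1 1
  obtain ⟨qb, hqb1, hqb⟩ := hVP X p hp hp1 0
  obtain ⟨δ₁, hδ₁, hδ₁1, h1⟩ := hqa (max qa L) (le_max_left _ _)
  obtain ⟨δ₂, hδ₂, hδ₂1, h2⟩ := hqb (max qb L) (le_max_left _ _)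
  have hq₁L : L ≤ max qa L := le_max_right _ _
  have hq₁1 : 1 ≤ max qa L := hqa1.trans (le_max_left _ _)
  have hq₂L : L ≤ max qb L := le_max_right _ _
  have hq₂1 : 1 ≤ max qb L := hqb1.trans (le_max_left _ _)
  generalize max qa L = q₁ at *
  generalize max qb L = q₂ at *
  have ha : (0 : ℝ) < X.a := by
    have := X.tr.two
    exact_mod_cast (by omega : 0 < X.a)
  have hb : (0 : ℝ) < √(X.b : ℝ) := by
    have := X.tr'.two
    exact Real.sqrt_pos.2 (by exact_mod_cast (by omega : 0 < X.b))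
  set K : ℝ := X.a * √(X.b : ℝ) ^ (q₁ + q₂) * δ₁ * δ₂ with hK
  have hKpos : 0 < K := by positivity
  obtain ⟨N, hN⟩ := pow_unbounded_of_one_lt (1 / K) hB
  obtain ⟨hmono, -, htrans, -, -, -, -, -⟩ := hQE (X.T × X.T') X.G p hp.le hp1
  obtain ⟨hd0, -, -, -, -, -, hmid, -, -, -⟩ := hRB X.T X.par X.h X.a X.tr
  have hc0N : 0 < c₀ ^ N := pow_pos hc₀ N
  have hc0N1 : c₀ ^ N ≤ 1 := pow_le_one₀ hc₀.le hc₀1
  refine ⟨1 + N * e, q₁ + N * j + q₂, δ₁ * c₀ ^ N * δ₂, by omega, by omega, by positivity, ?_, ?_, ?_⟩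
  · have h3 : δ₁ * c₀ ^ N ≤ 1 := mul_le_one₀ hδ₁1 hc0N.le hc0N1
    exact mul_le_one₀ h3 hδ₂.le hδ₂1
  · have h3 : (X.a : ℝ) ^ (1 + N * e) * √(X.b : ℝ) ^ (q₁ + N * j + q₂) * (δ₁ * c₀ ^ N * δ₂) =
        K * ((X.a : ℝ) ^ e * √(X.b : ℝ) ^ j * c₀) ^ N := by
      rw [hK, mul_pow, mul_pow, ← pow_mul, ← pow_mul, mul_comm e N, mul_comm j N]
      ring
    rw [h3]
    calc (1 : ℝ) = K * (1 / K) := by field_simp
      _ < K * ((X.a : ℝ) ^ e * √(X.b : ℝ) ^ j * c₀) ^ N := mul_lt_mul_of_pos_left hN hKpos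
  · intro t s x hts
    obtain ⟨r, hr1, hr2⟩ := hmid t s 1 (N * e) hts
    have hRg : ∀ v, v ∈ X.Sl x (q₁ + N * j + q₂) 0 → v ∈ X.Rg (q₁ + N * j + q₂) (t, x) :=
      fun v hv => Or.inr hv
    have s1 : Ach X.G (X.Rg (q₁ + N * j + q₂) (t, x)) p (t, x) (r, X.up q₁ x) δ₁ := by
      refine hmono _ _ _ _ _ ?_ (h1 t r x hr1).1
      rintro v (rfl | rfl | hv)
      · exact Or.inl rfl
      · exact hRg _ (mem_Sl_up X hRA x r (by omega) hq₁1)
      · exact hRg _ ⟨desc_up X hRA x (by omega) hv.1, hv.2⟩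
    have s2 : Ach X.G (X.Rg (q₁ + N * j + q₂) (t, x)) p (r, X.up q₁ x)
        (s, X.up (N * j) (X.up q₁ x)) (c₀ ^ N) := by
      refine hmono _ _ _ _ _ ?_ (hchain N r s (X.up q₁ x) hr2)
      rintro v ⟨hv1, hv2⟩
      refine hRg _ ⟨?_, ?_⟩
      · rw [up_up] at hv1
        exact desc_up X hRA x (by omega) hv1
      · rw [h_up X hRA] at hv2
        push_cast
        have : (L : ℤ) ≤ q₁ := by exact_mod_cast hq₁L
        linarith
    have s3 : Ach X.G (X.Rg (q₁ + N * j + q₂) (t, x)) p (s, X.up (N * j) (X.up q₁ x))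
        (s, X.up q₂ (X.up (N * j) (X.up q₁ x))) δ₂ := by
      refine hmono _ _ _ _ _ ?_ (h2 s s (X.up (N * j) (X.up q₁ x)) ((hd0 s s).2 rfl)).1
      rintro v (rfl | rfl | hv)
      · rw [up_up]
        exact hRg _ (mem_Sl_up X hRA x s (by omega) (by omega))
      · rw [up_up, up_up]
        exact hRg _ (mem_Sl_up X hRA x s (by omega) (by omega))
      · obtain ⟨hv1, hv2⟩ := hv
        refine hRg _ ⟨?_, ?_⟩
        · rw [up_up, up_up] at hv1
          exact desc_up X hRA x (by omega) hv1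
        · rw [up_up, h_up X hRA] at hv2
          push_cast at hv2 ⊢
          have h5 : (0 : ℤ) ≤ (N : ℤ) * j + q₁ := by positivity
          linarith
    have s4 := htrans _ _ _ _ _ _ (by positivity) hδ₂.le (htrans _ _ _ _ _ _ hδ₁.le hc0N.le s1 s2) s3
    have hup : X.up q₂ (X.up (N * j) (X.up q₁ x)) = X.up (q₁ + N * j + q₂) x := by
      rw [up_up, up_up]
      congr 1
      omega
    rw [hup] at s4
    exact s4

end Pool.Agent.Work.MP_c58d8b_pr.PT
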