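import Pool.Agent.Work.MP_c58d8b_pr.PT.Stmts2

/-!
# MP_c58d8b_pr, block PT, item ID: one step of the zigzag
-/

set_option autoImplicit false

namespace Pool.Agent.Work.MP_c58d8b_pr.PT

open MeasureTheory ProbabilityTheory Set Filter Topology
open scoped ENNReal unitInterval Classical
open Pool.Agent.Work.MP_c58d8b_pr.SO

universe u

namespace IX_ID

theorem mem_EI {V : Type u} (H : SimpleGraph V) (S : Finset V) (e : Sym2 V) :
    e ∈ EI H S ↔ ∃ a b : V, a ∈ S ∧ b ∈ S ∧ H.Adj a b ∧ s(a, b) = e := by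
  unfold EI
  rw [Finset.mem_image]
  constructor
  · rintro ⟨⟨a, b⟩, h, rfl⟩
    rw [Finset.mem_filter, Finset.mem_product] at h
    exact ⟨a, b, h.1.1, h.1.2, h.2, rfl⟩
  · rintro ⟨a, b, ha, hb, hab, rfl⟩
    refine ⟨(a, b), ?_, rfl⟩
    rw [Finset.mem_filter, Finset.mem_product]
    exact ⟨⟨ha, hb⟩, hab⟩

theorem EI_mono {V : Type u} {G : SimpleGraph V} {W W' : Set V} {S S' : Finset V} (hW : W' ⊆ W)
    (hS : S' ⊆ S) : EI (within G W') S' ⊆ EI (within G W) S := by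
  intro e he
  rw [mem_EI] at he ⊢
  obtain ⟨a, b, ha, hb, hab, rfl⟩ := he
  exact ⟨a, b, hS ha, hS hb, ⟨hab.1, hW hab.2.1, hW hab.2.2⟩, rfl⟩

theorem loc (hPB : StPB.{u}) (hPL : StPL.{u}) {V : Type u} (E E' : Finset (Sym2 V)) (p : ℝ)
    (hp0 : 0 ≤ p) (hp1 : p ≤ 1) (hE : E' ⊆ E) (a b : V) :
    Pr E p {r | b ∈ Cluster (r ∩ (E' : Set (Sym2 V))) a} = Pr E' p {r | b ∈ Cluster r a} := by
  rw [hPL (Sym2 V) E E' p hp0 hp1 hE {r | b ∈ Cluster (r ∩ (E' : Set (Sym2 V))) a} (by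
    intro s _
    simp only [Set.mem_ofPred_eq]
    rw [Set.inter_assoc, Set.inter_self])]
  obtain ⟨-, -, h3, -, -⟩ := hPB (Sym2 V) E' p hp0 hp1
  have e : ∀ s : Finset (Sym2 V), s ⊆ E' → (s : Set (Sym2 V)) ∩ (E' : Set (Sym2 V)) = s := by
    intro s hs
    exact Set.inter_eq_left.2 (by exact_mod_cast hs)
  apply le_antisymm
  · apply h3
    intro s hs h
    simp only [Set.mem_ofPred_eq] at h ⊢
    rwa [e s hs] at h
  · apply h3
    intro s hs h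
    simp only [Set.mem_ofPred_eq] at h ⊢
    rwa [e s hs]

/-- the abstract step -/
theorem key (hPB : StPB.{u}) (hPL : StPL.{u}) (hCB : StCB.{u}) (hFB : StFB.{u}) (hFU : StFU.{u})
    {V κ : Type u} (G : SimpleGraph V) (W : Set V) (p : ℝ) (hp0 : 0 ≤ p) (hp1 : p ≤ 1)
    (Y : Finset κ) (hY : Y.Nonempty) (W₁ W₂ W₃ : κ → Set V) (u v : V) (u' v' : κ → V) (c z : ℝ)
    (hc : 0 ≤ c) (hz : 0 ≤ z) (hz1 : z ≤ 1)
    (hW₁ : ∀ y ∈ Y, W₁ y ⊆ W) (hW₂ : ∀ y ∈ Y, W₂ y ⊆ W) (hW₃ : ∀ y ∈ Y, W₃ y ⊆ W)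
    (h1 : ∀ y ∈ Y, Ach G (W₁ y) p (u' y) u c) (h2 : ∀ y ∈ Y, Ach G (W₂ y) p (v' y) v c)
    (h3 : ∀ y ∈ Y, Ach G (W₃ y) p (u' y) (v' y) z)
    (d1 : ∀ y ∈ Y, ∀ y' ∈ Y, ∀ a b, G.Adj a b → a ∈ W₁ y → b ∈ W₁ y → a ∈ W₃ y' → b ∈ W₃ y' →
      False)
    (d2 : ∀ y ∈ Y, ∀ y' ∈ Y, ∀ a b, G.Adj a b → a ∈ W₂ y → b ∈ W₂ y → a ∈ W₃ y' → b ∈ W₃ y' →
      False)
    (d3 : ∀ y ∈ Y, ∀ y' ∈ Y, y ≠ y' → ∀ a, a ∈ W₃ y → a ∈ W₃ y' → False) :
    Ach G W p u v (Y.card * c ^ 2 * z * (1 - Y.card * z / 2)) ∧ Ach G W p u v (c ^ 2 * z) := by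
  have h1' : ∀ y ∈ Y, ∃ S : Finset V, c ≤ tau (within G (W₁ y)) p S (u' y) u := h1
  have h2' : ∀ y ∈ Y, ∃ S : Finset V, c ≤ tau (within G (W₂ y)) p S (v' y) v := h2
  have h3' : ∀ y ∈ Y, ∃ S : Finset V, z ≤ tau (within G (W₃ y)) p S (u' y) (v' y) := h3
  choose! S₁ hS₁ using h1'
  choose! S₂ hS₂ using h2'
  choose! S₃ hS₃ using h3'
  obtain ⟨S, hS⟩ : ∃ S : Finset V, ∀ y ∈ Y, S₁ y ⊆ S ∧ S₂ y ⊆ S ∧ S₃ y ⊆ S := by
    refine ⟨Y.biUnion (fun y => S₁ y ∪ (S₂ y ∪ S₃ y)), fun y hy => ⟨?_, ?_, ?_⟩⟩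
    · intro a ha
      rw [Finset.mem_biUnion]
      exact ⟨y, hy, Finset.mem_union_left _ ha⟩
    · intro a ha
      rw [Finset.mem_biUnion]
      exact ⟨y, hy, Finset.mem_union_right _ (Finset.mem_union_left _ ha)⟩
    · intro a ha
      rw [Finset.mem_biUnion]
      exact ⟨y, hy, Finset.mem_union_right _ (Finset.mem_union_right _ ha)⟩
  obtain ⟨E₀, hE₀⟩ : ∃ E₀ : Finset (Sym2 V), ∀ e, e ∈ E₀ ↔ ∃ y ∈ Y,
      e ∈ EI (within G (W₁ y)) (S₁ y) ∨ e ∈ EI (within G (W₂ y)) (S₂ y) := by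
    refine ⟨Y.biUnion (fun y => EI (within G (W₁ y)) (S₁ y) ∪ EI (within G (W₂ y)) (S₂ y)), ?_⟩
    intro e
    rw [Finset.mem_biUnion]
    simp only [Finset.mem_union]
  have sub1 : ∀ y ∈ Y, EI (within G (W₁ y)) (S₁ y) ⊆ E₀ := fun y hy e he =>
    (hE₀ e).2 ⟨y, hy, Or.inl he⟩
  have sub2 : ∀ y ∈ Y, EI (within G (W₂ y)) (S₂ y) ⊆ E₀ := fun y hy e he =>
    (hE₀ e).2 ⟨y, hy, Or.inr he⟩
  obtain ⟨E, hE⟩ : ∃ E : Finset (Sym2 V), E = EI (within G W) S := ⟨_, rfl⟩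
  have hE₀E : E₀ ⊆ E := by
    intro e he
    rw [hE]
    obtain ⟨y, hy, h | h⟩ := (hE₀ e).1 he
    · exact EI_mono (hW₁ y hy) (hS y hy).1 h
    · exact EI_mono (hW₂ y hy) (hS y hy).2.1 h
  have hFE : ∀ y ∈ Y, EI (within G (W₃ y)) (S₃ y) ⊆ E := by
    intro y hy
    rw [hE]
    exact EI_mono (hW₃ y hy) (hS y hy).2.2
  have dis1 : ∀ y ∈ Y, Disjoint E₀ (EI (within G (W₃ y)) (S₃ y)) := by
    intro y' hy'
    rw [Finset.disjoint_left]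
    intro e he he'
    obtain ⟨y, hy, h | h⟩ := (hE₀ e).1 he
    · rw [mem_EI] at h he'
      obtain ⟨a, b, -, -, hab, rfl⟩ := h
      obtain ⟨a', b', -, -, hab', he'⟩ := he'
      rcases Sym2.eq_iff.1 he' with ⟨rfl, rfl⟩ | ⟨rfl, rfl⟩
      · exact d1 y hy y' hy' _ _ hab.1 hab.2.1 hab.2.2 hab'.2.1 hab'.2.2
      · exact d1 y hy y' hy' _ _ hab.1 hab.2.1 hab.2.2 hab'.2.2 hab'.2.1
    · rw [mem_EI] at h he'
      obtain ⟨a, b, -, -, hab, rfl⟩ := h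
      obtain ⟨a', b', -, -, hab', he'⟩ := he'
      rcases Sym2.eq_iff.1 he' with ⟨rfl, rfl⟩ | ⟨rfl, rfl⟩
      · exact d2 y hy y' hy' _ _ hab.1 hab.2.1 hab.2.2 hab'.2.1 hab'.2.2
      · exact d2 y hy y' hy' _ _ hab.1 hab.2.1 hab.2.2 hab'.2.2 hab'.2.1
  have dis2 : ∀ y ∈ Y, ∀ y' ∈ Y, y ≠ y' → Disjoint (EI (within G (W₃ y)) (S₃ y))
      (EI (within G (W₃ y')) (S₃ y')) := by
    intro y hy y' hy' hne
    rw [Finset.disjoint_left]
    intro e he he'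
    rw [mem_EI] at he he'
    obtain ⟨a, b, -, -, hab, rfl⟩ := he
    obtain ⟨a', b', -, -, hab', he'⟩ := he'
    rcases Sym2.eq_iff.1 he' with ⟨rfl, rfl⟩ | ⟨rfl, rfl⟩
    · exact d3 y hy y' hy' hne _ hab.2.1 hab'.2.1
    · exact d3 y hy y' hy' hne _ hab.2.1 hab'.2.2
  obtain ⟨D, hD⟩ : ∃ D : κ → Set (Set (Sym2 V)), D = fun y =>
      {r | u ∈ Cluster (r ∩ (EI (within G (W₁ y)) (S₁ y) : Set (Sym2 V))) (u' y)} ∩
      {r | v ∈ Cluster (r ∩ (EI (within G (W₂ y)) (S₂ y) : Set (Sym2 V))) (v' y)} := ⟨_, rfl⟩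
  have hmono : ∀ (E' : Finset (Sym2 V)) (a b : V),
      Inc {r : Set (Sym2 V) | b ∈ Cluster (r ∩ (E' : Set (Sym2 V))) a} := by
    intro E' a b s t hst h
    obtain ⟨-, -, -, h4, -, -⟩ := hCB V (s ∩ (E' : Set (Sym2 V)))
    exact h4 _ (Set.inter_subset_inter_left _ hst) a h
  have hDpr : ∀ y ∈ Y, c ^ 2 ≤ Pr E₀ p (D y) := by
    intro y hy
    have k := hFB (Sym2 V) E₀ p hp0 hp1 _ _
      (hmono (EI (within G (W₁ y)) (S₁ y)) (u' y) u)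
      (hmono (EI (within G (W₂ y)) (S₂ y)) (v' y) v)
    rw [loc hPB hPL E₀ _ p hp0 hp1 (sub1 y hy), loc hPB hPL E₀ _ p hp0 hp1 (sub2 y hy)] at k
    have k1 : c ≤ Pr (EI (within G (W₁ y)) (S₁ y)) p {r | u ∈ Cluster r (u' y)} := hS₁ y hy
    have k2 : c ≤ Pr (EI (within G (W₂ y)) (S₂ y)) p {r | v ∈ Cluster r (v' y)} := hS₂ y hy
    rw [hD]
    calc c ^ 2 = c * c := by ring
      _ ≤ _ := mul_le_mul k1 k2 hc (hc.trans k1)
      _ ≤ _ := k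
  have hfu := hFU (Sym2 V) κ E E₀ p hp0 hp1 Y (fun y => EI (within G (W₃ y)) (S₃ y)) D
    (fun y => {r | v' y ∈ Cluster r (u' y)}) (c ^ 2) z hE₀E hFE dis1 dis2 (by positivity) hz hz1
    hDpr (fun y hy => hS₃ y hy) hY
  have hfin : Pr E p {s | ∃ y ∈ Y, s ∩ (E₀ : Set (Sym2 V)) ∈ D y ∧
      s ∩ ((EI (within G (W₃ y)) (S₃ y) : Finset (Sym2 V)) : Set (Sym2 V)) ∈
        {r | v' y ∈ Cluster r (u' y)}} ≤ tau (within G W) p S u v := by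
    obtain ⟨-, -, h3, -, -⟩ := hPB (Sym2 V) E p hp0 hp1
    have k := h3 {s | ∃ y ∈ Y, s ∩ (E₀ : Set (Sym2 V)) ∈ D y ∧
      s ∩ ((EI (within G (W₃ y)) (S₃ y) : Finset (Sym2 V)) : Set (Sym2 V)) ∈
        {r | v' y ∈ Cluster r (u' y)}} {s | v ∈ Cluster s u} (by
      rintro s hs ⟨y, hy, hDy, hZy⟩
      obtain ⟨-, c2, c3, -, -, -⟩ := hCB V (s : Set (Sym2 V))
      rw [hD] at hDy
      obtain ⟨hD1, hD2⟩ := hDy
      simp only [Set.mem_ofPred_eq] at hD1 hD2 hZy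
      have m1 : u ∈ Cluster (s : Set (Sym2 V)) (u' y) :=
        (hCB V _).2.2.2.1 _ (Set.inter_subset_left.trans Set.inter_subset_left) _ hD1
      have m2 : v ∈ Cluster (s : Set (Sym2 V)) (v' y) :=
        (hCB V _).2.2.2.1 _ (Set.inter_subset_left.trans Set.inter_subset_left) _ hD2
      have m3 : v' y ∈ Cluster (s : Set (Sym2 V)) (u' y) :=
        (hCB V _).2.2.2.1 _ Set.inter_subset_left _ hZy
      exact c3 _ _ _ (c2 _ _ m1) (c3 _ _ _ m3 m2))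
    rw [hE] at k ⊢
    exact k
  exact ⟨⟨S, hfu.1.trans hfin⟩, ⟨S, hfu.2.trans hfin⟩⟩

end IX_ID

theorem pt_ID (hPB : StPB.{u}) (hPL : StPL.{u}) (hCB : StCB.{u}) (hFB : StFB.{u})
    (hFU : StFU.{u}) (hRA : StRA.{u}) (hRB : StRB.{u}) : StID.{u} := by
  intro X p hp0 hp1 i n m c z hn hc hz hz1 h1 h2 t s x hts
  obtain ⟨r1, -, r3, r4, r5, r6⟩ := hRA X.T' X.par' X.h' X.b X.tr'
  obtain ⟨-, hsym, -, -, -, -, hmid, -⟩ := hRB X.T X.par X.h X.a X.tr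
  obtain ⟨t', ht1, ht2⟩ := hmid t s i (m + i) (by
    have : td X.par t s = m + 2 * i := hts
    rw [this]
    ring)
  obtain ⟨s', hs1, hs2⟩ := hmid t' s m i ht2
  obtain ⟨hfin, hncard⟩ := r3 n x
  obtain ⟨Y, hYe⟩ : ∃ Y : Finset X.T', Y = hfin.toFinset := ⟨_, rfl⟩
  have hYm : ∀ y, y ∈ Y ↔ X.up n y = x := by
    intro y
    rw [hYe, Set.Finite.mem_toFinset]
    rfl
  have hYc : Y.card = X.b ^ n := by
    rw [hYe, ← Set.ncard_eq_toFinset_card _ hfin, hncard]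
  have hb2 := X.tr'.two
  have hYn : Y.Nonempty := by
    rw [← Finset.card_pos, hYc]
    positivity
  -- heights
  have hup : ∀ y ∈ Y, X.h' x = X.h' y + n := by
    intro y hy
    rw [← (hYm y).1 hy]
    exact r1 n y
  have hdesc : ∀ y ∈ Y, y ∈ desc X.par' x := fun y hy => ⟨n, (hYm y).1 hy⟩
  have hDn : ∀ y ∈ Y, X.Dn y ⊆ X.Dn x := by
    intro y hy v hv
    exact (r4 x y (hdesc y hy)).1 hv
  have hRg : ∀ y ∈ Y, ∀ a : X.T, X.Rg n (a, y) ⊆ X.Dn x := by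
    intro y hy a v hv
    rcases hv with rfl | hv
    · exact hdesc y hy
    · have := hv.1
      rwa [show X.up n ((a, y) : X.T × X.T').2 = x from (hYm y).1 hy] at this
  have hd1 : ∀ y ∈ Y, ∀ y' ∈ Y, ∀ (t₁ : X.T) (a b : X.T × X.T'), X.G.Adj a b →
      a ∈ X.Rg n (t₁, y) → b ∈ X.Rg n (t₁, y) → a ∈ X.Dn y' → b ∈ X.Dn y' → False := by
    intro y hy y' hy' t₁ a b hab ha hb ha' hb'
    have hy1 := hup y hy
    have hy2 := hup y' hy'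
    have key2 : ∀ w : X.T × X.T', w ∈ X.Rg n (t₁, y) → w ∈ X.Dn y' → w = (t₁, y) := by
      intro w hw hw'
      rcases hw with hw | hw
      · exact hw
      · exfalso
        have k1 : X.h' y < X.h' w.2 + ((0 : ℕ) : ℤ) := hw.2
        have k2 := (r4 y' w.2 hw').2.1
        push_cast at k1
        linarith
    rw [key2 a ha ha', key2 b hb hb'] at hab
    exact X.G.irrefl hab
  have hres := IX_ID.key hPB hPL hCB hFB hFU X.G (X.Dn x) p hp0 hp1 Y hYn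
    (fun y => X.Rg n (t', y)) (fun y => X.Rg n (s', y)) (fun y => X.Dn y) (t, x) (s, x)
    (fun y => (t', y)) (fun y => (s', y)) c z hc hz hz1
    (fun y hy => hRg y hy t') (fun y hy => hRg y hy s') hDn
    (fun y hy => by
      have := h1 t' t y (by
        have : td X.par t' t = i := by rw [hsym, ht1]
        exact this)
      rwa [(hYm y).1 hy] at this)
    (fun y hy => by
      have := h1 s' s y hs2
      rwa [(hYm y).1 hy] at this)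
    (fun y hy => h2 t' s' y hs1)
    (fun y hy y' hy' a b => hd1 y hy y' hy' t' a b)
    (fun y hy y' hy' a b => hd1 y hy y' hy' s' a b)
    (by
      intro y hy y' hy' hne a ha ha'
      apply hne
      have hh : X.h' y = X.h' y' := by
        have := hup y hy
        have := hup y' hy'
        linarith
      have hd := r6 y y' a.2 ha ha' hh.le
      have := (r4 y' y hd).2.2
      rw [hh, sub_self] at this
      exact this)
  rw [hYc] at hres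
  push_cast at hres
  exact hres

end Pool.Agent.Work.MP_c58d8b_pr.PT
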