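import Pool.Agent.Work.MP_c58d8b_pr.PT.Stmts2

/-!
# Block PT, item IE: iteration of the zigzag step
-/

set_option autoImplicit false

namespace Pool.Agent.Work.MP_c58d8b_pr.PT

theorem pt_IE : StIE := by
  intro a i K c Q ha hi hK hc hc1 hbig hQ0 hQle hstep
  have ha0 : 0 < a := by linarith
  have hA : 1 < a ^ (2 * i) := one_lt_pow₀ ha (by omega)
  have hA0 : 0 < a ^ (2 * i) := by linarith
  have hKc : 0 < K * c ^ 2 := by positivity
  -- choice of mu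
  have h1 : (a ^ (2 * i))⁻¹ < min 1 (K * c ^ 2) := by
    rw [lt_min_iff]
    refine ⟨inv_lt_one_of_one_lt₀ hA, ?_⟩
    rw [inv_lt_iff_one_lt_mul₀ hA0]
    nlinarith [hbig]
  obtain ⟨μ, hμ1, hμ2⟩ := exists_between h1
  have hμ0 : 0 < μ := lt_trans (inv_pos.2 hA0) hμ1
  rw [lt_min_iff] at hμ2
  obtain ⟨hμ2, hμ3⟩ := hμ2
  have hAμ : 1 < a ^ (2 * i) * μ := by
    rw [inv_lt_iff_one_lt_mul₀ hA0] at hμ1
    linarith [mul_comm μ (a ^ (2 * i))]
  -- choice of eps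
  set ε : ℝ := min 1 (2 * (K * c ^ 2 - μ) / (K ^ 2 * c ^ 2)) with hε
  have hε0 : 0 < ε := by
    rw [hε, lt_min_iff]
    refine ⟨one_pos, ?_⟩
    apply div_pos (by linarith) (by positivity)
  have hε1 : ε ≤ 1 := min_le_left _ _
  have hε2 : K ^ 2 * c ^ 2 * ε ≤ 2 * (K * c ^ 2 - μ) := by
    have h2 : ε ≤ 2 * (K * c ^ 2 - μ) / (K ^ 2 * c ^ 2) := min_le_right _ _
    rw [le_div_iff₀ (by positivity)] at h2
    linarith
  have hc2 : c ^ 2 ≤ 1 := pow_le_one₀ hc.le hc1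
  have hcp : 0 < c ^ 2 := by positivity
  have hδ0 : 0 < c ^ 2 * ε := by positivity
  have hδ1 : c ^ 2 * ε ≤ 1 := mul_le_one₀ hc2 hε0.le hε1
  -- the claim
  have key : ∀ N : ℕ, ∃ z : ℝ, c ^ 2 * ε * μ ^ N ≤ z ∧ z ≤ 1 ∧ Q (2 * i * N) z := by
    intro N
    induction N with
    | zero => exact ⟨1, by simpa using hδ1, le_rfl, by simpa using hQ0⟩
    | succ N ih =>
      obtain ⟨z, hz1, hz2, hz3⟩ := ih
      have hz0 : 0 < z := lt_of_lt_of_le (by positivity) hz1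
      obtain ⟨hs1, hs2⟩ := hstep (2 * i * N) z hz0.le hz2 hz3
      have he : 2 * i * (N + 1) = 2 * i * N + 2 * i := by ring
      rw [he]
      by_cases hzε : z ≤ ε
      · refine ⟨_, ?_, hQle _ _ hs1, hs1⟩
        have h3 : μ ≤ K * c ^ 2 * (1 - K * z / 2) := by
          have h4 : K ^ 2 * c ^ 2 * z ≤ K ^ 2 * c ^ 2 * ε :=
            mul_le_mul_of_nonneg_left hzε (by positivity)
          nlinarith [h4, hε2]
        calc c ^ 2 * ε * μ ^ (N + 1) = (c ^ 2 * ε * μ ^ N) * μ := by ring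
          _ ≤ z * μ := mul_le_mul_of_nonneg_right hz1 hμ0.le
          _ ≤ z * (K * c ^ 2 * (1 - K * z / 2)) := mul_le_mul_of_nonneg_left h3 hz0.le
          _ = K * c ^ 2 * z * (1 - K * z / 2) := by ring
      · push Not at hzε
        refine ⟨_, ?_, hQle _ _ hs2, hs2⟩
        have h5 : μ ^ (N + 1) ≤ 1 := pow_le_one₀ hμ0.le hμ2.le
        calc c ^ 2 * ε * μ ^ (N + 1) ≤ c ^ 2 * ε * 1 :=
              mul_le_mul_of_nonneg_left h5 hδ0.le
          _ = c ^ 2 * ε := mul_one _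
          _ ≤ c ^ 2 * z := mul_le_mul_of_nonneg_left hzε.le hcp.le
  -- conclusion
  obtain ⟨N, hN⟩ := pow_unbounded_of_one_lt (1 / (c ^ 2 * ε)) hAμ
  obtain ⟨z, hz1, hz2, hz3⟩ := key (N + 1)
  have hz0 : 0 < z := lt_of_lt_of_le (by positivity) hz1
  refine ⟨2 * i * (N + 1), z, ?_, hz0, hz3, ?_⟩
  · have : 1 ≤ 2 * i * (N + 1) := Nat.one_le_iff_ne_zero.2 (by positivity)
    exact this
  · rw [div_lt_iff₀ hδ0] at hN
    have h6 : (a ^ (2 * i) * μ) ^ N ≤ (a ^ (2 * i) * μ) ^ (N + 1) :=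
      pow_le_pow_right₀ hAμ.le (Nat.le_succ N)
    calc (1 : ℝ) ≤ (a ^ (2 * i) * μ) ^ N * (c ^ 2 * ε) := hN.le
      _ ≤ (a ^ (2 * i) * μ) ^ (N + 1) * (c ^ 2 * ε) :=
        mul_le_mul_of_nonneg_right h6 hδ0.le
      _ = a ^ (2 * i * (N + 1)) * (c ^ 2 * ε * μ ^ (N + 1)) := by
        rw [mul_pow, ← pow_mul]; ring
      _ ≤ a ^ (2 * i * (N + 1)) * z := mul_le_mul_of_nonneg_left hz1 (by positivity)

end Pool.Agent.Work.MP_c58d8b_pr.PT
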