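import Pool.Agent.Work.MP_c58d8b_pr.PT.Stmts2

/-!
# MP_c58d8b_pr, block PT, item IF (helper42): a good horizontal connection
-/

set_option autoImplicit false

namespace Pool.Agent.Work.MP_c58d8b_pr.PT

open MeasureTheory ProbabilityTheory Set Filter Topology
open scoped ENNReal unitInterval Classical
open Pool.Agent.Work.MP_c58d8b_pr.SO

universe u

/-- item IF -/
theorem pt_IF (hQA : StQA.{u}) (hQE : StQE.{u}) (hRB : StRB.{u}) (hIC : StIC.{u})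
    (hID : StID.{u}) (hIE : StIE) : StIF.{u} := by
  intro X p hp hp1 hB
  obtain ⟨i, n, c, hi, hn, hc, hc1, h1, hblock⟩ := hIC X p hp hp1 hB
  have ha2 : (2 : ℝ) ≤ (X.a : ℝ) := by exact_mod_cast X.tr.two
  have hb2 : (2 : ℝ) ≤ (X.b : ℝ) := by exact_mod_cast X.tr'.two
  have hb0 : (0 : ℝ) ≤ (X.b : ℝ) := by linarith
  have hone : ∀ (m : ℕ) (z : ℝ),
      (∀ t s x, X.d t s = m → Ach X.G (X.Dn x) p (t, x) (s, x) z) → z ≤ 1 := by
    intro m z hQ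
    obtain ⟨⟨t, x⟩⟩ := X.conn.nonempty
    obtain ⟨s, hs⟩ := (hRB X.T X.par X.h X.a X.tr).2.2.2.2.2.2.2.1 t m
    exact ((hQE (X.T × X.T') X.G p hp.le hp1).2.2.2.1 (X.Dn x) (t, x) (s, x) z (hQ t s x hs)).2
  have hsq : (1 : ℝ) < (X.a : ℝ) ^ (2 * i) * (X.b : ℝ) ^ n * c ^ 2 := by
    have h2 : ((X.a : ℝ) ^ i * √(X.b : ℝ) ^ n * c) ^ 2 =
        (X.a : ℝ) ^ (2 * i) * (X.b : ℝ) ^ n * c ^ 2 := by
      rw [mul_pow, mul_pow, ← pow_mul, mul_comm i 2, ← pow_mul (√(X.b : ℝ)), mul_comm n 2,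
        pow_mul (√(X.b : ℝ)), Real.sq_sqrt hb0]
    rw [← h2]
    exact one_lt_pow₀ h1 two_ne_zero
  obtain ⟨m, z, hm, hz, hQ, hmz⟩ := hIE (X.a : ℝ) i ((X.b : ℝ) ^ n) c
    (fun m z => ∀ t s x, X.d t s = m → Ach X.G (X.Dn x) p (t, x) (s, x) z)
    (by linarith) hi (pow_pos (by linarith) n) hc hc1 hsq
    (by
      intro t s x hd
      have hts : t = s := ((hRB X.T X.par X.h X.a X.tr).1 t s).1 hd
      subst hts
      exact ⟨∅, ((hQA (X.T × X.T') (within X.G (X.Dn x)) p hp.le hp1).2.1 ∅ (t, x)).ge⟩)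
    hone
    (by
      intro m z hz hz1 hQ
      exact ⟨fun t s x hd =>
          (hID X p hp.le hp1 i n m c z hn hc.le hz hz1 hblock hQ t s x hd).1,
        fun t s x hd => (hID X p hp.le hp1 i n m c z hn hc.le hz hz1 hblock hQ t s x hd).2⟩)
  exact ⟨m, z, hm, hz, hone m z hQ, hmz, hQ⟩

end Pool.Agent.Work.MP_c58d8b_pr.PT
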