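import Pool.Agent.Work.MP_c58d8b_pr.PT.Stmts2

/-!
# MP_c58d8b_pr, block PT, item IG (helper52): finite connected sets
-/

set_option autoImplicit false

namespace Pool.Agent.Work.MP_c58d8b_pr.PT

open MeasureTheory ProbabilityTheory Set Filter Topology
open scoped ENNReal unitInterval Classical
open Pool.Agent.Work.MP_c58d8b_pr.SO

universe u

namespace IX_IG

variable {V : Type u}

theorem reach_mono {H : SimpleGraph V} {S S' : Set V} (h : S ⊆ S') {x y : V}
    (hr : (within H S).Reachable x y) : (within H S').Reachable x y := by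
  refine SimpleGraph.Reachable.mono ?_ hr
  intro a b hab
  exact ⟨hab.1, h hab.2.1, h hab.2.2⟩

theorem reach_image {H : SimpleGraph V} (φ : Equiv.Perm V)
    (hφ : ∀ x y, H.Adj (φ x) (φ y) ↔ H.Adj x y) {S : Finset V} {x y : V}
    (hr : (within H (S : Set V)).Reachable x y) :
    (within H ((S.image φ : Finset V) : Set V)).Reachable (φ x) (φ y) := by
  have hm : ∀ a ∈ S, φ a ∈ ((S.image φ : Finset V) : Set V) := by
    intro a ha
    exact Finset.mem_coe.2 (Finset.mem_image_of_mem _ ha)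
  let f : within H (S : Set V) →g within H ((S.image φ : Finset V) : Set V) :=
    { toFun := φ
      map_rel' := by
        intro a b hab
        exact ⟨(hφ a b).2 hab.1, hm a (Finset.mem_coe.1 hab.2.1), hm b (Finset.mem_coe.1 hab.2.2)⟩ }
  exact hr.map f

theorem img (hQC : StQC.{u}) {H : SimpleGraph V} (φ : Equiv.Perm V)
    (hφ : ∀ x y, H.Adj (φ x) (φ y) ↔ H.Adj x y) (S : Finset V) (p : ℝ) :
    ∃ S' : Finset V, S'.card ≤ S.card ∧ (∀ w ∈ S, φ w ∈ S') ∧ (∀ v ∈ S', ∃ w ∈ S, φ w = v) ∧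
      (∀ x y, (within H (S : Set V)).Reachable x y →
        (within H (S' : Set V)).Reachable (φ x) (φ y)) ∧
      ∀ x y, tau H p S' (φ x) (φ y) = tau H p S x y :=
  ⟨S.image φ, Finset.card_image_le, fun w hw => Finset.mem_image_of_mem _ hw,
    fun v hv => Finset.mem_image.1 hv, fun _ _ hr => reach_image φ hφ hr,
    fun x y => (hQC V).1 H H φ hφ p S x y⟩

end IX_IG

open IX_IG

/-- [IG] Finite connected sets. -/
theorem pt_IG (hQB : StQB.{u}) (hQC : StQC.{u}) (hQD : StQD.{u}) (hRC : StRC.{u}) : StIG.{u} := by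
  intro X p hp0 hp1 m z hA
  by_cases hex : ∃ (t s : X.T) (x : X.T'), X.d t s = m
  swap
  · refine ⟨0, 0, ?_⟩
    intro t s x hd
    exact absurd ⟨t, s, x, hd⟩ hex
  obtain ⟨t₁, s₁, x₁, hd₁⟩ := hex
  obtain ⟨S₁, hS₁⟩ := hA t₁ s₁ x₁ hd₁
  have hpath : ∀ v : X.T × X.T', ∃ S : Finset (X.T × X.T'), (t₁, x₁) ∈ S ∧ v ∈ S ∧
      ∀ w ∈ S, (within X.G (S : Set (X.T × X.T'))).Reachable (t₁, x₁) w := by
    intro v
    exact (hQD (X.T × X.T') X.G).2 (t₁, x₁) v (X.conn.preconnected _ _)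
  choose P hP using hpath
  let S : Finset (X.T × X.T') := (insert (s₁, x₁) S₁).biUnion P
  have hPS : ∀ v ∈ insert (s₁, x₁) S₁, P v ⊆ S := fun v hv =>
    Finset.subset_biUnion_of_mem P hv
  have hsub : S₁ ⊆ S := fun v hv =>
    hPS v (Finset.mem_insert_of_mem hv) (hP v).2.1
  have hs₁ : (s₁, x₁) ∈ S := hPS _ (Finset.mem_insert_self _ _) (hP _).2.1
  have ht₁ : (t₁, x₁) ∈ S := hPS _ (Finset.mem_insert_self _ _) (hP (s₁, x₁)).1
  have hreach : ∀ w ∈ S, (within X.G (S : Set (X.T × X.T'))).Reachable (t₁, x₁) w := by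
    intro w hw
    obtain ⟨v, hv, hwv⟩ := Finset.mem_biUnion.1 hw
    exact reach_mono (Finset.coe_subset.2 (hPS v hv)) ((hP v).2.2 w hwv)
  have htau : z ≤ tau X.G p S (t₁, x₁) (s₁, x₁) := by
    refine hS₁.trans ?_
    refine (hQB (X.T × X.T')).1 _ _ S₁ S p p ?_ hsub hp0 le_rfl hp1 _ _
    intro a b hab
    exact hab.1
  refine ⟨S.card, S.sup fun v => max (X.d t₁ v.1) (X.h' v.2 - X.h' x₁).natAbs, ?_⟩
  intro t s x hd
  obtain ⟨α, hα, hαt, hαs⟩ := X.hom t₁ s₁ t s (hd₁.trans hd.symm)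
  obtain ⟨β, hβ, hβx⟩ := X.mov' x₁ x
  have hadj : ∀ u v : X.T × X.T', X.G.Adj (Equiv.prodCongr α β u) (Equiv.prodCongr α β v) ↔
      X.G.Adj u v := fun u v => X.inv α hα β hβ u v
  have hφt : Equiv.prodCongr α β (t₁, x₁) = (t, x) := by
    show (α t₁, β x₁) = (t, x)
    rw [hαt, hβx]
  have hφs : Equiv.prodCongr α β (s₁, x₁) = (s, x) := by
    show (α s₁, β x₁) = (s, x)
    rw [hαs, hβx]
  obtain ⟨S', hcard, hin, hout, hre, hta⟩ := img hQC (Equiv.prodCongr α β) hadj S p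
  refine ⟨S', hcard, ?_, ?_, ?_, ?_⟩
  · rw [← hφt]
    exact hin _ ht₁
  · rw [← hφs]
    exact hin _ hs₁
  · intro v' hv'
    obtain ⟨v, hv, rfl⟩ := hout v' hv'
    have hle : max (X.d t₁ v.1) (X.h' v.2 - X.h' x₁).natAbs ≤
        S.sup fun v => max (X.d t₁ v.1) (X.h' v.2 - X.h' x₁).natAbs :=
      Finset.le_sup (f := fun v : X.T × X.T' => max (X.d t₁ v.1) (X.h' v.2 - X.h' x₁).natAbs) hv
    refine ⟨?_, ?_, ?_⟩
    · have h1 : X.d t (α v.1) = X.d t₁ v.1 := by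
        rw [← hαt]
        exact X.iso α hα t₁ v.1
      show X.d t (α v.1) ≤ _
      rw [h1]
      exact (le_max_left _ _).trans hle
    · have h2 : X.h' (β v.2) - X.h' x = X.h' v.2 - X.h' x₁ := by
        rw [← hβx]
        exact (hRC X.T' X.par' X.h' X.b X.tr' β (X.com' β hβ)).2.2.1 v.2 x₁
      show |X.h' (β v.2) - X.h' x| ≤ _
      rw [h2, Int.abs_eq_natAbs]
      exact_mod_cast (le_max_right _ _).trans hle
    · rw [← hφt]
      exact hre _ _ (hreach v hv)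
  · have h3 := hta (t₁, x₁) (s₁, x₁)
    rw [hφt, hφs] at h3
    rw [h3]
    exact htau

end Pool.Agent.Work.MP_c58d8b_pr.PT
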