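import Pool.Agent.Work.MP_c58d8b_pr.PT.Stmts2

/-!
# MP_c58d8b_pr, block PT, item JA: first bounds
-/

set_option autoImplicit false

namespace Pool.Agent.Work.MP_c58d8b_pr.PT

open MeasureTheory ProbabilityTheory Set Filter Topology
open scoped ENNReal unitInterval Classical
open Pool.Agent.Work.MP_c58d8b_pr.SO

universe u

namespace IX_JA

theorem bpos (X : Sys.{u}) : (0 : ℝ) < X.b := by
  have := X.tr'.two
  exact_mod_cast (by omega : 0 < X.b)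

theorem apos (X : Sys.{u}) : (0 : ℝ) < X.a := by
  have := X.tr.two
  exact_mod_cast (by omega : 0 < X.a)

theorem om_nonneg (X : Sys.{u}) (t s : X.T) : 0 ≤ X.om t s :=
  zpow_nonneg (Real.sqrt_nonneg _) _

theorem w_nonneg (X : Sys.{u}) (t s : X.T) : 0 ≤ X.om t s * ((X.a : ℝ)⁻¹) ^ X.d t s :=
  mul_nonneg (om_nonneg X t s) (pow_nonneg (inv_nonneg.2 (apos X).le) _)

theorem sb_pos (X : Sys.{u}) : 0 < √(X.b : ℝ) := Real.sqrt_pos.2 (bpos X)

theorem sb_le (X : Sys.{u}) (i : ℕ) : ((√(X.b : ℝ))⁻¹) ^ i ≤ 1 := by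
  refine pow_le_one₀ (inv_nonneg.2 (Real.sqrt_nonneg _)) ?_
  refine inv_le_one_of_one_le₀ ?_
  rw [Real.one_le_sqrt]
  have := X.tr'.two
  exact_mod_cast (by omega : 1 ≤ X.b)

theorem within_le {V : Type u} (G : SimpleGraph V) (W : Set V) : within G W ≤ G := by
  intro x y hxy
  exact hxy.1

end IX_JA

open IX_JA in
theorem pt_JA (hQF : StQF.{u}) (hRA : StRA.{u}) (hRB : StRB.{u}) (hRE : StRE.{u})
    (hVE : StVE.{u}) : StJA.{u} := by
  intro X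
  obtain ⟨C, hC, hsum⟩ := hRE X.T X.par X.h X.a X.tr
  have hsum' : ∀ t : X.T, ∑' s : X.T, ENNReal.ofReal (X.om t s * ((X.a : ℝ)⁻¹) ^ X.d t s) ≤ C :=
    fun t => hsum t
  have hdsym : ∀ r s : X.T, X.d r s = X.d s r := (hRB X.T X.par X.h X.a X.tr).2.1
  have hb := bpos X
  have hsb := sb_pos X
  have hai : (0 : ℝ) ≤ ((X.a : ℝ)⁻¹) := inv_nonneg.2 (apos X).le
  have hbi : (0 : ℝ) ≤ ((√(X.b : ℝ))⁻¹) := inv_nonneg.2 hsb.le
  refine ⟨C, hC, ?_⟩
  intro p hp0 hp1 hBd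
  have htt := (hVE X).2.2.2.2 p hp0 hp1 hBd
  obtain ⟨-, -, hsymm, -⟩ := hQF (X.T × X.T') X.G p hp0 hp1
  refine ⟨?_, ?_, ?_, ?_⟩
  · intro n x t
    unfold Sys.gg
    refine (ENNReal.tsum_le_tsum fun s => ?_).trans (hsum' t)
    refine (mul_le_mul' le_rfl (htt t s x n)).trans ?_
    rw [← ENNReal.ofReal_mul (mul_nonneg (om_nonneg X t s) (pow_nonneg hsb.le n))]
    refine ENNReal.ofReal_le_ofReal (le_of_eq ?_)
    have e : √(X.b : ℝ) ^ n * ((√(X.b : ℝ))⁻¹) ^ n = 1 := by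
      rw [← mul_pow, mul_inv_cancel₀ hsb.ne', one_pow]
    calc X.om t s * √(X.b : ℝ) ^ n * (((X.a : ℝ)⁻¹) ^ X.d t s * ((√(X.b : ℝ))⁻¹) ^ n)
        = X.om t s * ((X.a : ℝ)⁻¹) ^ X.d t s * (√(X.b : ℝ) ^ n * ((√(X.b : ℝ))⁻¹) ^ n) := by ring
      _ = _ := by rw [e, mul_one]
  · intro n x t s
    obtain ⟨-, -, -, -, -, -, hmono, -⟩ :=
      hQF (X.T × X.T') (within X.G (X.WO x n t s)) p hp0 hp1
    exact hmono X.G p (within_le _ _) le_rfl hp1 _ _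
  · intro i x s
    refine (ENNReal.tsum_le_tsum fun r => ?_).trans (hsum' s)
    rw [hsymm]
    refine (mul_le_mul' le_rfl (htt r s x i)).trans ?_
    rw [← ENNReal.ofReal_mul (mul_nonneg (om_nonneg X s r) (pow_nonneg hbi i)), hdsym r s]
    refine ENNReal.ofReal_le_ofReal ?_
    have h1 := sb_le X i
    have h2 : ((√(X.b : ℝ))⁻¹) ^ i * ((√(X.b : ℝ))⁻¹) ^ i ≤ 1 :=
      mul_le_one₀ h1 (pow_nonneg hbi i) h1
    calc X.om s r * ((√(X.b : ℝ))⁻¹) ^ i * (((X.a : ℝ)⁻¹) ^ X.d s r * ((√(X.b : ℝ))⁻¹) ^ i)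
        = X.om s r * ((X.a : ℝ)⁻¹) ^ X.d s r *
          (((√(X.b : ℝ))⁻¹) ^ i * ((√(X.b : ℝ))⁻¹) ^ i) := by ring
      _ ≤ X.om s r * ((X.a : ℝ)⁻¹) ^ X.d s r * 1 :=
          mul_le_mul_of_nonneg_left h2 (w_nonneg X s r)
      _ = _ := mul_one _
  · intro j x t
    refine (ENNReal.tsum_le_tsum fun r => ?_).trans (hsum' t)
    obtain ⟨hfin, hcard⟩ := (hRA X.T' X.par' X.h' X.b X.tr').2.2.1 j x
    have hterm : ∀ y : X.T', (if X.up j y = x then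
        ENNReal.ofReal (X.om t r * ((√(X.b : ℝ))⁻¹) ^ j) * tt X.G p (t, x) (r, y) else 0) ≤
        (if y ∈ hfin.toFinset then ENNReal.ofReal (X.om t r * ((X.a : ℝ)⁻¹) ^ X.d t r *
          ((X.b : ℝ)⁻¹) ^ j) else 0) := by
      intro y
      by_cases hy : X.up j y = x
      · have hy' : y ∈ hfin.toFinset := hfin.mem_toFinset.2 hy
        rw [if_pos hy, if_pos hy', hsymm]
        have h1 := htt r t y j
        rw [hy] at h1
        refine (mul_le_mul' le_rfl h1).trans ?_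
        rw [← ENNReal.ofReal_mul (mul_nonneg (om_nonneg X t r) (pow_nonneg hbi j)), hdsym r t]
        refine ENNReal.ofReal_le_ofReal (le_of_eq ?_)
        have e : ((√(X.b : ℝ))⁻¹) ^ j * ((√(X.b : ℝ))⁻¹) ^ j = ((X.b : ℝ)⁻¹) ^ j := by
          rw [← mul_pow, ← mul_inv, Real.mul_self_sqrt hb.le]
        rw [← e]
        ring
      · rw [if_neg hy]
        exact zero_le
    refine (ENNReal.tsum_le_tsum hterm).trans ?_
    rw [tsum_eq_sum (s := hfin.toFinset) (fun y hy => if_neg hy)]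
    rw [Finset.sum_congr rfl (fun y hy => if_pos hy), Finset.sum_const, nsmul_eq_mul]
    have hc : hfin.toFinset.card = X.b ^ j := by
      rw [← Set.ncard_eq_toFinset_card _ hfin]
      exact hcard
    rw [hc, ← ENNReal.ofReal_natCast, ← ENNReal.ofReal_mul (Nat.cast_nonneg _)]
    refine ENNReal.ofReal_le_ofReal (le_of_eq ?_)
    push_cast
    have e : (X.b : ℝ) ^ j * ((X.b : ℝ)⁻¹) ^ j = 1 := by
      rw [← mul_pow, mul_inv_cancel₀ hb.ne', one_pow]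
    calc (X.b : ℝ) ^ j * (X.om t r * ((X.a : ℝ)⁻¹) ^ X.d t r * ((X.b : ℝ)⁻¹) ^ j)
        = X.om t r * ((X.a : ℝ)⁻¹) ^ X.d t r * ((X.b : ℝ) ^ j * ((X.b : ℝ)⁻¹) ^ j) := by ring
      _ = _ := by rw [e, mul_one]

end Pool.Agent.Work.MP_c58d8b_pr.PT
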