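import Pool.Agent.Work.MP_c58d8b_pr.PT.Stmts2

/-!
# MP_c58d8b_pr, block PT, item JB: the first Simon-Lieb inequality
-/

set_option autoImplicit false

namespace Pool.Agent.Work.MP_c58d8b_pr.PT

open MeasureTheory ProbabilityTheory Set Filter Topology
open scoped ENNReal unitInterval Classical
open Pool.Agent.Work.MP_c58d8b_pr.SO

universe u

namespace IX_JB

theorem up_add (X : Sys.{u}) (i j : ℕ) (x : X.T') : X.up (i + j) x = X.up i (X.up j x) :=
  Function.iterate_add_apply _ _ _ _

/-- the weight is multiplicative -/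
theorem om_mul (X : Sys.{u}) (t r s : X.T) : X.om t s = X.om t r * X.om r s := by
  unfold Sys.om
  have ha : (0 : ℝ) < √(X.a : ℝ) := by
    rw [Real.sqrt_pos]
    have := X.tr.two
    exact_mod_cast (by omega : 0 < X.a)
  rw [← zpow_add₀ ha.ne']
  congr 1
  ring

theorem om_nonneg (X : Sys.{u}) (t s : X.T) : 0 ≤ X.om t s := by
  unfold Sys.om
  positivity

theorem wt_mul (X : Sys.{u}) (t r s : X.T) (m N : ℕ) (h : m ≤ N) :
    ENNReal.ofReal (X.om t s * √(X.b : ℝ) ^ N) =
      ENNReal.ofReal (X.om t r * √(X.b : ℝ) ^ m) *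
        ENNReal.ofReal (X.om r s * √(X.b : ℝ) ^ (N - m)) := by
  rw [← ENNReal.ofReal_mul (mul_nonneg (om_nonneg X t r) (by positivity)), om_mul X t r s]
  congr 1
  conv_lhs => rw [← Nat.add_sub_of_le h, pow_add]
  ring

end IX_JB

open IX_JB in
theorem pt_JB (hQF : StQF.{u}) (hQU : StQU.{u}) (hRA : StRA.{u}) (hRF : StRF.{u})
    (hVD : StVD.{u}) : StJB.{u} := by
  intro X Δ L hC p hp0 hp1 n n' hn hn' x t
  obtain ⟨hA1, -, -, hA4, hA5, -⟩ := hRA X.T' X.par' X.h' X.b X.tr'
  -- the basic inequality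
  have hbasic : ∀ s : X.T, tt X.G p (t, x) (s, X.up (n + n') x) ≤
      Δ * ∑' r : X.T, ∑ m ∈ Finset.Ico n (n + L),
        tt X.G p (t, x) (r, X.up m x) * tt X.G p (r, X.up m x) (s, X.up (n + n') x) := by
    intro s
    have hu : ((t, x) : X.T × X.T') ∈ X.Dn (X.up (n - 1) x) := (hA5 x (n - 1)).2
    have hv : ((s, X.up (n + n') x) : X.T × X.T') ∉ X.Dn (X.up (n - 1) x) := by
      intro hv
      have h1 := (hA4 _ _ hv).2.1
      have h2 : X.h' (X.up (n + n') x) = X.h' x + ((n + n' : ℕ) : ℤ) := hA1 _ _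
      have h3 : X.h' (X.up (n - 1) x) = X.h' x + ((n - 1 : ℕ) : ℤ) := hA1 _ _
      rw [h3] at h1
      rw [show ((s, X.up (n + n') x) : X.T × X.T').2 = X.up (n + n') x from rfl, h2] at h1
      omega
    refine (hQU (X.T × X.T') X.G X.lf Δ hC.deg (X.Dn (X.up (n - 1) x)) (t, x)
      (s, X.up (n + n') x) p hp0 hp1 hu hv).trans ?_
    refine mul_le_mul_right ?_ _
    rw [ENNReal.tsum_prod']
    refine ENNReal.tsum_le_tsum fun r => ?_
    have hpt : ∀ y : X.T', (if ((r, y) : X.T × X.T') ∉ X.Dn (X.up (n - 1) x) ∧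
        ∃ z ∈ X.Dn (X.up (n - 1) x), X.G.Adj z (r, y) then
        tt (within X.G (insert (r, y) (X.Dn (X.up (n - 1) x)))) p (t, x) (r, y) *
          tt X.G p (r, y) (s, X.up (n + n') x) else 0) ≤
        ∑ m ∈ Finset.Ico n (n + L), (if y = X.up m x then
          tt X.G p (t, x) (r, X.up m x) * tt X.G p (r, X.up m x) (s, X.up (n + n') x)
          else 0) := by
      intro y
      split_ifs with hc
      · obtain ⟨hw, z, hz, hadj⟩ := hc
        obtain ⟨k₀, hk₀, hjmp⟩ := hC.jmp z (r, y) hadj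
        obtain ⟨l, k, hk1, hlk, -, hk2, -⟩ := hRF X.T' X.par' X.h' X.b X.tr' (X.up (n - 1) x) z.2 y
          k₀ hz hw hjmp
        have hy : y = X.up (k + (n - 1)) x := by
          rw [up_add]
          exact hk2.symm
        have hmem : k + (n - 1) ∈ Finset.Ico n (n + L) := by
          rw [Finset.mem_Ico]
          omega
        refine le_trans ?_ (Finset.single_le_sum (f := fun m => (if y = X.up m x then
          tt X.G p (t, x) (r, X.up m x) * tt X.G p (r, X.up m x) (s, X.up (n + n') x)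
          else 0)) (fun _ _ => zero_le) hmem)
        rw [if_pos hy, ← hy]
        refine mul_le_mul_left ?_ _
        have hle : within X.G (insert (r, y) (X.Dn (X.up (n - 1) x))) ≤ X.G :=
          fun _ _ h => h.1
        obtain ⟨-, -, -, -, -, -, hm, -⟩ := hQF (X.T × X.T')
          (within X.G (insert (r, y) (X.Dn (X.up (n - 1) x)))) p hp0 hp1
        exact hm X.G p hle le_rfl hp1 _ _
      · exact zero_le
    refine (ENNReal.tsum_le_tsum hpt).trans (le_of_eq ?_)
    rw [Summable.tsum_finsetSum (fun _ _ => ENNReal.summable)]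
    refine Finset.sum_congr rfl fun m _ => ?_
    rw [tsum_ite_eq]
  -- the inner sums
  have hinner : ∀ m ∈ Finset.Ico n (n + L), ∀ r : X.T, ∑' s : X.T,
      ENNReal.ofReal (X.om r s * √(X.b : ℝ) ^ (n + n' - m)) *
        tt X.G p (r, X.up m x) (s, X.up (n + n') x) = X.gg p (n + n' - m) x t := by
    intro m hm r
    rw [Finset.mem_Ico] at hm
    have h1 := ((hVD X p hp0 hp1).2.2.1 (n + n' - m) (X.up m x) r x t).1
    rw [← h1]
    unfold Sys.gg
    rw [← up_add, show n + n' - m + m = n + n' by omega]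
  calc X.gg p (n + n') x t
      = ∑' s : X.T, ENNReal.ofReal (X.om t s * √(X.b : ℝ) ^ (n + n')) *
          tt X.G p (t, x) (s, X.up (n + n') x) := rfl
    _ ≤ ∑' s : X.T, ENNReal.ofReal (X.om t s * √(X.b : ℝ) ^ (n + n')) *
          (Δ * ∑' r : X.T, ∑ m ∈ Finset.Ico n (n + L),
            tt X.G p (t, x) (r, X.up m x) * tt X.G p (r, X.up m x) (s, X.up (n + n') x)) :=
        ENNReal.tsum_le_tsum fun s => mul_le_mul_right (hbasic s) _
    _ = ∑' s : X.T, Δ * ∑' r : X.T, ∑ m ∈ Finset.Ico n (n + L),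
          (ENNReal.ofReal (X.om t r * √(X.b : ℝ) ^ m) * tt X.G p (t, x) (r, X.up m x)) *
          (ENNReal.ofReal (X.om r s * √(X.b : ℝ) ^ (n + n' - m)) *
            tt X.G p (r, X.up m x) (s, X.up (n + n') x)) := by
        refine tsum_congr fun s => ?_
        rw [mul_left_comm, ← ENNReal.tsum_mul_left]
        congr 1
        refine tsum_congr fun r => ?_
        rw [Finset.mul_sum]
        refine Finset.sum_congr rfl fun m hm => ?_
        rw [Finset.mem_Ico] at hm
        rw [wt_mul X t r s m (n + n') (by omega)]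
        ring
    _ = Δ * ∑' s : X.T, ∑' r : X.T, ∑ m ∈ Finset.Ico n (n + L),
          (ENNReal.ofReal (X.om t r * √(X.b : ℝ) ^ m) * tt X.G p (t, x) (r, X.up m x)) *
          (ENNReal.ofReal (X.om r s * √(X.b : ℝ) ^ (n + n' - m)) *
            tt X.G p (r, X.up m x) (s, X.up (n + n') x)) := ENNReal.tsum_mul_left
    _ = Δ * ∑' r : X.T, ∑' s : X.T, ∑ m ∈ Finset.Ico n (n + L),
          (ENNReal.ofReal (X.om t r * √(X.b : ℝ) ^ m) * tt X.G p (t, x) (r, X.up m x)) *
          (ENNReal.ofReal (X.om r s * √(X.b : ℝ) ^ (n + n' - m)) *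
            tt X.G p (r, X.up m x) (s, X.up (n + n') x)) := by rw [ENNReal.tsum_comm]
    _ = Δ * ∑' r : X.T, ∑ m ∈ Finset.Ico n (n + L),
          (ENNReal.ofReal (X.om t r * √(X.b : ℝ) ^ m) * tt X.G p (t, x) (r, X.up m x)) *
          X.gg p (n + n' - m) x t := by
        congr 1
        refine tsum_congr fun r => ?_
        rw [Summable.tsum_finsetSum (fun _ _ => ENNReal.summable)]
        refine Finset.sum_congr rfl fun m hm => ?_
        rw [ENNReal.tsum_mul_left, hinner m hm r]
    _ = Δ * ∑ m ∈ Finset.Ico n (n + L), X.gg p m x t * X.gg p (n + n' - m) x t := by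
        congr 1
        rw [Summable.tsum_finsetSum (fun _ _ => ENNReal.summable)]
        refine Finset.sum_congr rfl fun m _ => ?_
        rw [ENNReal.tsum_mul_right]
        rfl

end Pool.Agent.Work.MP_c58d8b_pr.PT
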