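import Pool.Agent.Work.MP_c58d8b_pr.PT.Stmts2

/-!
# MP_c58d8b_pr, block PT, item JC: the double Simon-Lieb inequality
-/

set_option autoImplicit false

namespace Pool.Agent.Work.MP_c58d8b_pr.PT

open MeasureTheory ProbabilityTheory Set Filter Topology
open scoped ENNReal unitInterval Classical
open Pool.Agent.Work.MP_c58d8b_pr.SO

universe u

namespace IX_JC

theorem sum_proj {T T' : Type u} (F : ℕ → T → ℝ≥0∞) (xm : ℕ → T') (J : Finset ℕ)
    (g : T × T' → ℝ≥0∞) (hg : ∀ w, g w ≤ ∑ m ∈ J, if w.2 = xm m then F m w.1 else 0) :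
    ∑' w, g w ≤ ∑ m ∈ J, ∑' s, F m s := by
  refine (ENNReal.tsum_le_tsum hg).trans (le_of_eq ?_)
  rw [Summable.tsum_finsetSum fun _ _ => ENNReal.summable]
  refine Finset.sum_congr rfl fun m _ => ?_
  rw [ENNReal.tsum_prod']
  refine tsum_congr fun s => ?_
  exact tsum_ite_eq (xm m) (fun _ => F m s)

theorem sum_proj2 {T T' : Type u} (K : ℕ → T → T' → ℝ≥0∞) (P : ℕ → T' → Prop) (J : Finset ℕ)
    (g : T × T' → ℝ≥0∞) (hg : ∀ w, g w ≤ ∑ j ∈ J, if P j w.2 then K j w.1 w.2 else 0) :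
    ∑' w, g w ≤ ∑ j ∈ J, ∑' r, ∑' y, if P j y then K j r y else 0 := by
  refine (ENNReal.tsum_le_tsum hg).trans (le_of_eq ?_)
  rw [Summable.tsum_finsetSum fun _ _ => ENNReal.summable]
  refine Finset.sum_congr rfl fun j _ => ?_
  rw [ENNReal.tsum_prod']

/-- the final rearrangement of the sums -/
theorem rearr {T T' : Type u} (D : ℝ≥0∞) (M J : Finset ℕ) (P : ℕ → T' → Prop)
    (a : T → T' → ℝ≥0∞) (b : ℕ → ℕ → T' → T → T → ℝ≥0∞) (c : ℕ → T → ℝ≥0∞) :
    D * ∑ m ∈ M, ∑' s₁ : T, (D * ∑ j ∈ J, ∑' r : T, ∑' y : T',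
      if P j y then a r y * b m j y r s₁ else 0) * c m s₁ =
    D ^ 2 * ∑ m ∈ M, ∑ j ∈ J, ∑' r : T, ∑' y : T', ∑' s₁ : T,
      if P j y then a r y * b m j y r s₁ * c m s₁ else 0 := by
  rw [pow_two, mul_assoc D D]
  congr 1
  rw [Finset.mul_sum]
  refine Finset.sum_congr rfl fun m _ => ?_
  have h1 : ∀ s₁ : T, (D * ∑ j ∈ J, ∑' r : T, ∑' y : T',
      if P j y then a r y * b m j y r s₁ else 0) * c m s₁ =
      D * ∑ j ∈ J, ∑' r : T, ∑' y : T', if P j y then a r y * b m j y r s₁ * c m s₁ else 0 := by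
    intro s₁
    rw [mul_assoc, Finset.sum_mul]
    congr 1
    refine Finset.sum_congr rfl fun j _ => ?_
    rw [← ENNReal.tsum_mul_right]
    refine tsum_congr fun r => ?_
    rw [← ENNReal.tsum_mul_right]
    refine tsum_congr fun y => ?_
    split_ifs
    · rfl
    · rw [zero_mul]
  rw [tsum_congr h1, ENNReal.tsum_mul_left, Summable.tsum_finsetSum fun _ _ => ENNReal.summable]
  congr 1
  refine Finset.sum_congr rfl fun j _ => ?_
  rw [ENNReal.tsum_comm]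
  refine tsum_congr fun r => ?_
  rw [ENNReal.tsum_comm]

section

variable (X : Sys.{u})

theorem up_up (a b : ℕ) (y : X.T') : X.up a (X.up b y) = X.up (a + b) y :=
  (Function.iterate_add_apply X.par' a b y).symm

/-- a proper ancestor is not a descendant -/
theorem up_not (hRA : StRA.{u}) (k : ℕ) (hk : 1 ≤ k) (z : X.T') :
    X.up k z ∉ desc X.par' z := by
  obtain ⟨RA1, -⟩ := hRA X.T' X.par' X.h' X.b X.tr'
  rintro ⟨l, hl⟩
  have h1 := congrArg X.h' hl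
  unfold Sys.up at h1
  rw [RA1, RA1] at h1
  omega

theorem step1 (hQU : StQU.{u}) (hRA : StRA.{u}) (hRF : StRF.{u}) (Δ L : ℕ) (hC : X.Const Δ L)
    (p : ℝ) (hp0 : 0 ≤ p) (hp1 : p ≤ 1) (n : ℕ) (hn : 1 ≤ n) (x : X.T') (t s : X.T) :
    tt X.G p (t, x) (s, X.up n x) ≤ (Δ : ℝ≥0∞) * ∑ m ∈ Finset.Ico n (n + L), ∑' s₁ : X.T,
      tt (within X.G (insert (s₁, X.up m x) (X.Dn (X.up (n - 1) x)))) p (t, x) (s₁, X.up m x) *
        tt X.G p (s₁, X.up m x) (s, X.up n x) := by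
  obtain ⟨RA1, -, -, RA4, RA5, -⟩ := hRA X.T' X.par' X.h' X.b X.tr'
  have hu : ((t, x) : X.T × X.T') ∈ X.Dn (X.up (n - 1) x) := (RA5 x (n - 1)).2
  have hv : ((s, X.up n x) : X.T × X.T') ∉ X.Dn (X.up (n - 1) x) := by
    have h1 := up_not X hRA 1 le_rfl (X.up (n - 1) x)
    rw [up_up, show 1 + (n - 1) = n by omega] at h1
    exact h1
  refine (hQU _ X.G X.lf Δ hC.deg (X.Dn (X.up (n - 1) x)) (t, x) (s, X.up n x) p hp0 hp1
    hu hv).trans (mul_le_mul_right ?_ _)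
  refine sum_proj (fun m s₁ =>
    tt (within X.G (insert (s₁, X.up m x) (X.Dn (X.up (n - 1) x)))) p (t, x) (s₁, X.up m x) *
        tt X.G p (s₁, X.up m x) (s, X.up n x)) (fun m => X.up m x) _ _ ?_
  intro w
  by_cases hw : w ∉ X.Dn (X.up (n - 1) x) ∧ ∃ z ∈ X.Dn (X.up (n - 1) x), X.G.Adj z w
  · rw [if_pos hw]
    obtain ⟨hw1, z, hz, hadj⟩ := hw
    obtain ⟨k, hk, hk'⟩ := hC.jmp z w hadj
    obtain ⟨l, k', h1, h2, h3, h4, h5⟩ := hRF X.T' X.par' X.h' X.b X.tr' (X.up (n - 1) x) z.2 w.2 k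
      hz hw1 hk'
    have h6 : w.2 = X.up (n - 1 + k') x := by
      rw [← h4, add_comm, ← up_up]
      rfl
    have hm : n - 1 + k' ∈ Finset.Ico n (n + L) := by
      rw [Finset.mem_Ico]
      omega
    refine le_trans ?_ (Finset.single_le_sum (fun _ _ => zero_le) hm)
    rw [if_pos h6]
    obtain ⟨w1, w2⟩ := w
    simp only at h6
    subst h6
    exact le_rfl
  · rw [if_neg hw]
    exact zero_le

theorem step2 (hWB : SO.StWB.{u}) (hQC : StQC.{u}) (hQF : StQF.{u}) (hQU : StQU.{u})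
    (hRA : StRA.{u}) (hRF : StRF.{u}) (Δ L : ℕ) (hC : X.Const Δ L)
    (p : ℝ) (hp0 : 0 ≤ p) (hp1 : p ≤ 1) (n : ℕ) (hn : 1 ≤ n) (x : X.T') (t : X.T)
    (m : ℕ) (hm : n ≤ m) (s₁ : X.T) :
    tt (within X.G (insert (s₁, X.up m x) (X.Dn (X.up (n - 1) x)))) p (t, x) (s₁, X.up m x) ≤
      (Δ : ℝ≥0∞) * ∑ j ∈ Finset.range L, ∑' r : X.T, ∑' y : X.T',
        if X.up j y = x then tt X.G p (t, x) (r, y) * X.uu p (j + m) y r s₁ else 0 := by
  obtain ⟨RA1, -, -, RA4, RA5, -⟩ := hRA X.T' X.par' X.h' X.b X.tr'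
  set A : Set (X.T × X.T') := X.Dn (X.up (n - 1) x) with hA
  set H₁ : SimpleGraph (X.T × X.T') := within X.G (insert (s₁, X.up m x) A) with hH₁
  have hle : H₁ ≤ X.G := fun a b hab => hab.1
  have hlf : LocFinite H₁ := fun a => (X.lf a).subset fun b hb => hle hb
  have hdeg : ∀ a, (nb H₁ a).card ≤ Δ := by
    intro a
    refine (Finset.card_le_card ?_).trans (hC.deg a)
    intro b hb
    rw [(hWB _ H₁ hlf).1] at hb
    rw [(hWB _ X.G X.lf).1]
    exact hle hb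
  obtain ⟨-, -, hsym, -, -, -, -, -⟩ := hQF _ H₁ p hp0 hp1
  obtain ⟨-, -, hsymG, -, -, -, -, -⟩ := hQF _ X.G p hp0 hp1
  obtain ⟨-, -, -, -, -, -, hmono, -⟩ := hQF _ H₁ p hp0 hp1
  rw [hsym]
  have hw : ((s₁, X.up m x) : X.T × X.T') ∈ (X.Dn x)ᶜ := up_not X hRA m (hn.trans hm) x
  have hu : ((t, x) : X.T × X.T') ∉ (X.Dn x)ᶜ := fun h => h (RA5 x 0).1
  refine (hQU _ H₁ hlf Δ hdeg (X.Dn x)ᶜ (s₁, X.up m x) (t, x) p hp0 hp1 hw hu).trans
    (mul_le_mul_right ?_ _)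
  refine sum_proj2 (fun j r y => tt X.G p (t, x) (r, y) * X.uu p (j + m) y r s₁)
    (fun j y => X.up j y = x) _ _ ?_
  intro w'
  by_cases hw' : w' ∉ (X.Dn x)ᶜ ∧ ∃ z ∈ (X.Dn x)ᶜ, H₁.Adj z w'
  · rw [if_pos hw']
    obtain ⟨hw1, z, hz, hadj⟩ := hw'
    have hw2 : w'.2 ∈ desc X.par' x := by
      by_contra hcon
      exact hw1 hcon
    obtain ⟨k, hk, hk'⟩ := hC.jmp z w' (hle hadj)
    obtain ⟨l, k', h1, h2, h3, h4, h5⟩ := hRF X.T' X.par' X.h' X.b X.tr' x w'.2 z.2 k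
      hw2 hz hk'.symm
    have hl : l ∈ Finset.range L := by
      rw [Finset.mem_range]
      omega
    refine le_trans ?_ (Finset.single_le_sum (fun _ _ => zero_le) hl)
    have h3' : X.up l w'.2 = x := h3
    rw [if_pos h3']
    obtain ⟨r, y⟩ := w'
    simp only at h3' hw2 ⊢
    have e1 : X.up (l + m) y = X.up m x := by
      rw [add_comm, ← up_up, h3']
    have e2 : X.up (l + m - 1) y = X.up (m - 1) x := by
      rw [show l + m - 1 = (m - 1) + l by omega, ← up_up, h3']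
    have hsub : within H₁ (insert (r, y) (X.Dn x)ᶜ) ≤ within X.G (X.WO y (l + m) r s₁) := by
      rw [hH₁, (hQC _).2.2]
      intro a b hab
      have key : ∀ v : X.T × X.T', v ∈ insert (s₁, X.up m x) A ∩ insert (r, y) (X.Dn x)ᶜ →
          v ∈ X.WO y (l + m) r s₁ := by
        intro v hv
        obtain ⟨hv1, hv2⟩ := hv
        unfold Sys.WO
        rw [e1]
        rcases hv2 with hv2 | hv2
        · exact Or.inl hv2
        · right
          rcases hv1 with hv1 | hv1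
          · exact Or.inl hv1
          · right
            refine ⟨?_, ?_⟩
            · rw [e2]
              have h7 : X.up (n - 1) x ∈ desc X.par' (X.up (m - 1) x) := by
                refine ⟨m - n, ?_⟩
                have := up_up X (m - n) (n - 1) x
                rw [show m - n + (n - 1) = m - 1 by omega] at this
                exact this
              exact (RA4 _ _ h7).1 hv1
            · intro hcon
              exact hv2 ((RA4 _ _ hw2).1 hcon)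
      exact ⟨hab.1, key a hab.2.1, key b hab.2.2⟩
    have hp2 : tt (within H₁ (insert (r, y) (X.Dn x)ᶜ)) p (s₁, X.up m x) (r, y) ≤
        X.uu p (l + m) y r s₁ := by
      obtain ⟨-, -, hsy, -, -, -, hmo, -⟩ :=
        hQF _ (within H₁ (insert (r, y) (X.Dn x)ᶜ)) p hp0 hp1
      rw [hsy]
      unfold Sys.uu ttW
      rw [e1]
      exact hmo _ p hsub le_rfl hp1 _ _
    have hp3 : tt H₁ p (r, y) (t, x) ≤ tt X.G p (t, x) (r, y) := by
      rw [hsymG (t, x) (r, y)]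
      exact hmono _ p hle le_rfl hp1 _ _
    rw [mul_comm]
    exact mul_le_mul' hp3 hp2
  · rw [if_neg hw']
    exact zero_le

end

end IX_JC

open IX_JC in
theorem pt_JC (hWB : SO.StWB.{u}) (hQC : StQC.{u}) (hQF : StQF.{u}) (hQU : StQU.{u})
    (hRA : StRA.{u}) (hRF : StRF.{u}) : StJC.{u} := by
  intro X Δ L hC p hp0 hp1 n hn x t s
  refine (step1 X hQU hRA hRF Δ L hC p hp0 hp1 n hn x t s).trans ?_
  rw [← rearr (Δ : ℝ≥0∞) (Finset.Ico n (n + L)) (Finset.range L) (fun j y => X.up j y = x)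
    (fun r y => tt X.G p (t, x) (r, y)) (fun m j y r s₁ => X.uu p (j + m) y r s₁)
    (fun m s₁ => tt X.G p (s₁, X.up m x) (s, X.up n x))]
  refine mul_le_mul_right ?_ _
  refine Finset.sum_le_sum fun m hm => ENNReal.tsum_le_tsum fun s₁ => ?_
  refine mul_le_mul_left ?_ _
  exact step2 X hWB hQC hQF hQU hRA hRF Δ L hC p hp0 hp1 n hn x t m (Finset.mem_Ico.1 hm).1 s₁

end Pool.Agent.Work.MP_c58d8b_pr.PT
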