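import Pool.Agent.Work.MP_c58d8b_pr.PT.Stmts2

/-!
# MP_c58d8b_pr, block PT, item JD: sum of the double Simon-Lieb inequality
-/

set_option autoImplicit false

namespace Pool.Agent.Work.MP_c58d8b_pr.PT

open MeasureTheory ProbabilityTheory Set Filter Topology
open scoped ENNReal unitInterval Classical
open Pool.Agent.Work.MP_c58d8b_pr.SO

universe u

namespace IX_JD

lemma om_nonneg (X : Sys.{u}) (t s : X.T) : 0 ≤ X.om t s := by
  unfold Sys.om; positivity

lemma sqa_pos (X : Sys.{u}) : 0 < √(X.a : ℝ) := by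
  have h := X.tr.two
  exact Real.sqrt_pos.mpr (by exact_mod_cast (by omega : 0 < X.a))

lemma sqb_pos (X : Sys.{u}) : 0 < √(X.b : ℝ) := by
  have h := X.tr'.two
  exact Real.sqrt_pos.mpr (by exact_mod_cast (by omega : 0 < X.b))

lemma om_mul (X : Sys.{u}) (t r s : X.T) : X.om t s = X.om t r * X.om r s := by
  unfold Sys.om
  rw [← zpow_add₀ (sqa_pos X).ne']
  congr 1
  ring

lemma weight_eq (X : Sys.{u}) (t r s₁ s : X.T) (n m j : ℕ) (hnm : n ≤ m) :
    ENNReal.ofReal (X.om t s * √(X.b : ℝ) ^ n) =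
      ENNReal.ofReal (X.om t r * ((√(X.b : ℝ))⁻¹) ^ j) *
      ENNReal.ofReal (X.om r s₁ * √(X.b : ℝ) ^ (j + m)) *
      ENNReal.ofReal (X.om s₁ s * ((√(X.b : ℝ))⁻¹) ^ (m - n)) := by
  have hB := sqb_pos X
  have h1 := om_nonneg X t r
  have h2 := om_nonneg X r s₁
  have h3 := om_nonneg X s₁ s
  rw [← ENNReal.ofReal_mul (by positivity), ← ENNReal.ofReal_mul (by positivity)]
  congr 1
  obtain ⟨i, rfl⟩ := Nat.exists_eq_add_of_le hnm
  have e1 : n + i - n = i := by omega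
  rw [e1, om_mul X t r s, om_mul X r s₁ s]
  set B := √(X.b : ℝ) with hBdef
  have hBj : (B⁻¹) ^ j * B ^ j = 1 := by
    rw [← mul_pow, inv_mul_cancel₀ hB.ne', one_pow]
  have hBi : (B⁻¹) ^ i * B ^ i = 1 := by
    rw [← mul_pow, inv_mul_cancel₀ hB.ne', one_pow]
  have e2 : B ^ (j + (n + i)) = B ^ j * B ^ n * B ^ i := by
    rw [pow_add, pow_add]; ring
  rw [e2]
  calc X.om t r * (X.om r s₁ * X.om s₁ s) * B ^ n
      = X.om t r * (X.om r s₁ * X.om s₁ s) * B ^ n * 1 * 1 := by ring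
    _ = X.om t r * (X.om r s₁ * X.om s₁ s) * B ^ n * ((B⁻¹) ^ j * B ^ j) *
        ((B⁻¹) ^ i * B ^ i) := by rw [hBj, hBi]
    _ = _ := by ring

lemma up_up (X : Sys.{u}) (n m : ℕ) (x : X.T') (h : n ≤ m) :
    X.up (m - n) (X.up n x) = X.up m x := by
  unfold Sys.up
  rw [← Function.iterate_add_apply]
  congr 1
  omega

lemma inner (X : Sys.{u}) (C₀ : ℝ≥0∞) (p : ℝ)
    (hVD : ∀ n x t x' t', X.gu p n x t = X.gu p n x' t')
    (h3 : ∀ (i : ℕ) (x : X.T') (s : X.T), ∑' r : X.T,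
      ENNReal.ofReal (X.om s r * ((√(X.b : ℝ))⁻¹) ^ i) * tt X.G p (s, X.up i x) (r, x) ≤ C₀)
    (h4 : ∀ (j : ℕ) (x : X.T') (t : X.T), ∑' r : X.T, ∑' y : X.T', (if X.up j y = x then
      ENNReal.ofReal (X.om t r * ((√(X.b : ℝ))⁻¹) ^ j) * tt X.G p (t, x) (r, y) else 0) ≤ C₀)
    (n m j : ℕ) (hnm : n ≤ m) (x : X.T') (t : X.T) :
    ∑' s : X.T, ENNReal.ofReal (X.om t s * √(X.b : ℝ) ^ n) *
      (∑' r : X.T, ∑' y : X.T', ∑' s₁ : X.T,
        (if X.up j y = x then tt X.G p (t, x) (r, y) * X.uu p (j + m) y r s₁ *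
          tt X.G p (s₁, X.up m x) (s, X.up n x) else 0)) ≤
      C₀ * C₀ * X.gu p (j + m) x t := by
  have key : ∀ (s r : X.T) (y : X.T') (s₁ : X.T),
      ENNReal.ofReal (X.om t s * √(X.b : ℝ) ^ n) *
        (if X.up j y = x then tt X.G p (t, x) (r, y) * X.uu p (j + m) y r s₁ *
          tt X.G p (s₁, X.up m x) (s, X.up n x) else 0) =
      (if X.up j y = x then
        ENNReal.ofReal (X.om t r * ((√(X.b : ℝ))⁻¹) ^ j) * tt X.G p (t, x) (r, y) else 0) *
      ((ENNReal.ofReal (X.om r s₁ * √(X.b : ℝ) ^ (j + m)) * X.uu p (j + m) y r s₁) *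
      (ENNReal.ofReal (X.om s₁ s * ((√(X.b : ℝ))⁻¹) ^ (m - n)) *
        tt X.G p (s₁, X.up m x) (s, X.up n x))) := by
    intro s r y s₁
    by_cases h : X.up j y = x
    · rw [if_pos h, if_pos h, weight_eq X t r s₁ s n m j hnm]
      ring
    · rw [if_neg h, if_neg h, mul_zero, zero_mul]
  calc ∑' s : X.T, ENNReal.ofReal (X.om t s * √(X.b : ℝ) ^ n) *
      (∑' r : X.T, ∑' y : X.T', ∑' s₁ : X.T,
        (if X.up j y = x then tt X.G p (t, x) (r, y) * X.uu p (j + m) y r s₁ *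
          tt X.G p (s₁, X.up m x) (s, X.up n x) else 0))
      = ∑' s : X.T, ∑' r : X.T, ∑' y : X.T', ∑' s₁ : X.T,
        (if X.up j y = x then
        ENNReal.ofReal (X.om t r * ((√(X.b : ℝ))⁻¹) ^ j) * tt X.G p (t, x) (r, y) else 0) *
      ((ENNReal.ofReal (X.om r s₁ * √(X.b : ℝ) ^ (j + m)) * X.uu p (j + m) y r s₁) *
      (ENNReal.ofReal (X.om s₁ s * ((√(X.b : ℝ))⁻¹) ^ (m - n)) *
        tt X.G p (s₁, X.up m x) (s, X.up n x))) := by
        refine tsum_congr fun s => ?_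
        rw [← ENNReal.tsum_mul_left]
        refine tsum_congr fun r => ?_
        rw [← ENNReal.tsum_mul_left]
        refine tsum_congr fun y => ?_
        rw [← ENNReal.tsum_mul_left]
        exact tsum_congr fun s₁ => key s r y s₁
    _ = ∑' r : X.T, ∑' y : X.T', ∑' s₁ : X.T, ∑' s : X.T,
        (if X.up j y = x then
        ENNReal.ofReal (X.om t r * ((√(X.b : ℝ))⁻¹) ^ j) * tt X.G p (t, x) (r, y) else 0) *
      ((ENNReal.ofReal (X.om r s₁ * √(X.b : ℝ) ^ (j + m)) * X.uu p (j + m) y r s₁) *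
      (ENNReal.ofReal (X.om s₁ s * ((√(X.b : ℝ))⁻¹) ^ (m - n)) *
        tt X.G p (s₁, X.up m x) (s, X.up n x))) := by
        rw [ENNReal.tsum_comm]
        refine tsum_congr fun r => ?_
        rw [ENNReal.tsum_comm]
        refine tsum_congr fun y => ?_
        rw [ENNReal.tsum_comm]
    _ ≤ ∑' r : X.T, ∑' y : X.T',
        (if X.up j y = x then
        ENNReal.ofReal (X.om t r * ((√(X.b : ℝ))⁻¹) ^ j) * tt X.G p (t, x) (r, y) else 0) *
        (X.gu p (j + m) x t * C₀) := by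
        refine ENNReal.tsum_le_tsum fun r => ENNReal.tsum_le_tsum fun y => ?_
        have e : ∀ s₁ : X.T, ∑' s : X.T,
            (if X.up j y = x then
              ENNReal.ofReal (X.om t r * ((√(X.b : ℝ))⁻¹) ^ j) * tt X.G p (t, x) (r, y) else 0) *
            ((ENNReal.ofReal (X.om r s₁ * √(X.b : ℝ) ^ (j + m)) * X.uu p (j + m) y r s₁) *
            (ENNReal.ofReal (X.om s₁ s * ((√(X.b : ℝ))⁻¹) ^ (m - n)) *
              tt X.G p (s₁, X.up m x) (s, X.up n x))) ≤
            (if X.up j y = x then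
              ENNReal.ofReal (X.om t r * ((√(X.b : ℝ))⁻¹) ^ j) * tt X.G p (t, x) (r, y) else 0) *
            ((ENNReal.ofReal (X.om r s₁ * √(X.b : ℝ) ^ (j + m)) * X.uu p (j + m) y r s₁) *
              C₀) := by
          intro s₁
          rw [ENNReal.tsum_mul_left, ENNReal.tsum_mul_left]
          gcongr
          have h := h3 (m - n) (X.up n x) s₁
          rw [up_up X n m x hnm] at h
          exact h
        refine (ENNReal.tsum_le_tsum e).trans ?_
        rw [ENNReal.tsum_mul_left, ENNReal.tsum_mul_right]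
        have e5 : ∑' s₁ : X.T, ENNReal.ofReal (X.om r s₁ * √(X.b : ℝ) ^ (j + m)) *
            X.uu p (j + m) y r s₁ = X.gu p (j + m) x t := hVD (j + m) y r x t
        rw [e5]
    _ = (∑' r : X.T, ∑' y : X.T',
        (if X.up j y = x then
        ENNReal.ofReal (X.om t r * ((√(X.b : ℝ))⁻¹) ^ j) * tt X.G p (t, x) (r, y) else 0)) *
        (X.gu p (j + m) x t * C₀) := by
        rw [← ENNReal.tsum_mul_right]
        refine tsum_congr fun r => ?_
        rw [ENNReal.tsum_mul_right]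
    _ ≤ C₀ * (X.gu p (j + m) x t * C₀) := by
        gcongr
        exact h4 j x t
    _ = C₀ * C₀ * X.gu p (j + m) x t := by ring

end IX_JD

open IX_JD in
/-- [JD] -/
theorem pt_JD (hVD : StVD.{u}) (hJA : StJA.{u}) (hJC : StJC.{u}) : StJD.{u} := by
  intro X Δ L hC
  obtain ⟨C₀, hC₀, hA⟩ := hJA X
  refine ⟨(Δ : ℝ≥0∞) ^ 2 * (C₀ * C₀), ?_, ?_⟩
  · exact ENNReal.mul_ne_top (ENNReal.pow_ne_top (ENNReal.natCast_ne_top Δ))
      (ENNReal.mul_ne_top hC₀ hC₀)
  · intro p hp0 hp1 hBd n hn x t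
    obtain ⟨-, -, h3, h4⟩ := hA p hp0 hp1 hBd
    have hVDg := (hVD X p hp0 hp1).2.2.1
    have hgu : ∀ n x t x' t', X.gu p n x t = X.gu p n x' t' := fun n x t x' t' =>
      (hVDg n x t x' t').2
    have hJ := hJC X Δ L hC p hp0 hp1 n hn x t
    calc X.gg p n x t
        = ∑' s : X.T, ENNReal.ofReal (X.om t s * √(X.b : ℝ) ^ n) *
            tt X.G p (t, x) (s, X.up n x) := rfl
      _ ≤ ∑' s : X.T, ENNReal.ofReal (X.om t s * √(X.b : ℝ) ^ n) * ((Δ : ℝ≥0∞) ^ 2 *
            ∑ m ∈ Finset.Ico n (n + L), ∑ j ∈ Finset.range L,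
              ∑' r : X.T, ∑' y : X.T', ∑' s₁ : X.T,
            (if X.up j y = x then tt X.G p (t, x) (r, y) * X.uu p (j + m) y r s₁ *
              tt X.G p (s₁, X.up m x) (s, X.up n x) else 0)) := by
          refine ENNReal.tsum_le_tsum fun s => ?_
          gcongr
          exact hJ s
      _ = (Δ : ℝ≥0∞) ^ 2 * ∑ m ∈ Finset.Ico n (n + L), ∑ j ∈ Finset.range L,
            ∑' s : X.T, ENNReal.ofReal (X.om t s * √(X.b : ℝ) ^ n) *
              (∑' r : X.T, ∑' y : X.T', ∑' s₁ : X.T,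
            (if X.up j y = x then tt X.G p (t, x) (r, y) * X.uu p (j + m) y r s₁ *
              tt X.G p (s₁, X.up m x) (s, X.up n x) else 0)) := by
          have e : ∀ s : X.T, ENNReal.ofReal (X.om t s * √(X.b : ℝ) ^ n) * ((Δ : ℝ≥0∞) ^ 2 *
              ∑ m ∈ Finset.Ico n (n + L), ∑ j ∈ Finset.range L,
                ∑' r : X.T, ∑' y : X.T', ∑' s₁ : X.T,
              (if X.up j y = x then tt X.G p (t, x) (r, y) * X.uu p (j + m) y r s₁ *
                tt X.G p (s₁, X.up m x) (s, X.up n x) else 0)) =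
              (Δ : ℝ≥0∞) ^ 2 * ∑ m ∈ Finset.Ico n (n + L), ∑ j ∈ Finset.range L,
                ENNReal.ofReal (X.om t s * √(X.b : ℝ) ^ n) *
                (∑' r : X.T, ∑' y : X.T', ∑' s₁ : X.T,
              (if X.up j y = x then tt X.G p (t, x) (r, y) * X.uu p (j + m) y r s₁ *
                tt X.G p (s₁, X.up m x) (s, X.up n x) else 0)) := by
            intro s
            rw [mul_left_comm, Finset.mul_sum]
            congr 1
            refine Finset.sum_congr rfl fun m _ => ?_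
            rw [Finset.mul_sum]
          rw [tsum_congr e, ENNReal.tsum_mul_left]
          congr 1
          rw [Summable.tsum_finsetSum (fun m _ => ENNReal.summable)]
          refine Finset.sum_congr rfl fun m _ => ?_
          rw [Summable.tsum_finsetSum (fun j _ => ENNReal.summable)]
      _ ≤ (Δ : ℝ≥0∞) ^ 2 * ∑ m ∈ Finset.Ico n (n + L), ∑ j ∈ Finset.range L,
            C₀ * C₀ * X.gu p (j + m) x t := by
          gcongr with m hm j hj
          exact inner X C₀ p hgu h3 h4 n m j (Finset.mem_Ico.mp hm).1 x t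
      _ = (Δ : ℝ≥0∞) ^ 2 * (C₀ * C₀) *
            ∑ m ∈ Finset.Ico n (n + L), ∑ j ∈ Finset.range L, X.gu p (j + m) x t := by
          simp only [Finset.mul_sum, mul_assoc]

end Pool.Agent.Work.MP_c58d8b_pr.PT
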