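import Pool.Agent.Work.MP_c58d8b_pr.PT.Stmts2

/-!
# MP_c58d8b_pr, block PT, item JE: supermultiplicativity of the exit probabilities
-/

set_option autoImplicit false

namespace Pool.Agent.Work.MP_c58d8b_pr.PT

open MeasureTheory ProbabilityTheory Set Filter Topology
open scoped ENNReal unitInterval Classical
open Pool.Agent.Work.MP_c58d8b_pr.SO

universe u

namespace IX_JE

theorem mem_EI {V : Type u} (H : SimpleGraph V) (S : Finset V) (e : Sym2 V) :
    e ∈ EI H S ↔ ∃ a b, a ∈ S ∧ b ∈ S ∧ H.Adj a b ∧ e = s(a, b) := by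
  unfold EI
  rw [Finset.mem_image]
  constructor
  · rintro ⟨q, hq, rfl⟩
    rw [Finset.mem_filter, Finset.mem_product] at hq
    exact ⟨q.1, q.2, hq.1.1, hq.1.2, hq.2, rfl⟩
  · rintro ⟨a, b, ha, hb, hab, rfl⟩
    exact ⟨(a, b), by rw [Finset.mem_filter, Finset.mem_product]; exact ⟨⟨ha, hb⟩, hab⟩, rfl⟩

theorem mk_mem_EI {V : Type u} {H : SimpleGraph V} {S : Finset V} {a b : V}
    (h : s(a, b) ∈ EI H S) : a ∈ S ∧ b ∈ S ∧ H.Adj a b := by
  obtain ⟨c, d, hc, hd, hcd, he⟩ := (mem_EI H S _).1 h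
  rcases Sym2.eq_iff.1 he with ⟨rfl, rfl⟩ | ⟨rfl, rfl⟩
  · exact ⟨hc, hd, hcd⟩
  · exact ⟨hd, hc, hcd.symm⟩

theorem mem_BlF (hVC : StVC.{u}) (X : Sys.{u}) (M : ℕ) (u v : X.T × X.T') :
    v ∈ X.BlF M u ↔ td X.par u.1 v.1 ≤ M ∧ td X.par' u.2 v.2 ≤ M := by
  have hf : (X.Bl M u).Finite :=
    ((hVC X 1 X.A.one_mem 1 X.B.one_mem).2.2.2.2.2.2.2.2.2.1 M u).1
  unfold Sys.BlF
  rw [dif_pos hf, Set.Finite.mem_toFinset]
  rfl

end IX_JE

theorem pt_JE (hPB : StPB.{u}) (hPL : StPL.{u}) (hCB : StCB.{u}) (hFA : StFA.{u}) (hRA : StRA.{u})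
    (hRB : StRB.{u}) (hRF : StRF.{u}) (hVC : StVC.{u}) (hJF : StJF.{u}) : StJE.{u} := by
  intro X p hp0 hp1 M M' m m' hm hm' u
  obtain ⟨hRA1, _, _, hRA4, hRA5, _⟩ := hRA X.T' X.par' X.h' X.b X.tr'
  obtain ⟨_, _, htri, _, _, _, _, _, _, _⟩ := hRB X.T X.par X.h X.a X.tr
  obtain ⟨_, _, htri', _, _, _, _, _, _, _⟩ := hRB X.T' X.par' X.h' X.b X.tr'
  set D : Set X.T' := desc X.par' (X.up (m - 1) u.2) with hD
  set A : Set (Set (Sym2 (X.T × X.T'))) := {s | ∃ w ∈ Cluster s u, w.2 ∉ D} with hA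
  set K := within X.G (insert u (X.Dn u.2)ᶜ) with hK
  set E₀ := EI K (X.BlF M u) with hE₀
  set E := EI K (X.BlF (M + M') u) with hE
  set E₁ := E₀.filter (fun e => ∃ a, a ∈ e ∧ a.2 ∈ D) with hE₁
  have huD : u.2 ∈ D := (hRA5 u.2 (m - 1)).2
  have hE₁₀ : E₁ ⊆ E₀ := Finset.filter_subset _ _
  have hE₀E : E₀ ⊆ E := by
    intro e he
    obtain ⟨a, b, ha, hb, hab, rfl⟩ := (IX_JE.mem_EI _ _ _).1 he
    rw [IX_JE.mem_BlF hVC] at ha hb
    refine (IX_JE.mem_EI _ _ _).2 ⟨a, b, ?_, ?_, hab, rfl⟩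
    · rw [IX_JE.mem_BlF hVC]
      exact ⟨by omega, by omega⟩
    · rw [IX_JE.mem_BlF hVC]
      exact ⟨by omega, by omega⟩
  -- step 1
  have hstep1 : X.eb p M m u = Pr E₁ p A := by
    change Pr E₀ p A = Pr E₁ p A
    apply hPL _ E₀ E₁ p hp0 hp1 hE₁₀
    intro s hs
    constructor
    · rintro ⟨w, hw, hwD⟩
      by_contra hno
      have hall : ∀ v ∈ Cluster ((s : Set (Sym2 (X.T × X.T'))) ∩ (E₁ : Set _)) u, v.2 ∈ D := by
        intro v hv
        by_contra hvD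
        exact hno ⟨v, hv, hvD⟩
      have hsub := (hCB _ (s : Set (Sym2 (X.T × X.T')))).2.2.2.2.2
        (Cluster ((s : Set (Sym2 (X.T × X.T'))) ∩ (E₁ : Set _)) u) u
        ((hCB _ ((s : Set (Sym2 (X.T × X.T'))) ∩ (E₁ : Set _))).1 u) (by
          intro a ha b hab
          have hmem : s(a, b) ∈ (s : Set (Sym2 (X.T × X.T'))) ∩ (E₁ : Set _) := by
            refine ⟨hab, ?_⟩
            rw [Finset.mem_coe, hE₁, Finset.mem_filter]
            exact ⟨hs (Finset.mem_coe.1 hab), a, Sym2.mem_mk_left a b, hall a ha⟩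
          exact (hCB _ _).2.2.1 u a b ha ((hCB _ _).2.2.2.2.1 a b hmem))
      exact hwD (hall w (hsub hw))
    · rintro ⟨w, hw, hwD⟩
      exact ⟨w, (hCB _ _).2.2.2.1 _ Set.inter_subset_left u hw, hwD⟩
  -- the second event
  set A' : Set (Set (Sym2 (X.T × X.T'))) :=
    {s | ∃ w ∈ Cluster s u, w.2 ∉ desc X.par' (X.up (m + m' - 1) u.2)} with hA'
  have hsum : X.eb p (M + M') (m + m') u = ∑ t ∈ E₁.powerset,
      p ^ t.card * (1 - p) ^ (E₁.card - t.card) *
        Pr (E \ E₁) p {s | (t : Set (Sym2 (X.T × X.T'))) ∪ s ∈ A'} := by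
    change Pr E p A' = _
    have h := (hFA (Sym2 (X.T × X.T')) p).1 E₁ (E \ E₁) Finset.disjoint_sdiff A'
    have key : ∀ F : Finset (Sym2 (X.T × X.T')), F = E → Pr F p A' = Pr E p A' := by
      rintro F rfl
      rfl
    refine (key _ ?_).symm.trans h
    ext e
    simp only [Finset.mem_union, Finset.mem_sdiff]
    constructor
    · rintro (he | he)
      · exact hE₀E (hE₁₀ he)
      · exact he.1
    · intro he
      by_cases h1 : e ∈ E₁
      · exact Or.inl h1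
      · exact Or.inr ⟨he, h1⟩
  -- the main estimate
  have hmain : ∀ t : Finset (Sym2 (X.T × X.T')), t ⊆ E₁ → (t : Set (Sym2 (X.T × X.T'))) ∈ A →
      X.eb p M' m' u ≤ Pr (E \ E₁) p {s | (t : Set (Sym2 (X.T × X.T'))) ∪ s ∈ A'} := by
    intro t ht htA
    obtain ⟨w, hw, hwD⟩ := htA
    have hwu : w ≠ u := by
      rintro rfl
      exact hwD huD
    obtain ⟨y, hy⟩ : ∃ y, s(w, y) ∈ (t : Set (Sym2 (X.T × X.T'))) := by
      by_contra hno
      push Not at hno
      have h1 := (hCB _ (t : Set (Sym2 (X.T × X.T')))).2.2.2.2.2 {w} w rfl (by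
        intro a ha b hab
        rw [Set.mem_singleton_iff] at ha
        subst ha
        exact absurd hab (hno b))
      have h2 := h1 ((hCB _ (t : Set (Sym2 (X.T × X.T')))).2.1 u w hw)
      exact hwu h2.symm
    have hyE₁ : s(w, y) ∈ E₁ := ht (Finset.mem_coe.1 hy)
    rw [hE₁, Finset.mem_filter] at hyE₁
    obtain ⟨hyE₀, a, ha, haD⟩ := hyE₁
    obtain ⟨hwB, hyB, hadj⟩ := IX_JE.mk_mem_EI hyE₀
    have hyD : y.2 ∈ D := by
      rcases Sym2.mem_iff.1 ha with rfl | rfl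
      · exact absurd haD hwD
      · exact haD
    obtain ⟨n, hn⟩ := X.cmp w y hadj.1
    obtain ⟨l, k, hk, hnk, hl, hkw, hnw⟩ := hRF X.T' X.par' X.h' X.b X.tr' (X.up (m - 1) u.2) y.2
      w.2 n hyD hwD (hn.symm)
    have hw2 : w.2 = X.up (k + (m - 1)) u.2 := by
      rw [← hkw]
      exact (Function.iterate_add_apply X.par' k (m - 1) u.2).symm
    rw [IX_JE.mem_BlF hVC] at hwB
    have hDw : D ⊆ desc X.par' w.2 := by
      have h1 : X.up (m - 1) u.2 ∈ desc X.par' w.2 := by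
        rw [← hkw]
        exact (hRA5 _ k).2
      exact (hRA4 _ _ h1).1
    have hxw : desc X.par' u.2 ⊆ desc X.par' w.2 := ((hRA4 _ _ huD).1).trans hDw
    have hxD : desc X.par' u.2 ⊆ D := (hRA4 _ _ huD).1
    -- the edges of the second part
    set K₂ := within X.G (insert w (X.Dn w.2)ᶜ) with hK₂
    set E₂ := EI K₂ (X.BlF M' w) with hE₂
    set A₂ : Set (Set (Sym2 (X.T × X.T'))) :=
      {s | ∃ v ∈ Cluster s w, v.2 ∉ desc X.par' (X.up (m' - 1) w.2)} with hA₂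
    have hout : ∀ a : X.T × X.T', a ∈ insert w (X.Dn w.2)ᶜ → a.2 ∉ D := by
      intro a ha
      rcases ha with rfl | ha
      · exact hwD
      · intro h
        exact ha (hDw h)
    have hE₂E : E₂ ⊆ E \ E₁ := by
      intro e he
      obtain ⟨a, b, ha, hb, hab, rfl⟩ := (IX_JE.mem_EI _ _ _).1 he
      rw [IX_JE.mem_BlF hVC] at ha hb
      obtain ⟨hG, haW, hbW⟩ := hab
      have hin : ∀ c : X.T × X.T', c ∈ insert w (X.Dn w.2)ᶜ → c ∈ insert u (X.Dn u.2)ᶜ := by
        intro c hc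
        right
        intro h
        exact hout c hc (hxD h)
      rw [Finset.mem_sdiff]
      constructor
      · refine (IX_JE.mem_EI _ _ _).2 ⟨a, b, ?_, ?_, ⟨hG, hin a haW, hin b hbW⟩, rfl⟩
        · rw [IX_JE.mem_BlF hVC]
          have h1 := htri u.1 w.1 a.1
          have h2 := htri' u.2 w.2 a.2
          exact ⟨by omega, by omega⟩
        · rw [IX_JE.mem_BlF hVC]
          have h1 := htri u.1 w.1 b.1
          have h2 := htri' u.2 w.2 b.2
          exact ⟨by omega, by omega⟩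
      · rw [hE₁, Finset.mem_filter]
        rintro ⟨_, c, hc, hcD⟩
        rcases Sym2.mem_iff.1 hc with rfl | rfl
        · exact hout _ haW hcD
        · exact hout _ hbW hcD
    have heq : Pr (E \ E₁) p {s | s ∩ (E₂ : Set (Sym2 (X.T × X.T'))) ∈ A₂} = X.eb p M' m' u := by
      have h1 : Pr (E \ E₁) p {s | s ∩ (E₂ : Set (Sym2 (X.T × X.T'))) ∈ A₂} =
          Pr E₂ p {s | s ∩ (E₂ : Set (Sym2 (X.T × X.T'))) ∈ A₂} := by
        apply hPL _ (E \ E₁) E₂ p hp0 hp1 hE₂E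
        intro s _
        change (s : Set (Sym2 (X.T × X.T'))) ∩ (E₂ : Set _) ∈ A₂ ↔
          (s : Set (Sym2 (X.T × X.T'))) ∩ (E₂ : Set _) ∩ (E₂ : Set _) ∈ A₂
        rw [Set.inter_assoc, Set.inter_self]
      have h2 : Pr E₂ p {s | s ∩ (E₂ : Set (Sym2 (X.T × X.T'))) ∈ A₂} = Pr E₂ p A₂ := by
        have hb := (hPB _ E₂ p hp0 hp1).2.2.1
        apply le_antisymm
        · apply hb
          intro s hs h
          have : (s : Set (Sym2 (X.T × X.T'))) ∩ (E₂ : Set _) = s :=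
            Set.inter_eq_left.2 (by exact_mod_cast hs)
          change (s : Set (Sym2 (X.T × X.T'))) ∩ (E₂ : Set _) ∈ A₂ at h
          rwa [this] at h
        · apply hb
          intro s hs h
          have : (s : Set (Sym2 (X.T × X.T'))) ∩ (E₂ : Set _) = s :=
            Set.inter_eq_left.2 (by exact_mod_cast hs)
          change (s : Set (Sym2 (X.T × X.T'))) ∩ (E₂ : Set _) ∈ A₂
          rwa [this]
      rw [h1, h2]
      change X.eb p M' m' w = _
      exact (hJF X p hp0 hp1).1 M' m' w u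
    rw [← heq]
    apply (hPB _ (E \ E₁) p hp0 hp1).2.2.1
    rintro s _ ⟨v, hv, hvD⟩
    refine ⟨v, ?_, ?_⟩
    · have h1 : v ∈ Cluster ((t : Set (Sym2 (X.T × X.T'))) ∪ (s : Set _)) w :=
        (hCB _ _).2.2.2.1 _ (Set.inter_subset_left.trans Set.subset_union_right) w hv
      have h2 : w ∈ Cluster ((t : Set (Sym2 (X.T × X.T'))) ∪ (s : Set _)) u :=
        (hCB _ _).2.2.2.1 _ Set.subset_union_left u hw
      exact (hCB _ _).2.2.1 u w v h2 h1
    · intro h
      apply hvD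
      have h3 : X.up (m + m' - 1) u.2 ∈ desc X.par' (X.up (m' - 1) w.2) := by
        have h4 : X.up (m' - 1) w.2 = X.par'^[k - 1] (X.up (m + m' - 1) u.2) := by
          rw [hw2]
          change X.par'^[m' - 1] (X.par'^[k + (m - 1)] u.2) =
            X.par'^[k - 1] (X.par'^[m + m' - 1] u.2)
          rw [← Function.iterate_add_apply, ← Function.iterate_add_apply]
          congr 1
          omega
        rw [h4]
        exact (hRA5 _ (k - 1)).2
      exact (hRA4 _ _ h3).1 h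
  -- summation
  have hnn : ∀ t : Finset (Sym2 (X.T × X.T')), 0 ≤ p ^ t.card * (1 - p) ^ (E₁.card - t.card) :=
    fun t => mul_nonneg (pow_nonneg hp0 _) (pow_nonneg (by linarith) _)
  rw [hstep1, hsum]
  unfold Pr
  rw [Finset.sum_mul]
  refine le_trans (Finset.sum_le_sum (fun t ht => ?_))
    (Finset.sum_le_sum_of_subset_of_nonneg (Finset.filter_subset _ _) (fun t _ _ => ?_))
  · rw [Finset.mem_filter, Finset.mem_powerset] at ht
    exact mul_le_mul_of_nonneg_left (hmain t ht.1 ht.2) (hnn t)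
  · exact mul_nonneg (hnn t) ((hPB _ (E \ E₁) p hp0 hp1).2.1 _).1

end Pool.Agent.Work.MP_c58d8b_pr.PT
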