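import Pool.Agent.Work.MP_c58d8b_pr.PT.Stmts2

/-!
# MP_c58d8b_pr, block PT, item JF: exit probabilities
-/

set_option autoImplicit false

namespace Pool.Agent.Work.MP_c58d8b_pr.PT

open MeasureTheory ProbabilityTheory Set Filter Topology
open scoped ENNReal unitInterval Classical
open Pool.Agent.Work.MP_c58d8b_pr.SO

universe u

namespace IX_JF

/-- the probability for the image of the set of the coordinates -/
theorem pr_image {ι κ : Type u} [DecidableEq κ] (f : ι → κ) (hf : Function.Injective f)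
    (E : Finset ι) (p : ℝ) (A : Set (Set κ)) :
    Pr (E.image f) p A = Pr E p {s | f '' s ∈ A} := by
  unfold Pr
  have hcard : (E.image f).card = E.card := Finset.card_image_of_injective _ hf
  rw [hcard]
  symm
  refine Finset.sum_bij (fun s _ => s.image f) ?_ ?_ ?_ ?_
  · intro s hs
    rw [Finset.mem_filter, Finset.mem_powerset] at hs ⊢
    refine ⟨Finset.image_subset_image hs.1, ?_⟩
    rw [Finset.coe_image]
    exact hs.2
  · intro s _ t _ h
    exact Finset.image_injective hf h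
  · intro t ht
    rw [Finset.mem_filter, Finset.mem_powerset, Finset.subset_image_iff] at ht
    obtain ⟨⟨s, hs, rfl⟩, ht2⟩ := ht
    refine ⟨s, ?_, rfl⟩
    rw [Finset.mem_filter, Finset.mem_powerset]
    refine ⟨hs, ?_⟩
    rw [Finset.coe_image] at ht2
    exact ht2
  · intro s _
    rw [Finset.card_image_of_injective _ hf]

/-- the image of a cluster -/
theorem cluster_map {V : Type u} (φ : Equiv.Perm V) (s : Set (Sym2 V)) (x y : V) :
    φ y ∈ Cluster (Sym2.map φ '' s) (φ x) ↔ y ∈ Cluster s x := by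
  have hiso : ∀ a b : V, (SimpleGraph.fromEdgeSet (Sym2.map φ '' s)).Adj (φ a) (φ b) ↔
      (SimpleGraph.fromEdgeSet s).Adj a b := by
    intro a b
    rw [SimpleGraph.fromEdgeSet_adj, SimpleGraph.fromEdgeSet_adj]
    have h1 : s(φ a, φ b) = Sym2.map φ s(a, b) := rfl
    rw [h1, (Sym2.map.injective φ.injective).mem_set_image, φ.injective.ne_iff]
  have h2 := SimpleGraph.Iso.reachable_iff
    (φ := ({ toEquiv := φ, map_rel_iff' := fun {a b} => hiso a b } :
      SimpleGraph.fromEdgeSet s ≃g SimpleGraph.fromEdgeSet (Sym2.map φ '' s)))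
    (u := x) (v := y)
  exact h2

/-- the image of the edges inside `S` -/
theorem EI_image {V : Type u} [DecidableEq V] (H H' : SimpleGraph V) (φ : Equiv.Perm V)
    (h : ∀ x y, H'.Adj (φ x) (φ y) ↔ H.Adj x y) (S : Finset V) :
    EI H' (S.image φ) = (EI H S).image (Sym2.map φ) := by
  ext e
  constructor
  · intro he
    simp only [EI, Finset.mem_image, Finset.mem_filter, Finset.mem_product] at he
    obtain ⟨⟨a, b⟩, ⟨⟨⟨a', ha', rfl⟩, ⟨b', hb', rfl⟩⟩, hab⟩, rfl⟩ := he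
    simp only [EI, Finset.mem_image, Finset.mem_filter, Finset.mem_product]
    exact ⟨s(a', b'), ⟨(a', b'), ⟨⟨ha', hb'⟩, (h a' b').mp hab⟩, rfl⟩, rfl⟩
  · intro he
    simp only [EI, Finset.mem_image, Finset.mem_filter, Finset.mem_product] at he
    obtain ⟨e', ⟨⟨a, b⟩, ⟨⟨ha, hb⟩, hab⟩, rfl⟩, rfl⟩ := he
    simp only [EI, Finset.mem_image, Finset.mem_filter, Finset.mem_product]
    exact ⟨(φ a, φ b), ⟨⟨⟨a, ha, rfl⟩, ⟨b, hb, rfl⟩⟩, (h a b).mpr hab⟩, rfl⟩

theorem ei_mono {V : Type u} {H : SimpleGraph V} {S S' : Finset V} (hS : S ⊆ S') :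
    EI H S ⊆ EI H S' := by
  unfold EI
  refine Finset.image_subset_image ?_
  intro q hq
  rw [Finset.mem_filter, Finset.mem_product] at hq ⊢
  exact ⟨⟨hS hq.1.1, hS hq.1.2⟩, hq.2⟩

/-- monotonicity of the probability of an increasing event in the set of the edges -/
theorem pr_mono (hPB : SO.StPB.{u}) (hPL : SO.StPL.{u}) {ι : Type u} {E E' : Finset ι}
    (hE : E ⊆ E') {p : ℝ} (hp : 0 ≤ p) (hp1 : p ≤ 1) {A : Set (Set ι)} (hA : Inc A) :
    Pr E p A ≤ Pr E' p A := by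
  have h2 : Pr E p A ≤ Pr E p {s | s ∩ (E : Set ι) ∈ A} := by
    refine (hPB ι E p hp hp1).2.2.1 _ _ fun s hs hy => ?_
    have h3 : (s : Set ι) ∩ (E : Set ι) = (s : Set ι) :=
      Set.inter_eq_left.mpr (Finset.coe_subset.mpr hs)
    show (s : Set ι) ∩ (E : Set ι) ∈ A
    rw [h3]
    exact hy
  have h4 : Pr E' p {s | s ∩ (E : Set ι) ∈ A} = Pr E p {s | s ∩ (E : Set ι) ∈ A} := by
    refine hPL ι E' E p hp hp1 hE _ fun s _ => ?_
    show (s : Set ι) ∩ (E : Set ι) ∈ A ↔ (s : Set ι) ∩ (E : Set ι) ∩ (E : Set ι) ∈ A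
    rw [Set.inter_assoc, Set.inter_self]
  have h5 : Pr E' p {s | s ∩ (E : Set ι) ∈ A} ≤ Pr E' p A := by
    refine (hPB ι E' p hp hp1).2.2.1 _ _ fun s _ hy => ?_
    exact hA _ _ Set.inter_subset_left hy
  exact (h2.trans h4.symm.le).trans h5

end IX_JF

/-- item JF -/
theorem pt_JF (hPB : SO.StPB.{u}) (hPL : SO.StPL.{u}) (hCB : SO.StCB.{u}) (hRC : StRC.{u})
    (hVC : StVC.{u}) : StJF.{u} := by
  intro X p hp hp1
  refine ⟨?_, ?_, ?_, ?_⟩
  · intro M m u v
    obtain ⟨α, hα, hαc, hα1⟩ := X.mov u.1 v.1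
    obtain ⟨β, hβ, hβ1⟩ := X.mov' u.2 v.2
    obtain ⟨haut, hup, -, hDn, -, -, -, -, -, hBl, -⟩ := hVC X α hα β hβ
    obtain ⟨-, -, -, -, hdesc⟩ := hRC X.T' X.par' X.h' X.b X.tr' β (X.com' β hβ)
    have hφu : (Equiv.prodCongr α β) u = v := by
      show (α u.1, β u.2) = v
      rw [hα1, hβ1]
    have hball : (X.BlF M u).image (Equiv.prodCongr α β) = X.BlF M v := by
      rw [(hBl M u).2, hα1, hβ1]
    have hDn' : Equiv.prodCongr α β '' X.Dn u.2 = X.Dn v.2 := by
      rw [hDn, hβ1]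
    have hmem : ∀ x, (Equiv.prodCongr α β) x ∈ insert v (X.Dn v.2)ᶜ ↔
        x ∈ insert u (X.Dn u.2)ᶜ := by
      intro x
      rw [Set.mem_insert_iff, Set.mem_insert_iff, Set.mem_compl_iff, Set.mem_compl_iff, ← hφu,
        (Equiv.prodCongr α β).injective.eq_iff, hφu, ← hDn',
        (Equiv.prodCongr α β).injective.mem_set_image]
    have hadj : ∀ x y, (within X.G (insert v (X.Dn v.2)ᶜ)).Adj ((Equiv.prodCongr α β) x)
        ((Equiv.prodCongr α β) y) ↔ (within X.G (insert u (X.Dn u.2)ᶜ)).Adj x y := by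
      intro x y
      show X.G.Adj _ _ ∧ _ ∧ _ ↔ X.G.Adj x y ∧ _ ∧ _
      rw [hmem, hmem]
      exact and_congr_left' (haut x y)
    have hev : {s : Set (Sym2 (X.T × X.T')) | Sym2.map (Equiv.prodCongr α β) '' s ∈
        {s | ∃ w ∈ Cluster s v, w.2 ∉ desc X.par' (X.up (m - 1) v.2)}} =
        {s | ∃ w ∈ Cluster s u, w.2 ∉ desc X.par' (X.up (m - 1) u.2)} := by
      ext s
      have hd : ∀ w : X.T × X.T', ((Equiv.prodCongr α β) w).2 ∈
          desc X.par' (X.up (m - 1) v.2) ↔ w.2 ∈ desc X.par' (X.up (m - 1) u.2) := by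
        intro w
        rw [← hβ1, ← hup]
        exact hdesc _ _
      constructor
      · rintro ⟨w, hw, hw'⟩
        obtain ⟨w', rfl⟩ := (Equiv.prodCongr α β).surjective w
        rw [← hφu, IX_JF.cluster_map] at hw
        exact ⟨w', hw, fun h => hw' ((hd w').2 h)⟩
      · rintro ⟨w, hw, hw'⟩
        refine ⟨(Equiv.prodCongr α β) w, ?_, fun h => hw' ((hd w).1 h)⟩
        rw [← hφu, IX_JF.cluster_map]
        exact hw
    show Pr (EI (within X.G (insert u (X.Dn u.2)ᶜ)) (X.BlF M u)) p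
        {s | ∃ w ∈ Cluster s u, w.2 ∉ desc X.par' (X.up (m - 1) u.2)} =
      Pr (EI (within X.G (insert v (X.Dn v.2)ᶜ)) (X.BlF M v)) p
        {s | ∃ w ∈ Cluster s v, w.2 ∉ desc X.par' (X.up (m - 1) v.2)}
    rw [← hball, IX_JF.EI_image _ _ _ hadj, IX_JF.pr_image (Sym2.map (Equiv.prodCongr α β))
      (Sym2.map.injective (Equiv.prodCongr α β).injective), hev]
  · intro S S' m u hS
    refine IX_JF.pr_mono hPB hPL (IX_JF.ei_mono hS) hp hp1 ?_
    rintro s t hst ⟨w, hw, hw'⟩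
    exact ⟨w, (hCB _ s).2.2.2.1 t hst u hw, hw'⟩
  · intro S u
    refine ⟨S.sup fun v => max (td X.par u.1 v.1) (td X.par' u.2 v.2), fun v hv => ?_⟩
    have hfin : ∀ M, (X.Bl M u).Finite := fun M =>
      ((hVC X 1 X.A.one_mem 1 X.B.one_mem).2.2.2.2.2.2.2.2.2.1 M u).1
    have h1 : max (td X.par u.1 v.1) (td X.par' u.2 v.2) ≤
        S.sup fun v => max (td X.par u.1 v.1) (td X.par' u.2 v.2) :=
      Finset.le_sup (f := fun v => max (td X.par u.1 v.1) (td X.par' u.2 v.2)) hv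
    unfold Sys.BlF
    rw [dif_pos (hfin _), Set.Finite.mem_toFinset]
    exact ⟨(le_max_left _ _).trans h1, (le_max_right _ _).trans h1⟩
  · intro S m u
    exact (hPB _ _ p hp hp1).2.1 _

end Pool.Agent.Work.MP_c58d8b_pr.PT
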