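import Pool.Agent.Work.MP_c58d8b_pr.PT.Stmts2

/-!
# MP_c58d8b_pr, block PT, item JG: union bound for the exit
-/

set_option autoImplicit false

namespace Pool.Agent.Work.MP_c58d8b_pr.PT

open MeasureTheory ProbabilityTheory Set Filter Topology
open scoped ENNReal unitInterval Classical
open Pool.Agent.Work.MP_c58d8b_pr.SO

universe u

namespace IX_JG

/-- The union bound. -/
theorem union_bound (hPB : SO.StPB.{u}) {ι : Type u} {κ : Type u} (E : Finset ι) (p : ℝ)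
    (hp0 : 0 ≤ p) (hp1 : p ≤ 1) (J : Finset κ) (A : κ → Set (Set ι)) :
    Pr E p {s | ∃ i ∈ J, s ∈ A i} ≤ ∑ i ∈ J, Pr E p (A i) := by
  obtain ⟨-, h2, h3, h4, -⟩ := hPB ι E p hp0 hp1
  induction J using Finset.induction_on with
  | empty =>
    rw [Finset.sum_empty]
    have e1 := h4 Set.univ Set.univ
    rw [Set.univ_inter] at e1
    have e2 : Pr E p (Set.univ ∩ Set.univᶜ) = 0 := by linarith
    rw [← e2]
    refine h3 _ _ fun s _ hs => ?_
    obtain ⟨i, hi, -⟩ := hs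
    exact absurd hi (Finset.notMem_empty i)
  | insert j J hj ih =>
    rw [Finset.sum_insert hj, h4 _ (A j)]
    refine add_le_add ?_ ((h3 _ _ ?_).trans ih)
    · exact h3 _ _ fun s _ hs => hs.2
    · intro s _ hs
      obtain ⟨⟨i, hi, hiA⟩, hjA⟩ := hs
      rcases Finset.mem_insert.1 hi with h | h
      · subst h
        exact absurd hiA hjA
      · exact ⟨i, h, hiA⟩

theorem mem_EI {V : Type u} {H : SimpleGraph V} {S : Finset V} {y z : V} (h : s(y, z) ∈ EI H S) :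
    y ∈ S ∧ z ∈ S ∧ H.Adj y z := by
  unfold EI at h
  obtain ⟨q, hq, hqe⟩ := Finset.mem_image.1 h
  obtain ⟨h1, h2⟩ := Finset.mem_filter.1 hq
  obtain ⟨h3, h4⟩ := Finset.mem_product.1 h1
  rcases Sym2.eq_iff.1 hqe with ⟨h5, h6⟩ | ⟨h5, h6⟩
  · rw [← h5, ← h6]
    exact ⟨h3, h4, h2⟩
  · rw [← h5, ← h6]
    exact ⟨h4, h3, h2.symm⟩

theorem mem_BlF {X : Sys.{u}} {M : ℕ} {u z : X.T × X.T'} (h : z ∈ X.BlF M u) : z ∈ X.Bl M u := by
  unfold Sys.BlF at h
  by_cases hf : (X.Bl M u).Finite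
  · rw [dif_pos hf] at h
    exact hf.mem_toFinset.1 h
  · rw [dif_neg hf] at h
    exact absurd h (Finset.notMem_empty z)

/-- The exit vertex. -/
theorem exit (hCB : SO.StCB.{u}) (hRF : StRF.{u}) (X : Sys.{u}) (Δ L : ℕ) (hC : X.Const Δ L)
    (M m : ℕ) (hm : 1 ≤ m) (t : X.T) (x : X.T') (s : Set (Sym2 (X.T × X.T')))
    (hs : s ⊆ (EI (within X.G (insert (t, x) (X.Dn x)ᶜ)) (X.BlF M (t, x)) :
      Set (Sym2 (X.T × X.T'))))
    (h : ∃ w ∈ Cluster s (t, x), w.2 ∉ desc X.par' (X.up (m - 1) x)) :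
    ∃ k ∈ Finset.Ico m (m + L), ∃ r : X.T, td X.par t r ≤ M ∧
      (r, X.up k x) ∈ Cluster s (t, x) := by
  obtain ⟨w, hw, hwD⟩ := h
  obtain ⟨b1, b2, b3, b4, b5, b6⟩ := hCB _ s
  by_contra hcon
  have hsub : Cluster s (t, x) ⊆
      {v | v ∈ Cluster s (t, x) ∧ v.2 ∈ desc X.par' (X.up (m - 1) x)} := by
    refine b6 _ _ ⟨b1 _, ⟨m - 1, rfl⟩⟩ ?_
    intro y hy z hyz
    have hz : z ∈ Cluster s (t, x) := b3 _ _ _ hy.1 (b5 _ _ hyz)
    refine ⟨hz, ?_⟩
    by_contra hzD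
    apply hcon
    obtain ⟨hyS, hzS, hyzA⟩ := mem_EI (hs hyz)
    have hG : X.G.Adj y z := hyzA.1
    obtain ⟨n, hn, hn'⟩ := hC.jmp y z hG
    obtain ⟨l, k, hk, hnk, h1, h2, h3⟩ := hRF X.T' X.par' X.h' X.b X.tr' (X.up (m - 1) x) y.2 z.2 n
      hy.2 hzD hn'
    have h4 : X.up (k + (m - 1)) x = z.2 := by
      rw [← h2]
      show X.par'^[k + (m - 1)] x = X.par'^[k] (X.par'^[m - 1] x)
      rw [Function.iterate_add_apply]
    refine ⟨k + (m - 1), Finset.mem_Ico.2 ⟨by omega, by omega⟩, z.1, ?_, ?_⟩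
    · have h5 := mem_BlF hzS
      exact h5.1
    · rw [h4]
      exact hz
  exact hwD (hsub hw).2

/-- The sum over the tree. -/
theorem tree_sum (hRB : StRB.{u}) {T : Type u} {par : T → T} {h : T → ℤ} {a : ℕ}
    (hT : Tr par h a) (t : T) (M : ℕ) (RR : Finset T) (hRR : ∀ r ∈ RR, td par t r ≤ M) :
    ∑ r ∈ RR, ((a : ℝ)⁻¹) ^ td par t r ≤ 2 * (M + 1) := by
  obtain ⟨-, -, -, -, -, -, -, -, hfin, hcard⟩ := hRB T par h a hT
  have ha : (0 : ℝ) < a := by
    have := hT.two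
    have h2 : 0 < a := by omega
    exact_mod_cast h2
  have h1 : ∀ r ∈ RR, td par t r ∈ Finset.range (M + 1) := fun r hr =>
    Finset.mem_range.2 (Nat.lt_succ_of_le (hRR r hr))
  rw [← Finset.sum_fiberwise_of_maps_to h1]
  have h2 : ∀ e ∈ Finset.range (M + 1),
      ∑ r ∈ RR.filter (fun r => td par t r = e), ((a : ℝ)⁻¹) ^ td par t r ≤ 2 := by
    intro e _
    have h3 : ∑ r ∈ RR.filter (fun r => td par t r = e), ((a : ℝ)⁻¹) ^ td par t r =
        ((RR.filter (fun r => td par t r = e)).card : ℝ) * ((a : ℝ)⁻¹) ^ e := by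
      rw [Finset.sum_congr rfl (g := fun _ => ((a : ℝ)⁻¹) ^ e), Finset.sum_const, nsmul_eq_mul]
      intro r hr
      rw [(Finset.mem_filter.1 hr).2]
    have h4 : (RR.filter (fun r => td par t r = e)).card ≤ 2 * a ^ e := by
      refine le_trans ?_ (hcard t e)
      rw [← Set.ncard_coe_finset]
      refine Set.ncard_le_ncard ?_ ((hfin t e).subset fun r hr => le_of_eq hr)
      intro r hr
      exact (Finset.mem_filter.1 (Finset.mem_coe.1 hr)).2
    have h5 : ((RR.filter (fun r => td par t r = e)).card : ℝ) ≤ 2 * (a : ℝ) ^ e := by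
      exact_mod_cast h4
    rw [h3]
    refine (mul_le_mul_of_nonneg_right h5 (pow_nonneg (inv_nonneg.2 ha.le) e)).trans ?_
    rw [mul_assoc, ← mul_pow, mul_inv_cancel₀ ha.ne', one_pow, mul_one]
  refine (Finset.sum_le_sum h2).trans ?_
  rw [Finset.sum_const, Finset.card_range, nsmul_eq_mul]
  push_cast
  linarith

end IX_JG

open IX_JG in
/-- JG: union bound for the exit. -/
theorem pt_JG (hPB : SO.StPB.{u}) (hCB : SO.StCB.{u}) (hQB : StQB.{u}) (hRB : StRB.{u})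
    (hRF : StRF.{u}) : StJG.{u} := by
  intro X Δ L hC p hp0 hp1 hBd M m hm u
  obtain ⟨t, x⟩ := u
  have hfin : {r | td X.par t r ≤ M}.Finite := (hRB X.T X.par X.h X.a X.tr).2.2.2.2.2.2.2.2.1 t M
  have ha : (0 : ℝ) < X.a := by
    have := X.tr.two
    have h2 : 0 < X.a := by omega
    exact_mod_cast h2
  have hb1 : (1 : ℝ) ≤ √(X.b : ℝ) := by
    rw [Real.one_le_sqrt]
    have := X.tr'.two
    have h2 : 1 ≤ X.b := by omega
    exact_mod_cast h2
  have hb0 : (0 : ℝ) < √(X.b : ℝ) := lt_of_lt_of_le one_pos hb1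
  set K : SimpleGraph (X.T × X.T') := within X.G (insert (t, x) (X.Dn x)ᶜ) with hK
  set S : Finset (X.T × X.T') := X.BlF M (t, x) with hS
  have hKG : K ≤ X.G := fun y z h => h.1
  -- the union bound needs an index type in the universe `u`
  have h1 : X.eb p M m (t, x) ≤ ∑ k ∈ Finset.Ico m (m + L), ∑ r ∈ hfin.toFinset,
      tau K p S (t, x) (r, X.up k x) := by
    have e1 : X.eb p M m (t, x) ≤ Pr (EI K S) p
        {s | ∃ i ∈ (Finset.Ico m (m + L)).image (ULift.up.{u}),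
          s ∈ {s | ∃ r ∈ hfin.toFinset, s ∈ {s | (r, X.up i.down x) ∈ Cluster s (t, x)}}} := by
      refine (hPB _ (EI K S) p hp0 hp1).2.2.1 _ _ ?_
      intro s hs hw
      have hs' : (s : Set (Sym2 (X.T × X.T'))) ⊆ (EI K S : Set (Sym2 (X.T × X.T'))) :=
        Finset.coe_subset.2 hs
      obtain ⟨k, hk, r, hr, hc⟩ := exit hCB hRF X Δ L hC M m hm t x
        (s : Set (Sym2 (X.T × X.T'))) hs' hw
      exact ⟨ULift.up k, Finset.mem_image_of_mem _ hk, r, hfin.mem_toFinset.2 hr, hc⟩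
    refine e1.trans ((union_bound hPB _ p hp0 hp1 _ _).trans ?_)
    rw [Finset.sum_image (fun a _ b _ hab => ULift.up_injective hab)]
    refine Finset.sum_le_sum fun k _ => ?_
    exact union_bound hPB _ p hp0 hp1 _ _
  have h2 : ∀ k ∈ Finset.Ico m (m + L), ∑ r ∈ hfin.toFinset, tau K p S (t, x) (r, X.up k x) ≤
      2 * (M + 1) * ((√(X.b : ℝ))⁻¹) ^ m := by
    intro k hk
    have h3 : ∀ r ∈ hfin.toFinset, tau K p S (t, x) (r, X.up k x) ≤
        ((X.a : ℝ)⁻¹) ^ td X.par t r * ((√(X.b : ℝ))⁻¹) ^ m := by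
      intro r _
      have h4 : tau K p S (t, x) (r, X.up k x) ≤ tau X.G p S (t, x) (r, X.up k x) :=
        (hQB _).1 K X.G S S p p hKG (Finset.Subset.refl _) hp0 le_rfl hp1 _ _
      have h5 := hBd S t r x k
      have h6 : tau X.G p S (t, x) (r, X.up k x) ≤
          ((X.a : ℝ)⁻¹) ^ td X.par t r * ((√(X.b : ℝ))⁻¹) ^ k := by
        have hpos : 0 < (X.a : ℝ) ^ X.d t r * √(X.b : ℝ) ^ k := by positivity
        have h7 : tau X.G p S (t, x) (r, X.up k x) ≤
            1 / ((X.a : ℝ) ^ X.d t r * √(X.b : ℝ) ^ k) := by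
          rw [le_div_iff₀ hpos, mul_comm]
          exact h5
        refine h7.trans (le_of_eq ?_)
        rw [one_div, mul_inv, inv_pow, inv_pow]
        rfl
      refine h4.trans (h6.trans ?_)
      refine mul_le_mul_of_nonneg_left ?_ (by positivity)
      exact pow_le_pow_of_le_one (by positivity) (inv_le_one_of_one_le₀ hb1) (Finset.mem_Ico.1 hk).1
    refine (Finset.sum_le_sum h3).trans ?_
    rw [← Finset.sum_mul]
    refine mul_le_mul_of_nonneg_right ?_ (by positivity)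
    exact tree_sum hRB X.tr t M _ fun r hr => hfin.mem_toFinset.1 hr
  refine h1.trans ((Finset.sum_le_sum h2).trans (le_of_eq ?_))
  rw [Finset.sum_const, Nat.card_Ico, nsmul_eq_mul]
  have h8 : m + L - m = L := by omega
  rw [h8]
  ring

end Pool.Agent.Work.MP_c58d8b_pr.PT
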