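import Pool.Agent.Work.MP_c58d8b_pr.PT.Stmts2

/-!
# MP_c58d8b_pr, block PT, item JH: the bound for the exit probabilities
-/

set_option autoImplicit false

namespace Pool.Agent.Work.MP_c58d8b_pr.PT

open MeasureTheory ProbabilityTheory Set Filter Topology
open scoped ENNReal unitInterval Classical
open Pool.Agent.Work.MP_c58d8b_pr.SO

universe u

namespace IX_JH

theorem pw (hJE : StJE.{u}) (hJF : StJF.{u}) (X : Sys.{u}) (p : ℝ) (hp0 : 0 ≤ p) (hp1 : p ≤ 1)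
    (M m : ℕ) (hm : 1 ≤ m) (u : X.T × X.T') (k : ℕ) :
    (X.eb p M m u) ^ (k + 1) ≤ X.eb p ((k + 1) * M) ((k + 1) * m) u := by
  have h0 : 0 ≤ X.eb p M m u := ((hJF X p hp0 hp1).2.2.2 _ _ _).1
  induction k with
  | zero => simp
  | succ k ih =>
    have h1 := hJE X p hp0 hp1 ((k + 1) * M) M ((k + 1) * m) m
      (Nat.one_le_iff_ne_zero.2 (Nat.mul_ne_zero (Nat.succ_ne_zero k) (by omega))) hm u
    have e1 : (k + 1) * M + M = (k + 1 + 1) * M := by ring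
    have e2 : (k + 1) * m + m = (k + 1 + 1) * m := by ring
    rw [e1, e2] at h1
    refine le_trans ?_ h1
    rw [pow_succ]
    exact mul_le_mul_of_nonneg_right ih h0

end IX_JH

open IX_JH in
theorem pt_JH (hRZ : StRZ) (hVA : StVA.{u}) (hJE : StJE.{u}) (hJF : StJF.{u}) (hJG : StJG.{u}) :
    StJH.{u} := by
  intro X p hp0 hp1 hBd S m hm u
  obtain ⟨Δ, L, hC⟩ := hVA X
  obtain ⟨-, h2, h3, h4⟩ := hJF X p hp0 hp1
  obtain ⟨M, hM⟩ := h3 S u
  have hb : (0 : ℝ) < X.b := by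
    have := X.tr'.two
    exact_mod_cast (by omega : 0 < X.b)
  have hs : (0 : ℝ) < (√(X.b : ℝ))⁻¹ := inv_pos.2 (Real.sqrt_pos.2 hb)
  have h5 : X.eb p M m u ≤ ((√(X.b : ℝ))⁻¹) ^ m := by
    refine hRZ (X.eb p M m u) (((√(X.b : ℝ))⁻¹) ^ m) (2 * L) M (h4 _ _ _).1 (pow_pos hs m) ?_
    intro k hk
    obtain ⟨j, rfl⟩ : ∃ j, k = j + 1 := ⟨k - 1, by omega⟩
    refine (pw hJE hJF X p hp0 hp1 M m hm u j).trans ?_
    have h6 := hJG X Δ L hC p hp0 hp1 hBd ((j + 1) * M) ((j + 1) * m)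
      (Nat.one_le_iff_ne_zero.2 (Nat.mul_ne_zero (Nat.succ_ne_zero j) (by omega))) u
    refine h6.trans (le_of_eq ?_)
    rw [← pow_mul, mul_comm m (j + 1)]
    push_cast
    ring
  exact (h2 S (X.BlF M u) m u hM).trans h5

end Pool.Agent.Work.MP_c58d8b_pr.PT
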