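import Pool.Agent.Work.MP_c58d8b_pr.PT.Stmts2

/-!
Item [c58d8b PT JI]: a sequence which satisfies the splitting inequality and does not tend to zero has a term
bounded below in every window.
-/

open MeasureTheory ProbabilityTheory Set Filter Topology
open scoped ENNReal unitInterval Classical
open Pool.Agent.Work.MP_c58d8b_pr.SO

namespace Pool.Agent.Work.MP_c58d8b_pr.PT

theorem pt_JI : StJI := by
  intro g C Δ L hC hg hsplit hnt
  rw [ENNReal.tendsto_nhds_zero] at hnt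
  push Not at hnt
  obtain ⟨ε, hε, hfr⟩ := hnt
  have hK : (Δ : ℝ≥0∞) * (L : ℝ≥0∞) * C ≠ ⊤ :=
    ENNReal.mul_ne_top (ENNReal.mul_ne_top (ENNReal.natCast_ne_top Δ) (ENNReal.natCast_ne_top L)) hC
  set K : ℝ≥0∞ := (Δ : ℝ≥0∞) * (L : ℝ≥0∞) * C with hKdef
  have hK1 : K + 1 ≠ ⊤ := ENNReal.add_ne_top.mpr ⟨hK, ENNReal.one_ne_top⟩
  have hK0 : K + 1 ≠ 0 := by simp
  refine ⟨ε / (K + 1), ENNReal.div_pos hε.ne' hK1, ?_⟩
  intro n hn
  by_contra hcon
  push Not at hcon
  obtain ⟨N, hN, hNε⟩ := (hfr.and_eventually (eventually_ge_atTop (n + L))).exists.imp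
    (fun N h => And.intro h.2 h.1)
  have h1 := hsplit n (N - n) hn (by omega)
  have h2 : n + (N - n) = N := by omega
  rw [h2] at h1
  have h3 : ∑ m ∈ Finset.Ico n (n + L), g m * g (N - m)
      ≤ ∑ _m ∈ Finset.Ico n (n + L), (ε / (K + 1)) * C := by
    refine Finset.sum_le_sum ?_
    intro m hm
    exact mul_le_mul' (hcon m hm).le (hg _)
  rw [Finset.sum_const, Nat.card_Ico, nsmul_eq_mul] at h3
  have h4 : n + L - n = L := by omega
  rw [h4] at h3
  have h5 : g N ≤ ε := by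
    calc g N ≤ Δ * ∑ m ∈ Finset.Ico n (n + L), g m * g (N - m) := h1
      _ ≤ Δ * ((L : ℝ≥0∞) * (ε / (K + 1) * C)) := by gcongr
      _ = K * (ε / (K + 1)) := by rw [hKdef]; ring
      _ ≤ (K + 1) * (ε / (K + 1)) := by gcongr; exact le_self_add
      _ = ε := ENNReal.mul_div_cancel hK0 hK1
  exact absurd h5 (not_le.mpr hNε)

end Pool.Agent.Work.MP_c58d8b_pr.PT
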