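import Pool.Agent.Work.MP_c58d8b_pr.PT.Stmts2

/-!
# MP_c58d8b_pr, block PT, item JK: lower bounds for some `u_k`
-/

set_option autoImplicit false

namespace Pool.Agent.Work.MP_c58d8b_pr.PT

open MeasureTheory ProbabilityTheory Set Filter Topology
open scoped ENNReal unitInterval Classical
open Pool.Agent.Work.MP_c58d8b_pr.SO

universe u

namespace IX_JK

/-- A finite sum with at least a given size has a big term. -/
theorem big_term {ι : Type u} (F : Finset ι) (f : ι → ℝ≥0∞) (c : ℝ≥0∞) (c' : NNReal)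
    (h : (c' : ℝ≥0∞) * (F.card : ℝ≥0∞) < c) (hc : c ≤ ∑ s ∈ F, f s) :
    ∃ s ∈ F, (c' : ℝ≥0∞) ≤ f s := by
  by_contra hno
  push Not at hno
  have h1 : ∑ s ∈ F, f s ≤ ∑ _s ∈ F, (c' : ℝ≥0∞) := Finset.sum_le_sum fun s hs => (hno s hs).le
  rw [Finset.sum_const, nsmul_eq_mul, mul_comm] at h1
  exact absurd (lt_of_le_of_lt (hc.trans h1) h) (lt_irrefl _)

/-- The sum over a finite set and the rest. -/
theorem split {ι : Type u} (F : Finset ι) (f : ι → ℝ≥0∞) :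
    ∑' s, f s = ∑ s ∈ F, f s + ∑' s : {x // x ∉ F}, f s := by
  have h := Summable.tsum_add_tsum_compl (f := f) (s := (F : Set ι))
    ENNReal.summable ENNReal.summable
  rw [← h]
  congr 1
  exact Finset.tsum_subtype F f

end IX_JK

theorem pt_JK (hRE : StRE.{u}) (hVA : StVA.{u}) (hVD : StVD.{u}) (hVE : StVE.{u})
    (hJA : StJA.{u}) (hJB : StJB.{u}) (hJD : StJD.{u}) (hJI : StJI) : StJK.{u} := by
  intro X p h0 h1 hBd x₀ t₀ hnot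
  obtain ⟨Δ, L, hc⟩ := hVA X
  obtain ⟨C, hC, hJA'⟩ := hJA X
  obtain ⟨hA1, hA2, -, -⟩ := hJA' p h0 h1 hBd
  obtain ⟨c₁, hc₁, hwin⟩ := hJI (fun n => X.gg p n x₀ t₀) C Δ L hC (fun n => hA1 n x₀ t₀)
    (fun n n' hn hn' => hJB X Δ L hc p h0 h1 n n' hn hn' x₀ t₀) hnot
  obtain ⟨C₂, hC₂, hD⟩ := hJD X Δ L hc
  have hDfin : C₂ * ((L : ℝ≥0∞) * (L : ℝ≥0∞)) ≠ ⊤ :=
    ENNReal.mul_ne_top hC₂ (ENNReal.mul_ne_top (ENNReal.natCast_ne_top L) (ENNReal.natCast_ne_top L))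
  obtain ⟨c₂, hc₂, hc₂'⟩ := ENNReal.exists_nnreal_pos_mul_lt hDfin hc₁.ne'
  -- some `gu k` is at least `c₂`
  have hgu : ∀ n : ℕ, 1 ≤ n → ∃ k ∈ Finset.Ico n (n + 3 * L), (c₂ : ℝ≥0∞) ≤ X.gu p k x₀ t₀ := by
    intro n hn
    obtain ⟨m₀, hm₀, hg⟩ := hwin n hn
    rw [Finset.mem_Ico] at hm₀
    by_contra hno
    push Not at hno
    have hs : ∑ m ∈ Finset.Ico m₀ (m₀ + L), ∑ j ∈ Finset.range L, X.gu p (j + m) x₀ t₀ ≤
        ∑ _m ∈ Finset.Ico m₀ (m₀ + L), ∑ _j ∈ Finset.range L, (c₂ : ℝ≥0∞) := by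
      refine Finset.sum_le_sum fun m hm => Finset.sum_le_sum fun j hj => ?_
      rw [Finset.mem_Ico] at hm
      rw [Finset.mem_range] at hj
      exact (hno (j + m) (by rw [Finset.mem_Ico]; omega)).le
    have hs' : ∑ _m ∈ Finset.Ico m₀ (m₀ + L), ∑ _j ∈ Finset.range L, (c₂ : ℝ≥0∞) =
        (L : ℝ≥0∞) * ((L : ℝ≥0∞) * c₂) := by
      simp [Finset.sum_const, nsmul_eq_mul]
    have h2 := hD p h0 h1 hBd m₀ (by omega) x₀ t₀
    have h3 : X.gg p m₀ x₀ t₀ ≤ C₂ * ((L : ℝ≥0∞) * ((L : ℝ≥0∞) * c₂)) :=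
      h2.trans (by rw [← hs']; gcongr)
    have h4 : c₁ ≤ c₂ * (C₂ * ((L : ℝ≥0∞) * (L : ℝ≥0∞))) := by
      refine (hg.trans h3).trans (le_of_eq ?_)
      ring
    exact absurd (lt_of_le_of_lt h4 hc₂') (lt_irrefl _)
  -- domination
  have hb : (0 : ℝ) < √(X.b : ℝ) := by
    have := X.tr'.two
    apply Real.sqrt_pos.mpr
    exact_mod_cast (by omega : 0 < X.b)
  have ha : (0 : ℝ) < √(X.a : ℝ) := by
    have := X.tr.two
    apply Real.sqrt_pos.mpr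
    exact_mod_cast (by omega : 0 < X.a)
  have hom : ∀ s, 0 < X.om t₀ s := fun s => by unfold Sys.om; positivity
  obtain ⟨C', hC', hre⟩ := hRE X.T X.par X.h X.a X.tr
  set Ds : X.T → ℝ≥0∞ := fun s => ENNReal.ofReal (√(X.a : ℝ) ^ (X.h s - X.h t₀) *
    ((X.a : ℝ)⁻¹) ^ td X.par t₀ s) with hDs
  have hDsum : ∑' s, Ds s ≠ ⊤ := ne_top_of_le_ne_top hC' (hre t₀)
  have hdom : ∀ k s, ENNReal.ofReal (X.om t₀ s * √(X.b : ℝ) ^ k) * X.uu p k x₀ t₀ s ≤ Ds s := by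
    intro k s
    have h2 := (hA2 k x₀ t₀ s).trans ((hVE X).2.2.2.2 p h0 h1 hBd t₀ s x₀ k)
    calc ENNReal.ofReal (X.om t₀ s * √(X.b : ℝ) ^ k) * X.uu p k x₀ t₀ s
        ≤ ENNReal.ofReal (X.om t₀ s * √(X.b : ℝ) ^ k) *
          ENNReal.ofReal (((X.a : ℝ)⁻¹) ^ X.d t₀ s * ((√(X.b : ℝ))⁻¹) ^ k) := by gcongr
      _ = Ds s := by
        rw [← ENNReal.ofReal_mul (by have := hom s; positivity)]
        simp only [hDs]
        congr 1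
        have h3 : √(X.b : ℝ) ^ k * ((√(X.b : ℝ))⁻¹) ^ k = 1 := by
          rw [← mul_pow, mul_inv_cancel₀ hb.ne', one_pow]
        calc X.om t₀ s * √(X.b : ℝ) ^ k * (((X.a : ℝ)⁻¹) ^ X.d t₀ s * ((√(X.b : ℝ))⁻¹) ^ k)
            = X.om t₀ s * ((X.a : ℝ)⁻¹) ^ X.d t₀ s *
              (√(X.b : ℝ) ^ k * ((√(X.b : ℝ))⁻¹) ^ k) := by ring
          _ = _ := by rw [h3, mul_one]; rfl
  have hhalf : (c₂ : ℝ≥0∞) / 2 ≠ 0 := by
    simp [hc₂.ne']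
  obtain ⟨F, hF⟩ : ∃ F : Finset X.T, ∑' s : {x // x ∉ F}, Ds s < (c₂ : ℝ≥0∞) / 2 := by
    have h5 := ENNReal.tendsto_tsum_compl_atTop_zero hDsum
    exact (h5.eventually (gt_mem_nhds (pos_iff_ne_zero.mpr hhalf))).exists
  obtain ⟨c₃, hc₃, hc₃'⟩ := ENNReal.exists_nnreal_pos_mul_lt (ENNReal.natCast_ne_top F.card) hhalf
  set M : ℝ := ∑ s ∈ F, X.om t₀ s + 1 with hM
  have hMpos : 0 < M := by
    have : 0 ≤ ∑ s ∈ F, X.om t₀ s := Finset.sum_nonneg fun s _ => (hom s).le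
    linarith
  refine ⟨c₃ / M, F.sup (X.d t₀), 3 * L, by positivity, fun n hn => ?_⟩
  obtain ⟨k, hk, hku⟩ := hgu n hn
  refine ⟨k, hk, ?_⟩
  have h6 : (c₂ : ℝ≥0∞) / 2 ≤
      ∑ s ∈ F, ENNReal.ofReal (X.om t₀ s * √(X.b : ℝ) ^ k) * X.uu p k x₀ t₀ s := by
    by_contra hlt
    push Not at hlt
    have h7 : X.gu p k x₀ t₀ = ∑ s ∈ F, ENNReal.ofReal (X.om t₀ s * √(X.b : ℝ) ^ k) *
        X.uu p k x₀ t₀ s + ∑' s : {x // x ∉ F},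
        ENNReal.ofReal (X.om t₀ s * √(X.b : ℝ) ^ k) * X.uu p k x₀ t₀ s := by
      exact IX_JK.split F (fun s => ENNReal.ofReal (X.om t₀ s * √(X.b : ℝ) ^ k) *
        X.uu p k x₀ t₀ s)
    have h8 : ∑' s : {x // x ∉ F}, ENNReal.ofReal (X.om t₀ s * √(X.b : ℝ) ^ k) *
        X.uu p k x₀ t₀ s < (c₂ : ℝ≥0∞) / 2 :=
      lt_of_le_of_lt (ENNReal.tsum_le_tsum fun s => hdom k s) hF
    have h9 : (c₂ : ℝ≥0∞) < (c₂ : ℝ≥0∞) / 2 + (c₂ : ℝ≥0∞) / 2 := by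
      refine lt_of_le_of_lt hku ?_
      rw [h7]
      exact ENNReal.add_lt_add hlt h8
    rw [ENNReal.add_halves] at h9
    exact lt_irrefl _ h9
  obtain ⟨s, hs, hterm⟩ := IX_JK.big_term F _ _ c₃ hc₃' h6
  refine ⟨X.d t₀ s, Finset.le_sup (f := X.d t₀) hs, fun t s' x hd => ?_⟩
  have h10 : X.uu p k x t s' = X.uu p k x₀ t₀ s :=
    ((hVD X p h0 h1).1 k x t s' x₀ t₀ s hd).2
  rw [h10]
  have hle : X.om t₀ s ≤ M := by
    have := Finset.single_le_sum (f := fun s => X.om t₀ s) (fun s _ => (hom s).le) hs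
    linarith
  have h11 : (c₃ : ℝ≥0∞) ≤ ENNReal.ofReal (M * √(X.b : ℝ) ^ k) * X.uu p k x₀ t₀ s := by
    refine hterm.trans ?_
    gcongr
  have h12 : ENNReal.ofReal (M * √(X.b : ℝ) ^ k) *
      ENNReal.ofReal (c₃ / M * ((√(X.b : ℝ))⁻¹) ^ k) = c₃ := by
    rw [← ENNReal.ofReal_mul (by positivity)]
    have h3 : √(X.b : ℝ) ^ k * ((√(X.b : ℝ))⁻¹) ^ k = 1 := by
      rw [← mul_pow, mul_inv_cancel₀ hb.ne', one_pow]
    have h13 : M * √(X.b : ℝ) ^ k * (c₃ / M * ((√(X.b : ℝ))⁻¹) ^ k) = c₃ := by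
      calc M * √(X.b : ℝ) ^ k * (c₃ / M * ((√(X.b : ℝ))⁻¹) ^ k)
          = (M * (c₃ / M)) * (√(X.b : ℝ) ^ k * ((√(X.b : ℝ))⁻¹) ^ k) := by ring
        _ = c₃ := by rw [h3, mul_one]; field_simp
    rw [h13]
    exact ENNReal.ofReal_coe_nnreal
  have hne0 : ENNReal.ofReal (M * √(X.b : ℝ) ^ k) ≠ 0 := by
    rw [Ne, ENNReal.ofReal_eq_zero, not_le]
    positivity
  rw [← h12] at h11
  exact (ENNReal.mul_le_mul_iff_right hne0 ENNReal.ofReal_ne_top).mp h11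

end Pool.Agent.Work.MP_c58d8b_pr.PT
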