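import Pool.Agent.Work.MP_c58d8b_pr.PT.Stmts2

/-!
# MP_c58d8b_pr, block PT, item JL (helper99): all large `N`
-/

set_option autoImplicit false

namespace Pool.Agent.Work.MP_c58d8b_pr.PT

open MeasureTheory ProbabilityTheory Set Filter Topology
open scoped ENNReal unitInterval Classical
open Pool.Agent.Work.MP_c58d8b_pr.SO

universe u

theorem pt_JL (hRB : StRB.{u}) (hVP : StVP.{u}) (hJS : StJS.{u}) : StJL.{u} := by
  intro X p hp hp1 c R W hc hwin
  choose q0 hq0 hq using hVP X p hp hp1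
  choose δ hδ hδ1 hA using hq
  set Q := ∑ e ∈ Finset.range (R + 1), q0 e with hQ
  have hQe : ∀ e ≤ R, q0 e ≤ Q := fun e he =>
    Finset.single_le_sum (f := q0) (fun i _ => Nat.zero_le _) (Finset.mem_range.mpr (by omega))
  let D : ℕ × ℕ → ℝ := fun z => if h : q0 z.1 ≤ z.2 then δ z.1 z.2 h else 1
  have hD : ∀ z, 0 < D z := by
    intro z
    by_cases h : q0 z.1 ≤ z.2
    · simp only [D, dif_pos h]; exact hδ _ _ _
    · simp only [D, dif_neg h]; exact one_pos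
  obtain ⟨z0, -, hz0⟩ := Finset.exists_min_image
    (Finset.range (R + 1) ×ˢ Finset.range (Q + W + 1)) D ⟨(0, 0), by simp⟩
  refine ⟨c * D z0, Q + W + 1, mul_pos hc (hD z0), by omega, ?_⟩
  intro N hN t x
  obtain ⟨k, hk, e, he, hke⟩ := hwin (N - Q - W) (by omega)
  rw [Finset.mem_Ico] at hk
  have hQq : Q ≤ N - k := by omega
  have hqe : q0 e ≤ N - k := (hQe e he).trans hQq
  have hDe : D z0 ≤ δ e (N - k) hqe := by
    have h1 := hz0 (e, N - k) (by
      rw [Finset.mem_product, Finset.mem_range, Finset.mem_range]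
      constructor
      · change e < R + 1
        omega
      · change N - k < Q + W + 1
        omega)
    have h2 : D (e, N - k) = δ e (N - k) hqe := dif_pos hqe
    rwa [h2] at h1
  obtain ⟨-, hsym, -, -, -, -, -, hex, -⟩ := hRB X.T X.par X.h X.a X.tr
  obtain ⟨s, hs⟩ := hex t e
  have hst : X.d s t = e := (hsym s t).trans hs
  have h1 := hke t s x hs
  obtain ⟨-, -, -, h2⟩ := hA e (N - k) hqe s t (X.up k x) hst
  have hk1 : 1 ≤ k := by omega
  have hq1 : 1 ≤ N - k := (hq0 e).trans hqe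
  have h3 := hJS X p hp.le hp1 k (N - k) hk1 hq1 x t s t
  have hkN : k + (N - k) = N := by omega
  rw [hkN] at h3
  refine le_trans ?_ h3
  refine le_trans ?_ (mul_le_mul' h1 h2)
  have hb : (1 : ℝ) ≤ √(X.b : ℝ) := by
    rw [Real.one_le_sqrt]
    have := X.tr'.two
    exact_mod_cast (by omega : 1 ≤ X.b)
  have hb0 : 0 ≤ (√(X.b : ℝ))⁻¹ := inv_nonneg.mpr (by linarith)
  have hb1 : (√(X.b : ℝ))⁻¹ ≤ 1 := inv_le_one_of_one_le₀ hb
  have hpow : ((√(X.b : ℝ))⁻¹) ^ N ≤ ((√(X.b : ℝ))⁻¹) ^ k :=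
    pow_le_pow_of_le_one hb0 hb1 (by omega)
  rw [← ENNReal.ofReal_mul (mul_nonneg hc.le (pow_nonneg hb0 k))]
  apply ENNReal.ofReal_le_ofReal
  have hk0 : 0 ≤ ((√(X.b : ℝ))⁻¹) ^ k := pow_nonneg hb0 k
  calc c * D z0 * ((√(X.b : ℝ))⁻¹) ^ N ≤ c * D z0 * ((√(X.b : ℝ))⁻¹) ^ k :=
        mul_le_mul_of_nonneg_left hpow (mul_nonneg hc.le (hD z0).le)
    _ ≤ c * δ e (N - k) hqe * ((√(X.b : ℝ))⁻¹) ^ k :=
        mul_le_mul_of_nonneg_right (mul_le_mul_of_nonneg_left hDe hc.le) hk0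
    _ = c * ((√(X.b : ℝ))⁻¹) ^ k * δ e (N - k) hqe := by ring

end Pool.Agent.Work.MP_c58d8b_pr.PT
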