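import Pool.Agent.Work.MP_c58d8b_pr.PT.Stmts2

set_option autoImplicit false

namespace Pool.Agent.Work.MP_c58d8b_pr.PT

open MeasureTheory ProbabilityTheory Set Filter Topology
open scoped ENNReal unitInterval Classical
open Pool.Agent.Work.MP_c58d8b_pr.SO

universe u

namespace IX_JM

theorem mem_EI {V : Type u} (H : SimpleGraph V) (S : Finset V) (e : Sym2 V) (he : e ∈ EI H S) :
    ∃ a b : V, a ∈ S ∧ b ∈ S ∧ H.Adj a b ∧ e = s(a, b) := by
  unfold EI at he
  rw [Finset.mem_image] at he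
  obtain ⟨⟨a, b⟩, hab, rfl⟩ := he
  rw [Finset.mem_filter, Finset.mem_product] at hab
  exact ⟨a, b, hab.1.1, hab.1.2, hab.2, rfl⟩

theorem EI_sub {V : Type u} (G : SimpleGraph V) (W : Set V) (S : Finset V) :
    EI (within G W) S ⊆ EI G S := by
  intro e he
  obtain ⟨a, b, ha, hb, hab, rfl⟩ := mem_EI _ _ _ he
  unfold EI
  rw [Finset.mem_image]
  exact ⟨(a, b), Finset.mem_filter.2 ⟨Finset.mem_product.2 ⟨ha, hb⟩, hab.1⟩, rfl⟩

theorem disj {V : Type u} (G : SimpleGraph V) (S : Finset V) (W W' D : Set V) (c : V)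
    (h : ∀ v ∈ W, v = c ∨ v ∈ D) (h' : ∀ v ∈ W', v ∉ D) :
    Disjoint (EI (within G W) S) (EI (within G W') S) := by
  rw [Finset.disjoint_left]
  intro e he he'
  obtain ⟨a, b, _, _, hab, rfl⟩ := mem_EI _ _ _ he
  obtain ⟨a', b', _, _, hab', hee⟩ := mem_EI _ _ _ he'
  have hne : a ≠ b := hab.1.ne
  have haW : a ∈ W' ∧ b ∈ W' := by
    rcases Sym2.eq_iff.1 hee with ⟨h1, h2⟩ | ⟨h1, h2⟩
    · rw [h1, h2]; exact ⟨hab'.2.1, hab'.2.2⟩
    · rw [h1, h2]; exact ⟨hab'.2.2, hab'.2.1⟩
  rcases h a hab.2.1 with ha | ha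
  · rcases h b hab.2.2 with hb | hb
    · exact hne (ha.trans hb.symm)
    · exact h' b haW.2 hb
  · exact h' a haW.1 ha

section
variable (X : Sys.{u})

theorem up_up (m n : ℕ) (x : X.T') : X.up m (X.up n x) = X.up (n + m) x := by
  show X.par'^[m] (X.par'^[n] x) = X.par'^[n + m] x
  rw [add_comm n m, Function.iterate_add_apply]

theorem desc_up (hRA : StRA.{u}) (x : X.T') {k l : ℕ} (h : k ≤ l) :
    desc X.par' (X.up k x) ⊆ desc X.par' (X.up l x) := by
  have h1 : X.up k x ∈ desc X.par' (X.up l x) := by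
    refine ⟨l - k, ?_⟩
    have h2 := up_up X (l - k) k x
    rw [Nat.add_sub_cancel' h] at h2
    exact h2
  exact ((hRA X.T' X.par' X.h' X.b X.tr').2.2.2.1 _ _ h1).1

theorem up_not_desc (hRA : StRA.{u}) (x : X.T') {k l : ℕ} (h : k < l) :
    X.up l x ∉ desc X.par' (X.up k x) := by
  intro hd
  have hR := hRA X.T' X.par' X.h' X.b X.tr'
  have h1 := (hR.2.2.2.1 _ _ hd).2.1
  have h2 : X.h' (X.up l x) = X.h' x + l := hR.1 l x
  have h3 : X.h' (X.up k x) = X.h' x + k := hR.1 k x
  rw [h2, h3] at h1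
  omega

theorem WA (hRA : StRA.{u}) (x : X.T') (n : ℕ) (t s : X.T) (v : X.T × X.T')
    (hv : v ∈ X.WO x n t s) : v = (s, X.up n x) ∨ v ∈ {v : X.T × X.T' | v.2 ∈ desc X.par' (X.up (n - 1) x)} := by
  rcases hv with hv | hv | hv
  · right
    rw [hv]
    exact (hRA X.T' X.par' X.h' X.b X.tr').2.2.2.2.1 x (n - 1) |>.2
  · left; exact hv
  · right; exact hv.1

theorem WB (hRA : StRA.{u}) (x : X.T') (k l m : ℕ) (hkl : k < l) (t s : X.T) (v : X.T × X.T')
    (hv : v ∈ X.WO (X.up l x) m t s) : v ∉ {v : X.T × X.T' | v.2 ∈ desc X.par' (X.up k x)} := by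
  intro hvd
  have hvd' : v.2 ∈ desc X.par' (X.up k x) := hvd
  rcases hv with hv | hv | hv
  · rw [hv] at hvd'
    exact up_not_desc X hRA x hkl hvd'
  · rw [hv] at hvd'
    have h1 : X.up m (X.up l x) ∈ desc X.par' (X.up k x) := hvd'
    rw [up_up] at h1
    exact up_not_desc X hRA x (lt_of_lt_of_le hkl (Nat.le_add_right l m)) h1
  · exact hv.2 (desc_up X hRA x hkl.le hvd')

end

end IX_JM

open IX_JM

theorem pt_JM (hCB : SO.StCB.{u}) (hFI : StFI.{u}) (hRA : StRA.{u}) : StJM.{u} := by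
  intro X p hp hp1 S x t s q j n hn hq hj
  have e2 : X.up (n + q) x = X.up q (X.up n x) := (up_up X q n x).symm
  have e3 : X.up j x = X.up (j - (n + q)) (X.up (n + q) x) := by
    rw [up_up, Nat.add_sub_cancel' hj.le]
  constructor
  · have h := hFI (Sym2 (X.T × X.T')) (EI X.G S) p hp hp1 3
      ![EI (within X.G (X.WO x n t t)) S, EI (within X.G (X.WO (X.up n x) q t s)) S,
        EI (within X.G (X.WO (X.up (n + q) x) (j - (n + q)) s s)) S]
      (by
        intro i
        fin_cases i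
        · exact EI_sub _ _ _
        · exact EI_sub _ _ _
        · exact EI_sub _ _ _)
      (by
        have d12 : Disjoint (EI (within X.G (X.WO x n t t)) S)
            (EI (within X.G (X.WO (X.up n x) q t s)) S) :=
          disj X.G S _ _ _ _ (WA X hRA x n t t)
            (fun v hv => WB X hRA x (n - 1) n q (by omega) t s v hv)
        have d13 : Disjoint (EI (within X.G (X.WO x n t t)) S)
            (EI (within X.G (X.WO (X.up (n + q) x) (j - (n + q)) s s)) S) :=
          disj X.G S _ _ _ _ (WA X hRA x n t t)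
            (fun v hv => WB X hRA x (n - 1) (n + q) (j - (n + q)) (by omega) s s v hv)
        have d23 : Disjoint (EI (within X.G (X.WO (X.up n x) q t s)) S)
            (EI (within X.G (X.WO (X.up (n + q) x) (j - (n + q)) s s)) S) := by
          refine disj X.G S _ _ _ _ (WA X hRA (X.up n x) q t s) ?_
          intro v hv
          have h1 := WB X hRA x (n + (q - 1)) (n + q) (j - (n + q)) (by omega) s s v hv
          rw [← up_up] at h1
          exact h1
        intro i i' hii
        fin_cases i <;> fin_cases i'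
        · exact absurd rfl hii
        · exact d12
        · exact d13
        · exact d12.symm
        · exact absurd rfl hii
        · exact d23
        · exact d13.symm
        · exact d23.symm
        · exact absurd rfl hii)
      ![{r | (t, X.up n x) ∈ Cluster r (t, x)}, {r | (s, X.up (n + q) x) ∈ Cluster r (t, X.up n x)},
        {r | (s, X.up j x) ∈ Cluster r (s, X.up (n + q) x)}]
    rw [Fin.prod_univ_three] at h
    have h2 : Ev X S x t s q j n = {r | ∀ i : Fin 3,
        r ∩ ((![EI (within X.G (X.WO x n t t)) S, EI (within X.G (X.WO (X.up n x) q t s)) S,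
        EI (within X.G (X.WO (X.up (n + q) x) (j - (n + q)) s s)) S] i : Finset (Sym2 (X.T × X.T'))) :
          Set (Sym2 (X.T × X.T'))) ∈
        (![{r | (t, X.up n x) ∈ Cluster r (t, x)}, {r | (s, X.up (n + q) x) ∈ Cluster r (t, X.up n x)},
        {r | (s, X.up j x) ∈ Cluster r (s, X.up (n + q) x)}] i : Set (Set (Sym2 (X.T × X.T'))))} := by
      ext r
      constructor
      · rintro ⟨⟨h1, h2⟩, h3⟩ i
        fin_cases i
        · exact h1
        · exact h2
        · exact h3
      · intro h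
        exact ⟨⟨h 0, h 1⟩, h 2⟩
    rw [h2, h]
    unfold uf tau
    rw [← e2, ← e3]
    rfl
  · rintro r ⟨⟨h1, h2⟩, h3⟩
    have hc := hCB (X.T × X.T') (r ∩ (EI X.G S : Set (Sym2 (X.T × X.T'))))
    have hmono : ∀ (W : Set (X.T × X.T')) (u v : X.T × X.T'),
        v ∈ Cluster (r ∩ (EI (within X.G W) S : Set (Sym2 (X.T × X.T')))) u →
        v ∈ Cluster (r ∩ (EI X.G S : Set (Sym2 (X.T × X.T')))) u := by
      intro W u v hv
      refine (hCB (X.T × X.T') _).2.2.2.1 _ ?_ u hv
      exact Set.inter_subset_inter_right r (Finset.coe_subset.2 (EI_sub _ _ _))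
    exact hc.2.2.1 _ _ _ (hc.2.2.1 _ _ _ (hmono _ _ _ h1) (hmono _ _ _ h2)) (hmono _ _ _ h3)

end Pool.Agent.Work.MP_c58d8b_pr.PT
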