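import Pool.Agent.Work.MP_c58d8b_pr.PT.Stmts2

/-!
# MP_c58d8b_pr, block PT, item JN: the pair bound
-/

set_option autoImplicit false

namespace Pool.Agent.Work.MP_c58d8b_pr.PT

open MeasureTheory ProbabilityTheory Set Filter Topology
open scoped ENNReal unitInterval Classical
open Pool.Agent.Work.MP_c58d8b_pr.SO

universe u

namespace IX_JN

theorem mem_EI {V : Type u} {H : SimpleGraph V} {S : Finset V} {e : Sym2 V} :
    e ∈ EI H S ↔ ∃ a ∈ S, ∃ b ∈ S, H.Adj a b ∧ s(a, b) = e := by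
  unfold EI
  rw [Finset.mem_image]
  constructor
  · rintro ⟨⟨a, b⟩, hq, rfl⟩
    rw [Finset.mem_filter, Finset.mem_product] at hq
    exact ⟨a, hq.1.1, b, hq.1.2, hq.2, rfl⟩
  · rintro ⟨a, ha, b, hb, hab, rfl⟩
    refine ⟨(a, b), ?_, rfl⟩
    rw [Finset.mem_filter, Finset.mem_product]
    exact ⟨⟨ha, hb⟩, hab⟩

theorem EI_mono {V : Type u} {H : SimpleGraph V} {W : Set V} {S : Finset V} :
    EI (within H W) S ⊆ EI H S := by
  intro e he
  rw [mem_EI] at he ⊢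
  obtain ⟨a, ha, b, hb, hab, rfl⟩ := he
  exact ⟨a, ha, b, hb, hab.1, rfl⟩

section
variable (X : Sys.{u})

theorem up_up (k l : ℕ) (x : X.T') : X.up k (X.up l x) = X.up (k + l) x := by
  unfold Sys.up
  rw [Function.iterate_add_apply]

theorem desc_up_mono {k l : ℕ} (hkl : k ≤ l) (x y : X.T')
    (h : y ∈ desc X.par' (X.up k x)) : y ∈ desc X.par' (X.up l x) := by
  obtain ⟨i, hi⟩ := h
  refine ⟨(l - k) + i, ?_⟩
  rw [Function.iterate_add_apply, hi]
  change X.par'^[l - k] (X.par'^[k] x) = X.par'^[l] x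
  rw [← Function.iterate_add_apply, Nat.sub_add_cancel hkl]

theorem self_mem (x : X.T') : x ∈ desc X.par' x := ⟨0, rfl⟩

theorem up_mem {k l : ℕ} (hkl : k ≤ l) (x : X.T') : X.up k x ∈ desc X.par' (X.up l x) :=
  desc_up_mono X hkl x _ (self_mem X _)

theorem up_not_mem (hRA : StRA.{u}) {k l : ℕ} (hkl : k < l) (x : X.T') :
    X.up l x ∉ desc X.par' (X.up k x) := by
  intro hc
  obtain ⟨h1, -, -, h4, -, -⟩ := hRA X.T' X.par' X.h' X.b X.tr'
  have h := (h4 _ _ hc).2.1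
  have e1 : X.h' (X.up l x) = X.h' x + l := h1 l x
  have e2 : X.h' (X.up k x) = X.h' x + k := h1 k x
  rw [e1, e2] at h
  have : (l : ℤ) ≤ k := by linarith
  have : l ≤ k := by exact_mod_cast this
  omega

/-- All endpoints are descendants of `x_c`. -/
def below (x : X.T') (c : ℕ) (F : Finset (Sym2 (X.T × X.T'))) : Prop :=
  ∀ e ∈ F, ∀ v ∈ e, v.2 ∈ desc X.par' (X.up c x)

/-- Some endpoint is not a descendant of `x_c`. -/
def above (x : X.T') (c : ℕ) (F : Finset (Sym2 (X.T × X.T'))) : Prop :=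
  ∀ e ∈ F, ∃ v ∈ e, v.2 ∉ desc X.par' (X.up c x)

theorem disj_of {x : X.T'} {c c' : ℕ} {F F' : Finset (Sym2 (X.T × X.T'))} (h : below X x c F)
    (h' : above X x c' F') (hc : c ≤ c') : Disjoint F F' := by
  rw [Finset.disjoint_left]
  intro e he he'
  obtain ⟨v, hv, hv'⟩ := h' e he'
  exact hv' (desc_up_mono X hc x _ (h e he v hv))

theorem WO_below {x : X.T'} {k l : ℕ} {r₁ r₂ : X.T} {v : X.T × X.T'}
    (hv : v ∈ X.WO (X.up k x) l r₁ r₂) : v.2 ∈ desc X.par' (X.up (k + l) x) := by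
  rcases hv with rfl | rfl | hv
  · exact up_mem X (Nat.le_add_right k l) x
  · change X.up l (X.up k x) ∈ _
    rw [up_up, Nat.add_comm l k]
    exact self_mem X _
  · have h := hv.1
    rw [up_up] at h
    exact desc_up_mono X (by omega) x _ h

theorem WO_low (hRA : StRA.{u}) {x : X.T'} {k l : ℕ} {r₁ r₂ : X.T} {v : X.T × X.T'} (hl : 1 ≤ l)
    (hv : v ∈ X.WO (X.up k x) l r₁ r₂) (hd : v.2 ∈ desc X.par' (X.up k x)) :
    v = (r₁, X.up k x) := by
  rcases hv with h | h | hv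
  · exact h
  · exfalso
    subst h
    change X.up l (X.up k x) ∈ _ at hd
    rw [up_up] at hd
    exact up_not_mem X hRA (by omega) x hd
  · exact absurd hd hv.2

theorem EI_WO_below {x : X.T'} {k l : ℕ} {r₁ r₂ : X.T} {S : Finset (X.T × X.T')} :
    below X x (k + l) (EI (within X.G (X.WO (X.up k x) l r₁ r₂)) S) := by
  intro e he v hv
  rw [mem_EI] at he
  obtain ⟨a, ha, b, hb, hab, rfl⟩ := he
  rcases Sym2.mem_iff.1 hv with rfl | rfl
  · exact WO_below X hab.2.1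
  · exact WO_below X hab.2.2

theorem EI_WO_above (hRA : StRA.{u}) {x : X.T'} {k l : ℕ} {r₁ r₂ : X.T} {S : Finset (X.T × X.T')}
    (hl : 1 ≤ l) : above X x k (EI (within X.G (X.WO (X.up k x) l r₁ r₂)) S) := by
  intro e he
  rw [mem_EI] at he
  obtain ⟨a, ha, b, hb, hab, rfl⟩ := he
  by_cases h1 : a.2 ∈ desc X.par' (X.up k x)
  · by_cases h2 : b.2 ∈ desc X.par' (X.up k x)
    · exfalso
      have e1 := WO_low X hRA hl hab.2.1 h1
      have e2 := WO_low X hRA hl hab.2.2 h2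
      exact hab.1.ne (e1.trans e2.symm)
    · exact ⟨b, Sym2.mem_mk_right a b, h2⟩
  · exact ⟨a, Sym2.mem_mk_left a b, h1⟩

theorem EI_WO_none (hRA : StRA.{u}) {x : X.T'} {k l c : ℕ} {r₁ r₂ : X.T}
    {S : Finset (X.T × X.T')} (hl : 1 ≤ l) (hc : c < k) {e : Sym2 (X.T × X.T')}
    (he : e ∈ EI (within X.G (X.WO (X.up k x) l r₁ r₂)) S) :
    ∀ v ∈ e, v.2 ∉ desc X.par' (X.up c x) := by
  have key : ∀ v ∈ X.WO (X.up k x) l r₁ r₂, v.2 ∉ desc X.par' (X.up c x) := by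
    intro v hv hd
    have e1 := WO_low X hRA hl hv (desc_up_mono X hc.le x _ hd)
    rw [e1] at hd
    exact up_not_mem X hRA hc x hd
  intro v hv
  rw [mem_EI] at he
  obtain ⟨a, ha, b, hb, hab, rfl⟩ := he
  rcases Sym2.mem_iff.1 hv with rfl | rfl
  · exact key _ hab.2.1
  · exact key _ hab.2.2

/-- The edges of the exit event. -/
noncomputable def F3 (S : Finset (X.T × X.T')) (w : X.T × X.T') (z : X.T') :
    Finset (Sym2 (X.T × X.T')) :=
  (EI (within X.G (insert w (X.Dn w.2)ᶜ)) S).filter fun e => ∃ v ∈ e, v.2 ∈ desc X.par' z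

theorem F3_above {x : X.T'} {k : ℕ} {s : X.T} {S : Finset (X.T × X.T')} {z : X.T'} :
    above X x k (F3 X S (s, X.up k x) z) := by
  intro e he
  unfold F3 at he
  rw [Finset.mem_filter, mem_EI] at he
  obtain ⟨⟨a, ha, b, hb, hab, rfl⟩, -⟩ := he
  have key : ∀ v ∈ insert ((s, X.up k x) : X.T × X.T') (X.Dn (X.up k x))ᶜ,
      v.2 ∈ desc X.par' (X.up k x) → v = (s, X.up k x) := by
    intro v hv hd
    rcases hv with h | h
    · exact h
    · exact absurd hd h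
  by_cases h1 : a.2 ∈ desc X.par' (X.up k x)
  · by_cases h2 : b.2 ∈ desc X.par' (X.up k x)
    · exfalso
      have e1 := key a hab.2.1 h1
      have e2 := key b hab.2.2 h2
      exact hab.1.ne (e1.trans e2.symm)
    · exact ⟨b, Sym2.mem_mk_right a b, h2⟩
  · exact ⟨a, Sym2.mem_mk_left a b, h1⟩

theorem F3_sub {S : Finset (X.T × X.T')} {w : X.T × X.T'} {z : X.T'} :
    F3 X S w z ⊆ EI (within X.G (insert w (X.Dn w.2)ᶜ)) S := Finset.filter_subset _ _

theorem tau_bd (hQC : StQC.{u}) (hRB : StRB.{u}) {p : ℝ} (hBd : X.Bd p)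
    (W : Set (X.T × X.T')) (S : Finset (X.T × X.T')) (t : X.T) (x : X.T') (k : ℕ) :
    tau (within X.G W) p S (t, x) (t, X.up k x) ≤ ((√(X.b : ℝ))⁻¹) ^ k := by
  rw [(hQC (X.T × X.T')).2.1 X.G W p S]
  have h := hBd (S.filter (· ∈ W)) t t x k
  have h0 : X.d t t = 0 := ((hRB X.T X.par X.h X.a X.tr).1 t t).2 rfl
  rw [h0, pow_zero, one_mul] at h
  have hb : 0 < √(X.b : ℝ) := by
    apply Real.sqrt_pos.2
    have := X.tr'.two
    exact_mod_cast (by omega : 0 < X.b)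
  rw [inv_pow]
  have hbk : 0 < √(X.b : ℝ) ^ k := pow_pos hb k
  rw [← one_div, le_div_iff₀ hbk, mul_comm]
  exact h

/-- The exit of the cluster in the third connection. -/
theorem exit_mem (hRA : StRA.{u}) (hCB : StCB.{u}) {S : Finset (X.T × X.T')} {x : X.T'}
    {s : X.T} {k c j : ℕ} {r : Set (Sym2 (X.T × X.T'))} (hkj : k < j) (hc : c < j)
    (h : (s, X.up j x) ∈ Cluster (r ∩ (EI (within X.G (X.WO (X.up k x) (j - k) s s)) S :
      Set (Sym2 (X.T × X.T')))) (s, X.up k x)) :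
    ∃ v ∈ Cluster (r ∩ (F3 X S (s, X.up k x) (X.up c x) : Set (Sym2 (X.T × X.T'))))
      (s, X.up k x), v.2 ∉ desc X.par' (X.up c x) := by
  by_contra hcon
  push Not at hcon
  obtain ⟨-, -, -, -, -, h6⟩ := hCB (X.T × X.T')
    (r ∩ (EI (within X.G (X.WO (X.up k x) (j - k) s s)) S : Set (Sym2 (X.T × X.T'))))
  obtain ⟨c1, -, c3, -, c5, -⟩ := hCB (X.T × X.T')
    (r ∩ (F3 X S (s, X.up k x) (X.up c x) : Set (Sym2 (X.T × X.T'))))
  have hsub := h6 (Cluster (r ∩ (F3 X S (s, X.up k x) (X.up c x) :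
    Set (Sym2 (X.T × X.T')))) (s, X.up k x)) (s, X.up k x) (c1 _) ?_
  · have h1 := hcon _ (hsub h)
    exact up_not_mem X hRA hc x h1
  · intro a ha b hab
    refine c3 _ a b ha (c5 a b ⟨hab.1, ?_⟩)
    have h2 := hab.2
    rw [Finset.mem_coe] at h2 ⊢
    unfold F3
    rw [Finset.mem_filter]
    refine ⟨?_, a, Sym2.mem_mk_left a b, hcon a ha⟩
    rw [mem_EI] at h2 ⊢
    obtain ⟨a', ha', b', hb', hab', he⟩ := h2
    have key : ∀ v ∈ X.WO (X.up k x) (j - k) s s,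
        v ∈ insert ((s, X.up k x) : X.T × X.T') (X.Dn (X.up k x))ᶜ := by
      intro v hv
      by_cases hd : v.2 ∈ desc X.par' (X.up k x)
      · left
        exact WO_low X hRA (by omega) hv hd
      · right
        exact hd
    exact ⟨a', ha', b', hb', ⟨hab'.1, key _ hab'.2.1, key _ hab'.2.2⟩, he⟩

/-- The probability of the exit event in the edges `F3`. -/
theorem F3_pr (hPB : StPB.{u}) (hPL : StPL.{u}) (hCB : StCB.{u}) {p : ℝ} (hp0 : 0 ≤ p)
    (hp1 : p ≤ 1) (S : Finset (X.T × X.T')) (s : X.T) (x : X.T') (k m : ℕ) (hm : 1 ≤ m) :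
    Pr (F3 X S (s, X.up k x) (X.up (k + m - 1) x)) p
      {r | ∃ v ∈ Cluster r (s, X.up k x), v.2 ∉ desc X.par' (X.up (k + m - 1) x)} ≤
      X.ex p S m (s, X.up k x) := by
  set F := F3 X S (s, X.up k x) (X.up (k + m - 1) x) with hF
  set A : Set (Set (Sym2 (X.T × X.T'))) :=
    {r | ∃ v ∈ Cluster r (s, X.up k x), v.2 ∉ desc X.par' (X.up (k + m - 1) x)} with hA
  set E := EI (within X.G (insert (s, X.up k x) (X.Dn (X.up k x))ᶜ)) S with hE
  have hFE : F ⊆ E := F3_sub X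
  have e1 : Pr E p {r | r ∩ (F : Set (Sym2 (X.T × X.T'))) ∈ A} =
      Pr F p {r | r ∩ (F : Set (Sym2 (X.T × X.T'))) ∈ A} := by
    refine hPL _ E F p hp0 hp1 hFE _ ?_
    intro r _
    change _ ↔ ((r : Set (Sym2 (X.T × X.T'))) ∩ F) ∩ F ∈ A
    rw [Set.inter_assoc, Set.inter_self]
    rfl
  have e2 : Pr F p A ≤ Pr F p {r | r ∩ (F : Set (Sym2 (X.T × X.T'))) ∈ A} := by
    refine (hPB _ F p hp0 hp1).2.2.1 _ _ ?_
    intro r hr hrA
    change (r : Set (Sym2 (X.T × X.T'))) ∩ F ∈ A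
    rw [Set.inter_eq_left.2 (by exact_mod_cast hr)]
    exact hrA
  have e3 : Pr E p {r | r ∩ (F : Set (Sym2 (X.T × X.T'))) ∈ A} ≤ Pr E p A := by
    refine (hPB _ E p hp0 hp1).2.2.1 _ _ ?_
    intro r _ hrA
    obtain ⟨v, hv, hv'⟩ := hrA
    exact ⟨v, (hCB _ _).2.2.2.1 _ Set.inter_subset_left _ hv, hv'⟩
  have e4 : Pr E p A = X.ex p S m (s, X.up k x) := by
    unfold Sys.ex
    congr 1
    ext r
    change (∃ v ∈ Cluster r (s, X.up k x), _) ↔ ∃ v ∈ Cluster r (s, X.up k x), _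
    rw [up_up, show m - 1 + k = k + m - 1 by omega]
  rw [← e4]
  linarith [e2, e3, e1]

/-- The third edge set and its event. -/
theorem third (hPB : StPB.{u}) (hPL : StPL.{u}) (hCB : StCB.{u}) (hRA : StRA.{u}) (hJH : StJH.{u})
    {p : ℝ} (hp0 : 0 ≤ p) (hp1 : p ≤ 1) (hBd : X.Bd p) (S : Finset (X.T × X.T')) (s : X.T)
    (x : X.T') (k c j : ℕ) (hkc : k ≤ c) (hcj : c < j) :
    ∃ (F : Finset (Sym2 (X.T × X.T'))) (A : Set (Set (Sym2 (X.T × X.T')))),
      F ⊆ EI X.G S ∧ above X x k F ∧ (∀ e ∈ F, 1 ≤ c ∧ ∃ v ∈ e, v.2 ∈ desc X.par' (X.up (c - 1) x)) ∧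
      Pr F p A ≤ ((√(X.b : ℝ))⁻¹) ^ (c - k) ∧
      ∀ r, (s, X.up j x) ∈ Cluster (r ∩ (EI (within X.G (X.WO (X.up k x) (j - k) s s)) S :
        Set (Sym2 (X.T × X.T')))) (s, X.up k x) → r ∩ (F : Set (Sym2 (X.T × X.T'))) ∈ A := by
  rcases Nat.eq_or_lt_of_le hkc with heq | hlt
  · refine ⟨∅, Set.univ, Finset.empty_subset _, ?_, ?_, ?_, fun _ _ => Set.mem_univ _⟩
    · intro e he
      exact absurd he (Finset.notMem_empty e)
    · intro e he
      exact absurd he (Finset.notMem_empty e)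
    · rw [heq, Nat.sub_self, pow_zero]
      exact ((hPB _ ∅ p hp0 hp1).2.1 _).2
  · refine ⟨F3 X S (s, X.up k x) (X.up (c - 1) x),
      {r | ∃ v ∈ Cluster r (s, X.up k x), v.2 ∉ desc X.par' (X.up (c - 1) x)},
      (F3_sub X).trans EI_mono, F3_above X, ?_, ?_, ?_⟩
    · intro e he
      unfold F3 at he
      rw [Finset.mem_filter] at he
      exact ⟨by omega, he.2⟩
    · have h1 := F3_pr X hPB hPL hCB hp0 hp1 S s x k (c - k) (by omega)
      rw [show k + (c - k) - 1 = c - 1 by omega] at h1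
      exact h1.trans (hJH X p hp0 hp1 hBd S (c - k) (by omega) _)
    · intro r hr
      exact exit_mem X hRA hCB (by omega) (by omega) hr

end

end IX_JN

open IX_JN in
theorem pt_JN (hPB : StPB.{u}) (hPL : StPL.{u}) (hCB : StCB.{u}) (hFI : StFI.{u})
    (hQC : StQC.{u}) (hRA : StRA.{u}) (hRB : StRB.{u}) (hJH : StJH.{u}) : StJN.{u} := by
  intro X p hp0 hp1 hBd S x t s q j n n' ξ hn hq hnn hj hξ
  obtain ⟨F, A, hFE, hFa, hFl, hFp, hFr⟩ := third X hPB hPL hCB hRA hJH hp0 hp1 hBd S s x (n + q)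
    n' j hnn (by omega)
  set F₁ := EI (within X.G (X.WO (X.up 0 x) n t t)) S with hF₁
  set F₂ := EI (within X.G (X.WO (X.up n x) q t s)) S with hF₂
  set F₄ := EI (within X.G (X.WO (X.up n' x) q t s)) S with hF₄
  set F₅ := EI (within X.G (X.WO (X.up (n' + q) x) (j - (n' + q)) s s)) S with hF₅
  have b₁ : below X x (0 + n) F₁ := EI_WO_below X
  have b₂ : below X x (n + q) F₂ := EI_WO_below X
  have b₄ : below X x (n' + q) F₄ := EI_WO_below X
  have a₂ : above X x n F₂ := EI_WO_above X hRA hq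
  have a₄ : above X x n' F₄ := EI_WO_above X hRA hq
  have a₅ : above X x (n' + q) F₅ := EI_WO_above X hRA (by omega)
  have d₁₂ : Disjoint F₁ F₂ := disj_of X b₁ a₂ (by omega)
  have d₁₃ : Disjoint F₁ F := disj_of X b₁ hFa (by omega)
  have d₁₄ : Disjoint F₁ F₄ := disj_of X b₁ a₄ (by omega)
  have d₁₅ : Disjoint F₁ F₅ := disj_of X b₁ a₅ (by omega)
  have d₂₃ : Disjoint F₂ F := disj_of X b₂ hFa (by omega)
  have d₂₄ : Disjoint F₂ F₄ := disj_of X b₂ a₄ (by omega)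
  have d₂₅ : Disjoint F₂ F₅ := disj_of X b₂ a₅ (by omega)
  have d₄₅ : Disjoint F₄ F₅ := disj_of X b₄ a₅ (by omega)
  have d₃₄ : Disjoint F F₄ := by
    rw [Finset.disjoint_left]
    intro e he he'
    obtain ⟨h1, v, hv, hv'⟩ := hFl e he
    exact EI_WO_none X hRA hq (show n' - 1 < n' by omega) he' v hv hv'
  have d₃₅ : Disjoint F F₅ := by
    rw [Finset.disjoint_left]
    intro e he he'
    obtain ⟨h1, v, hv, hv'⟩ := hFl e he
    exact EI_WO_none X hRA (show 1 ≤ j - (n' + q) by omega) (show n' - 1 < n' + q by omega)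
      he' v hv hv'
  have key := hFI (Sym2 (X.T × X.T')) (EI X.G S) p hp0 hp1 5 ![F₁, F₂, F, F₄, F₅] ?_ ?_
    ![{r | (t, X.up n x) ∈ Cluster r (t, x)}, {r | (s, X.up (n + q) x) ∈ Cluster r (t, X.up n x)},
      A, {r | (s, X.up (n' + q) x) ∈ Cluster r (t, X.up n' x)},
      {r | (s, X.up j x) ∈ Cluster r (s, X.up (n' + q) x)}]
  · have hle : Pr (EI X.G S) p (Ev X S x t s q j n ∩ Ev X S x t s q j n') ≤
        Pr (EI X.G S) p {r | ∀ i, r ∩ ((![F₁, F₂, F, F₄, F₅] : Fin 5 → _) i :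
          Set (Sym2 (X.T × X.T'))) ∈ (![{r | (t, X.up n x) ∈ Cluster r (t, x)},
            {r | (s, X.up (n + q) x) ∈ Cluster r (t, X.up n x)},
            A, {r | (s, X.up (n' + q) x) ∈ Cluster r (t, X.up n' x)},
            {r | (s, X.up j x) ∈ Cluster r (s, X.up (n' + q) x)}] : Fin 5 → _) i} := by
      refine (hPB _ _ p hp0 hp1).2.2.1 _ _ ?_
      rintro r - ⟨⟨⟨h1, h2⟩, h3⟩, ⟨⟨-, h4⟩, h5⟩⟩
      intro i
      fin_cases i
      · exact h1
      · exact h2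
      · exact hFr _ h3
      · exact h4
      · exact h5
    rw [key, Fin.prod_univ_five] at hle
    refine hle.trans ?_
    change Pr F₁ p _ * Pr F₂ p _ * Pr F p A * Pr F₄ p _ * Pr F₅ p _ ≤ _
    have hb : 0 ≤ (√(X.b : ℝ))⁻¹ := inv_nonneg.2 (Real.sqrt_nonneg _)
    have p₁ : Pr F₁ p {r | (t, X.up n x) ∈ Cluster r (t, x)} ≤ ((√(X.b : ℝ))⁻¹) ^ n :=
      tau_bd X hQC hRB hBd _ S t x n
    have p₂ : Pr F₂ p {r | (s, X.up (n + q) x) ∈ Cluster r (t, X.up n x)} ≤ ξ := by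
      have h := hξ (X.up n x)
      unfold uf tau at h
      rw [up_up, Nat.add_comm q n] at h
      exact h
    have p₄ : Pr F₄ p {r | (s, X.up (n' + q) x) ∈ Cluster r (t, X.up n' x)} ≤ ξ := by
      have h := hξ (X.up n' x)
      unfold uf tau at h
      rw [up_up, Nat.add_comm q n'] at h
      exact h
    have p₅ : Pr F₅ p {r | (s, X.up j x) ∈ Cluster r (s, X.up (n' + q) x)} ≤
        ((√(X.b : ℝ))⁻¹) ^ (j - (n' + q)) := by
      have h := tau_bd X hQC hRB hBd (X.WO (X.up (n' + q) x) (j - (n' + q)) s s) S s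
        (X.up (n' + q) x) (j - (n' + q))
      unfold tau at h
      rw [up_up, show j - (n' + q) + (n' + q) = j by omega] at h
      exact h
    have nn : ∀ (E : Finset (Sym2 (X.T × X.T'))) (B : Set (Set (Sym2 (X.T × X.T')))),
        0 ≤ Pr E p B := fun E B => ((hPB _ E p hp0 hp1).2.1 B).1
    have hξ0 : 0 ≤ ξ := (nn _ _).trans p₂
    have hfin : ((√(X.b : ℝ))⁻¹) ^ n * ξ * ((√(X.b : ℝ))⁻¹) ^ (n' - (n + q)) * ξ *
        ((√(X.b : ℝ))⁻¹) ^ (j - (n' + q)) = ξ ^ 2 * ((√(X.b : ℝ))⁻¹) ^ (j - 2 * q) := by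
      rw [show j - 2 * q = n + (n' - (n + q)) + (j - (n' + q)) by omega, pow_add, pow_add]
      ring
    rw [← hfin]
    have g1 := mul_le_mul p₁ p₂ (nn _ _) (pow_nonneg hb _)
    have g2 := mul_le_mul g1 hFp (nn _ _) (mul_nonneg (pow_nonneg hb _) hξ0)
    have g3 := mul_le_mul g2 p₄ (nn _ _) (mul_nonneg (mul_nonneg (pow_nonneg hb _) hξ0)
      (pow_nonneg hb _))
    exact mul_le_mul g3 p₅ (nn _ _) (mul_nonneg (mul_nonneg (mul_nonneg (pow_nonneg hb _) hξ0)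
      (pow_nonneg hb _)) hξ0)
  · intro i
    fin_cases i
    · exact EI_mono
    · exact EI_mono
    · exact hFE
    · exact EI_mono
    · exact EI_mono
  · intro i j' hij
    fin_cases i <;> fin_cases j' <;> first
      | exact absurd rfl hij
      | exact d₁₂ | exact d₁₃ | exact d₁₄ | exact d₁₅ | exact d₂₃ | exact d₂₄ | exact d₂₅
      | exact d₃₄ | exact d₃₅ | exact d₄₅
      | exact d₁₂.symm | exact d₁₃.symm | exact d₁₄.symm | exact d₁₅.symm | exact d₂₃.symm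
      | exact d₂₄.symm | exact d₂₅.symm | exact d₃₄.symm | exact d₃₅.symm | exact d₄₅.symm

end Pool.Agent.Work.MP_c58d8b_pr.PT
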