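import Pool.Agent.Work.MP_c58d8b_pr.PT.Stmts2

/-!
# MP_c58d8b_pr, block PT, item JP (helper42): the descendants
-/

set_option autoImplicit false

namespace Pool.Agent.Work.MP_c58d8b_pr.PT

open MeasureTheory ProbabilityTheory Set Filter Topology
open scoped ENNReal unitInterval Classical
open Pool.Agent.Work.MP_c58d8b_pr.SO

universe u

namespace IX_JP

theorem count {α : Type u} (A : Set α) (hA : A.Finite) (K : ℝ≥0∞) :
    ∑' y : α, (if y ∈ A then K else 0) = (A.ncard : ℝ≥0∞) * K := by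
  rw [tsum_eq_sum (s := hA.toFinset) fun y hy => if_neg fun h => hy (hA.mem_toFinset.mpr h)]
  rw [Finset.sum_congr rfl fun y hy => if_pos (hA.mem_toFinset.mp hy), Finset.sum_const,
    nsmul_eq_mul, Set.ncard_eq_toFinset_card A hA]

end IX_JP

/-- item JP -/
theorem pt_JP (hQF : StQF.{u}) (hRA : StRA.{u}) (hRB : StRB.{u}) (hVD : StVD.{u}) :
    StJP.{u} := by
  intro X p hp hp1 x t
  have hb2 : (2 : ℝ) ≤ (X.b : ℝ) := by exact_mod_cast X.tr'.two
  have hb0 : (0 : ℝ) < √(X.b : ℝ) := Real.sqrt_pos.mpr (by linarith)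
  obtain ⟨hh, -, hcnt, -, -, -⟩ := hRA X.T' X.par' X.h' X.b X.tr'
  have hsymm := (hQF (X.T × X.T') X.G p hp hp1).2.2.1
  have key : ∀ (s : X.T) (y : X.T') (n : ℕ), X.up n y = x →
      ENNReal.ofReal (X.Om (t, x) (s, y)) * tt X.G p (t, x) (s, y) =
        ENNReal.ofReal (X.om t s * (√(X.b : ℝ) ^ n)⁻¹) * tt X.G p (t, x) (s, X.up n x) := by
    intro s y n hy
    have e1 : X.Om (t, x) (s, y) = X.om t s * (√(X.b : ℝ) ^ n)⁻¹ := by
      have e2 : X.h' x = X.h' y + n := by
        rw [← hy]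
        exact hh n y
      show √(X.a : ℝ) ^ (X.h s - X.h t) * √(X.b : ℝ) ^ (X.h' y - X.h' x) =
        √(X.a : ℝ) ^ (X.h s - X.h t) * (√(X.b : ℝ) ^ n)⁻¹
      have e3 : X.h' y - X.h' x = -(n : ℤ) := by
        rw [e2]
        ring
      rw [e3, zpow_neg, zpow_natCast]
    have e4 := ((hVD X p hp hp1).1 n y s t x t s
      ((hRB X.T X.par X.h X.a X.tr).2.1 s t)).1
    rw [hy] at e4
    rw [e1, hsymm (t, x) (s, y), e4]
  have cnt : ∀ (s : X.T) (n : ℕ), ∑' y : X.T', (if X.up n y = x then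
      ENNReal.ofReal (X.om t s * (√(X.b : ℝ) ^ n)⁻¹) * tt X.G p (t, x) (s, X.up n x) else 0) =
        ENNReal.ofReal (X.om t s * √(X.b : ℝ) ^ n) * tt X.G p (t, x) (s, X.up n x) := by
    intro s n
    have e5 := IX_JP.count {y : X.T' | X.up n y = x} (hcnt n x).1
      (ENNReal.ofReal (X.om t s * (√(X.b : ℝ) ^ n)⁻¹) * tt X.G p (t, x) (s, X.up n x))
    have e6 : ({y : X.T' | X.up n y = x}.ncard : ℝ≥0∞) = ENNReal.ofReal ((X.b : ℝ) ^ n) := by
      have e7 : {y : X.T' | X.up n y = x}.ncard = X.b ^ n := (hcnt n x).2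
      rw [e7, ENNReal.ofReal_pow (by linarith), ENNReal.ofReal_natCast, Nat.cast_pow]
    have e8 : (X.b : ℝ) ^ n * (X.om t s * (√(X.b : ℝ) ^ n)⁻¹) = X.om t s * √(X.b : ℝ) ^ n := by
      have e9 : (X.b : ℝ) ^ n = √(X.b : ℝ) ^ n * √(X.b : ℝ) ^ n := by
        rw [← mul_pow, Real.mul_self_sqrt (by linarith)]
      have e10 : √(X.b : ℝ) ^ n ≠ 0 := (pow_pos hb0 n).ne'
      rw [e9]
      field_simp
    rw [e6, ← mul_assoc, ← ENNReal.ofReal_mul (by positivity), e8] at e5
    exact e5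
  rw [ENNReal.tsum_prod']
  have st1 : ∀ s : X.T, (∑' y : X.T', (if (s, y).2 ∈ desc X.par' x then
      ENNReal.ofReal (X.Om (t, x) (s, y)) * tt X.G p (t, x) (s, y) else 0)) ≤
      ∑' n : ℕ, ENNReal.ofReal (X.om t s * √(X.b : ℝ) ^ n) *
        tt X.G p (t, x) (s, X.up n x) := by
    intro s
    calc (∑' y : X.T', (if (s, y).2 ∈ desc X.par' x then
          ENNReal.ofReal (X.Om (t, x) (s, y)) * tt X.G p (t, x) (s, y) else 0))
        ≤ ∑' y : X.T', ∑' n : ℕ, (if X.up n y = x then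
          ENNReal.ofReal (X.om t s * (√(X.b : ℝ) ^ n)⁻¹) *
            tt X.G p (t, x) (s, X.up n x) else 0) := by
          refine ENNReal.tsum_le_tsum fun y => ?_
          by_cases hy : y ∈ desc X.par' x
          · rw [if_pos hy]
            obtain ⟨n, hn⟩ := hy
            have hn' : X.up n y = x := hn
            rw [key s y n hn']
            have e11 := ENNReal.le_tsum (f := fun n : ℕ => (if X.up n y = x then
              ENNReal.ofReal (X.om t s * (√(X.b : ℝ) ^ n)⁻¹) *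
                tt X.G p (t, x) (s, X.up n x) else 0)) n
            simp only [if_pos hn'] at e11
            exact e11
          · rw [if_neg hy]
            exact zero_le
      _ = ∑' n : ℕ, ∑' y : X.T', (if X.up n y = x then
          ENNReal.ofReal (X.om t s * (√(X.b : ℝ) ^ n)⁻¹) *
            tt X.G p (t, x) (s, X.up n x) else 0) := ENNReal.tsum_comm
      _ = ∑' n : ℕ, ENNReal.ofReal (X.om t s * √(X.b : ℝ) ^ n) *
          tt X.G p (t, x) (s, X.up n x) := tsum_congr fun n => cnt s n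
  refine (ENNReal.tsum_le_tsum st1).trans ?_
  rw [ENNReal.tsum_comm]
  exact le_of_eq rfl

end Pool.Agent.Work.MP_c58d8b_pr.PT
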