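import Pool.Agent.Work.MP_c58d8b_pr.PT.Stmts2

/-!
# MP_c58d8b_pr, block PT, item JQ: the sum of the `gg` is finite
-/

set_option autoImplicit false

namespace Pool.Agent.Work.MP_c58d8b_pr.PT

open MeasureTheory ProbabilityTheory Set Filter Topology
open scoped ENNReal unitInterval Classical
open Pool.Agent.Work.MP_c58d8b_pr.SO

universe u

theorem pt_JQ (hVA : StVA.{u}) (hJA : StJA.{u}) (hJB : StJB.{u}) (hJJ : StJJ) (hJK : StJK.{u})
    (hJL : StJL.{u}) (hJO : StJO.{u}) : StJQ.{u} := by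
  intro X p hp0 hp1 hBd x t
  obtain ⟨Δ, L, hC⟩ := hVA X
  obtain ⟨C, hCt, hCb⟩ := hJA X
  have hA := (hCb p hp0.le hp1 hBd).1
  have hB := hJB X Δ L hC p hp0.le hp1
  have hT : Tendsto (fun n => X.gg p n x t) atTop (𝓝 0) := by
    by_contra hnot
    obtain ⟨c, R, W, hc, hw⟩ := hJK X p hp0.le hp1 hBd x t hnot
    obtain ⟨c', N₀, hc', hN, h⟩ := hJL X p hp0 hp1 c R W hc hw
    exact hJO X p hp0 hp1 hBd c' N₀ hc' hN h
  exact hJJ (fun n => X.gg p n x t) C Δ L hCt (fun n => hA n x t)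
    (fun n n' h1 h2 => hB n n' h1 h2 x t) hT

end Pool.Agent.Work.MP_c58d8b_pr.PT
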