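import Pool.Agent.Work.MP_c58d8b_pr.PT.Stmts2

/-!
# MP_c58d8b_pr, block PT, item JS: `uu` is supermultiplicative
-/

set_option autoImplicit false

namespace Pool.Agent.Work.MP_c58d8b_pr.PT

open MeasureTheory ProbabilityTheory Set Filter Topology
open scoped ENNReal unitInterval Classical
open Pool.Agent.Work.MP_c58d8b_pr.SO

universe u

namespace IX_JS

theorem up_up (X : Sys.{u}) (m n : ℕ) (x : X.T') : X.up m (X.up n x) = X.up (n + m) x := by
  show X.par'^[m] (X.par'^[n] x) = X.par'^[n + m] x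
  rw [add_comm n m, Function.iterate_add_apply]

theorem within_mono {V : Type u} (G : SimpleGraph V) {W W' : Set V} (h : W ⊆ W') :
    within G W ≤ within G W' := by
  intro x y hxy
  exact ⟨hxy.1, h hxy.2.1, h hxy.2.2⟩

end IX_JS

open IX_JS in
theorem pt_JS (hQF : StQF.{u}) (hRA : StRA.{u}) : StJS.{u} := by
  intro X p hp0 hp1 n n' hn hn' x t s r
  obtain ⟨ra1, -, -, ra4, ra5, -⟩ := hRA X.T' X.par' X.h' X.b X.tr'
  -- descendants
  have hdm : ∀ (y : X.T') (m m' : ℕ), m ≤ m' → desc X.par' (X.up m y) ⊆ desc X.par' (X.up m' y) := by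
    intro y m m' hm
    refine (ra4 (X.up m' y) (X.up m y) ?_).1
    obtain ⟨j, rfl⟩ := Nat.exists_eq_add_of_le hm
    rw [← up_up]
    exact (ra5 (X.up m y) j).2
  have hdself : ∀ (y : X.T') (m : ℕ), desc X.par' y ⊆ desc X.par' (X.up m y) := fun y m =>
    hdm y 0 m (Nat.zero_le m)
  have hnot : X.up n x ∉ desc X.par' x := by
    intro h
    have h1 := (ra4 x (X.up n x) h).2.1
    have h2 : X.h' (X.up n x) = X.h' x + n := ra1 n x
    omega
  have hmem : ∀ q : X.T, (q, X.up n x) ∈ X.Ou x (n + n') := by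
    intro q
    refine ⟨?_, hnot⟩
    show X.up n x ∈ desc X.par' (X.up (n + n' - 1) x)
    exact hdm x n (n + n' - 1) (by omega) (ra5 (X.up n x) 0).1
  have hOu1 : X.Ou x n ⊆ X.Ou x (n + n') := by
    rintro v ⟨h1, h2⟩
    exact ⟨hdm x (n - 1) (n + n' - 1) (by omega) h1, h2⟩
  have hOu2 : X.Ou (X.up n x) n' ⊆ X.Ou x (n + n') := by
    rintro v ⟨h1, h2⟩
    refine ⟨?_, fun h => h2 (hdself x n h)⟩
    rw [up_up] at h1
    have e : n + (n' - 1) = n + n' - 1 := by omega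
    rw [e] at h1
    exact h1
  have hW1 : X.WO x n t s ⊆ X.WO x (n + n') t r := by
    rintro v (rfl | rfl | hv)
    · exact Or.inl rfl
    · exact Or.inr (Or.inr (hmem s))
    · exact Or.inr (Or.inr (hOu1 hv))
  have hW2 : X.WO (X.up n x) n' s r ⊆ X.WO x (n + n') t r := by
    rintro v (rfl | rfl | hv)
    · exact Or.inr (Or.inr (hmem s))
    · rw [up_up]
      exact Or.inr (Or.inl rfl)
    · exact Or.inr (Or.inr (hOu2 hv))
  obtain ⟨-, -, -, -, -, -, m1, -⟩ := hQF (X.T × X.T') (within X.G (X.WO x n t s)) p hp0 hp1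
  obtain ⟨-, -, -, -, -, -, m2, -⟩ :=
    hQF (X.T × X.T') (within X.G (X.WO (X.up n x) n' s r)) p hp0 hp1
  obtain ⟨-, -, -, m3, -⟩ := hQF (X.T × X.T') (within X.G (X.WO x (n + n') t r)) p hp0 hp1
  have k1 := m1 _ p (within_mono X.G hW1) le_rfl hp1 (t, x) (s, X.up n x)
  have k2 := m2 _ p (within_mono X.G hW2) le_rfl hp1 (s, X.up n x) (r, X.up n' (X.up n x))
  have k3 := m3 (t, x) (s, X.up n x) (r, X.up n' (X.up n x))
  have e2 : X.up n' (X.up n x) = X.up (n + n') x := up_up X n' n x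
  unfold Sys.uu ttW
  refine (mul_le_mul' k1 k2).trans ?_
  rw [e2] at k3 ⊢
  exact k3

end Pool.Agent.Work.MP_c58d8b_pr.PT
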