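import Pool.Agent.Work.MP_c58d8b_pr.PT.Stmts2

/-!
# MP_c58d8b_pr, block PT, item JW: part II
-/

set_option autoImplicit false

namespace Pool.Agent.Work.MP_c58d8b_pr.PT

open MeasureTheory ProbabilityTheory Set Filter Topology
open scoped ENNReal unitInterval Classical
open Pool.Agent.Work.MP_c58d8b_pr.SO

universe u

namespace IX_JW

theorem tau_zero {V : Type u} (H : SimpleGraph V) (S : Finset V) (x y : V) (hxy : x ≠ y) :
    tau H 0 S x y = 0 := by
  unfold tau Pr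
  refine Finset.sum_eq_zero fun s hs => ?_
  have h1 := (Finset.mem_filter.1 hs).2
  have hne : s ≠ ∅ := by
    rintro rfl
    have h2 : (SimpleGraph.fromEdgeSet (((∅ : Finset (Sym2 V)) : Set (Sym2 V)))).Reachable x y := h1
    rw [Finset.coe_empty, SimpleGraph.fromEdgeSet_empty, SimpleGraph.reachable_bot] at h2
    exact hxy h2
  rw [zero_pow (Finset.card_ne_zero.2 (Finset.nonempty_iff_ne_empty.2 hne)), zero_mul]

theorem tt_zero {V : Type u} (H : SimpleGraph V) (x y : V) (hxy : x ≠ y) : tt H 0 x y = 0 := by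
  unfold tt
  rw [ENNReal.iSup_eq_zero]
  intro S
  rw [tau_zero H S x y hxy, ENNReal.ofReal_zero]

theorem fin0 (hQF : StQF.{u}) (X : Sys.{u}) (v : X.T × X.T') : X.XX 0 v ≠ ⊤ := by
  unfold Sys.XX
  rw [tsum_eq_single v (fun w hw => by rw [tt_zero X.G v w (Ne.symm hw), mul_zero])]
  refine ENNReal.mul_ne_top ENNReal.ofReal_ne_top ?_
  exact ne_top_of_le_ne_top ENNReal.one_ne_top
    ((hQF (X.T × X.T') X.G 0 le_rfl zero_le_one).1 v v)

end IX_JW

open IX_JW in
theorem pt_JW (hQF : StQF.{u}) (hVA : StVA.{u}) (hJP : StJP.{u}) (hJQ : StJQ.{u})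
    (hJR : StJR.{u}) (hJT : StJT.{u}) (hJU : StJU.{u}) (hJV : StJV.{u}) : StJW.{u} := by
  intro X p hp0 hp1 hBd
  obtain ⟨v⟩ := X.conn.nonempty
  have hfin : X.XX p v ≠ ⊤ := by
    rcases hp0.eq_or_lt with h0 | h0
    · rw [← h0]
      exact fin0 hQF X v
    · obtain ⟨t, x⟩ := v
      obtain ⟨Δ, L, hC⟩ := hVA X
      have hg := hJQ X p h0 hp1.le hBd x t
      have h1 := hJP X p hp0 hp1.le x t
      have h2 := hJR X Δ L hC p hp0 hp1.le x t
      have h3 : X.XX p (t, x) ≤ (∑' n, X.gg p n x t) +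
          Δ * (L * (∑' n, X.gg p n x t) ^ 2) := by
        refine le_trans (le_of_eq ?_) (add_le_add h1 h2)
        rw [← ENNReal.tsum_add]
        unfold Sys.XX
        refine tsum_congr fun w => ?_
        by_cases hw : w.2 ∈ desc X.par' x
        · rw [if_pos hw, if_neg (not_not.2 hw), add_zero]
        · rw [if_neg hw, if_pos hw, zero_add]
      refine ne_top_of_le_ne_top ?_ h3
      refine ENNReal.add_ne_top.2 ⟨hg, ?_⟩
      refine ENNReal.mul_ne_top (ENNReal.natCast_ne_top _)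
        (ENNReal.mul_ne_top (ENNReal.natCast_ne_top _) (ENNReal.pow_ne_top hg))
  obtain ⟨S, hvS, p', hpp, hp'1, hS⟩ := hJT X p v hp0 hp1 hfin
  have hp'0 : 0 ≤ p' := hp0.trans hpp.le
  have hXX := hJU X p' v S hp'0 hp'1 hvS hS
  refine ⟨p', hpp, hp'1, fun q hq => ?_⟩
  refine hJV X q v ?_
  refine ne_top_of_le_ne_top hXX ?_
  unfold Sys.XX
  refine ENNReal.tsum_le_tsum fun w => mul_le_mul' le_rfl ?_
  obtain ⟨-, -, -, -, -, -, hmono, -⟩ := hQF (X.T × X.T') X.G (q : ℝ) q.2.1 q.2.2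
  exact hmono X.G p' le_rfl hq hp'1 v w

end Pool.Agent.Work.MP_c58d8b_pr.PT
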