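import Pool.Agent.Work.MP_c58d8b_pr.PT.Stmts

/-!
# MP_c58d8b_pr, block PT, item RB: the distance of a tree with a parent map
-/

set_option autoImplicit false

namespace Pool.Agent.Work.MP_c58d8b_pr.PT

open MeasureTheory ProbabilityTheory Set Filter Topology
open scoped ENNReal unitInterval Classical
open Pool.Agent.Work.MP_c58d8b_pr.SO

universe u

namespace IX_RB

variable {T : Type u} {par : T → T} {h : T → ℤ} {a : ℕ}

theorem td_le (par : T → T) (x y : T) (m n : ℕ) (e : par^[m] x = par^[n] y) :
    td par x y ≤ m + n := Nat.sInf_le ⟨m, n, rfl, e⟩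

theorem td_att (ht : Tr par h a) (x y : T) :
    ∃ m n : ℕ, td par x y = m + n ∧ par^[m] x = par^[n] y := by
  obtain ⟨m, n, e⟩ := ht.common x y
  have hne : {k | ∃ m n : ℕ, m + n = k ∧ par^[m] x = par^[n] y}.Nonempty := ⟨m + n, m, n, rfl, e⟩
  obtain ⟨m', n', e1, e2⟩ := Nat.sInf_mem hne
  exact ⟨m', n', e1.symm, e2⟩

theorem td_symm (par : T → T) (x y : T) : td par x y = td par y x := by
  unfold td
  congr 1
  ext k
  constructor
  · rintro ⟨m, n, e1, e2⟩
    exact ⟨n, m, by omega, e2.symm⟩
  · rintro ⟨m, n, e1, e2⟩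
    exact ⟨n, m, by omega, e2.symm⟩

theorem td_tri (ht : Tr par h a) (x y z : T) : td par x z ≤ td par x y + td par y z := by
  obtain ⟨m, n, e1, e2⟩ := td_att ht x y
  obtain ⟨m', n', e3, e4⟩ := td_att ht y z
  rcases le_total n m' with hle | hle
  · have e5 : par^[(m' - n) + m] x = par^[n'] z := by
      rw [Function.iterate_add_apply, e2, ← Function.iterate_add_apply, Nat.sub_add_cancel hle, e4]
    have h1 := td_le par x z _ _ e5
    omega
  · have e5 : par^[m] x = par^[(n - m') + n'] z := by
      rw [Function.iterate_add_apply, ← e4, ← Function.iterate_add_apply, Nat.sub_add_cancel hle, e2]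
    have h1 := td_le par x z _ _ e5
    omega

theorem td_zero (ht : Tr par h a) (x y : T) : td par x y = 0 ↔ x = y := by
  constructor
  · intro h0
    obtain ⟨m, n, e1, e2⟩ := td_att ht x y
    have hm : m = 0 := by omega
    have hn : n = 0 := by omega
    subst hm
    subst hn
    exact e2
  · rintro rfl
    have h1 := td_le par x x 0 0 rfl
    omega

theorem td_up (ht : Tr par h a) (hh : ∀ n x, h (par^[n] x) = h x + n) (x : T) (n : ℕ) :
    td par x (par^[n] x) = n := by
  have h1 : td par x (par^[n] x) ≤ n + 0 := td_le par x (par^[n] x) n 0 rfl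
  obtain ⟨m', n', e1, e2⟩ := td_att ht x (par^[n] x)
  have h2 := congrArg h e2
  rw [hh, hh, hh] at h2
  omega

theorem td_mid (ht : Tr par h a) (hh : ∀ n x, h (par^[n] x) = h x + n) (x y : T) (m n : ℕ)
    (e : td par x y = m + n) : ∃ z, td par x z = m ∧ td par z y = n := by
  obtain ⟨p, q, e1, e2⟩ := td_att ht x y
  rcases le_total m p with hle | hle
  · refine ⟨par^[m] x, td_up ht hh x m, ?_⟩
    have h1 : td par (par^[m] x) y ≤ (p - m) + q := by
      apply td_le
      rw [← Function.iterate_add_apply, Nat.sub_add_cancel hle, e2]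
    have h2 := td_tri ht x (par^[m] x) y
    rw [td_up ht hh x m] at h2
    omega
  · have hle2 : n ≤ q := by omega
    have h3 : td par (par^[n] y) y = n := by
      rw [td_symm]
      exact td_up ht hh y n
    refine ⟨par^[n] y, ?_, h3⟩
    have h1 : td par x (par^[n] y) ≤ p + (q - n) := by
      apply td_le
      rw [← Function.iterate_add_apply, Nat.sub_add_cancel hle2, e2]
    have h2 := td_tri ht x (par^[n] y) y
    rw [h3] at h2
    omega

theorem ball_fin (ht : Tr par h a)
    (hk : ∀ n x, {y | par^[n] y = x}.Finite ∧ {y | par^[n] y = x}.ncard = a ^ n) (x : T) (r : ℕ) :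
    {y | td par x y ≤ r}.Finite := by
  have hf : (⋃ m ∈ Set.Iic r, ⋃ n ∈ Set.Iic r, {y | par^[n] y = par^[m] x}).Finite := by
    apply Set.Finite.biUnion (Set.finite_Iic r)
    intro m _
    apply Set.Finite.biUnion (Set.finite_Iic r)
    intro n _
    exact (hk n _).1
  apply hf.subset
  intro y hy
  obtain ⟨m, n, e1, e2⟩ := td_att ht x y
  have hy' : td par x y ≤ r := hy
  simp only [Set.mem_iUnion]
  exact ⟨m, by simp only [Set.mem_Iic]; omega, n, by simp only [Set.mem_Iic]; omega, e2.symm⟩

theorem geo (a : ℕ) (ha : 2 ≤ a) (r : ℕ) : ∑ n ∈ Finset.range (r + 1), a ^ n ≤ 2 * a ^ r := by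
  induction r with
  | zero => simp
  | succ r ih =>
    rw [Finset.sum_range_succ]
    have h1 : 2 * a ^ r ≤ a ^ (r + 1) := by
      rw [pow_succ, mul_comm (a ^ r) a]
      exact Nat.mul_le_mul_right _ ha
    omega

theorem sphere_card (ht : Tr par h a)
    (hk : ∀ n x, {y | par^[n] y = x}.Finite ∧ {y | par^[n] y = x}.ncard = a ^ n) (x : T) (r : ℕ) :
    {y | td par x y = r}.ncard ≤ 2 * a ^ r := by
  have hfin : ∀ n z, {y | par^[n] y = z}.Finite := fun n z => (hk n z).1
  let F : ℕ → Finset T := fun n => (hfin n (par^[r - n] x)).toFinset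
  have hF : ∀ n, (F n).card = a ^ n := by
    intro n
    rw [← (hk n (par^[r - n] x)).2, Set.ncard_eq_toFinset_card _ (hfin n (par^[r - n] x))]
  have hsub : {y | td par x y = r} ⊆ (((Finset.range (r + 1)).biUnion F : Finset T) : Set T) := by
    intro y hy
    obtain ⟨m, n, e1, e2⟩ := td_att ht x y
    have hy' : td par x y = r := hy
    have hm : m = r - n := by omega
    rw [Finset.mem_coe, Finset.mem_biUnion]
    refine ⟨n, Finset.mem_range.2 (by omega), ?_⟩
    rw [Set.Finite.mem_toFinset]
    change par^[n] y = par^[r - n] x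
    rw [← hm]
    exact e2.symm
  calc {y | td par x y = r}.ncard
      ≤ (((Finset.range (r + 1)).biUnion F : Finset T) : Set T).ncard :=
        Set.ncard_le_ncard hsub (Finset.finite_toSet _)
    _ = ((Finset.range (r + 1)).biUnion F).card := Set.ncard_coe_finset _
    _ ≤ ∑ n ∈ Finset.range (r + 1), (F n).card := Finset.card_biUnion_le
    _ = ∑ n ∈ Finset.range (r + 1), a ^ n := Finset.sum_congr rfl fun n _ => hF n
    _ ≤ 2 * a ^ r := geo a ht.two r

end IX_RB

open IX_RB in
theorem pt_RB (hRA : StRA.{u}) : StRB.{u} := by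
  intro T par h a ht
  obtain ⟨hh, -, hk, -⟩ := hRA T par h a ht
  exact ⟨td_zero ht, td_symm par, td_tri ht, td_att ht, td_le par, td_up ht hh, td_mid ht hh,
    fun x n => ⟨par^[n] x, td_up ht hh x n⟩, ball_fin ht hk, sphere_card ht hk⟩

end Pool.Agent.Work.MP_c58d8b_pr.PT
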