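import Pool.Agent.Work.MP_c58d8b_pr.PT.Stmts

/-!
# MP_c58d8b_pr, block PT, item RF (helper31): leaving the descendants of a vertex
-/

set_option autoImplicit false

namespace Pool.Agent.Work.MP_c58d8b_pr.PT

open MeasureTheory ProbabilityTheory Set Filter Topology
open scoped ENNReal unitInterval Classical
open Pool.Agent.Work.MP_c58d8b_pr.SO

universe u

theorem pt_RF : StRF.{u} := by
  intro T par h a _ x y w n hy hw hyw
  obtain ⟨l, hl⟩ := hy
  have hyn : par^[n] y = w := by
    rcases hyw with h1 | h1
    · exact h1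
    · exfalso
      apply hw
      refine ⟨l + n, ?_⟩
      rw [Function.iterate_add_apply, h1, hl]
  have hln : l < n := by
    by_contra hcon
    apply hw
    refine ⟨l - n, ?_⟩
    rw [← hyn, ← Function.iterate_add_apply, Nat.sub_add_cancel (not_lt.mp hcon), hl]
  refine ⟨l, n - l, by omega, by omega, hl, ?_, hyn⟩
  rw [← hl, ← Function.iterate_add_apply, Nat.sub_add_cancel hln.le, hyn]

end Pool.Agent.Work.MP_c58d8b_pr.PT
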