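import Pool.Agent.Work.MP_c58d8b_pr.PT.Stmts

/-!
# MP_c58d8b_pr, block PT, item VA: constants
-/

set_option autoImplicit false

namespace Pool.Agent.Work.MP_c58d8b_pr.PT

open MeasureTheory ProbabilityTheory Set Filter Topology
open scoped ENNReal unitInterval Classical
open Pool.Agent.Work.MP_c58d8b_pr.SO

universe u

namespace IX_VA

theorem mem_nb {V : Type u} {H : SimpleGraph V} (hH : LocFinite H) (x y : V) :
    y ∈ nb H x ↔ H.Adj x y := by
  unfold nb
  rw [dif_pos (hH x), Set.Finite.mem_toFinset]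
  rfl

theorem iter {T : Type u} {par : T → T} {β : Equiv.Perm T} (h : ∀ z, β (par z) = par (β z)) :
    ∀ (n : ℕ) (z : T), β (par^[n] z) = par^[n] (β z) := by
  intro n
  induction n with
  | zero => intro z; rfl
  | succ n ih =>
    intro z
    rw [Function.iterate_succ_apply, Function.iterate_succ_apply, ih, h]

end IX_VA

open IX_VA

theorem pt_VA : StVA.{u} := by
  intro X
  haveI := X.conn.nonempty
  obtain ⟨o⟩ := (inferInstance : Nonempty (X.T × X.T'))
  have hj : ∀ v : X.T × X.T', ∃ n : ℕ, X.G.Adj o v → X.par'^[n] o.2 = v.2 ∨ X.par'^[n] v.2 = o.2 := by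
    intro v
    by_cases hv : X.G.Adj o v
    · obtain ⟨n, hn⟩ := X.cmp o v hv
      exact ⟨n, fun _ => hn⟩
    · exact ⟨0, fun h => absurd h hv⟩
  choose f hf using hj
  have key : ∀ u v : X.T × X.T', X.G.Adj u v → ∃ α ∈ X.A, ∃ β ∈ X.B, ∃ v' : X.T × X.T',
      X.G.Adj o v' ∧ α o.1 = u.1 ∧ β o.2 = u.2 ∧ α v'.1 = v.1 ∧ β v'.2 = v.2 := by
    intro u v huv
    obtain ⟨α, hα, _, hα1⟩ := X.mov o.1 u.1
    obtain ⟨β, hβ, hβ1⟩ := X.mov' o.2 u.2
    refine ⟨α, hα, β, hβ, (α.symm v.1, β.symm v.2), ?_, hα1, hβ1, Equiv.apply_symm_apply _ _,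
      Equiv.apply_symm_apply _ _⟩
    have h1 := X.inv α hα β hβ o (α.symm v.1, β.symm v.2)
    refine h1.1 ?_
    rw [hα1, hβ1]
    simp only [Equiv.apply_symm_apply]
    exact huv
  refine ⟨max 1 (nb X.G o).card, max 1 ((nb X.G o).sup f), ⟨le_max_left _ _, le_max_left _ _⟩, ?_, ?_⟩
  · intro u
    refine le_trans ?_ (le_max_right _ _)
    obtain ⟨α, hα, _, hα1⟩ := X.mov o.1 u.1
    obtain ⟨β, hβ, hβ1⟩ := X.mov' o.2 u.2
    have hsub : nb X.G u ⊆ (nb X.G o).image (fun w => (α w.1, β w.2)) := by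
      intro v hv
      rw [mem_nb X.lf] at hv
      refine Finset.mem_image.2 ⟨(α.symm v.1, β.symm v.2), ?_, ?_⟩
      · rw [mem_nb X.lf]
        refine (X.inv α hα β hβ o (α.symm v.1, β.symm v.2)).1 ?_
        rw [hα1, hβ1]
        simp only [Equiv.apply_symm_apply]
        exact hv
      · simp only [Equiv.apply_symm_apply]
    exact (Finset.card_le_card hsub).trans Finset.card_image_le
  · intro u v huv
    obtain ⟨α, _, β, hβ, v', hov, _, h2, _, h4⟩ := key u v huv
    refine ⟨f v', ?_, ?_⟩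
    · exact le_trans (Finset.le_sup ((mem_nb X.lf o v').2 hov)) (le_max_right _ _)
    · have hc := iter (X.com' β hβ)
      unfold Sys.up
      rcases hf v' hov with h | h
      · left
        rw [← h2, ← h4, ← hc, h]
      · right
        rw [← h2, ← h4, ← hc, h]

end Pool.Agent.Work.MP_c58d8b_pr.PT
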