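import Pool.Agent.Work.MP_c58d8b_pr.PT.Stmts

/-!
# MP_c58d8b_pr, block PT, item VC: equivariance of the regions
-/

set_option autoImplicit false

namespace Pool.Agent.Work.MP_c58d8b_pr.PT

open MeasureTheory ProbabilityTheory Set Filter Topology
open scoped ENNReal unitInterval Classical
open Pool.Agent.Work.MP_c58d8b_pr.SO

universe u

namespace IX_VC

theorem img {V : Type u} (γ : Equiv.Perm V) (P Q : Set V) (h : ∀ v, γ v ∈ Q ↔ v ∈ P) :
    γ '' P = Q := by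
  ext w
  constructor
  · rintro ⟨v, hv, rfl⟩
    exact (h v).2 hv
  · intro hw
    refine ⟨γ.symm w, (h _).1 ?_, γ.apply_symm_apply w⟩
    rw [γ.apply_symm_apply]
    exact hw

end IX_VC

open IX_VC in
theorem pt_VC (hRB : StRB.{u}) (hRC : StRC.{u}) : StVC.{u} := by
  intro X α hα β hβ
  obtain ⟨-, c1, c2, c3, c4⟩ := hRC X.T' X.par' X.h' X.b X.tr' β (X.com' β hβ)
  have hup : ∀ n x, β (X.up n x) = X.up n (β x) := fun n x => c1 n x
  have hDn : ∀ x, Equiv.prodCongr α β '' X.Dn x = X.Dn (β x) := fun x =>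
    img _ _ _ fun v => c4 x v.2
  have hOu : ∀ x n, Equiv.prodCongr α β '' X.Ou x n = X.Ou (β x) n := by
    intro x n
    refine img _ _ _ fun v => ?_
    show (β v.2 ∈ desc X.par' (X.up (n - 1) (β x)) ∧ β v.2 ∉ desc X.par' (β x)) ↔
      (v.2 ∈ desc X.par' (X.up (n - 1) x) ∧ v.2 ∉ desc X.par' x)
    rw [← hup, c4, c4]
  have hSl : ∀ x K L, Equiv.prodCongr α β '' X.Sl x K L = X.Sl (β x) K L := by
    intro x K L
    refine img _ _ _ fun v => ?_
    show (β v.2 ∈ desc X.par' (X.up K (β x)) ∧ X.h' (β x) < X.h' (β v.2) + L) ↔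
      (v.2 ∈ desc X.par' (X.up K x) ∧ X.h' x < X.h' v.2 + L)
    have h1 := c2 x v.2
    rw [← hup, c4]
    refine and_congr_right fun _ => ?_
    constructor <;> intro h2 <;> omega
  have hfin : ∀ (M : ℕ) (u : X.T × X.T'), (X.Bl M u).Finite := by
    intro M u
    have f1 : {y | td X.par u.1 y ≤ M}.Finite :=
      (hRB X.T X.par X.h X.a X.tr).2.2.2.2.2.2.2.2.1 u.1 M
    have f2 : {y | td X.par' u.2 y ≤ M}.Finite :=
      (hRB X.T' X.par' X.h' X.b X.tr').2.2.2.2.2.2.2.2.1 u.2 M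
    exact (f1.prod f2).subset fun v hv => ⟨hv.1, hv.2⟩
  have hBlF : ∀ (M : ℕ) (u v : X.T × X.T'), v ∈ X.BlF M u ↔ v ∈ X.Bl M u := by
    intro M u v
    unfold Sys.BlF
    rw [dif_pos (hfin M u), Set.Finite.mem_toFinset]
  refine ⟨X.inv α hα β hβ, hup, fun s t => X.iso α hα s t, hDn, hOu, hSl, ?_, ?_, ?_, ?_, ?_⟩
  · intro n u
    unfold Sys.Rg
    rw [Set.image_insert_eq, hSl]
    rfl
  · intro x n t s
    unfold Sys.WO
    rw [Set.image_insert_eq, Set.image_insert_eq, hOu, ← hup]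
    rfl
  · intro x q t s
    unfold Sys.WU
    rw [Set.image_insert_eq, Set.image_insert_eq, hSl, ← hup]
    rfl
  · intro M u
    refine ⟨hfin M u, ?_⟩
    have hiff : ∀ v : X.T × X.T', (α v.1, β v.2) ∈ X.Bl M (α u.1, β u.2) ↔ v ∈ X.Bl M u := by
      intro v
      show (td X.par (α u.1) (α v.1) ≤ M ∧ td X.par' (β u.2) (β v.2) ≤ M) ↔
        (td X.par u.1 v.1 ≤ M ∧ td X.par' u.2 v.2 ≤ M)
      rw [X.iso α hα, c3]
    ext w
    rw [Finset.mem_image, hBlF]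
    constructor
    · rintro ⟨v, hv, rfl⟩
      exact (hiff v).2 ((hBlF M u v).1 hv)
    · intro hw
      have e : (Equiv.prodCongr α β) ((Equiv.prodCongr α β).symm w) = w :=
        Equiv.apply_symm_apply _ _
      refine ⟨(Equiv.prodCongr α β).symm w, (hBlF M u _).2 ((hiff _).1 ?_), e⟩
      rw [← e] at hw
      exact hw
  · intro hpar
    obtain ⟨-, -, a2, -, -⟩ := hRC X.T X.par X.h X.a X.tr α hpar
    refine ⟨fun t s => ?_, fun u v => ?_⟩
    · unfold Sys.om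
      rw [a2]
    · show √(X.a : ℝ) ^ (X.h (α v.1) - X.h (α u.1)) * √(X.b : ℝ) ^ (X.h' (β v.2) - X.h' (β u.2)) =
        √(X.a : ℝ) ^ (X.h v.1 - X.h u.1) * √(X.b : ℝ) ^ (X.h' v.2 - X.h' u.2)
      rw [a2, c2]

end Pool.Agent.Work.MP_c58d8b_pr.PT
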