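import Pool.Agent.Work.MP_c58d8b_pr.PT.Stmts

/-!
# MP_c58d8b_pr, block PT, item VD: homogeneity
-/

set_option autoImplicit false

namespace Pool.Agent.Work.MP_c58d8b_pr.PT

open MeasureTheory ProbabilityTheory Set Filter Topology
open scoped ENNReal unitInterval Classical
open Pool.Agent.Work.MP_c58d8b_pr.SO

universe u

namespace IX_VD

theorem within_im {V : Type u} (G : SimpleGraph V) (φ : Equiv.Perm V) (hφ : IsAut G φ)
    (W : Set V) (x y : V) :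
    (within G (φ '' W)).Adj (φ x) (φ y) ↔ (within G W).Adj x y := by
  show (G.Adj (φ x) (φ y) ∧ φ x ∈ φ '' W ∧ φ y ∈ φ '' W) ↔ (G.Adj x y ∧ x ∈ W ∧ y ∈ W)
  rw [hφ x y, φ.injective.mem_set_image, φ.injective.mem_set_image]

theorem tt_im (hVC : StVC.{u}) (hQF : StQF.{u}) (X : Sys.{u}) (p : ℝ) (hp0 : 0 ≤ p) (hp1 : p ≤ 1)
    (α : Equiv.Perm X.T) (hα : α ∈ X.A) (β : Equiv.Perm X.T') (hβ : β ∈ X.B) (u v : X.T × X.T') :
    tt X.G p (α u.1, β u.2) (α v.1, β v.2) = tt X.G p u v := by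
  obtain ⟨c1, -⟩ := hVC X α hα β hβ
  obtain ⟨-, -, -, -, -, -, -, h⟩ := hQF (X.T × X.T') X.G p hp0 hp1
  exact h X.G (Equiv.prodCongr α β) c1 u v

theorem uu_im (hVC : StVC.{u}) (hQF : StQF.{u}) (X : Sys.{u}) (p : ℝ) (hp0 : 0 ≤ p) (hp1 : p ≤ 1)
    (α : Equiv.Perm X.T) (hα : α ∈ X.A) (β : Equiv.Perm X.T') (hβ : β ∈ X.B) (n : ℕ) (x : X.T')
    (t s : X.T) : X.uu p n (β x) (α t) (α s) = X.uu p n x t s := by
  obtain ⟨c1, c2, -, -, -, -, -, c8, -, -⟩ := hVC X α hα β hβ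
  obtain ⟨-, -, -, -, -, -, -, h⟩ :=
    hQF (X.T × X.T') (within X.G (X.WO x n t s)) p hp0 hp1
  have h1 := h (within X.G (Equiv.prodCongr α β '' X.WO x n t s)) (Equiv.prodCongr α β)
    (within_im X.G _ c1 _) (t, x) (s, X.up n x)
  rw [c8 x n t s] at h1
  unfold Sys.uu ttW
  rw [← c2 n x]
  exact h1

end IX_VD

open IX_VD in
theorem pt_VD (hVC : StVC.{u}) (hQE : StQE.{u}) (hQF : StQF.{u}) : StVD.{u} := by
  intro X p hp0 hp1
  refine ⟨?_, ?_, ?_, ?_⟩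
  · intro n x t s x' t' s' hd
    obtain ⟨α, hα, rfl, rfl⟩ := X.hom t s t' s' hd
    obtain ⟨β, hβ, rfl⟩ := X.mov' x x'
    obtain ⟨c1, c2, -⟩ := hVC X α hα β hβ
    refine ⟨?_, (uu_im hVC hQF X p hp0 hp1 α hα β hβ n x t s).symm⟩
    rw [← c2 n x]
    exact (tt_im hVC hQF X p hp0 hp1 α hα β hβ (t, x) (s, X.up n x)).symm
  · intro n x t s x' t' s' c hd
    obtain ⟨α, hα, rfl, rfl⟩ := X.hom t s t' s' hd
    obtain ⟨β, hβ, rfl⟩ := X.mov' x x'
    obtain ⟨c1, c2, -, c4, -, c6, c7, -, c8, -, -⟩ := hVC X α hα β hβ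
    obtain ⟨-, -, -, -, h5, -⟩ := hQE (X.T × X.T') X.G p hp0 hp1
    refine ⟨?_, ?_, ?_, ?_⟩
    · intro h
      have h1 := h5 (Equiv.prodCongr α β) c1 _ _ _ _ h
      rw [c4 x] at h1
      exact h1
    · intro h
      have h1 := h5 (Equiv.prodCongr α β) c1 _ _ _ _ h
      rw [c7 n (t, x)] at h1
      rw [← c2 n x]
      exact h1
    · intro h
      have h1 := h5 (Equiv.prodCongr α β) c1 _ _ _ _ h
      rw [c8 x n t s] at h1
      rw [← c2 n x]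
      exact h1
    · intro K L h
      have h1 := h5 (Equiv.prodCongr α β) c1 _ _ _ _ h
      rw [c6 x K L] at h1
      rw [← c2 n x]
      exact h1
  · intro n x t x' t'
    obtain ⟨α, hα, hpar, rfl⟩ := X.mov t t'
    obtain ⟨β, hβ, rfl⟩ := X.mov' x x'
    obtain ⟨c1, c2, -, -, -, -, -, -, -, -, c11⟩ := hVC X α hα β hβ
    obtain ⟨hom, -⟩ := c11 hpar
    constructor
    · unfold Sys.gg
      rw [← α.tsum_eq (fun s => ENNReal.ofReal (X.om (α t) s * √(X.b : ℝ) ^ n) *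
        tt X.G p (α t, β x) (s, X.up n (β x)))]
      refine tsum_congr fun s => ?_
      rw [hom t s, ← c2 n x]
      exact congrArg _ (tt_im hVC hQF X p hp0 hp1 α hα β hβ (t, x) (s, X.up n x)).symm
    · unfold Sys.gu
      rw [← α.tsum_eq (fun s => ENNReal.ofReal (X.om (α t) s * √(X.b : ℝ) ^ n) *
        X.uu p n (β x) (α t) s)]
      refine tsum_congr fun s => ?_
      rw [hom t s, uu_im hVC hQF X p hp0 hp1 α hα β hβ n x t s]
  · intro u v
    obtain ⟨α, hα, hpar, h1⟩ := X.mov u.1 v.1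
    obtain ⟨β, hβ, h2⟩ := X.mov' u.2 v.2
    obtain ⟨c1, c2, -, -, -, -, -, -, -, -, c11⟩ := hVC X α hα β hβ
    obtain ⟨-, hOm⟩ := c11 hpar
    have hv : v = (α u.1, β u.2) := by rw [h1, h2]
    rw [hv]
    unfold Sys.XX
    rw [← (Equiv.prodCongr α β).tsum_eq (fun w => ENNReal.ofReal (X.Om (α u.1, β u.2) w) *
      tt X.G p (α u.1, β u.2) w)]
    refine tsum_congr fun w => ?_
    have h3 : (Equiv.prodCongr α β) w = (α w.1, β w.2) := rfl
    rw [h3, hOm u w, tt_im hVC hQF X p hp0 hp1 α hα β hβ u w]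

end Pool.Agent.Work.MP_c58d8b_pr.PT
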