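import Pool.Agent.Work.MP_c58d8b_pr.PT.Stmts

/-!
# MP_c58d8b_pr, block PT, item VE: facts on the bound `Bd`
-/

set_option autoImplicit false

namespace Pool.Agent.Work.MP_c58d8b_pr.PT

open MeasureTheory ProbabilityTheory Set Filter Topology
open scoped ENNReal unitInterval Classical
open Pool.Agent.Work.MP_c58d8b_pr.SO

universe u

namespace IX_VE

theorem tau_zero {V : Type u} (H : SimpleGraph V) (S : Finset V) (x y : V) (hxy : x ≠ y) :
    tau H 0 S x y = 0 := by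
  unfold tau Pr
  refine Finset.sum_eq_zero fun s hs => ?_
  have hs2 : (s : Set (Sym2 V)) ∈ {s | y ∈ Cluster s x} := (Finset.mem_filter.mp hs).2
  have hne : s.card ≠ 0 := by
    intro h0
    rw [Finset.card_eq_zero] at h0
    subst h0
    have h1 : (SimpleGraph.fromEdgeSet ((∅ : Finset (Sym2 V)) : Set (Sym2 V))).Reachable x y := hs2
    rw [Finset.coe_empty, SimpleGraph.fromEdgeSet_empty, SimpleGraph.reachable_bot] at h1
    exact hxy h1
  rw [zero_pow hne, zero_mul]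

end IX_VE

theorem pt_VE (hQA : StQA.{u}) (hQB : StQB.{u}) (hQD : StQD.{u}) (hRB : StRB.{u}) :
    StVE.{u} := by
  intro X
  obtain ⟨ra0, -, -, -, -, -, -, raE, -, -⟩ := hRB X.T X.par X.h X.a X.tr
  obtain ⟨rb0, -, -, -, -, rbn, -, -, -, -⟩ := hRB X.T' X.par' X.h' X.b X.tr'
  have ha2 : (2 : ℝ) ≤ X.a := by exact_mod_cast X.tr.two
  have hb2 : (2 : ℝ) ≤ X.b := by exact_mod_cast X.tr'.two
  have ha0 : (0 : ℝ) < X.a := by linarith
  have hb0 : (0 : ℝ) < √(X.b : ℝ) := Real.sqrt_pos.mpr (by linarith)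
  have hco : ∀ (k j : ℕ), (0 : ℝ) < (X.a : ℝ) ^ k * √(X.b : ℝ) ^ j := fun k j =>
    mul_pos (pow_pos ha0 k) (pow_pos hb0 j)
  refine ⟨?_, ?_, ?_, ?_, ?_⟩
  · intro S t s x j
    by_cases h : ((t, x) : X.T × X.T') = (s, X.up j x)
    · have h1 : t = s := congrArg Prod.fst h
      have h2 : x = X.par'^[j] x := congrArg Prod.snd h
      have h3 : j = 0 := by
        have h4 := rbn x j
        rw [← h2] at h4
        rw [← h4]
        exact (rb0 x x).mpr rfl
      have h5 : X.d t s = 0 := (ra0 t s).mpr h1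
      rw [h5, h3, pow_zero, pow_zero, one_mul, one_mul]
      exact ((hQA (X.T × X.T') X.G 0 le_rfl zero_le_one).1 S _ _).2
    · rw [IX_VE.tau_zero X.G S _ _ h, mul_zero]
      exact zero_le_one
  · intro hB
    obtain ⟨⟨t, x⟩⟩ := X.conn.nonempty
    obtain ⟨s, hs⟩ := raE t 1
    obtain ⟨S, -, hS2, hS3⟩ := (hQD (X.T × X.T') X.G).2 (t, x) (s, x) (X.conn.preconnected _ _)
    have h1 := (hQD (X.T × X.T') X.G).1 1 S (t, x) (s, x) zero_le_one le_rfl (hS3 _ hS2)
    rw [one_pow] at h1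
    have h2 := hB S t s x 0
    have h3 : X.d t s = 1 := hs
    have h4 : X.up 0 x = x := rfl
    rw [h3, h4, pow_one, pow_zero, mul_one] at h2
    have h5 : (2 : ℝ) * 1 ≤ (X.a : ℝ) * tau X.G 1 S (t, x) (s, x) :=
      mul_le_mul ha2 h1 zero_le_one ha0.le
    linarith
  · intro p q hp hpq hq hB S t s x j
    have h1 := (hQB (X.T × X.T')).1 X.G X.G S S p q le_rfl (Finset.Subset.refl S) hp hpq hq
      (t, x) (s, X.up j x)
    exact (mul_le_mul_of_nonneg_left h1 (hco _ _).le).trans (hB S t s x j)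
  · intro p hp _ hB S t s x j
    have hcont : Continuous fun q : ℝ => (X.a : ℝ) ^ X.d t s * √(X.b : ℝ) ^ j *
        tau X.G q S (t, x) (s, X.up j x) :=
      continuous_const.mul ((hQB (X.T × X.T')).2 X.G S (t, x) (s, X.up j x))
    have hcl : IsClosed {q : ℝ | (X.a : ℝ) ^ X.d t s * √(X.b : ℝ) ^ j *
        tau X.G q S (t, x) (s, X.up j x) ≤ 1} := isClosed_le hcont continuous_const
    have hsub : Set.Ico (0 : ℝ) p ⊆ {q : ℝ | (X.a : ℝ) ^ X.d t s * √(X.b : ℝ) ^ j *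
        tau X.G q S (t, x) (s, X.up j x) ≤ 1} := fun q hq => hB q hq.1 hq.2 S t s x j
    have h1 := closure_minimal hsub hcl
    rw [closure_Ico hp.ne] at h1
    exact h1 ⟨hp.le, le_rfl⟩
  · intro p hp hp1 hB t s x j
    unfold tt
    refine iSup_le fun S => ENNReal.ofReal_le_ofReal ?_
    have h1 := hB S t s x j
    have h2 : ((X.a : ℝ)⁻¹) ^ X.d t s * ((√(X.b : ℝ))⁻¹) ^ j =
        1 / ((X.a : ℝ) ^ X.d t s * √(X.b : ℝ) ^ j) := by
      rw [inv_pow, inv_pow, one_div, mul_inv]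
    rw [h2, le_div_iff₀ (hco _ _), mul_comm]
    exact h1

end Pool.Agent.Work.MP_c58d8b_pr.PT
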