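import Pool.Agent.Work.MP_c58d8b_pr.PT.Stmts

/-!
MP_c58d8b_pr, block PT, item VF: there is an upward edge.
-/

set_option autoImplicit false

namespace Pool.Agent.Work.MP_c58d8b_pr.PT

open MeasureTheory ProbabilityTheory Set Filter Topology
open scoped ENNReal unitInterval Classical
open Pool.Agent.Work.MP_c58d8b_pr.SO

universe u

namespace IX_VF

theorem hit {T : Type u} {par : T → T} {h : T → ℤ} {a : ℕ} (hT : Tr par h a) (n : ℕ) (x : T) :
    h (par^[n] x) = h x + n := by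
  induction n with
  | zero => simp
  | succ n ih =>
    rw [Function.iterate_succ_apply', hT.hpar, ih]
    push_cast
    ring

theorem comm_iter {T : Type u} {par : T → T} (β : Equiv.Perm T)
    (hβ : ∀ z, β (par z) = par (β z)) (n : ℕ) (z : T) : β (par^[n] z) = par^[n] (β z) := by
  induction n with
  | zero => rfl
  | succ n ih => rw [Function.iterate_succ_apply', Function.iterate_succ_apply', hβ, ih]

end IX_VF

theorem pt_VF (hRF : StRF.{u}) : StVF.{u} := by
  intro X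
  obtain ⟨o⟩ := X.conn.nonempty
  obtain ⟨w⟩ := X.conn.preconnected o (o.1, X.par' o.2)
  obtain ⟨dd, _, hd1, hd2⟩ := w.exists_boundary_dart {v | v.2 ∈ desc X.par' o.2} ⟨0, rfl⟩ (by
    rintro ⟨n, hn⟩
    have h1 := IX_VF.hit X.tr' n (X.par' o.2)
    have h2 := X.tr'.hpar o.2
    have h3 : X.h' (X.par'^[n] (X.par' o.2)) = X.h' o.2 := congrArg X.h' hn
    omega)
  obtain ⟨n, hn⟩ := X.cmp dd.fst dd.snd dd.adj
  obtain ⟨l, k, hk, hnk, _, _, hy⟩ := hRF X.T' X.par' X.h' X.b X.tr' o.2 dd.fst.2 dd.snd.2 n hd1 hd2 hn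
  refine ⟨X.d dd.fst.1 dd.snd.1, n, by omega, ?_⟩
  intro t s x hts
  obtain ⟨α, hα, h1, h2⟩ := X.hom dd.fst.1 dd.snd.1 t s hts.symm
  obtain ⟨β, hβ, h3⟩ := X.mov' dd.fst.2 x
  have h4 := (X.inv α hα β hβ dd.fst dd.snd).2 dd.adj
  rw [h1, h2, h3, ← hy, IX_VF.comm_iter β (X.com' β hβ), h3] at h4
  exact h4

end Pool.Agent.Work.MP_c58d8b_pr.PT
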