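import Pool.Agent.Work.MP_c58d8b_pr.PT.Stmts

/-!
# MP_c58d8b_pr, block PT, item VG: walks inside a slab
-/

set_option autoImplicit false

namespace Pool.Agent.Work.MP_c58d8b_pr.PT

open MeasureTheory ProbabilityTheory Set Filter Topology
open scoped ENNReal unitInterval Classical
open Pool.Agent.Work.MP_c58d8b_pr.SO

universe u

namespace IX_VG

theorem desc_mono (X : Sys.{u}) (x y : X.T') {n m : ℕ} (hnm : n ≤ m)
    (h : y ∈ desc X.par' (X.up n x)) : y ∈ desc X.par' (X.up m x) := by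
  obtain ⟨l, hl⟩ := h
  refine ⟨(m - n) + l, ?_⟩
  rw [Function.iterate_add_apply, hl]
  show X.par'^[m - n] (X.par'^[n] x) = X.par'^[m] x
  rw [← Function.iterate_add_apply, Nat.sub_add_cancel hnm]

theorem Sl_mono (X : Sys.{u}) (x : X.T') {L L' : ℕ} (h : L ≤ L') : X.Sl x L L ⊆ X.Sl x L' L' := by
  rintro v ⟨h1, h2⟩
  refine ⟨desc_mono X x v.2 h h1, ?_⟩
  have h3 : (L : ℤ) ≤ L' := by exact_mod_cast h
  omega

theorem mem_Sl (X : Sys.{u}) (x : X.T') (v : X.T × X.T') : ∃ L : ℕ, v ∈ X.Sl x L L := by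
  obtain ⟨m, n, hmn⟩ := X.tr'.common v.2 x
  refine ⟨max n ((X.h' x - X.h' v.2).toNat + 1), ?_, ?_⟩
  · exact desc_mono X x v.2 (le_max_left _ _) ⟨m, hmn⟩
  · have h1 : (((X.h' x - X.h' v.2).toNat + 1 : ℕ) : ℤ) ≤
        (max n ((X.h' x - X.h' v.2).toNat + 1) : ℕ) := by
      exact_mod_cast le_max_right _ _
    have h2 : X.h' x - X.h' v.2 ≤ ((X.h' x - X.h' v.2).toNat : ℤ) := Int.self_le_toNat _
    push_cast at h1 ⊢
    omega

theorem within_mono {V : Type u} (G : SimpleGraph V) {A B : Set V} (h : A ⊆ B) :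
    within G A ≤ within G B := fun _ _ hxy => ⟨hxy.1, h hxy.2.1, h hxy.2.2⟩

theorem walk_within (X : Sys.{u}) (x : X.T') {u v : X.T × X.T'} (w : X.G.Walk u v) :
    ∃ L : ℕ, (within X.G (X.Sl x L L)).Reachable u v := by
  induction w with
  | nil => exact ⟨0, SimpleGraph.Reachable.refl _⟩
  | cons h p ih =>
    rename_i a b c
    obtain ⟨L1, h1⟩ := mem_Sl X x a
    obtain ⟨L2, h2⟩ := mem_Sl X x b
    obtain ⟨L3, h3⟩ := ih
    refine ⟨max L1 (max L2 L3), ?_⟩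
    have hadj : (within X.G (X.Sl x (max L1 (max L2 L3)) (max L1 (max L2 L3)))).Adj a b :=
      ⟨h, Sl_mono X x (le_max_left _ _) h1,
        Sl_mono X x ((le_max_left _ _).trans (le_max_right _ _)) h2⟩
    exact hadj.reachable.trans (h3.mono (within_mono X.G
      (Sl_mono X x ((le_max_right _ _).trans (le_max_right _ _)))))

end IX_VG

theorem pt_VG (hRB : StRB.{u}) (hVC : StVC.{u}) : StVG.{u} := by
  intro X e r
  obtain ⟨⟨t0, x0⟩⟩ := X.conn.nonempty
  obtain ⟨s0, hs0⟩ : ∃ s0, td X.par t0 s0 = e :=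
    (hRB X.T X.par X.h X.a X.tr).2.2.2.2.2.2.2.1 t0 e
  obtain ⟨w⟩ := X.conn.preconnected (t0, x0) (s0, X.up r x0)
  obtain ⟨L, hL⟩ := IX_VG.walk_within X x0 w
  refine ⟨L, fun t s x hts => ?_⟩
  obtain ⟨α, hα, hα1, hα2⟩ := X.hom t0 s0 t s (hs0.trans hts.symm)
  obtain ⟨β, hβ, hβ1⟩ := X.mov' x0 x
  obtain ⟨haut, hup, -, -, -, hSl, -⟩ := hVC X α hα β hβ
  have himg := hSl x0 L L
  rw [hβ1] at himg
  let f : within X.G (X.Sl x0 L L) →g within X.G (X.Sl x L L) :=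
    { toFun := Equiv.prodCongr α β
      map_rel' := by
        intro a b hab
        refine ⟨?_, ?_, ?_⟩
        · exact (X.inv α hα β hβ a b).2 hab.1
        · rw [← himg]; exact ⟨a, hab.2.1, rfl⟩
        · rw [← himg]; exact ⟨b, hab.2.2, rfl⟩ }
  have h := hL.map f
  have e1 : f (t0, x0) = (t, x) := by
    show (α t0, β x0) = (t, x)
    rw [hα1, hβ1]
  have e2 : f (s0, X.up r x0) = (s, X.up r x) := by
    show (α s0, β (X.up r x0)) = (s, X.up r x)
    rw [hα2, hup, hβ1]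
  rw [e1, e2] at h
  exact h

end Pool.Agent.Work.MP_c58d8b_pr.PT
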