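import Pool.Agent.Work.MP_c58d8b_pr.PT.Stmts

/-!
# MP_c58d8b_pr, block PT, item VU: up-paths
-/

set_option autoImplicit false

namespace Pool.Agent.Work.MP_c58d8b_pr.PT

open MeasureTheory ProbabilityTheory Set Filter Topology
open scoped ENNReal unitInterval Classical
open Pool.Agent.Work.MP_c58d8b_pr.SO

universe u

namespace IX_VU

variable (X : Sys.{u})

theorem up_up (m n : ℕ) (x : X.T') : X.up m (X.up n x) = X.up (n + m) x := by
  unfold Sys.up
  rw [← Function.iterate_add_apply, Nat.add_comm m n]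

theorem up_zero (x : X.T') : X.up 0 x = x := rfl

theorem up_desc (x : X.T') {n m : ℕ} (h : n ≤ m) : X.up n x ∈ desc X.par' (X.up m x) := by
  refine ⟨m - n, ?_⟩
  change X.up (m - n) (X.up n x) = X.up m x
  rw [up_up, Nat.add_sub_cancel' h]

theorem within_mono {V : Type u} {G : SimpleGraph V} {W W' : Set V} (h : W ⊆ W') :
    within G W ≤ within G W' := fun _ _ hxy => ⟨hxy.1, h hxy.2.1, h hxy.2.2⟩

theorem desc_sub {x y : X.T'} (h : x ∈ desc X.par' y) : desc X.par' x ⊆ desc X.par' y := by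
  rintro z ⟨n, rfl⟩
  obtain ⟨m, hm⟩ := h
  refine ⟨m + n, ?_⟩
  rw [Function.iterate_add_apply, hm]

theorem Sl_mono (x : X.T') {K K' L L' : ℕ} (hK : K ≤ K') (hL : L ≤ L') :
    X.Sl x K L ⊆ X.Sl x K' L' := by
  rintro v ⟨h1, h2⟩
  refine ⟨desc_sub X (up_desc X x hK) h1, ?_⟩
  have : (L : ℤ) ≤ L' := by exact_mod_cast hL
  linarith

/-- the zigzag -/
theorem zig {d₀ k : ℕ} (hVF : ∀ t s x, X.d t s = d₀ → X.G.Adj (t, x) (s, X.up k x))
    (hsymm : ∀ s t, X.d s t = X.d t s) (W : Set (X.T × X.T')) (t t' : X.T) (hd : X.d t t' = d₀)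
    (y : X.T') (j : ℕ) (hW : ∀ i ≤ j, (t, X.up (2 * i * k) y) ∈ W)
    (hW' : ∀ i < j, (t', X.up (2 * i * k + k) y) ∈ W) :
    (within X.G W).Reachable (t, y) (t, X.up (2 * j * k) y) := by
  induction j with
  | zero =>
    have : X.up (2 * 0 * k) y = y := by
      rw [mul_zero, zero_mul]
      rfl
    rw [this]
  | succ j ih =>
    have h1 := ih (fun i hi => hW i (by omega)) (fun i hi => hW' i (by omega))
    have a1 : X.G.Adj (t, X.up (2 * j * k) y) (t', X.up (2 * j * k + k) y) := by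
      have := hVF t t' (X.up (2 * j * k) y) hd
      rwa [up_up] at this
    have a2 : X.G.Adj (t', X.up (2 * j * k + k) y) (t, X.up (2 * (j + 1) * k) y) := by
      have := hVF t' t (X.up (2 * j * k + k) y) (by rw [hsymm]; exact hd)
      rw [up_up] at this
      have e : 2 * j * k + k + k = 2 * (j + 1) * k := by ring
      rwa [e] at this
    have b1 : (within X.G W).Adj (t, X.up (2 * j * k) y) (t', X.up (2 * j * k + k) y) :=
      ⟨a1, hW j (by omega), hW' j (by omega)⟩
    have b2 : (within X.G W).Adj (t', X.up (2 * j * k + k) y) (t, X.up (2 * (j + 1) * k) y) :=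
      ⟨a2, hW' j (by omega), hW (j + 1) le_rfl⟩
    exact (h1.trans b1.reachable).trans b2.reachable

end IX_VU

theorem pt_VU (hRA : StRA.{u}) (hRB : StRB.{u}) (hVF : StVF.{u}) (hVG : StVG.{u}) :
    StVU.{u} := by
  intro X e
  obtain ⟨hh, -⟩ := hRA X.T' X.par' X.h' X.b X.tr'
  obtain ⟨-, hsym, -, -, -, -, -, hex, -⟩ := hRB X.T X.par X.h X.a X.tr
  obtain ⟨d₀, k, hk, hadj⟩ := hVF X
  choose Lf hLf using hVG X e
  obtain ⟨L, hL⟩ : ∃ L : ℕ, L = (Finset.range (2 * k)).sup Lf + 1 := ⟨_, rfl⟩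
  have hLr : ∀ r < 2 * k, Lf r ≤ L := by
    intro r hr
    have := Finset.le_sup (f := Lf) (Finset.mem_range.2 hr)
    omega
  have hL1 : 1 ≤ L := by omega
  refine ⟨2 * L * k + L + 1 + 2 * k, by omega, ?_⟩
  intro q hq t s x he
  obtain ⟨r, hr⟩ : ∃ r : ℕ, r = (q - 2 * L * k) % (2 * k) := ⟨_, rfl⟩
  obtain ⟨j, hj⟩ : ∃ j : ℕ, j = (q - 2 * L * k) / (2 * k) := ⟨_, rfl⟩
  have hr2 : r < 2 * k := by
    rw [hr]
    exact Nat.mod_lt _ (by omega)
  have hqe : q = 2 * L * k + r + 2 * j * k := by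
    have h1 := Nat.mod_add_div (q - 2 * L * k) (2 * k)
    rw [← hr, ← hj] at h1
    have h2 : 2 * k * j = 2 * j * k := by ring
    rw [h2] at h1
    omega
  obtain ⟨t', ht'⟩ := hex t d₀
  obtain ⟨s', hs'⟩ := hex s d₀
  have hsy : ∀ a b, X.d a b = X.d b a := fun a b => hsym a b
  -- membership
  have hup : ∀ n (y : X.T'), X.h' (X.up n y) = X.h' y + n := fun n y => hh n y
  have hkL : k ≤ 2 * L * k := by nlinarith
  have mem : ∀ (a : X.T) (n : ℕ), 1 ≤ n → n ≤ q - 1 → (a, X.up n x) ∈ X.WU x q t s := by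
    intro a n h1 h2
    refine Or.inr (Or.inr ⟨IX_VU.up_desc X x h2, ?_⟩)
    change X.h' x < X.h' (X.up n x) + ((0 : ℕ) : ℤ)
    rw [hup]
    have : (1 : ℤ) ≤ n := by exact_mod_cast h1
    push_cast
    linarith
  have mem0 : (t, x) ∈ X.WU x q t s := Or.inl rfl
  have memq : (s, X.up q x) ∈ X.WU x q t s := Or.inr (Or.inl rfl)
  -- first part
  have w1 : (within X.G (X.WU x q t s)).Reachable (t, x) (t, X.up (2 * L * k) x) := by
    apply IX_VU.zig X hadj hsy _ t t' ht' x L
    · intro i hi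
      rcases Nat.eq_zero_or_pos i with h0 | h0
      · rw [h0, mul_zero, zero_mul]
        exact mem0
      · apply mem
        · have : 0 < 2 * i * k := by positivity
          omega
        · have : 2 * i * k ≤ 2 * L * k := Nat.mul_le_mul_right k (by omega)
          omega
    · intro i hi
      apply mem
      · omega
      · have : 2 * i * k + k ≤ 2 * L * k := by
          have h3 : 2 * (i + 1) * k ≤ 2 * L * k := Nat.mul_le_mul_right k (by omega)
          have h4 : 2 * (i + 1) * k = 2 * i * k + k + k := by ring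
          omega
        omega
  -- middle part
  have w2 : (within X.G (X.WU x q t s)).Reachable (t, X.up (2 * L * k) x)
      (s, X.up (2 * L * k + r) x) := by
    have h1 := hLf r t s (X.up (2 * L * k) x) he
    rw [IX_VU.up_up] at h1
    refine h1.mono (IX_VU.within_mono ?_)
    intro v hv
    refine Or.inr (Or.inr ?_)
    obtain ⟨h2, h3⟩ := IX_VU.Sl_mono X (X.up (2 * L * k) x) (hLr r hr2) (hLr r hr2) hv
    rw [IX_VU.up_up] at h2
    rw [hup] at h3
    refine ⟨IX_VU.desc_sub X (IX_VU.up_desc X x ?_) h2, ?_⟩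
    · omega
    · have h4 : (L : ℤ) ≤ ((2 * L * k : ℕ) : ℤ) := by
        have : L ≤ 2 * L * k := by nlinarith
        exact_mod_cast this
      push_cast at h3 h4 ⊢
      linarith
  -- last part
  have w3 : (within X.G (X.WU x q t s)).Reachable (s, X.up (2 * L * k + r) x) (s, X.up q x) := by
    have h1 := IX_VU.zig X hadj hsy (X.WU x q t s) s s' hs' (X.up (2 * L * k + r) x) j ?_ ?_
    · rw [IX_VU.up_up, ← hqe] at h1
      exact h1
    · intro i hi
      rw [IX_VU.up_up]
      rcases Nat.lt_or_ge (2 * L * k + r + 2 * i * k) q with h2 | h2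
      · apply mem
        · omega
        · omega
      · have h3 : 2 * i * k ≤ 2 * j * k := Nat.mul_le_mul_right k (by omega)
        have h4 : 2 * L * k + r + 2 * i * k = q := by omega
        rw [h4]
        exact memq
    · intro i hi
      rw [IX_VU.up_up]
      apply mem
      · omega
      · have h3 : 2 * (i + 1) * k ≤ 2 * j * k := Nat.mul_le_mul_right k (by omega)
        have h4 : 2 * (i + 1) * k = 2 * i * k + k + k := by ring
        omega
  exact (w1.trans w2).trans w3

end Pool.Agent.Work.MP_c58d8b_pr.PT
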