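import Pool.Agent.Work.MP_c58d8b_pr.PT.Stmts2

/-!
# MP_c58d8b_pr, block PT, item ZZ: the theorem
-/

set_option autoImplicit false

namespace Pool.Agent.Work.MP_c58d8b_pr.PT

open MeasureTheory ProbabilityTheory Set Filter Topology
open scoped ENNReal unitInterval Classical
open Pool.Agent.Work.MP_c58d8b_pr.SO

universe u

namespace IX_ZZ

theorem cluster_univ {V : Type u} (H : SimpleGraph V) (h : H.Connected) (x : V) :
    Cluster H.edgeSet x = Set.univ := by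
  ext y
  simp only [Cluster, SimpleGraph.fromEdgeSet_edgeSet, Set.mem_ofPred_eq, Set.mem_univ, iff_true]
  exact h.preconnected x y

theorem one_mem {V : Type u} [Infinite V] (H : SimpleGraph V) (h : H.Connected) :
    H.edgeSet ∈ UniqueEvent V := by
  obtain ⟨x⟩ := h.nonempty
  refine ⟨Set.univ, ⟨Set.infinite_univ, x, (cluster_univ H h x).symm⟩, ?_⟩
  rintro C ⟨-, y, rfl⟩
  exact cluster_univ H h y

end IX_ZZ

theorem pt_ZZ (hVB : StVB.{u}) (hVE : StVE.{u}) (hIK : StIK.{u}) (hJW : StJW.{u}) :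
    StZZ.{u} := by
  intro X
  obtain ⟨hB0, hB1, hmono, hleft, -⟩ := hVE X
  have hinf : Infinite (X.T × X.T') := (hVB X).2.2.1
  set A : Set ℝ := {p : ℝ | 0 ≤ p ∧ p ≤ 1 ∧ X.Bd p} with hA
  have h0A : (0 : ℝ) ∈ A := ⟨le_rfl, zero_le_one, hB0⟩
  have hbdd : BddAbove A := ⟨1, fun p hp => hp.2.1⟩
  set p₁ : ℝ := sSup A with hp₁
  have hp₁0 : 0 ≤ p₁ := le_csSup hbdd h0A
  have hp₁1 : p₁ ≤ 1 := csSup_le ⟨0, h0A⟩ fun p hp => hp.2.1
  have hbelow : ∀ q : ℝ, 0 ≤ q → q < p₁ → X.Bd q := by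
    intro q hq0 hq
    obtain ⟨r, hr, hqr⟩ := exists_lt_of_lt_csSup ⟨0, h0A⟩ hq
    exact hmono q r hq0 hqr.le hr.2.1 hr.2.2
  have hBp₁ : X.Bd p₁ := by
    rcases hp₁0.eq_or_lt with h | h
    · rw [← h]; exact hB0
    · exact hleft p₁ h hp₁1 hbelow
  have hlt : p₁ < 1 := by
    rcases hp₁1.eq_or_lt with h | h
    · rw [h] at hBp₁
      exact absurd hBp₁ hB1
    · exact h
  have habove : ∀ p : ℝ, p₁ < p → p ≤ 1 → ¬ X.Bd p := by
    intro p hp hp1 hB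
    exact absurd (le_csSup hbdd (show p ∈ A from ⟨hp₁0.trans hp.le, hp1, hB⟩)) (not_le.2 hp)
  obtain ⟨p', hp', hp'1, hU⟩ := hJW X p₁ hp₁0 hlt hBp₁
  have hpu : p' ≤ pu X.G := by
    refine le_csInf ⟨1, 1, rfl, ?_⟩ ?_
    · unfold perc
      rw [setBernoulli_one]
      exact Measure.dirac_apply_of_mem (IX_ZZ.one_mem X.G X.conn)
    · rintro t ⟨q, rfl, hq⟩
      by_contra hcon
      exact hU q (not_le.1 hcon).le hq
  have h2 : (0 : ℝ) ≤ (p₁ + p') / 2 := by linarith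
  have h3 : (p₁ + p') / 2 ≤ 1 := by linarith
  have hph : ph X.G X.Γ ≤ (p₁ + p') / 2 := by
    refine csInf_le ⟨0, ?_⟩ ⟨⟨(p₁ + p') / 2, h2, h3⟩, rfl, ?_⟩
    · rintro t ⟨q, rfl, -⟩
      exact q.2.1
    · refine hIK X ((p₁ + (p₁ + p') / 2) / 2) (by linarith) (by linarith)
        (habove _ (by linarith) (by linarith)) ⟨(p₁ + p') / 2, h2, h3⟩ ?_
      show (p₁ + (p₁ + p') / 2) / 2 < (p₁ + p') / 2
      linarith
  linarith

end Pool.Agent.Work.MP_c58d8b_pr.PT
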