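import Pool.Agent.Work.MP_c58d8b_pr.SO.All
import Pool.Agent.Work.MP_c58d8b_pr.I_INDEP
import Pool.Agent.Work.MP_c58d8b_pr.PT.I_FA
import Pool.Agent.Work.MP_c58d8b_pr.PT.I_FB
import Pool.Agent.Work.MP_c58d8b_pr.PT.I_FC
import Pool.Agent.Work.MP_c58d8b_pr.PT.I_FI
import Pool.Agent.Work.MP_c58d8b_pr.PT.I_FU
import Pool.Agent.Work.MP_c58d8b_pr.PT.I_FE
import Pool.Agent.Work.MP_c58d8b_pr.PT.I_QA
import Pool.Agent.Work.MP_c58d8b_pr.PT.I_QB
import Pool.Agent.Work.MP_c58d8b_pr.PT.I_QC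
import Pool.Agent.Work.MP_c58d8b_pr.PT.I_QD
import Pool.Agent.Work.MP_c58d8b_pr.PT.I_QE
import Pool.Agent.Work.MP_c58d8b_pr.PT.I_QF
import Pool.Agent.Work.MP_c58d8b_pr.PT.I_QS
import Pool.Agent.Work.MP_c58d8b_pr.PT.I_QT
import Pool.Agent.Work.MP_c58d8b_pr.PT.I_QU
import Pool.Agent.Work.MP_c58d8b_pr.PT.I_QP
import Pool.Agent.Work.MP_c58d8b_pr.PT.I_RA
import Pool.Agent.Work.MP_c58d8b_pr.PT.I_RB
import Pool.Agent.Work.MP_c58d8b_pr.PT.I_RC
import Pool.Agent.Work.MP_c58d8b_pr.PT.I_RE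
import Pool.Agent.Work.MP_c58d8b_pr.PT.I_RF
import Pool.Agent.Work.MP_c58d8b_pr.PT.I_RZ
import Pool.Agent.Work.MP_c58d8b_pr.PT.I_VA
import Pool.Agent.Work.MP_c58d8b_pr.PT.I_VB
import Pool.Agent.Work.MP_c58d8b_pr.PT.I_VC
import Pool.Agent.Work.MP_c58d8b_pr.PT.I_VD
import Pool.Agent.Work.MP_c58d8b_pr.PT.I_VE
import Pool.Agent.Work.MP_c58d8b_pr.PT.I_VF
import Pool.Agent.Work.MP_c58d8b_pr.PT.I_VG
import Pool.Agent.Work.MP_c58d8b_pr.PT.I_VU
import Pool.Agent.Work.MP_c58d8b_pr.PT.I_VP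
import Pool.Agent.Work.MP_c58d8b_pr.PT.I_IA
import Pool.Agent.Work.MP_c58d8b_pr.PT.I_IB
import Pool.Agent.Work.MP_c58d8b_pr.PT.I_IC
import Pool.Agent.Work.MP_c58d8b_pr.PT.I_ID
import Pool.Agent.Work.MP_c58d8b_pr.PT.I_IE
import Pool.Agent.Work.MP_c58d8b_pr.PT.I_IF
import Pool.Agent.Work.MP_c58d8b_pr.PT.I_IG
import Pool.Agent.Work.MP_c58d8b_pr.PT.I_IH
import Pool.Agent.Work.MP_c58d8b_pr.PT.I_II
import Pool.Agent.Work.MP_c58d8b_pr.PT.I_IJ
import Pool.Agent.Work.MP_c58d8b_pr.PT.I_IK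
import Pool.Agent.Work.MP_c58d8b_pr.PT.I_JA
import Pool.Agent.Work.MP_c58d8b_pr.PT.I_JB
import Pool.Agent.Work.MP_c58d8b_pr.PT.I_JC
import Pool.Agent.Work.MP_c58d8b_pr.PT.I_JD
import Pool.Agent.Work.MP_c58d8b_pr.PT.I_JS
import Pool.Agent.Work.MP_c58d8b_pr.PT.I_JF
import Pool.Agent.Work.MP_c58d8b_pr.PT.I_JE
import Pool.Agent.Work.MP_c58d8b_pr.PT.I_JG
import Pool.Agent.Work.MP_c58d8b_pr.PT.I_JH
import Pool.Agent.Work.MP_c58d8b_pr.PT.I_JI
import Pool.Agent.Work.MP_c58d8b_pr.PT.I_JJ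
import Pool.Agent.Work.MP_c58d8b_pr.PT.I_JK
import Pool.Agent.Work.MP_c58d8b_pr.PT.I_JL
import Pool.Agent.Work.MP_c58d8b_pr.PT.I_JM
import Pool.Agent.Work.MP_c58d8b_pr.PT.I_JN
import Pool.Agent.Work.MP_c58d8b_pr.PT.I_JO
import Pool.Agent.Work.MP_c58d8b_pr.PT.I_JQ
import Pool.Agent.Work.MP_c58d8b_pr.PT.I_JP
import Pool.Agent.Work.MP_c58d8b_pr.PT.I_JR
import Pool.Agent.Work.MP_c58d8b_pr.PT.I_JT
import Pool.Agent.Work.MP_c58d8b_pr.PT.I_JU
import Pool.Agent.Work.MP_c58d8b_pr.PT.I_JV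
import Pool.Agent.Work.MP_c58d8b_pr.PT.I_JW
import Pool.Agent.Work.MP_c58d8b_pr.PT.I_ZZ
import Pool.Agent.Work.MP_c58d8b_pr.PT.I_EA
import Pool.Agent.Work.MP_c58d8b_pr.PT.I_EC
import Pool.Agent.Work.MP_c58d8b_pr.PT.I_ED
import Pool.Agent.Work.MP_c58d8b_pr.PT.I_EB

/-!
# MP_c58d8b_pr, block PT: assembly
-/

set_option autoImplicit false

namespace Pool.Agent.Work.MP_c58d8b_pr.PT

open Pool.Agent.Work.MP_c58d8b_pr.SO

universe u

theorem all_FA : StFA.{u} := pt_FA 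

theorem all_FB : StFB.{u} := pt_FB all_FA SO.all_PB

theorem all_FC : StFC.{u} := pt_FC all_FA SO.all_PB

theorem all_FI : StFI.{u} := pt_FI SO.all_PB SO.all_PI SO.all_PL

theorem all_FU : StFU.{u} := pt_FU all_FA SO.all_PB SO.all_PI SO.all_PL

theorem all_FE : StFE.{u} := pt_FE 

theorem all_QA : StQA.{u} := pt_QA SO.all_PB SO.all_PA SO.all_CB all_FB

theorem all_QB : StQB.{u} := pt_QB SO.all_PB SO.all_PL SO.all_CB all_FC

theorem all_QC : StQC.{u} := pt_QC 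

theorem all_QD : StQD.{u} := pt_QD SO.all_PB SO.all_PA

theorem all_QE : StQE.{u} := pt_QE all_QA all_QB all_QC all_QD

theorem all_QF : StQF.{u} := pt_QF all_QA all_QB all_QC

theorem all_QS : StQS.{u} := pt_QS SO.all_CB

theorem all_QT : StQT.{u} := pt_QT SO.all_PB SO.all_PI SO.all_PL SO.all_PA SO.all_CB SO.all_WB all_QS

theorem all_QU : StQU.{u} := pt_QU SO.all_WB all_QA all_QB all_QC all_QT

theorem all_QP : StQP.{u} := pt_QP SO.all_PM SO.all_CB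

theorem all_RA : StRA.{u} := pt_RA 

theorem all_RB : StRB.{u} := pt_RB all_RA

theorem all_RC : StRC.{u} := pt_RC 

theorem all_RE : StRE.{u} := pt_RE all_RA all_RB

theorem all_RF : StRF.{u} := pt_RF 

theorem all_RZ : StRZ := pt_RZ 

theorem all_VA : StVA.{u} := pt_VA 

theorem all_VB : StVB.{u} := pt_VB NBASICS.prf (NWEIGHT.prf NBASICS.prf)

theorem all_VC : StVC.{u} := pt_VC all_RB all_RC

theorem all_VD : StVD.{u} := pt_VD all_VC all_QE all_QF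

theorem all_VE : StVE.{u} := pt_VE all_QA all_QB all_QD all_RB

theorem all_VF : StVF.{u} := pt_VF all_RF

theorem all_VG : StVG.{u} := pt_VG all_RB all_VC

theorem all_VU : StVU.{u} := pt_VU all_RA all_RB all_VF all_VG

theorem all_VP : StVP.{u} := pt_VP all_RA all_QE all_VD all_VU

theorem all_IA : StIA.{u} := pt_IA all_QA all_QC all_VD

theorem all_IB : StIB.{u} := pt_IB all_QA all_QE all_RA all_RB

theorem all_IC : StIC.{u} := pt_IC all_QE all_RA all_RB all_VP all_IA all_IB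

theorem all_ID : StID.{u} := pt_ID SO.all_PB SO.all_PL SO.all_CB all_FB all_FU all_RA all_RB

theorem all_IE : StIE := pt_IE 

theorem all_IF : StIF.{u} := pt_IF all_QA all_QE all_RB all_IC all_ID all_IE

theorem all_IG : StIG.{u} := pt_IG all_QB all_QC all_QD all_RC

theorem all_IH : StIH.{u} := pt_IH all_RA

theorem all_II : StII.{u} := pt_II all_QA all_QB all_QC all_QD

theorem all_IJ : StIJ.{u} := pt_IJ SO.all_WB all_QA all_RA all_RB all_VB all_IG all_IH all_II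

theorem all_IK : StIK.{u} := pt_IK all_VB all_IF all_IJ SO.all_D5 SO.all_HV

theorem all_JA : StJA.{u} := pt_JA all_QF all_RA all_RB all_RE all_VE

theorem all_JB : StJB.{u} := pt_JB all_QF all_QU all_RA all_RF all_VD

theorem all_JC : StJC.{u} := pt_JC SO.all_WB all_QC all_QF all_QU all_RA all_RF

theorem all_JD : StJD.{u} := pt_JD all_VD all_JA all_JC

theorem all_JS : StJS.{u} := pt_JS all_QF all_RA

theorem all_JF : StJF.{u} := pt_JF SO.all_PB SO.all_PL SO.all_CB all_RC all_VC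

theorem all_JE : StJE.{u} := pt_JE SO.all_PB SO.all_PL SO.all_CB all_FA all_RA all_RB all_RF all_VC all_JF

theorem all_JG : StJG.{u} := pt_JG SO.all_PB SO.all_CB all_QB all_RB all_RF

theorem all_JH : StJH.{u} := pt_JH all_RZ all_VA all_JE all_JF all_JG

theorem all_JI : StJI := pt_JI 

theorem all_JJ : StJJ := pt_JJ 

theorem all_JK : StJK.{u} := pt_JK all_RE all_VA all_VD all_VE all_JA all_JB all_JD all_JI

theorem all_JL : StJL.{u} := pt_JL all_RB all_VP all_JS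

theorem all_JM : StJM.{u} := pt_JM SO.all_CB all_FI all_RA

theorem all_JN : StJN.{u} := pt_JN SO.all_PB SO.all_PL SO.all_CB all_FI all_QC all_RA all_RB all_JH

theorem all_JO : StJO.{u} := pt_JO SO.all_PB all_FE all_QB all_QF all_RB all_VD all_VP all_JM all_JN

theorem all_JQ : StJQ.{u} := pt_JQ all_VA all_JA all_JB all_JJ all_JK all_JL all_JO

theorem all_JP : StJP.{u} := pt_JP all_QF all_RA all_RB all_VD

theorem all_JR : StJR.{u} := pt_JR all_QF all_QU all_RA all_RB all_RF all_VD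

theorem all_JT : StJT.{u} := pt_JT SO.all_WB all_QA all_QB all_QF all_VA

theorem all_JU : StJU.{u} := pt_JU SO.all_WB all_QA all_QB all_QC all_QT all_VC

theorem all_JV : StJV.{u} := pt_JV NBASICS.prf SO.all_U2 all_QF all_QP all_VB all_VC

theorem all_JW : StJW.{u} := pt_JW all_QF all_VA all_JP all_JQ all_JR all_JT all_JU all_JV

theorem all_ZZ : StZZ.{u} := pt_ZZ all_VB all_VE all_IK all_JW

theorem all_EA : StEA.{u} := pt_EA 

theorem all_EC : StEC.{u} := pt_EC all_RB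

theorem all_ED : StED.{u} := pt_ED all_RB

theorem all_EB : StEB.{u} := pt_EB all_RC all_EA all_EC all_ED

end Pool.Agent.Work.MP_c58d8b_pr.PT
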