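import Pool.Agent.Work.MP_c58d8b_pr.SO.Stmts

/-!
# MP_c58d8b_pr, block PT (products of two trees, one fixed end; captain helper62): definitions
-/

set_option autoImplicit false

namespace Pool.Agent.Work.MP_c58d8b_pr.PT

open MeasureTheory ProbabilityTheory Set
open scoped ENNReal unitInterval Classical
open Pool.Agent.Work.MP_c58d8b_pr.SO

universe u

/-! ### Trees with a parent map -/

section
variable {T : Type u}

/-- A regular tree with a distinguished end: `par x` is the neighbour of `x` in the direction of the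
end, every vertex has exactly `a ≥ 2` children, any two vertices have a common ancestor, `h` is the
height (Busemann) function. -/
structure Tr (par : T → T) (h : T → ℤ) (a : ℕ) : Prop where
  two : 2 ≤ a
  hpar : ∀ x, h (par x) = h x + 1
  kids : ∀ x, {y | par y = x}.ncard = a
  common : ∀ x y, ∃ m n : ℕ, par^[m] x = par^[n] y

/-- The distance in the tree. -/
noncomputable def td (par : T → T) (x y : T) : ℕ :=
  sInf {k | ∃ m n : ℕ, m + n = k ∧ par^[m] x = par^[n] y}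

/-- The descendants of `x` (with `x` itself). -/
def desc (par : T → T) (x : T) : Set T := {y | ∃ n : ℕ, par^[n] y = x}

end

/-- The group `A × B` acting on `T × T'`. -/
def prodGrp {T T' : Type u} (A : Subgroup (Equiv.Perm T)) (B : Subgroup (Equiv.Perm T')) :
    Subgroup (Equiv.Perm (T × T')) where
  carrier := {γ | ∃ α ∈ A, ∃ β ∈ B, γ = Equiv.prodCongr α β}
  mul_mem' := by
    rintro _ _ ⟨α, hα, β, hβ, rfl⟩ ⟨α', hα', β', hβ', rfl⟩
    exact ⟨α * α', A.mul_mem hα hα', β * β', B.mul_mem hβ hβ', by ext x <;> rfl⟩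
  one_mem' := ⟨1, A.one_mem, 1, B.one_mem, by ext x <;> rfl⟩
  inv_mem' := by
    rintro _ ⟨α, hα, β, hβ, rfl⟩
    exact ⟨α⁻¹, A.inv_mem hα, β⁻¹, B.inv_mem hβ, by ext x <;> rfl⟩

/-- The whole setting: the two trees, the groups `A`, `B` and the graph `G`. -/
structure Sys : Type (u + 1) where
  T : Type u
  par : T → T
  h : T → ℤ
  a : ℕ
  tr : Tr par h a
  T' : Type u
  par' : T' → T'
  h' : T' → ℤ
  b : ℕ
  tr' : Tr par' h' b
  A : Subgroup (Equiv.Perm T)
  iso : ∀ α ∈ A, ∀ x y, td par (α x) (α y) = td par x y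
  hom : ∀ x y x₁ y₁, td par x y = td par x₁ y₁ → ∃ α ∈ A, α x = x₁ ∧ α y = y₁
  mov : ∀ x y, ∃ α ∈ A, (∀ z, α (par z) = par (α z)) ∧ α x = y
  B : Subgroup (Equiv.Perm T')
  com' : ∀ β ∈ B, ∀ z, β (par' z) = par' (β z)
  mov' : ∀ x y, ∃ β ∈ B, β x = y
  G : SimpleGraph (T × T')
  conn : G.Connected
  lf : LocFinite G
  inv : ∀ α ∈ A, ∀ β ∈ B, ∀ u v : T × T', G.Adj (α u.1, β u.2) (α v.1, β v.2) ↔ G.Adj u v
  cmp : ∀ u v : T × T', G.Adj u v → ∃ n : ℕ, par'^[n] u.2 = v.2 ∨ par'^[n] v.2 = u.2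

namespace Sys

variable (X : Sys.{u})

/-- The vertex set. -/
abbrev V : Type u := X.T × X.T'

/-- The group. -/
def Γ : Subgroup (Equiv.Perm (X.T × X.T')) := prodGrp X.A X.B

/-- The distance in the first tree. -/
noncomputable def d (s t : X.T) : ℕ := td X.par s t

/-- The `n`-th ancestor in the second tree. -/
def up (n : ℕ) (x : X.T') : X.T' := X.par'^[n] x

/-- `T × desc(x)`. -/
def Dn (x : X.T') : Set (X.T × X.T') := {v | v.2 ∈ desc X.par' x}

/-- `O(x; n) = T × (desc(x_(n-1)) \ desc(x))`. -/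
def Ou (x : X.T') (n : ℕ) : Set (X.T × X.T') :=
  {v | v.2 ∈ desc X.par' (X.up (n - 1) x) ∧ v.2 ∉ desc X.par' x}

/-- The bound of the theorem: `Bd p` (in all finite volumes). -/
def Bd (p : ℝ) : Prop := ∀ (S : Finset (X.T × X.T')) (t s : X.T) (x : X.T') (j : ℕ),
  (X.a : ℝ) ^ X.d t s * √(X.b : ℝ) ^ j * tau X.G p S (t, x) (s, X.up j x) ≤ 1

/-- `ω(t, s) = a^((h s - h t) / 2)`. -/
noncomputable def om (t s : X.T) : ℝ := √(X.a : ℝ) ^ (X.h s - X.h t)

/-- `Ω(u, v) = a^((h v.1 - h u.1) / 2) b^((h' v.2 - h' u.2) / 2)`. -/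
noncomputable def Om (u v : X.T × X.T') : ℝ :=
  √(X.a : ℝ) ^ (X.h v.1 - X.h u.1) * √(X.b : ℝ) ^ (X.h' v.2 - X.h' u.2)

/-- The ball of radius `M` around `u` (product of the two tree distances). -/
def Bl (M : ℕ) (u : X.T × X.T') : Set (X.T × X.T') :=
  {v | td X.par u.1 v.1 ≤ M ∧ td X.par' u.2 v.2 ≤ M}

/-- The ball as a finite set. -/
noncomputable def BlF (M : ℕ) (u : X.T × X.T') : Finset (X.T × X.T') :=
  if hf : (X.Bl M u).Finite then hf.toFinset else ∅

/-- `{v : v.2 ∈ desc(x_K), h' v.2 > h' x - L}`. -/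
def Sl (x : X.T') (K L : ℕ) : Set (X.T × X.T') :=
  {v | v.2 ∈ desc X.par' (X.up K x) ∧ X.h' x < X.h' v.2 + L}

/-- The region of a block starting in `u` and going up by `n`. -/
def Rg (n : ℕ) (u : X.T × X.T') : Set (X.T × X.T') := insert u (X.Sl u.2 n 0)

end Sys

/-! ### Connection probabilities -/

section
variable {V : Type u}

/-- The connection probability in infinite volume. -/
noncomputable def tt (H : SimpleGraph V) (p : ℝ) (u v : V) : ℝ≥0∞ :=
  ⨆ S : Finset V, ENNReal.ofReal (tau H p S u v)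

/-- The connection probability in the region `W` (only edges with both endpoints in `W`). -/
noncomputable def ttW (G : SimpleGraph V) (W : Set V) (p : ℝ) (u v : V) : ℝ≥0∞ :=
  tt (within G W) p u v

/-- `c` is a lower bound for the probability of a connection in a finite part of `W`. -/
def Ach (G : SimpleGraph V) (W : Set V) (p : ℝ) (u v : V) (c : ℝ) : Prop :=
  ∃ S : Finset V, c ≤ tau (within G W) p S u v

/-- An increasing event. -/
def Inc {ι : Type u} (A : Set (Set ι)) : Prop := ∀ s t : Set ι, s ⊆ t → s ∈ A → t ∈ A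

end

namespace Sys

variable (X : Sys.{u})

/-- `{(t, x), (s, x_n)} ∪ O(x; n)`. -/
def WO (x : X.T') (n : ℕ) (t s : X.T) : Set (X.T × X.T') :=
  insert (t, x) (insert (s, X.up n x) (X.Ou x n))

/-- `u_n(t, s)`: connection of `(t, x)` and `(s, x_n)` in `{(t, x), (s, x_n)} ∪ O(x; n)`. -/
noncomputable def uu (p : ℝ) (n : ℕ) (x : X.T') (t s : X.T) : ℝ≥0∞ :=
  ttW X.G (X.WO x n t s) p (t, x) (s, X.up n x)

/-- `g_n = ∑_s ω(t, s) b^(n/2) tt((t, x), (s, x_n))`. -/
noncomputable def gg (p : ℝ) (n : ℕ) (x : X.T') (t : X.T) : ℝ≥0∞ :=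
  ∑' s : X.T, ENNReal.ofReal (X.om t s * √(X.b : ℝ) ^ n) * tt X.G p (t, x) (s, X.up n x)

/-- `g^u_n = ∑_s ω(t, s) b^(n/2) u_n(t, s)`. -/
noncomputable def gu (p : ℝ) (n : ℕ) (x : X.T') (t : X.T) : ℝ≥0∞ :=
  ∑' s : X.T, ENNReal.ofReal (X.om t s * √(X.b : ℝ) ^ n) * X.uu p n x t s

/-- `X(p) = ∑_v Ω(u, v) tt(u, v)`. -/
noncomputable def XX (p : ℝ) (u : X.T × X.T') : ℝ≥0∞ :=
  ∑' v : X.T × X.T', ENNReal.ofReal (X.Om u v) * tt X.G p u v

/-- The event that the cluster of `u = (t, x)` in the finite ball `Bl M u`, without the vertices of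
`T × desc(x)` except `u`, contains a vertex outside `T × desc(x_(m-1))`; its probability. -/
noncomputable def ex (p : ℝ) (S : Finset (X.T × X.T')) (m : ℕ) (u : X.T × X.T') : ℝ :=
  Pr (EI (within X.G (insert u (X.Dn u.2)ᶜ)) S) p
    {s | ∃ w ∈ Cluster s u, w.2 ∉ desc X.par' (X.up (m - 1) u.2)}

/-- The exit probability in the ball of radius `M`. -/
noncomputable def eb (p : ℝ) (M m : ℕ) (u : X.T × X.T') : ℝ := X.ex p (X.BlF M u) m u

/-- The region of an up-path from `(t, x)` to `(s, x_q)`. -/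
def WU (x : X.T') (q : ℕ) (t s : X.T) : Set (X.T × X.T') :=
  insert (t, x) (insert (s, X.up q x) (X.Sl x (q - 1) 0))

/-- Constants: the degree is at most `Δ`, the edges jump by at most `L ≥ 1`. -/
structure Const (Δ L : ℕ) : Prop where
  pos : 1 ≤ Δ ∧ 1 ≤ L
  deg : ∀ u, (nb X.G u).card ≤ Δ
  jmp : ∀ u v : X.T × X.T', X.G.Adj u v → ∃ n ≤ L, X.up n u.2 = v.2 ∨ X.up n v.2 = u.2

end Sys

end Pool.Agent.Work.MP_c58d8b_pr.PT
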