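import Pool.Agent.Work.MP_c58d8b_pr.PT.Stmts2

/-!
# MP_c58d8b_pr, block PT, item IK (helper94): heavy clusters above a parameter where Bd fails
-/

set_option autoImplicit false

namespace Pool.Agent.Work.MP_c58d8b_pr.PT

open MeasureTheory ProbabilityTheory Set Filter Topology
open scoped ENNReal unitInterval Classical
open Pool.Agent.Work.MP_c58d8b_pr.SO

universe u

namespace IX_IK

theorem within_lf {V : Type u} (H : SimpleGraph V) (h : LocFinite H) (U : Set V) :
    LocFinite (within H U) := fun x => (h x).subset fun _ hy => hy.1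

end IX_IK

theorem pt_IK (hVB : StVB.{u}) (hIF : StIF.{u}) (hIJ : StIJ.{u}) (hD5 : SO.StD5.{u})
    (hHV : SO.StHV.{u}) : StIK.{u} := by
  intro X p hp hp1 hBd p' hpp
  obtain ⟨m, z, hm, hz, hz1, haz, hA⟩ := hIF X p hp hp1.le hBd
  obtain ⟨o⟩ : Nonempty (X.T × X.T') := X.conn.nonempty
  obtain ⟨L, c, hL, hc, hphi⟩ := hIJ X p m z hp hp1.le hm hz hz1 haz hA o
  obtain ⟨hgood, hcount, -, -⟩ := hVB X
  have : Countable (X.T × X.T') := hcount
  have h1 := hD5 (X.T × X.T') (within X.G (slab X.Γ o L)) (IX_IK.within_lf X.G X.lf _) o p p' c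
    hp.le hpp.le hc.le (fun q hq S hS => hphi q hq.1 (hq.2.trans p'.2.2) S hS)
  have h2 := hHV (X.T × X.T') X.Γ X.G hgood o L p' hL
  refine lt_of_lt_of_le ?_ (h1.trans h2)
  rw [ENNReal.ofReal_pos]
  have h3 : 0 < c * ((p' : ℝ) - p) := mul_pos hc (sub_pos.2 hpp)
  have h4 : Real.exp (-(c * ((p' : ℝ) - p))) < 1 := by
    rw [Real.exp_lt_one_iff]
    linarith
  linarith

end Pool.Agent.Work.MP_c58d8b_pr.PT
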