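import Pool.Agent.Work.MP_c58d8b_pr.PT.Stmts2

/-!
# MP_c58d8b_pr, block PT, item JJ: summability of a submultiplicative sequence that tends to zero
-/

set_option autoImplicit false

namespace Pool.Agent.Work.MP_c58d8b_pr.PT

open MeasureTheory ProbabilityTheory Set Filter Topology
open scoped ENNReal unitInterval Classical
open Pool.Agent.Work.MP_c58d8b_pr.SO

universe u

namespace IX_JJ

/-- A window with small sum. -/
theorem window (g : ℕ → ℝ≥0∞) (Δ L : ℕ) (hg : Tendsto g atTop (𝓝 0)) :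
    ∃ n : ℕ, 1 ≤ n ∧ (Δ : ℝ≥0∞) * ∑ m ∈ Finset.Ico n (n + L), g m ≤ 2⁻¹ := by
  have h1 : Tendsto (fun n : ℕ => ∑ i ∈ Finset.range L, g (n + i)) atTop (𝓝 0) := by
    have h2 : Tendsto (fun n : ℕ => ∑ i ∈ Finset.range L, g (n + i)) atTop
        (𝓝 (∑ _i ∈ Finset.range L, (0 : ℝ≥0∞))) := by
      apply tendsto_finsetSum
      intro i _
      exact hg.comp (tendsto_add_atTop_nat i)
    rwa [Finset.sum_const_zero] at h2
  have h3 : Tendsto (fun n : ℕ => (Δ : ℝ≥0∞) * ∑ i ∈ Finset.range L, g (n + i)) atTop (𝓝 0) := by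
    have h4 := ENNReal.Tendsto.const_mul (a := (Δ : ℝ≥0∞)) h1
      (Or.inr (ENNReal.natCast_ne_top Δ))
    rwa [mul_zero] at h4
  have h5 : ∀ᶠ n : ℕ in atTop, (Δ : ℝ≥0∞) * ∑ i ∈ Finset.range L, g (n + i) < 2⁻¹ :=
    h3.eventually_lt_const (by simp)
  obtain ⟨n, hn, hn1⟩ := (h5.and (eventually_ge_atTop 1)).exists
  refine ⟨n, hn1, ?_⟩
  have h6 : ∑ m ∈ Finset.Ico n (n + L), g m = ∑ i ∈ Finset.range L, g (n + i) := by
    rw [Finset.sum_Ico_eq_sum_range, Nat.add_sub_cancel_left]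
  rw [h6]
  exact hn.le

/-- Shifted partial sums. -/
theorem shift (g : ℕ → ℝ≥0∞) (k m M : ℕ) (hm : m ≤ k) :
    ∑ N ∈ Finset.Ico k M, g (N - m) ≤ ∑ N ∈ Finset.range M, g N := by
  have h1 : ∑ N ∈ Finset.Ico k M, g (N - m) =
      ∑ N ∈ (Finset.Ico k M).image (fun N => N - m), g N := by
    rw [Finset.sum_image]
    intro a ha b hb hab
    simp only [Finset.coe_Ico, Set.mem_Ico] at ha hb
    simp only at hab
    omega
  rw [h1]
  apply Finset.sum_le_sum_of_subset
  intro N hN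
  rw [Finset.mem_image] at hN
  obtain ⟨a, ha, rfl⟩ := hN
  rw [Finset.mem_Ico] at ha
  rw [Finset.mem_range]
  omega

end IX_JJ

/-- Item JJ. -/
theorem pt_JJ : StJJ := by
  intro g C Δ L hC hgC hsub hg
  obtain ⟨n, hn1, hn⟩ := IX_JJ.window g Δ L hg
  have key : ∀ M : ℕ, ∑ N ∈ Finset.range M, g N ≤ 2 * (((n + L : ℕ) : ℝ≥0∞) * C) := by
    intro M
    set S : ℝ≥0∞ := ∑ N ∈ Finset.range M, g N with hS
    have hSfin : S ≠ ⊤ := by
      rw [hS]
      exact ENNReal.sum_ne_top.2 fun i _ => ne_top_of_le_ne_top hC (hgC i)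
    have h1 : ∑ N ∈ Finset.Ico (n + L) M, g N ≤ 2⁻¹ * S := by
      calc ∑ N ∈ Finset.Ico (n + L) M, g N
          ≤ ∑ N ∈ Finset.Ico (n + L) M,
              (Δ : ℝ≥0∞) * ∑ m ∈ Finset.Ico n (n + L), g m * g (N - m) := by
            apply Finset.sum_le_sum
            intro N hN
            rw [Finset.mem_Ico] at hN
            have h2 := hsub n (N - n) hn1 (by omega)
            have h3 : n + (N - n) = N := by omega
            rwa [h3] at h2
        _ = (Δ : ℝ≥0∞) * ∑ m ∈ Finset.Ico n (n + L),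
              g m * ∑ N ∈ Finset.Ico (n + L) M, g (N - m) := by
            rw [← Finset.mul_sum, Finset.sum_comm]
            congr 1
            apply Finset.sum_congr rfl
            intro m _
            rw [Finset.mul_sum]
        _ ≤ (Δ : ℝ≥0∞) * ∑ m ∈ Finset.Ico n (n + L), g m * S := by
            gcongr with m hm
            rw [Finset.mem_Ico] at hm
            exact IX_JJ.shift g (n + L) m M hm.2.le
        _ = ((Δ : ℝ≥0∞) * ∑ m ∈ Finset.Ico n (n + L), g m) * S := by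
            rw [← Finset.sum_mul, mul_assoc]
        _ ≤ 2⁻¹ * S := by gcongr
    have h4 : S ≤ ((n + L : ℕ) : ℝ≥0∞) * C + 2⁻¹ * S := by
      have h5 : S ≤ ∑ N ∈ Finset.range (n + L), g N + ∑ N ∈ Finset.Ico (n + L) M, g N := by
        rw [hS]
        have h6 : Finset.range M ⊆ Finset.range (n + L) ∪ Finset.Ico (n + L) M := by
          intro N hN
          rw [Finset.mem_union, Finset.mem_range, Finset.mem_Ico]
          rw [Finset.mem_range] at hN
          omega
        refine (Finset.sum_le_sum_of_subset h6).trans ?_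
        rw [Finset.sum_union]
        rw [Finset.disjoint_left]
        intro N hN hN'
        rw [Finset.mem_range] at hN
        rw [Finset.mem_Ico] at hN'
        omega
      refine h5.trans (add_le_add ?_ h1)
      refine (Finset.sum_le_card_nsmul _ _ C fun i _ => hgC i).trans ?_
      rw [Finset.card_range, nsmul_eq_mul]
    have h7 : 2⁻¹ * S ≠ ⊤ := ENNReal.mul_ne_top (by simp) hSfin
    have h8 : 2⁻¹ * S + 2⁻¹ * S = S := by
      rw [← add_mul, ENNReal.inv_two_add_inv_two, one_mul]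
    have h9 : 2⁻¹ * S ≤ ((n + L : ℕ) : ℝ≥0∞) * C := by
      have h10 : 2⁻¹ * S + 2⁻¹ * S ≤ ((n + L : ℕ) : ℝ≥0∞) * C + 2⁻¹ * S := by
        rw [h8]
        exact h4
      exact (ENNReal.add_le_add_iff_right h7).1 h10
    calc S = 2 * (2⁻¹ * S) := by
          rw [two_mul, h8]
      _ ≤ 2 * (((n + L : ℕ) : ℝ≥0∞) * C) := by gcongr
  have h11 : ∑' n, g n ≤ 2 * (((n + L : ℕ) : ℝ≥0∞) * C) := by
    rw [ENNReal.tsum_eq_iSup_nat]
    exact iSup_le key
  have h12 : 2 * (((n + L : ℕ) : ℝ≥0∞) * C) ≠ ⊤ :=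
    ENNReal.mul_ne_top (by simp) (ENNReal.mul_ne_top (ENNReal.natCast_ne_top _) hC)
  exact ne_top_of_le_ne_top h12 h11

end Pool.Agent.Work.MP_c58d8b_pr.PT
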