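import Pool.Agent.Work.MP_c58d8b_pr.PT.Stmts2

/-!
# MP_c58d8b_pr, block PT, item JV: no uniqueness when the weighted susceptibility is finite
-/

set_option autoImplicit false

namespace Pool.Agent.Work.MP_c58d8b_pr.PT

open MeasureTheory ProbabilityTheory Set Filter Topology
open scoped ENNReal unitInterval Classical
open Pool.Agent.Work.MP_c58d8b_pr.SO

universe u

namespace IX_JV

theorem om_inv (X : Sys.{u}) (x y : X.T × X.T') : X.Om y x = (X.Om x y)⁻¹ := by
  unfold Sys.Om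
  rw [mul_inv, ← zpow_neg, ← zpow_neg, neg_sub, neg_sub]

theorem om_pos (X : Sys.{u}) (x y : X.T × X.T') : 0 < X.Om x y := by
  unfold Sys.Om
  have ha : (0 : ℝ) < X.a := by
    have := X.tr.two
    exact_mod_cast (by omega : 0 < X.a)
  have hb : (0 : ℝ) < X.b := by
    have := X.tr'.two
    exact_mod_cast (by omega : 0 < X.b)
  exact mul_pos (zpow_pos (Real.sqrt_pos.2 ha) _) (zpow_pos (Real.sqrt_pos.2 hb) _)

end IX_JV

open IX_JV in
theorem pt_JV (hB : Basics.{u}) (hU2 : SO.StU2.{u}) (hQF : StQF.{u}) (hQP : StQP.{u})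
    (hVB : StVB.{u}) (hVC : StVC.{u}) : StJV.{u} := by
  intro X p u hX
  obtain ⟨hGood, hC, hI, -⟩ := hVB X
  have hp0 : 0 ≤ (p : ℝ) := p.2.1
  have hp1 : (p : ℝ) ≤ 1 := p.2.2
  obtain ⟨-, -, hsym, -, -, -, -, hinv⟩ := hQF _ X.G (p : ℝ) hp0 hp1
  refine hU2 _ X.Γ X.G hGood p ?_
  intro ε hε
  have hfin : {v : X.T × X.T' |
      ENNReal.ofReal ε ≤ ENNReal.ofReal (X.Om u v) * tt X.G (p : ℝ) u v}.Finite := by
    refine ENNReal.finite_const_le_of_tsum_ne_top hX ?_
    have := ENNReal.ofReal_pos.2 hε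
    exact this.ne'
  obtain ⟨D, hD⟩ : ∃ D : ℕ, ∀ v : X.T × X.T', D ≤ X.G.dist u v →
      ENNReal.ofReal (X.Om u v) * tt X.G (p : ℝ) u v < ENNReal.ofReal ε := by
    refine ⟨hfin.toFinset.sup (fun v => X.G.dist u v) + 1, ?_⟩
    intro v hv
    by_contra hcon
    rw [not_lt] at hcon
    have hmem : v ∈ hfin.toFinset := by
      rw [Set.Finite.mem_toFinset]
      exact hcon
    have hle : X.G.dist u v ≤ hfin.toFinset.sup (fun v => X.G.dist u v) :=
      Finset.le_sup (f := fun v => X.G.dist u v) hmem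
    omega
  -- the main case
  have main : ∀ x y : X.T × X.T', D ≤ X.G.dist x y → 1 ≤ X.Om x y →
      tt X.G (p : ℝ) x y ≤ ENNReal.ofReal ε := by
    intro x y hxy hom
    obtain ⟨α, hα, hαp, hαx⟩ := X.mov x.1 u.1
    obtain ⟨β, hβ, hβx⟩ := X.mov' x.2 u.2
    obtain ⟨haut, -, -, -, -, -, -, -, -, -, hcomm⟩ := hVC X α hα β hβ
    have hOm := (hcomm hαp).2 x y
    have hx : Equiv.prodCongr α β x = u := by
      refine Prod.ext ?_ ?_
      · exact hαx
      · exact hβx
    have htt := hinv X.G (Equiv.prodCongr α β) haut x y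
    have hdist := hB.dist_image _ X.G (Equiv.prodCongr α β) haut x y
    rw [hx] at htt hdist
    have hOm' : X.Om u (Equiv.prodCongr α β y) = X.Om x y := by
      have hx' : (α x.1, β x.2) = u := hx
      rw [← hOm, hx']
      rfl
    have h1 := hD (Equiv.prodCongr α β y) (by rw [hdist]; exact hxy)
    rw [hOm', htt] at h1
    refine le_trans ?_ h1.le
    have h2 : (1 : ℝ≥0∞) ≤ ENNReal.ofReal (X.Om x y) := by
      rw [← ENNReal.ofReal_one]
      exact ENNReal.ofReal_le_ofReal hom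
    calc tt X.G (p : ℝ) x y = 1 * tt X.G (p : ℝ) x y := (one_mul _).symm
      _ ≤ ENNReal.ofReal (X.Om x y) * tt X.G (p : ℝ) x y := mul_le_mul_left h2 _
  refine ⟨D, ?_⟩
  intro x y hxy
  rw [hQP _ X.G p x y]
  rcases le_total 1 (X.Om x y) with h | h
  · exact main x y hxy h
  · rw [hsym x y]
    refine main y x ?_ ?_
    · rw [SimpleGraph.dist_comm]
      exact hxy
    · rw [om_inv]
      exact (one_le_inv₀ (om_pos X x y)).2 h

end Pool.Agent.Work.MP_c58d8b_pr.PT
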