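import Pool.Agent.Work.MP_c58d8b_pr.PT.Stmts

/-!
# MP_c58d8b_pr, block PT, item QC: invariance of the connection probabilities
-/

set_option autoImplicit false

namespace Pool.Agent.Work.MP_c58d8b_pr.PT

open MeasureTheory ProbabilityTheory Set Filter Topology
open scoped ENNReal unitInterval Classical
open Pool.Agent.Work.MP_c58d8b_pr.SO

universe u

namespace IX_QC

/-- the probability for the image of the set of the coordinates -/
theorem pr_image {ι κ : Type u} [DecidableEq κ] (f : ι → κ) (hf : Function.Injective f) (E : Finset ι) (p : ℝ)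
    (A : Set (Set κ)) : Pr (E.image f) p A = Pr E p {s | f '' s ∈ A} := by
  unfold Pr
  have hcard : (E.image f).card = E.card := Finset.card_image_of_injective _ hf
  rw [hcard]
  symm
  refine Finset.sum_bij (fun s _ => s.image f) ?_ ?_ ?_ ?_
  · intro s hs
    rw [Finset.mem_filter, Finset.mem_powerset] at hs ⊢
    refine ⟨Finset.image_subset_image hs.1, ?_⟩
    rw [Finset.coe_image]
    exact hs.2
  · intro s _ t _ h
    exact Finset.image_injective hf h
  · intro t ht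
    rw [Finset.mem_filter, Finset.mem_powerset, Finset.subset_image_iff] at ht
    obtain ⟨⟨s, hs, rfl⟩, ht2⟩ := ht
    refine ⟨s, ?_, rfl⟩
    rw [Finset.mem_filter, Finset.mem_powerset]
    refine ⟨hs, ?_⟩
    rw [Finset.coe_image] at ht2
    exact ht2
  · intro s _
    rw [Finset.card_image_of_injective _ hf]

/-- the image of a cluster -/
theorem cluster_map {V : Type u} (φ : Equiv.Perm V) (s : Set (Sym2 V)) (x y : V) :
    φ y ∈ Cluster (Sym2.map φ '' s) (φ x) ↔ y ∈ Cluster s x := by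
  have hiso : ∀ a b : V, (SimpleGraph.fromEdgeSet (Sym2.map φ '' s)).Adj (φ a) (φ b) ↔
      (SimpleGraph.fromEdgeSet s).Adj a b := by
    intro a b
    rw [SimpleGraph.fromEdgeSet_adj, SimpleGraph.fromEdgeSet_adj]
    have h1 : s(φ a, φ b) = Sym2.map φ s(a, b) := rfl
    rw [h1, (Sym2.map.injective φ.injective).mem_set_image, φ.injective.ne_iff]
  have h2 := SimpleGraph.Iso.reachable_iff
    (φ := ({ toEquiv := φ, map_rel_iff' := fun {a b} => hiso a b } :
      SimpleGraph.fromEdgeSet s ≃g SimpleGraph.fromEdgeSet (Sym2.map φ '' s)))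
    (u := x) (v := y)
  exact h2

/-- the image of the edges inside `S` -/
theorem EI_image {V : Type u} (H H' : SimpleGraph V) (φ : Equiv.Perm V)
    (h : ∀ x y, H'.Adj (φ x) (φ y) ↔ H.Adj x y) (S : Finset V) :
    EI H' (S.image φ) = (EI H S).image (Sym2.map φ) := by
  ext e
  constructor
  · intro he
    simp only [EI, Finset.mem_image, Finset.mem_filter, Finset.mem_product] at he
    obtain ⟨⟨a, b⟩, ⟨⟨⟨a', ha', rfl⟩, ⟨b', hb', rfl⟩⟩, hab⟩, rfl⟩ := he
    simp only [EI, Finset.mem_image, Finset.mem_filter, Finset.mem_product]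
    exact ⟨s(a', b'), ⟨(a', b'), ⟨⟨ha', hb'⟩, (h a' b').mp hab⟩, rfl⟩, rfl⟩
  · intro he
    simp only [EI, Finset.mem_image, Finset.mem_filter, Finset.mem_product] at he
    obtain ⟨e', ⟨⟨a, b⟩, ⟨⟨ha, hb⟩, hab⟩, rfl⟩, rfl⟩ := he
    simp only [EI, Finset.mem_image, Finset.mem_filter, Finset.mem_product]
    exact ⟨(φ a, φ b), ⟨⟨⟨a, ha, rfl⟩, ⟨b, hb, rfl⟩⟩, (h a b).mpr hab⟩, rfl⟩

/-- the edges of `within H W` inside `S` -/
theorem EI_within {V : Type u} (H : SimpleGraph V) (W : Set V) (S : Finset V) :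
    EI (within H W) S = EI H (S.filter (· ∈ W)) := by
  ext e
  constructor
  · intro he
    simp only [EI, Finset.mem_image, Finset.mem_filter, Finset.mem_product] at he
    obtain ⟨⟨a, b⟩, ⟨⟨ha, hb⟩, hab⟩, rfl⟩ := he
    simp only [EI, Finset.mem_image, Finset.mem_filter, Finset.mem_product]
    exact ⟨(a, b), ⟨⟨⟨ha, hab.2.1⟩, ⟨hb, hab.2.2⟩⟩, hab.1⟩, rfl⟩
  · intro he
    simp only [EI, Finset.mem_image, Finset.mem_filter, Finset.mem_product] at he
    obtain ⟨⟨a, b⟩, ⟨⟨⟨ha, ha'⟩, ⟨hb, hb'⟩⟩, hab⟩, rfl⟩ := he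
    simp only [EI, Finset.mem_image, Finset.mem_filter, Finset.mem_product]
    exact ⟨(a, b), ⟨⟨ha, hb⟩, ⟨hab, ha', hb'⟩⟩, rfl⟩

end IX_QC

theorem pt_QC : StQC.{u} := by
  intro V
  refine ⟨?_, ?_, ?_⟩
  · intro H H' φ h p S x y
    unfold tau
    rw [IX_QC.EI_image H H' φ h S,
      IX_QC.pr_image (Sym2.map φ) (Sym2.map.injective φ.injective) (EI H S) p]
    have h1 : {s : Set (Sym2 V) | Sym2.map φ '' s ∈ {s | φ y ∈ Cluster s (φ x)}} =
        {s | y ∈ Cluster s x} := by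
      ext s
      exact IX_QC.cluster_map φ s x y
    rw [h1]
  · intro H W p S x y
    unfold tau
    rw [IX_QC.EI_within]
  · intro H W W'
    ext x y
    constructor
    · rintro ⟨⟨h1, h2, h3⟩, h4, h5⟩
      exact ⟨h1, ⟨h2, h4⟩, ⟨h3, h5⟩⟩
    · rintro ⟨h1, ⟨h2, h4⟩, ⟨h3, h5⟩⟩
      exact ⟨⟨h1, h2, h3⟩, h4, h5⟩

end Pool.Agent.Work.MP_c58d8b_pr.PT
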