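import Pool.Agent.Work.MP_c58d8b_pr.PT.Stmts

/-!
# MP_c58d8b_pr, block PT, item VP: positive probabilities
-/

set_option autoImplicit false

namespace Pool.Agent.Work.MP_c58d8b_pr.PT

open MeasureTheory ProbabilityTheory Set Filter Topology
open scoped ENNReal unitInterval Classical
open Pool.Agent.Work.MP_c58d8b_pr.SO

universe u

namespace IX_VP

theorem up_pred (X : Sys.{u}) (q : ℕ) (hq : 1 ≤ q) (x : X.T') :
    X.up q x = X.par' (X.up (q - 1) x) := by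
  obtain ⟨m, rfl⟩ : ∃ m, q = m + 1 := ⟨q - 1, by omega⟩
  exact Function.iterate_succ_apply' _ _ _

theorem WU_Rg (hRA : StRA.{u}) (X : Sys.{u}) (q : ℕ) (hq : 1 ≤ q) (t s : X.T) (x : X.T') :
    X.WU x q t s ⊆ X.Rg q (t, x) := by
  have hh := (hRA X.T' X.par' X.h' X.b X.tr').1 q x
  intro v hv
  rcases hv with hv | hv | hv
  · exact Or.inl hv
  · refine Or.inr ⟨?_, ?_⟩
    · rw [hv]
      exact ⟨0, rfl⟩
    · rw [hv]
      show X.h' x < X.h' (X.par'^[q] x) + ((0 : ℕ) : ℤ)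
      rw [hh]
      push_cast
      omega
  · refine Or.inr ⟨?_, hv.2⟩
    obtain ⟨n, hn⟩ := hv.1
    refine ⟨n + 1, ?_⟩
    rw [Function.iterate_succ_apply', hn]
    exact (up_pred X q hq x).symm

theorem WU_WO (hRA : StRA.{u}) (X : Sys.{u}) (q : ℕ) (t s : X.T) (x : X.T') :
    X.WU x q t s ⊆ X.WO x q t s := by
  have hh := (hRA X.T' X.par' X.h' X.b X.tr').2.2.2.1
  intro v hv
  rcases hv with hv | hv | hv
  · exact Or.inl hv
  · exact Or.inr (Or.inl hv)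
  · refine Or.inr (Or.inr ⟨hv.1, ?_⟩)
    intro h
    have h1 := (hh x v.2 h).2.1
    have h2 := hv.2
    push_cast at h2
    omega

end IX_VP

theorem pt_VP (hRA : StRA.{u}) (hQE : StQE.{u}) (hVD : StVD.{u}) (hVU : StVU.{u}) :
    StVP.{u} := by
  intro X p hp0 hp1 e
  obtain ⟨q₀, h1, h2⟩ := hVU X e
  refine ⟨q₀, h1, fun q hq => ?_⟩
  have hq1 : 1 ≤ q := h1.trans hq
  obtain ⟨e1, -, -, -, -, e6, e7, -⟩ := hQE (X.T × X.T') X.G p hp0.le hp1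
  by_cases hex : ∃ (t₀ s₀ : X.T) (_ : X.T'), X.d t₀ s₀ = e
  · obtain ⟨t₀, s₀, x₀, h0⟩ := hex
    obtain ⟨c, hc0, hc1, hc⟩ := e6 hp0 _ _ _ (h2 q hq t₀ s₀ x₀ h0)
    refine ⟨c, hc0, hc1, fun t s x hts => ?_⟩
    have h3 : Ach X.G (X.WU x q t s) p (t, x) (s, X.up q x) c :=
      ((hVD X p hp0.le hp1).2.1 q x₀ t₀ s₀ x t s c (h0.trans hts.symm)).2.2.1 hc
    have h4 : Ach X.G (X.WO x q t s) p (t, x) (s, X.up q x) c :=
      e1 _ _ _ _ _ (IX_VP.WU_WO hRA X q t s x) h3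
    exact ⟨h3, e1 _ _ _ _ _ (IX_VP.WU_Rg hRA X q hq1 t s x) h3, h4, e7 _ _ _ _ h4⟩
  · refine ⟨1, zero_lt_one, le_rfl, fun t s x hts => ?_⟩
    exact absurd ⟨t, s, x, hts⟩ hex

end Pool.Agent.Work.MP_c58d8b_pr.PT
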