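import Pool.Agent.Work.MP_c58d8b_pr.PT.Defs

/-!
# MP_c58d8b_pr, block PT (captain helper62): statements with complete proofs, part 1

Item `XX`: statement `StXX`, file `PT/I_XX.lean`, theorem `pt_XX`, hypotheses = the statements named in
the docstring ((hYY : StYY)); nobody waits for anybody. `StPB`, `StPI`, ... with the names of block SO are
`Pool.Agent.Work.MP_c58d8b_pr.SO.StPB` etc. (landed; take them as hypotheses `(hPB : SO.StPB.{u})`).
Universe: everything in `u`. Notation in the docstrings: `x_n = par'^n x = X.up n x`, `d = X.d`,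
`desc(x)` = descendants of `x` with `x`.
-/

set_option autoImplicit false

namespace Pool.Agent.Work.MP_c58d8b_pr.PT

open MeasureTheory ProbabilityTheory Set Filter Topology
open scoped ENNReal unitInterval Classical
open Pool.Agent.Work.MP_c58d8b_pr.SO

universe u

/-! ## F. Finite probability (`Pr` of block SO) -/

/-- [FA] (EASY-MEDIUM) Fubini. The subsets of `E₁ ∪ E₂` are the unions `t ∪ s` in a unique way, the
weight is a product; the second part is the case `E₁ = {e}`. -/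
def StFA : Prop := ∀ (ι : Type u) (p : ℝ),
  (∀ (E₁ E₂ : Finset ι), Disjoint E₁ E₂ → ∀ A : Set (Set ι),
    Pr (E₁ ∪ E₂) p A = ∑ t ∈ E₁.powerset, p ^ t.card * (1 - p) ^ (E₁.card - t.card) *
      Pr E₂ p {s | (t : Set ι) ∪ s ∈ A}) ∧
  (∀ (E : Finset ι) (e : ι), e ∉ E → ∀ A : Set (Set ι),
    Pr (insert e E) p A = p * Pr E p {s | insert e s ∈ A} + (1 - p) * Pr E p A)

/-- [FB] (EASY) The inequality of Harris (FKG). Induction on `E` with the second part of `StFA`: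
`(p a₁ + (1-p) a₀)(p b₁ + (1-p) b₀) ≤ p a₁ b₁ + (1-p) a₀ b₀` for `a₁ ≥ a₀`, `b₁ ≥ b₀`; the sets
`{s | insert e s ∈ A}` are increasing and contain `A`. (hFA : StFA) (hPB : StPB) -/
def StFB : Prop := ∀ (ι : Type u) (E : Finset ι) (p : ℝ), 0 ≤ p → p ≤ 1 → ∀ A B : Set (Set ι),
  Inc A → Inc B → Pr E p A * Pr E p B ≤ Pr E p (A ∩ B)

/-- [FC] (EASY) Continuity (a polynomial) and monotonicity in `p` (induction on `E` with the second part of
`StFA`: `p a₁ + (1-p) a₀` with `a₁ ≥ a₀`, both nondecreasing in `p`). (hFA : StFA) (hPB : StPB) -/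
def StFC : Prop := ∀ (ι : Type u) (E : Finset ι) (A : Set (Set ι)),
  (Continuous fun p : ℝ => Pr E p A) ∧
  (Inc A → ∀ p q : ℝ, 0 ≤ p → p ≤ q → q ≤ 1 → Pr E p A ≤ Pr E q A)

/-- [FI] (EASY-MEDIUM) Independence of several events. Induction on `n` with `StPI` and `StPL` (or with
`E = (⋃ F i) ∪ rest`). (hPB : StPB) (hPI : StPI) (hPL : StPL) -/
def StFI : Prop := ∀ (ι : Type u) (E : Finset ι) (p : ℝ), 0 ≤ p → p ≤ 1 → ∀ (n : ℕ)
  (F : Fin n → Finset ι), (∀ i, F i ⊆ E) → (∀ i j, i ≠ j → Disjoint (F i) (F j)) →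
  ∀ A : Fin n → Set (Set ι),
    Pr E p {s | ∀ i, s ∩ (F i : Set ι) ∈ A i} = ∏ i, Pr (F i) p (A i)

/-- [FU] (MEDIUM) Union of the events `D y ∩ Z y`. Fubini over the subsets `t` of `E₀`
(`StFA` for `E = E₀ ∪ (E \ E₀)`). Given `t` let `Y(t) = {y ∈ Y : t ∈ D y}`, `k = |Y(t)|`. The `Z y` are
independent (`F y` disjoint): the probability that no `Z y`, `y ∈ Y(t)`, occurs is `∏ (1 - z_y) ≤ (1 - z)^k`
(induction on the finite set with `StPI`, `StPL`), and `1 - (1 - z)^k ≥ k z - (k z)²/2 ≥ k z (1 - |Y| z / 2)`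
(`k ≤ |Y|`). The sum over `t` of the weights times `k` is `∑_y Pr E₀ p (D y) ≥ |Y| β`. If `1 - |Y| z/2 < 0` the
first claim is trivial. Second claim: only one `y`. (hFA : StFA) (hPB : StPB) (hPI : StPI) (hPL : StPL) -/
def StFU : Prop := ∀ (ι κ : Type u) (E E₀ : Finset ι) (p : ℝ), 0 ≤ p → p ≤ 1 → ∀ (Y : Finset κ)
  (F : κ → Finset ι) (D Z : κ → Set (Set ι)) (β z : ℝ), E₀ ⊆ E → (∀ y ∈ Y, F y ⊆ E) →
  (∀ y ∈ Y, Disjoint E₀ (F y)) → (∀ y ∈ Y, ∀ y' ∈ Y, y ≠ y' → Disjoint (F y) (F y')) →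
  0 ≤ β → 0 ≤ z → z ≤ 1 → (∀ y ∈ Y, β ≤ Pr E₀ p (D y)) → (∀ y ∈ Y, z ≤ Pr (F y) p (Z y)) →
  Y.Nonempty →
  Y.card * β * z * (1 - Y.card * z / 2) ≤
      Pr E p {s | ∃ y ∈ Y, s ∩ (E₀ : Set ι) ∈ D y ∧ s ∩ (F y : Set ι) ∈ Z y} ∧
  β * z ≤ Pr E p {s | ∃ y ∈ Y, s ∩ (E₀ : Set ι) ∈ D y ∧ s ∩ (F y : Set ι) ∈ Z y}

/-- [FE] (EASY-MEDIUM) Second moment. `N(s)` = number of the `j ∈ J` with `s ∈ F j`. Cauchy-Schwarz:
`(∑_s w N)² = (∑_s w N 1_(N>0))² ≤ (∑ w N²)(∑ w 1_(N>0))`, `∑ w N = ∑_j Pr (F j) ≥ |J| α`,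
`∑ w N² = ∑_(i,j) Pr (F i ∩ F j) ≤ |J| β + |J|² γ`. (hPB : StPB) -/
def StFE : Prop := ∀ (ι : Type u) (E : Finset ι) (p : ℝ), 0 ≤ p → p ≤ 1 → ∀ (J : Finset ℕ)
  (F : ℕ → Set (Set ι)) (α β γ : ℝ), 0 ≤ α → 0 ≤ γ →
  (∀ j ∈ J, α ≤ Pr E p (F j) ∧ Pr E p (F j) ≤ β) →
  (∀ i ∈ J, ∀ j ∈ J, i < j → Pr E p (F i ∩ F j) ≤ γ) →
  ((J.card : ℝ) * α) ^ 2 ≤
    Pr E p {s | ∃ j ∈ J, s ∈ F j} * (J.card * β + (J.card : ℝ) ^ 2 * γ)

/-! ## Q. Connection probabilities -/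

/-- [QA] (EASY-MEDIUM) Basic facts on `tau`. Events `{x ∈ Cluster s o}` are increasing (`StCB`); the product
inequality is `StFB`; adjacent vertices of `S`: `{s(x,y) ∈ s}` has probability `p` (`StPA` for a single edge);
outside `S` a vertex is isolated in every `s ⊆ EI H S`.
(hPB : StPB) (hPA : StPA) (hCB : StCB) (hFB : StFB) -/
def StQA : Prop := ∀ (V : Type u) (H : SimpleGraph V) (p : ℝ), 0 ≤ p → p ≤ 1 →
  (∀ S x y, 0 ≤ tau H p S x y ∧ tau H p S x y ≤ 1) ∧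
  (∀ S x, tau H p S x x = 1) ∧
  (∀ S x y, tau H p S x y = tau H p S y x) ∧
  (∀ S x y z, tau H p S x y * tau H p S y z ≤ tau H p S x z) ∧
  (∀ S x y, x ≠ y → (x ∉ S ∨ y ∉ S) → tau H p S x y = 0) ∧
  (∀ S x y, x ∈ S → y ∈ S → H.Adj x y → p ≤ tau H p S x y)

/-- [QB] (EASY-MEDIUM) Monotonicity and continuity. `EI H S ⊆ EI H' S'`; `tau H q S x y` is the probability
of `{s | y ∈ Cluster (s ∩ EI H S) x}` in `EI H' S'` (`StPL`), contained in `{y ∈ Cluster s x}`; `StFC`.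
(hPB : StPB) (hPL : StPL) (hCB : StCB) (hFC : StFC) -/
def StQB : Prop := ∀ (V : Type u),
  (∀ (H H' : SimpleGraph V) (S S' : Finset V) (p q : ℝ), H ≤ H' → S ⊆ S' → 0 ≤ p → p ≤ q → q ≤ 1 →
    ∀ x y, tau H p S x y ≤ tau H' q S' x y) ∧
  (∀ (H : SimpleGraph V) (S : Finset V) (x y : V), Continuous fun p : ℝ => tau H p S x y)

/-- [QC] (MEDIUM) Invariance. `EI H' (S.image φ) = (EI H S).image (Sym2.map φ)`, and in general
`Pr (E.image f) p A = Pr E p {s | f '' s ∈ A}` for injective `f`; `φ y ∈ Cluster (Sym2.map φ '' s) (φ x)` iff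
`y ∈ Cluster s x`. Second part: `EI (within H W) S = EI H (S ∩ W)`. -/
def StQC : Prop := ∀ (V : Type u),
  (∀ (H H' : SimpleGraph V) (φ : Equiv.Perm V), (∀ x y, H'.Adj (φ x) (φ y) ↔ H.Adj x y) →
    ∀ (p : ℝ) (S : Finset V) (x y : V), tau H' p (S.image φ) (φ x) (φ y) = tau H p S x y) ∧
  (∀ (H : SimpleGraph V) (W : Set V) (p : ℝ) (S : Finset V) (x y : V),
    tau (within H W) p S x y = tau H p (S.filter (· ∈ W)) x y) ∧
  (∀ (H : SimpleGraph V) (W W' : Set V), within (within H W) W' = within H (W ∩ W'))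

/-- [QD] (EASY-MEDIUM) Open paths. A path in `within H S` from `x` to `y ≠ x` has its vertices in `S`, at most
`|S| - 1` edges; the probability that its edges are open is `p^(number)` (`StPA`), at least `p^|S|`. Second
part: `S` = the vertices of a walk. (hPB : StPB) (hPA : StPA) (hCB : StCB) -/
def StQD : Prop := ∀ (V : Type u) (H : SimpleGraph V),
  (∀ (p : ℝ) (S : Finset V) (x y : V), 0 ≤ p → p ≤ 1 → (within H (S : Set V)).Reachable x y →
    p ^ S.card ≤ tau H p S x y) ∧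
  (∀ x y : V, H.Reachable x y → ∃ S : Finset V, x ∈ S ∧ y ∈ S ∧
    ∀ v ∈ S, (within H (S : Set V)).Reachable x v)

/-- [QE] (EASY-MEDIUM) Rules for `Ach`. Take unions of the finite sets (`StQB`), products by `StQA`, images by
`StQC` (`within G (φ '' W)` is the image of `within G W`), positivity by `StQD` for `H = within G W`.
(hQA : StQA) (hQB : StQB) (hQC : StQC) (hQD : StQD) -/
def StQE : Prop := ∀ (V : Type u) (G : SimpleGraph V) (p : ℝ), 0 ≤ p → p ≤ 1 →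
  (∀ W W' u v c, W ⊆ W' → Ach G W p u v c → Ach G W' p u v c) ∧
  (∀ W u v c c', c' ≤ c → Ach G W p u v c → Ach G W p u v c') ∧
  (∀ W u v w c c', 0 ≤ c → 0 ≤ c' → Ach G W p u v c → Ach G W p v w c' →
    Ach G W p u w (c * c')) ∧
  (∀ W u v c, Ach G W p u v c → Ach G W p v u c ∧ c ≤ 1) ∧
  (∀ φ : Equiv.Perm V, IsAut G φ → ∀ W u v c, Ach G W p u v c →
    Ach G (φ '' W) p (φ u) (φ v) c) ∧
  (0 < p → ∀ W u v, (within G W).Reachable u v → ∃ c, 0 < c ∧ c ≤ 1 ∧ Ach G W p u v c) ∧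
  (∀ W u v c, Ach G W p u v c → ENNReal.ofReal c ≤ ttW G W p u v) ∧
  (∀ W u v (c : ℝ), ENNReal.ofReal c < ttW G W p u v → Ach G W p u v c)

/-- [QF] (EASY-MEDIUM) Rules for `tt`: suprema of the rules for `tau` (for the product take the union of the
finite sets; `ENNReal.iSup_mul`, `ENNReal.mul_iSup` or `ENNReal.le_of_forall_lt`-type arguments).
(hQA : StQA) (hQB : StQB) (hQC : StQC) (hQD : StQD) -/
def StQF : Prop := ∀ (V : Type u) (H : SimpleGraph V) (p : ℝ), 0 ≤ p → p ≤ 1 →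
  (∀ x y, tt H p x y ≤ 1) ∧ (∀ x, tt H p x x = 1) ∧ (∀ x y, tt H p x y = tt H p y x) ∧
  (∀ x y z, tt H p x y * tt H p y z ≤ tt H p x z) ∧
  (∀ x y, H.Adj x y → ENNReal.ofReal p ≤ tt H p x y) ∧
  (∀ S x y, ENNReal.ofReal (tau H p S x y) ≤ tt H p x y) ∧
  (∀ (H' : SimpleGraph V) (q : ℝ), H ≤ H' → p ≤ q → q ≤ 1 → ∀ x y, tt H p x y ≤ tt H' q x y) ∧
  (∀ (H' : SimpleGraph V) (φ : Equiv.Perm V), (∀ x y, H'.Adj (φ x) (φ y) ↔ H.Adj x y) →
    ∀ x y, tt H' p (φ x) (φ y) = tt H p x y)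

/-- [QS] (EASY-MEDIUM) The edge at which an open path leaves `A` for the last time after the cluster in `A`.
`C = Cluster (s ∩ EI (S ∩ A)) u ⊆ A` (all edges used are inside `A`), so `v ∉ C`. `s'` = the edges of `s` without
endpoint in `C`, `C' = Cluster s' v`; it is disjoint from `C`. There is `s(z, w) ∈ s` with `z ∉ C'`, `w ∈ C'`
(otherwise the complement of `C'` is closed, `StCB`, contains `u` and so `v`). If `z ∉ C` the edge is in `s'`
(`w ∉ C`), so `z ∈ C'`, contradiction. So `z ∈ C`; `z, w ∈ S`; `w ∉ A`, otherwise the edge is in `EI (S ∩ A)` and `w ∈ C`.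
(hCB : StCB) -/
def StQS : Prop := ∀ (V : Type u) (H : SimpleGraph V) (S : Finset V) (A : Set V) (u v : V)
  (s : Set (Sym2 V)), s ⊆ (EI H S : Set (Sym2 V)) → u ∈ A → v ∉ A → v ∈ Cluster s u →
  ∃ z ∈ S, ∃ w ∈ S, z ∈ A ∧ w ∉ A ∧ H.Adj z w ∧ s(z, w) ∈ s ∧
    z ∈ Cluster (s ∩ (EI H (S.filter (· ∈ A)) : Set (Sym2 V))) u ∧
    v ∈ Cluster (s \ {e | ∃ y ∈ Cluster (s ∩ (EI H (S.filter (· ∈ A)) : Set (Sym2 V))) u, y ∈ e}) w

/-- [QT] (MEDIUM) Simon-Lieb inequality in finite volume. By `StQS` the event is contained in the union over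
`z, w` and over the possible values `C₀` (a finite number: subsets of `S ∪ {u}`) of the cluster
`C(s) = Cluster (s ∩ EI (S ∩ A)) u`, `z ∈ C₀`, of `{C = C₀} ∩ {s(z,w) ∈ s} ∩ {v ∈ Cluster (s \ touching C₀) w}`. The
event `{C = C₀}` depends only on the edges of `EI (S ∩ A)` which touch `C₀` (`C(s) = C₀` iff the same for
`s ∩ touch C₀`), `s(z,w)` is not in `EI (S ∩ A)` because `w ∉ A`, and the third event depends on the edges
of `EI S` not touching `C₀` (`z ∈ C₀`): independent (`StFI` with `n = 3` or `StPI` twice). So the probability is at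
most `Pr(C = C₀) p tau(w, v)`, and `∑_(C₀ ∋ z) Pr(C = C₀) = tau_(S ∩ A)(u, z)`.
(hPB : StPB) (hPI : StPI) (hPL : StPL) (hPA : StPA) (hCB : StCB) (hWB : StWB) (hQS : StQS) (hFI : StFI) -/
def StQT : Prop := ∀ (V : Type u) (H : SimpleGraph V), LocFinite H → ∀ (S : Finset V) (A : Set V)
  (u v : V) (p : ℝ), 0 ≤ p → p ≤ 1 → u ∈ A → v ∉ A →
  tau H p S u v ≤ ∑ z ∈ S.filter (· ∈ A), ∑ w ∈ (nb H z).filter (fun w => w ∈ S ∧ w ∉ A),
    tau H p (S.filter (· ∈ A)) u z * (p * tau H p S w v)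

/-- [QU] (MEDIUM) Simon-Lieb inequality, product form. For every finite `S` (`StQT`):
`p tau H (S ∩ A) u z ≤ tau (within H (insert w A)) S u w` (`StQA` product and edge inequalities, `StQC` second
part, `StQB`), so the double sum is at most the sum over `w ∈ S \ A` with a neighbour in `A` of
`#{z} · tt (within ..) u w · tt H w v`, `#{z} ≤ |nb w| ≤ Δ`. Supremum over `S`.
(hWB : StWB) (hQA : StQA) (hQB : StQB) (hQC : StQC) (hQF : StQF) (hQT : StQT) -/
def StQU : Prop := ∀ (V : Type u) (H : SimpleGraph V), LocFinite H → ∀ Δ : ℕ,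
  (∀ x, (nb H x).card ≤ Δ) → ∀ (A : Set V) (u v : V) (p : ℝ), 0 ≤ p → p ≤ 1 → u ∈ A → v ∉ A →
  tt H p u v ≤ Δ * ∑' w : V, (if w ∉ A ∧ ∃ z ∈ A, H.Adj z w then
    tt (within H (insert w A)) p u w * tt H p w v else 0)

/-- [QP] (MEDIUM) `tt` is the connection probability. `setBernoulli_ae_subset`: a.s. `s ⊆ H.edgeSet`; then
`{y ∈ Cluster s x}` is the increasing union over the finite sets `S` of `{y ∈ Cluster (s ∩ EI H S) x}` (finite walk),
each of measure `ofReal (tau H p S x y)` (`StPM`). Continuity from below along an increasing sequence of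
finite sets with union `V` (countable), `tau` is monotone in `S` (`StQB`).
(hPM : StPM) (hCB : StCB) (hQB : StQB) -/
def StQP : Prop := ∀ (V : Type u) [Countable V] (H : SimpleGraph V) (p : I) (x y : V),
  perc H p {s | y ∈ Cluster s x} = tt H (p : ℝ) x y

/-! ## R. Trees -/

section
variable {T : Type u}

/-- [RA] (EASY-MEDIUM) Heights and descendants. Heights: induction. If `par^m x = par^n y` then
`h x + m = h y + n`; for two pairs the difference is the same, apply `par^(m'-m)`. The set of the `y` with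
`par^n y = x` is finite with `a^n` elements (induction; `ncard = a ≥ 2` implies finite). -/
def StRA : Prop := ∀ (T : Type u) (par : T → T) (h : T → ℤ) (a : ℕ), Tr par h a →
  (∀ n x, h (par^[n] x) = h x + n) ∧
  (∀ x y (m n m' n' : ℕ), par^[m] x = par^[n] y → m ≤ m' → m' + n = m + n' →
    par^[m'] x = par^[n'] y) ∧
  (∀ n x, {y | par^[n] y = x}.Finite ∧ {y | par^[n] y = x}.ncard = a ^ n) ∧
  (∀ x y, y ∈ desc par x → desc par y ⊆ desc par x ∧ h y ≤ h x ∧ par^[(h x - h y).toNat] y = x) ∧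
  (∀ x n, x ∈ desc par x ∧ x ∈ desc par (par^[n] x)) ∧
  (∀ x y z, z ∈ desc par x → z ∈ desc par y → h x ≤ h y → x ∈ desc par y)

/-- [RB] (MEDIUM) The distance. `td x y` is attained (`Nat.sInf_mem`, `common`). A minimal pair `(m, n)`:
if `par^m' x = par^n' y` then `m' = m + k`, `n' = n + k` with `k ≥ 0` for the pair `(m, n)` with smallest `m`
(heights). Triangle inequality: `par^m x = par^n y`, `par^m' y = par^n' z`: if `n ≤ m'`, then
`par^(m + m' - n) x = par^n' z`; similarly else. Intermediate points: on the way up or down.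
Number at distance `k`: for each `(m, n)`, `m + n = k`, at most `a^n` (`StRA`), `∑_(n ≤ k) a^n ≤ 2 a^k`.
(hRA : StRA) -/
def StRB : Prop := ∀ (T : Type u) (par : T → T) (h : T → ℤ) (a : ℕ), Tr par h a →
  (∀ x y, td par x y = 0 ↔ x = y) ∧ (∀ x y, td par x y = td par y x) ∧
  (∀ x y z, td par x z ≤ td par x y + td par y z) ∧
  (∀ x y, ∃ m n : ℕ, td par x y = m + n ∧ par^[m] x = par^[n] y) ∧
  (∀ x y (m n : ℕ), par^[m] x = par^[n] y → td par x y ≤ m + n) ∧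
  (∀ x (n : ℕ), td par x (par^[n] x) = n) ∧
  (∀ x y (m n : ℕ), td par x y = m + n → ∃ z, td par x z = m ∧ td par z y = n) ∧
  (∀ x (n : ℕ), ∃ y, td par x y = n) ∧
  (∀ x (r : ℕ), {y | td par x y ≤ r}.Finite) ∧
  (∀ x (r : ℕ), {y | td par x y = r}.ncard ≤ 2 * a ^ r)

/-- [RC] (EASY) Permutations which commute with `par`. (hRA : StRA) -/
def StRC : Prop := ∀ (T : Type u) (par : T → T) (h : T → ℤ) (a : ℕ), Tr par h a →
  ∀ β : Equiv.Perm T, (∀ z, β (par z) = par (β z)) →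
    (∀ z, β⁻¹ (par z) = par (β⁻¹ z)) ∧ (∀ n z, β (par^[n] z) = par^[n] (β z)) ∧
    (∀ x y, h (β x) - h (β y) = h x - h y) ∧ (∀ x y, td par (β x) (β y) = td par x y) ∧
    (∀ x y, β y ∈ desc par (β x) ↔ y ∈ desc par x)

/-- [RE] (MEDIUM) The convergent sum. With `c = a^(-1/2) < 1`: every `s` satisfies `par^m t = par^n s` with
`m + n = td t s`, and then `h s - h t = m - n`, so the term is `c^(n - m) c^(2(m+n)) = c^(m + 3n)`; for fixed
`(m, n)` there are at most `a^n = c^(-2n)` such `s`. So the sum is at most `∑_(m,n) c^(m+n) = (1 - c)^(-2)`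
(`ENNReal.tsum` over the `s` is at most the double sum). (hRA : StRA) (hRB : StRB) -/
def StRE : Prop := ∀ (T : Type u) (par : T → T) (h : T → ℤ) (a : ℕ), Tr par h a →
  ∃ C : ℝ≥0∞, C ≠ ⊤ ∧ ∀ t : T,
    ∑' s : T, ENNReal.ofReal (√(a : ℝ) ^ (h s - h t) * ((a : ℝ)⁻¹) ^ td par t s) ≤ C

/-- [RF] (EASY) Leaving `desc(x)`. `par^n w = y` is impossible (`w ∈ desc y ⊆ desc x`); `par^n y = w`,
`par^l y = x`; `n ≤ l` is impossible; `k = n - l`. (hRA : StRA) -/
def StRF : Prop := ∀ (T : Type u) (par : T → T) (h : T → ℤ) (a : ℕ), Tr par h a →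
  ∀ (x y w : T) (n : ℕ), y ∈ desc par x → w ∉ desc par x → (par^[n] y = w ∨ par^[n] w = y) →
    ∃ l k : ℕ, 1 ≤ k ∧ n = l + k ∧ par^[l] y = x ∧ par^[k] x = w ∧ par^[n] y = w

end

/-- [RZ] (EASY) If `x > y` then `(x/y)^k` grows exponentially. -/
def StRZ : Prop := ∀ x y C M : ℝ, 0 ≤ x → 0 < y →
  (∀ k : ℕ, 1 ≤ k → x ^ k ≤ C * (M * k + 1) * y ^ k) → x ≤ y

/-! ## V. The setting -/

/-- [VA] (EASY-MEDIUM) Constants. All vertices have the same degree (transitivity by `mov`, `mov'`,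
invariance `inv`). Fix a vertex `o`; every edge is the image of an edge `o v` (or `v o`), `v ∈ nb o` finite, under
`(α, β)` with `β` commuting with `par'`, so `n` is bounded by the maximum for the edges at `o`. (`n` for an
edge `o v`: from `cmp`.) (hWB : StWB) (hRA : StRA) -/
def StVA : Prop := ∀ X : Sys.{u}, ∃ Δ L : ℕ, X.Const Δ L

/-- [VB] (MEDIUM) The group and the weights. `Good`: clear. `T` is infinite (heights), countable: `G` connected and
locally finite (`Basics.countable`). Weights: `weight (s, x) (t, x) = 1`: there is `α ∈ A` which exchanges `s` and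
`t` (`hom` and `td` symmetric), so `weight u v = weight v u` and the product is `1` (`WeightStmt`).
`weight (s, x) (s, par' x) = 1/b`: the stabiliser of `(s, x)` fixes `(s, par' x)`; the orbit of `(s, x)` under the
stabiliser of `(s, par' x)` is `{s} ×` the children of `par' x` (for a child `y` there is `β ∈ B` with `β x = y`, it
fixes `par' x`). Then the cocycle rule and `common`. (hB : Basics.{u}) (hW : WeightStmt.{u}) (hRA : StRA)
(hRB : StRB) -/
def StVB : Prop := ∀ X : Sys.{u}, Good X.Γ X.G ∧ Countable (X.T × X.T') ∧ Infinite (X.T × X.T') ∧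
  ∀ u v : X.T × X.T', weight X.Γ u v = (X.b : ℝ) ^ (X.h' u.2 - X.h' v.2)

/-- [VC] (EASY-MEDIUM) Equivariance of the regions: `StRC` for `β` (and for `α` commuting with `par` in the
last part). (hRA : StRA) (hRB : StRB) (hRC : StRC) -/
def StVC : Prop := ∀ X : Sys.{u}, ∀ α ∈ X.A, ∀ β ∈ X.B,
  IsAut X.G (Equiv.prodCongr α β) ∧
  (∀ n x, β (X.up n x) = X.up n (β x)) ∧ (∀ s t, X.d (α s) (α t) = X.d s t) ∧
  (∀ x, Equiv.prodCongr α β '' X.Dn x = X.Dn (β x)) ∧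
  (∀ x n, Equiv.prodCongr α β '' X.Ou x n = X.Ou (β x) n) ∧
  (∀ x K L, Equiv.prodCongr α β '' X.Sl x K L = X.Sl (β x) K L) ∧
  (∀ n u, Equiv.prodCongr α β '' X.Rg n u = X.Rg n (α u.1, β u.2)) ∧
  (∀ x n t s, Equiv.prodCongr α β '' X.WO x n t s = X.WO (β x) n (α t) (α s)) ∧
  (∀ x q t s, Equiv.prodCongr α β '' X.WU x q t s = X.WU (β x) q (α t) (α s)) ∧
  (∀ M u, (X.Bl M u).Finite ∧ (X.BlF M u).image (Equiv.prodCongr α β) = X.BlF M (α u.1, β u.2)) ∧
  ((∀ z, α (X.par z) = X.par (α z)) → (∀ t s, X.om (α t) (α s) = X.om t s) ∧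
    ∀ u v, X.Om (α u.1, β u.2) (α v.1, β v.2) = X.Om u v)

/-- [VD] (MEDIUM) Homogeneity. The first three: `hom`, `mov'`, `StVC`, `StQF` / `StQE` (image of `within G W`).
`gg`, `gu`, `XX`: use `α` commuting with `par` (`mov`) and the bijection `s ↦ α s` of the sums
(`Equiv.tsum_eq`). (hVC : StVC) (hQC : StQC) (hQE : StQE) (hQF : StQF) -/
def StVD : Prop := ∀ (X : Sys.{u}) (p : ℝ), 0 ≤ p → p ≤ 1 →
  (∀ n x t s x' t' s', X.d t s = X.d t' s' →
    tt X.G p (t, x) (s, X.up n x) = tt X.G p (t', x') (s', X.up n x') ∧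
    X.uu p n x t s = X.uu p n x' t' s') ∧
  (∀ n x t s x' t' s' c, X.d t s = X.d t' s' →
    (Ach X.G (X.Dn x) p (t, x) (s, x) c → Ach X.G (X.Dn x') p (t', x') (s', x') c) ∧
    (Ach X.G (X.Rg n (t, x)) p (t, x) (s, X.up n x) c →
      Ach X.G (X.Rg n (t', x')) p (t', x') (s', X.up n x') c) ∧
    (Ach X.G (X.WU x n t s) p (t, x) (s, X.up n x) c →
      Ach X.G (X.WU x' n t' s') p (t', x') (s', X.up n x') c) ∧
    ∀ K L, (Ach X.G (X.Sl x K L) p (t, x) (s, X.up n x) c →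
      Ach X.G (X.Sl x' K L) p (t', x') (s', X.up n x') c)) ∧
  (∀ n x t x' t', X.gg p n x t = X.gg p n x' t' ∧ X.gu p n x t = X.gu p n x' t') ∧
  (∀ u v, X.XX p u = X.XX p v)

/-- [VE] (EASY-MEDIUM) Facts on `Bd`. At `p = 0`: `tau 0 S u v = 0` for `u ≠ v` (empty set of open edges) and
`1` for `u = v`, where `d = 0` and `j = 0`. At `p = 1`: take `t ≠ s`, `S` from `StQD` for `(t, x)`, `(s, x)`:
`tau = 1`, so `a^d ≤ 1` is false. Monotone: `StQB`. Left-closed: continuity (`StQB`). The bound for `tt`: supremum of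
`tau ≤ a^(-d) b^(-j/2)`. (hPB : StPB) (hQA : StQA) (hQB : StQB) (hQD : StQD) (hRB : StRB) -/
def StVE : Prop := ∀ X : Sys.{u}, X.Bd 0 ∧ ¬ X.Bd 1 ∧
  (∀ p q : ℝ, 0 ≤ p → p ≤ q → q ≤ 1 → X.Bd q → X.Bd p) ∧
  (∀ p : ℝ, 0 < p → p ≤ 1 → (∀ q : ℝ, 0 ≤ q → q < p → X.Bd q) → X.Bd p) ∧
  (∀ p : ℝ, 0 ≤ p → p ≤ 1 → X.Bd p → ∀ t s x j, tt X.G p (t, x) (s, X.up j x) ≤
    ENNReal.ofReal (((X.a : ℝ)⁻¹) ^ X.d t s * ((√(X.b : ℝ))⁻¹) ^ j))

/-- [VF] (EASY-MEDIUM) There is an upward edge: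
take a walk in `G` from `(t, x)` to `(t, par' x)`; some edge of it leaves `T × desc(x)`; by `StRF` it goes
from `(r, y)` to `(r', par'^k y)`, `k ≥ 1`. Let `d₀ = d r r'`; by `hom`, `mov'`, `inv` all pairs
`(t, x)`, `(s, x_k)` with `d t s = d₀` are adjacent. (hRA : StRA) (hRF : StRF) -/
def StVF : Prop := ∀ X : Sys.{u}, ∃ d₀ k : ℕ, 1 ≤ k ∧ ∀ t s x, X.d t s = d₀ →
  X.G.Adj (t, x) (s, X.up k x)

/-- [VG] (EASY-MEDIUM) A walk from `(t, x)` to `(s, x_r)` has finitely many vertices, each `v.2` is a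
descendant of some `x_K` and has a height; take `L` large. By `hom` and `mov'` the same `L` works for all
`t, s, x` with `d t s = e` (`StVC`: image of `Sl`). (hRA : StRA) (hRB : StRB) (hVC : StVC) -/
def StVG : Prop := ∀ (X : Sys.{u}) (e r : ℕ), ∃ L : ℕ, ∀ t s x, X.d t s = e →
  (within X.G (X.Sl x L L)).Reachable (t, x) (s, X.up r x)

/-- [VU] (MEDIUM) Up-paths. Let `d₀, k` from `StVF`, `L` the maximum of the constants of `StVG` for `e` and
`r = 0, ..., 2k - 1`, and `L ≥ 1` (`Sl` is monotone in `K, L`). `q₀ = 2 L k + L + 1 + 2 k`. For `q ≥ q₀`: write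
`q - 2 L k = r + 2 j' k`, `r < 2 k`; so `r + 2 j' k ≥ L + 1`. Choose `t'` with `d t t' = d₀` and `s'` with `d s s' = d₀`.
Walk: `(t, x) → (t', x_k) → (t, x_2k) → ... → (t, x_2Lk)` (edges of `StVF`), then the walk of `StVG` from
`(t, x_2Lk)` to `(s, x_(2Lk+r))`, in `Sl x_2Lk L L`, then `(s, ..) → (s', ..) → ...→ (s, x_q)`. The vertices different
from the first and the last one have `v.2 ∈ desc(x_(q-1))` (`2 L k + L ≤ q - 1`) and height `> h' x` (for the middle part: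
`h' v.2 > h' x + 2 L k - L ≥ h' x`). (hRA : StRA) (hRB : StRB) (hVF : StVF) (hVG : StVG) -/
def StVU : Prop := ∀ (X : Sys.{u}) (e : ℕ), ∃ q₀ : ℕ, 1 ≤ q₀ ∧ ∀ q ≥ q₀, ∀ t s x, X.d t s = e →
  (within X.G (X.WU x q t s)).Reachable (t, x) (s, X.up q x)

/-- [VP] (EASY-MEDIUM) Positive probabilities. From `StVU`, `StQE` (positivity) for one `(t, s, x)` and `StVD`; if
`q ≥ 1`: `WU x q t s ⊆ Rg q (t, x)` and `WU x q t s ⊆ WO x q t s` (`h' x < h' v.2` implies `v.2 ∉ desc(x)`).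
(hRA : StRA) (hRB : StRB) (hQE : StQE) (hVD : StVD) (hVU : StVU) -/
def StVP : Prop := ∀ (X : Sys.{u}) (p : ℝ), 0 < p → p ≤ 1 → ∀ e : ℕ, ∃ q₀ : ℕ, 1 ≤ q₀ ∧ ∀ q ≥ q₀,
  ∃ δ : ℝ, 0 < δ ∧ δ ≤ 1 ∧ ∀ t s x, X.d t s = e →
    Ach X.G (X.WU x q t s) p (t, x) (s, X.up q x) δ ∧
    Ach X.G (X.Rg q (t, x)) p (t, x) (s, X.up q x) δ ∧
    Ach X.G (X.WO x q t s) p (t, x) (s, X.up q x) δ ∧ ENNReal.ofReal δ ≤ X.uu p q x t s

end Pool.Agent.Work.MP_c58d8b_pr.PT
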