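import Pool.Agent.Work.MP_c58d8b_pr.PT.Stmts

/-!
# MP_c58d8b_pr, block PT (captain helper62): statements with complete proofs, part 2

Item `XX`: statement `StXX`, file `PT/I_XX.lean`, theorem `pt_XX`, hypotheses = the statements named in
the docstring ((hYY : StYY)); nobody waits for anybody. Notation in the docstrings:
`x_n = par'^n x = X.up n x`, `d = X.d`, `desc(x)` = descendants of `x` with `x`, `√b^(-n)` = `((√b)⁻¹)^n`.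
-/

set_option autoImplicit false

namespace Pool.Agent.Work.MP_c58d8b_pr.PT

open MeasureTheory ProbabilityTheory Set Filter Topology
open scoped ENNReal unitInterval Classical
open Pool.Agent.Work.MP_c58d8b_pr.SO

universe u

/-! ## I. If `Bd p` fails there are heavy clusters for all `p' > p` -/

/-- [IA] (EASY-MEDIUM) A local connection. `¬ Bd p` gives a finite `S` and `t₀, s₀, x₀, j` with
`a^e √b^j c > 1`, `c = tau G p S .. ≤ 1`, `e = d t₀ s₀`. For `L` large all `v ∈ S` are in `Sl x₀ L L` (common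
ancestors, finitely many heights), so `S.filter (· ∈ Sl ..) = S` and `Ach` holds for `(t₀, s₀, x₀)` (`StQC`
second part), hence for all (`StVD`). (hQA : StQA) (hQC : StQC) (hRA : StRA) (hVD : StVD) -/
def StIA : Prop := ∀ (X : Sys.{u}) (p : ℝ), 0 ≤ p → p ≤ 1 → ¬ X.Bd p →
  ∃ (e j L : ℕ) (c : ℝ), 0 < c ∧ c ≤ 1 ∧ 1 < (X.a : ℝ) ^ e * √(X.b : ℝ) ^ j * c ∧
    ∀ t s x, X.d t s = e → Ach X.G (X.Sl x L L) p (t, x) (s, X.up j x) c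

/-- [IB] (EASY-MEDIUM) A chain of `N` translates. Induction on `N` (`N = 0`: `t = s`, `tau x x = 1`): choose `r`
with `d t r = N e`, `d r s = e` (`StRB`); the region of the last step is `Sl x_(Nj) L L ⊆ Sl x ((N+1)j+L) L`
(heights: `h' x ≤ h' x_(Nj)`; descendants). Product rule of `StQE`.
(hQA : StQA) (hQE : StQE) (hRA : StRA) (hRB : StRB) -/
def StIB : Prop := ∀ (X : Sys.{u}) (p : ℝ), 0 ≤ p → p ≤ 1 → ∀ (e j L : ℕ) (c : ℝ), 0 ≤ c → c ≤ 1 →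
  (∀ t s x, X.d t s = e → Ach X.G (X.Sl x L L) p (t, x) (s, X.up j x) c) →
  ∀ (N : ℕ) (t s : X.T) (x : X.T'), X.d t s = N * e →
    Ach X.G (X.Sl x (N * j + L) L) p (t, x) (s, X.up (N * j) x) (c ^ N)

/-- [IC] (MEDIUM) The block. `e, j, L, c₀` from `StIA`; `StVP` for distance `1`: `q₁ ≥ L`, `δ₁`; for distance `0`:
`q₂ ≥ L`, `δ₂`. For `N` and `d t s = N e + 1` choose `r` with `d t r = 1`, `d r s = N e`:
`(t, x) → (r, x_q₁)` in `WU x q₁ t r`, `(r, x_q₁) → (s, x_(q₁+Nj))` in `Sl x_q₁ (N j + L) L` (`StIB`),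
`(s, x_(q₁+Nj)) → (s, x_n)` in `WU x_(q₁+Nj) q₂ s s`, `n = q₁ + N j + q₂`. All three regions are contained in
`Rg n (t, x) = {(t, x)} ∪ Sl x n 0`. `c = δ₁ c₀^N δ₂`, `i = N e + 1`:
`a^i √b^n c = (a δ₁ δ₂ √b^(q₁+q₂)) (a^e √b^j c₀)^N > 1` for some `N`.
(hQE : StQE) (hRA : StRA) (hRB : StRB) (hVP : StVP) (hIA : StIA) (hIB : StIB) -/
def StIC : Prop := ∀ (X : Sys.{u}) (p : ℝ), 0 < p → p ≤ 1 → ¬ X.Bd p →
  ∃ (i n : ℕ) (c : ℝ), 1 ≤ i ∧ 1 ≤ n ∧ 0 < c ∧ c ≤ 1 ∧ 1 < (X.a : ℝ) ^ i * √(X.b : ℝ) ^ n * c ∧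
    ∀ t s x, X.d t s = i → Ach X.G (X.Rg n (t, x)) p (t, x) (s, X.up n x) c

/-- [ID] (MEDIUM) One step of the zigzag. `t', s'` with `d t t' = i`, `d t' s' = m`, `d s' s = i`. For each `y` with
`up n y = x` (there are `b^n`): finite sets `S₁ y`, `S₂ y`, `S₃ y` from the hypotheses for
`(t', y) → (t, x)` in `Rg n (t', y)`, `(s', y) → (s, x)` in `Rg n (s', y)`, `(t', y) → (s', y)` in `Dn y`.
`StFU` with `Y` = the `y`, `E₀` = union of all edges `EI (within G (Rg ..)) (S₁ y)`, `EI (within G (Rg ..)) (S₂ y)`,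
`F y = EI (within G (Dn y)) (S₃ y)`, `D y` = both block connections (increasing: by `StFB` and `StPL`
`Pr E₀ (D y) ≥ c²`), `Z y` = the third connection, `E = EI (within G (Dn x)) S`, `S` = union of everything and
`(t, x)`, `(s, x)`. Disjointness: an edge of `E₀` has an endpoint of height `> h' x - n` (only one vertex of
`Rg n (t', y)` has height `h' x - n`), an edge of `F y` has both endpoints in `Dn y`, of height `≤ h' x - n`;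
`Dn y ∩ Dn y' = ∅` for `y ≠ y'` of the same height. `D y ∩ Z y` implies that `(t, x)` and `(s, x)` are connected
in `Dn x` (`Rg n (t', y) ⊆ Dn x`, `Dn y ⊆ Dn x`).
(hPB : StPB) (hPL : StPL) (hCB : StCB) (hFB : StFB) (hFU : StFU) (hQA : StQA) (hRA : StRA) (hRB : StRB) -/
def StID : Prop := ∀ (X : Sys.{u}) (p : ℝ), 0 ≤ p → p ≤ 1 → ∀ (i n m : ℕ) (c z : ℝ), 1 ≤ n →
  0 ≤ c → 0 ≤ z → z ≤ 1 →
  (∀ t s x, X.d t s = i → Ach X.G (X.Rg n (t, x)) p (t, x) (s, X.up n x) c) →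
  (∀ t s x, X.d t s = m → Ach X.G (X.Dn x) p (t, x) (s, x) z) →
  ∀ t s x, X.d t s = m + 2 * i →
    Ach X.G (X.Dn x) p (t, x) (s, x)
      ((X.b : ℝ) ^ n * c ^ 2 * z * (1 - (X.b : ℝ) ^ n * z / 2)) ∧
    Ach X.G (X.Dn x) p (t, x) (s, x) (c ^ 2 * z)

/-- [IE] (EASY-MEDIUM) Iteration. Choose `μ` with `0 < μ < 1`, `μ < K c²`, `a^(2i) μ > 1`, then `ε ∈ (0, 1]` with
`K c² (1 - K ε / 2) ≥ μ`, `δ = c² ε ≤ 1`. Claim: for every `N` there is `z` with `δ μ^N ≤ z ≤ 1`, `Q (2 i N) z`: for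
`z ≤ ε` the first rule gives `z' ≥ μ z`, for `z > ε` the second one gives `z' ≥ c² ε = δ`. Then
`a^(2iN) z ≥ δ (a^(2i) μ)^N ≥ 1` for some `N ≥ 1`. -/
def StIE : Prop := ∀ (a : ℝ) (i : ℕ) (K c : ℝ) (Q : ℕ → ℝ → Prop), 1 < a → 1 ≤ i → 0 < K →
  0 < c → c ≤ 1 → 1 < a ^ (2 * i) * K * c ^ 2 → Q 0 1 → (∀ m z, Q m z → z ≤ 1) →
  (∀ m z, 0 ≤ z → z ≤ 1 → Q m z →
    Q (m + 2 * i) (K * c ^ 2 * z * (1 - K * z / 2)) ∧ Q (m + 2 * i) (c ^ 2 * z)) →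
  ∃ (m : ℕ) (z : ℝ), 1 ≤ m ∧ 0 < z ∧ Q m z ∧ 1 ≤ a ^ m * z

/-- [IF] (EASY-MEDIUM) A good horizontal connection. `StIE` for `Q m z` = `∀ t s x, d t s = m → Ach (Dn x) .. z`,
`K = b^n`, `a^(2i) b^n c² = (a^i √b^n c)² > 1`; `z ≤ 1` by `StQE` and the existence of `t, s` (`StRB`).
(hQA : StQA) (hQE : StQE) (hRB : StRB) (hIC : StIC) (hID : StID) (hIE : StIE) -/
def StIF : Prop := ∀ (X : Sys.{u}) (p : ℝ), 0 < p → p ≤ 1 → ¬ X.Bd p →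
  ∃ (m : ℕ) (z : ℝ), 1 ≤ m ∧ 0 < z ∧ z ≤ 1 ∧ 1 ≤ (X.a : ℝ) ^ m * z ∧
    ∀ t s x, X.d t s = m → Ach X.G (X.Dn x) p (t, x) (s, x) z

/-- [IG] (EASY-MEDIUM) Finite connected sets. For one triple `(t₁, s₁, x₁)` (`StRB`): `S₁` from `Ach`; `S` = union of
`S₁`, of a connected finite set joining `(t₁, x₁)` to each `v ∈ S₁` and to `(s₁, x₁)` (`StQD`, `G` connected);
`z ≤ tau (within ..) S₁ ≤ tau G S` (`StQB`). `N = |S|`, `R` large. Move it by `(α, β)`, `α t₁ = t`, `α s₁ = s`,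
`β x₁ = x` (`hom`, `mov'`; `StQC`, `StRC`).
(hQB : StQB) (hQC : StQC) (hQD : StQD) (hRB : StRB) (hRC : StRC) (hVC : StVC) -/
def StIG : Prop := ∀ (X : Sys.{u}) (p : ℝ), 0 ≤ p → p ≤ 1 → ∀ (m : ℕ) (z : ℝ),
  (∀ t s x, X.d t s = m → Ach X.G (X.Dn x) p (t, x) (s, x) z) →
  ∃ N R : ℕ, ∀ t s x, X.d t s = m → ∃ S : Finset (X.T × X.T'), S.card ≤ N ∧ (t, x) ∈ S ∧
    (s, x) ∈ S ∧ (∀ v ∈ S, X.d t v.1 ≤ R ∧ |X.h' v.2 - X.h' x| ≤ R ∧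
      (within X.G (S : Set (X.T × X.T'))).Reachable (t, x) v) ∧
    z ≤ tau X.G p S (t, x) (s, x)

/-- [IH] (EASY-MEDIUM) Counting in the tree. `𝒢 k` = the `t` with `par^(km) t = o` and `g (par^(lm) t)` for all
`l < k` (finite), `E k` = those with a bad child `t'`. All the `a^m` children (`par^m t' = t`) of a
`t ∈ 𝒢 k \ E k` are in `𝒢 (k+1)`, so `|𝒢 (k+1)| ≥ a^m (|𝒢 k| - |E k|)`, and `ρ^(k+1) |𝒢 (k+1)| ≥ ρ^k |𝒢 k| - ρ^k |E k|`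
(`a^m ρ ≥ 1`, `|E k| ≤ |𝒢 k|`). `𝒢 0 = {o}`, `𝒢 K = ∅`: sum over `k < K`. (hRA : StRA) -/
def StIH : Prop := ∀ (T : Type u) (par : T → T) (h : T → ℤ) (a : ℕ), Tr par h a →
  ∀ (m K : ℕ) (ρ : ℝ) (o : T) (g : T → Prop), 1 ≤ m → 0 ≤ ρ → 1 ≤ (a : ℝ) ^ m * ρ →
  (∀ t, par^[K * m] t = o → ∃ l < K, ¬ g (par^[l * m] t)) →
  ∃ E : ℕ → Finset T, (∀ k, ∀ t ∈ E k, par^[k * m] t = o ∧ (∀ l < k, g (par^[l * m] t)) ∧
      ∃ t', par^[m] t' = t ∧ ¬ g t') ∧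
    1 ≤ ∑ k ∈ Finset.range K, ρ ^ k * (E k).card

/-- [II] (MEDIUM) The exit pair. `(t₀, x)` and `(t, x)` are connected in `S ∩ U` with probability `≥ z^k`: product
over the steps `par^((l+1)m) t → par^(lm) t`, `l < k` (`St (par^(lm) t) ⊆ S`, `⊆ U`; `StQA`, `StQB`). `(t, x) ∈ S`. Let
`C` = the vertices reachable from `(t, x)` in `within G (S ∩ St t')`; since `St t'` is connected, contains `(t, x)`
and is not contained in `S`, there is an edge from some `y ∈ C` to some `w ∈ St t'`, `w ∉ S`.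
`tau (within G U) q S (t, x) y ≥ q^(|St t'|) ≥ p^N` (`StQD`, `StQB`). Product rule.
(hQA : StQA) (hQB : StQB) (hQC : StQC) (hQD : StQD) -/
def StII : Prop := ∀ (X : Sys.{u}) (p q z : ℝ) (m N R : ℕ), 0 < p → p ≤ q → q ≤ 1 → 0 ≤ z →
  ∀ (t₀ : X.T) (x : X.T') (U : Set (X.T × X.T')) (St : X.T → Finset (X.T × X.T')),
  (∀ t, (St t).card ≤ N ∧ (X.par^[m] t, x) ∈ St t ∧ (t, x) ∈ St t ∧
    (∀ v ∈ St t, X.d (X.par^[m] t) v.1 ≤ R ∧ v ∈ U ∧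
      (within X.G (St t : Set (X.T × X.T'))).Reachable (X.par^[m] t, x) v) ∧
    z ≤ tau X.G p (St t) (X.par^[m] t, x) (t, x)) →
  ∀ S : Finset (X.T × X.T'), (t₀, x) ∈ S → ∀ (k : ℕ) (t t' : X.T), X.par^[k * m] t = t₀ →
  (∀ l < k, St (X.par^[l * m] t) ⊆ S) → X.par^[m] t' = t → ¬ St t' ⊆ S →
  ∃ y ∈ S, ∃ w, w ∉ S ∧ X.G.Adj y w ∧ y ∈ U ∧ w ∈ U ∧ X.d t y.1 ≤ R ∧
    z ^ k * p ^ N ≤ tau (within X.G U) q S (t₀, x) y

/-- [IJ] (MEDIUM) The lower bound for `φ`. `N, R` from `StIG`, `L = (R + 1) log b`; by `StVB` the slab contains all `v`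
with `|h' v.2 - h' o.2| ≤ R`. For each `t` let `St t` be the finite set of `StIG` for the pair
`(par^m t, t)` (distance `m`), `x = o.2`; `U` = slab, `g t` = (`St t ⊆ S`). `K = |S| + 1`: if `par^(Km) t = o.1` and all
`St (par^(lm) t) ⊆ S` for `l < K`, then `S` contains the `K` different vertices `(par^(lm) t, x)`, contradiction. `StIH`
with `ρ = z`: the sets `E k`; for each `k < K`, `t ∈ E k` the pair `(y, w)` of `StII`. A pair `(y, w)` occurs for at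
most `M = ∑_(r ≤ R) 2 a^r` vertices `t` (`StRB`) and `k` is determined by `t` (height). So
`p^N ≤ ∑_k ∑_(t ∈ E k) z^k p^N ≤ M ∑_(y ∈ S) ∑_(w ∈ nb y \ S) tau (within G U) q S o y = M phi / q`, `c = p^(N+1) / M`.
(hWB : StWB) (hQA : StQA) (hRA : StRA) (hRB : StRB) (hVB : StVB) (hIG : StIG) (hIH : StIH) (hII : StII) -/
def StIJ : Prop := ∀ (X : Sys.{u}) (p : ℝ) (m : ℕ) (z : ℝ), 0 < p → p ≤ 1 → 1 ≤ m → 0 < z → z ≤ 1 →
  1 ≤ (X.a : ℝ) ^ m * z → (∀ t s x, X.d t s = m → Ach X.G (X.Dn x) p (t, x) (s, x) z) →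
  ∀ o : X.T × X.T', ∃ L c : ℝ, 0 < L ∧ 0 < c ∧ ∀ q : ℝ, p ≤ q → q ≤ 1 →
    ∀ S : Finset (X.T × X.T'), o ∈ S → c ≤ phi (within X.G (slab X.Γ o L)) q S o

/-- [IK] (EASY-MEDIUM) PART I. `StIF`, `StIJ` for some `o` (`G` connected), `SO.StD5` for
`within G (slab Γ o L)` (locally finite) and `SO.StHV`: `0 < 1 - exp(-c (p' - p)) ≤ ..`.
(hVB : StVB) (hIF : StIF) (hIJ : StIJ) (hD5 : SO.StD5.{u}) (hHV : SO.StHV.{u}) -/
def StIK : Prop := ∀ (X : Sys.{u}) (p : ℝ), 0 < p → p < 1 → ¬ X.Bd p → ∀ p' : I, p < p' →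
  0 < perc X.G p' (HeavyEvent X.Γ)

/-! ## J. If `Bd p` holds there is no uniqueness slightly above `p` -/

/-- [JA] (EASY-MEDIUM) First bounds, with `C` from `StRE`. `uu ≤ tt` (`StQF`, subgraph). `gg`: by `StVE`
`√b^n tt((t,x),(s,x_n)) ≤ a^(-d)`. Third: `tt ≤ a^(-d) √b^(-i)`, `√b^(-2i) ≤ 1`, `om s r a^(-d s r)` (symmetric `d`).
Fourth: `tt((t,x),(r,y)) = tt((r,y),(t,x_..)) ≤ a^(-d) √b^(-j)` with `x = up j y`, and there are `b^j` such `y`.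
(hQF : StQF) (hRA : StRA) (hRB : StRB) (hRE : StRE) (hVE : StVE) -/
def StJA : Prop := ∀ X : Sys.{u}, ∃ C : ℝ≥0∞, C ≠ ⊤ ∧ ∀ p : ℝ, 0 ≤ p → p ≤ 1 → X.Bd p →
  (∀ n x t, X.gg p n x t ≤ C) ∧ (∀ n x t s, X.uu p n x t s ≤ tt X.G p (t, x) (s, X.up n x)) ∧
  (∀ (i : ℕ) (x : X.T') (s : X.T), ∑' r : X.T,
    ENNReal.ofReal (X.om s r * ((√(X.b : ℝ))⁻¹) ^ i) * tt X.G p (s, X.up i x) (r, x) ≤ C) ∧
  (∀ (j : ℕ) (x : X.T') (t : X.T), ∑' r : X.T, ∑' y : X.T', (if X.up j y = x then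
    ENNReal.ofReal (X.om t r * ((√(X.b : ℝ))⁻¹) ^ j) * tt X.G p (t, x) (r, y) else 0) ≤ C)

/-- [JB] (MEDIUM) First Simon-Lieb inequality. `StQU` for `A = Dn x_(n-1)`, `u = (t, x)`, `v = (s, x_(n+n'))`: the
vertices `w ∉ A` with a neighbour in `A` are of the form `(r, x_m)`, `n ≤ m < n + L` (`StRF`, `Const.jmp`), different
`m` give different vertices; `tt (within ..) ≤ tt G`. Multiply by `ω(t, s) √b^(n+n') =
ω(t, r) √b^m · ω(r, s) √b^(n+n'-m)`, sum over `s` and `r`; `x_(n+n') = up (n+n'-m) x_m`, `StVD` for `gg`.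
(hQF : StQF) (hQU : StQU) (hRA : StRA) (hRF : StRF) (hVD : StVD) -/
def StJB : Prop := ∀ (X : Sys.{u}) (Δ L : ℕ), X.Const Δ L → ∀ p : ℝ, 0 ≤ p → p ≤ 1 →
  ∀ n n' : ℕ, 1 ≤ n → L ≤ n' → ∀ x t, X.gg p (n + n') x t ≤
    Δ * ∑ m ∈ Finset.Ico n (n + L), X.gg p m x t * X.gg p (n + n' - m) x t

/-- [JC] (MEDIUM) Double Simon-Lieb inequality. First `StQU` for `G`, `A = Dn x_(n-1)`, `u = (t, x)`,
`v = (s, x_n)`: exits `w = (s₁, x_m)`, `n ≤ m < n + L`. For fixed `w` let `H₁ = within G (insert w A)`;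
`tt H₁ u w = tt H₁ w u`; second `StQU` for `H₁`, `A₁ = (Dn x)ᶜ ∋ w`, `u ∉ A₁`: the vertices `w' ∈ Dn x` with an
`H₁`-neighbour outside `Dn x` are `w' = (r, y)` with `up j y = x`, `j < L` (`StRF`, `jmp`);
`within H₁ (insert w' A₁) = within G ((insert w A) ∩ (insert w' A₁)) ≤ within G (WO y (j+m) r s₁)`
(`up (j+m) y = x_m`, `up (j+m-1) y = x_(m-1)`, `n ≤ m`, `desc y ⊆ desc x`), so that factor is at most
`uu p (j+m) y r s₁` (symmetry); `tt H₁ w' u ≤ tt G u w'`. `nb H₁ ⊆ nb G`.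
(hWB : StWB) (hQC : StQC) (hQF : StQF) (hQU : StQU) (hRA : StRA) (hRF : StRF) -/
def StJC : Prop := ∀ (X : Sys.{u}) (Δ L : ℕ), X.Const Δ L → ∀ p : ℝ, 0 ≤ p → p ≤ 1 →
  ∀ n : ℕ, 1 ≤ n → ∀ x t s, tt X.G p (t, x) (s, X.up n x) ≤ (Δ : ℝ≥0∞) ^ 2 *
    ∑ m ∈ Finset.Ico n (n + L), ∑ j ∈ Finset.range L, ∑' r : X.T, ∑' y : X.T', ∑' s₁ : X.T,
      (if X.up j y = x then tt X.G p (t, x) (r, y) * X.uu p (j + m) y r s₁ *
        tt X.G p (s₁, X.up m x) (s, X.up n x) else 0)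

/-- [JD] (MEDIUM) Multiply `StJC` by `ω(t, s) √b^n = (ω(t, r) √b^(-j)) (ω(r, s₁) √b^(j+m)) (ω(s₁, s) √b^(-(m-n)))`
and sum over `s`: first `∑_s` is at most `C` (third part of `StJA` with `i = m - n`, `x := x_n`), then
`∑_(s₁) = gu p (j+m) y r = gu p (j+m) x t` (`StVD`), then `∑_(r, y)` is at most `C` (fourth part). The constant is
`Δ² C²`. (hVD : StVD) (hJA : StJA) (hJC : StJC) -/
def StJD : Prop := ∀ (X : Sys.{u}) (Δ L : ℕ), X.Const Δ L → ∃ C : ℝ≥0∞, C ≠ ⊤ ∧ ∀ p : ℝ, 0 ≤ p →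
  p ≤ 1 → X.Bd p → ∀ n : ℕ, 1 ≤ n → ∀ x t, X.gg p n x t ≤
    C * ∑ m ∈ Finset.Ico n (n + L), ∑ j ∈ Finset.range L, X.gu p (j + m) x t

/-- [JS] (EASY-MEDIUM) `u_n` is supermultiplicative: both graphs are subgraphs of
`within G (WO x (n+n') t r)` (`(s, x_n) ∈ Ou x (n+n')`, `Ou x n ⊆ Ou x (n+n')`, `Ou x_n n' ⊆ Ou x (n+n')`); `StQF`.
(hQF : StQF) (hRA : StRA) -/
def StJS : Prop := ∀ (X : Sys.{u}) (p : ℝ), 0 ≤ p → p ≤ 1 → ∀ n n' : ℕ, 1 ≤ n → 1 ≤ n' →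
  ∀ x t s r, X.uu p n x t s * X.uu p n' (X.up n x) s r ≤ X.uu p (n + n') x t r

/-- [JF] (EASY-MEDIUM) Exit probabilities: invariance under `(α, β)` (`mov`, `mov'`, `StVC`, the first part of the
method of `StQC`: `Pr` of an image), monotonicity in `S` (`StPL`, `StPB`), and every finite `S` is contained in
a ball. (hPB : StPB) (hPL : StPL) (hCB : StCB) (hRB : StRB) (hRC : StRC) (hVC : StVC) -/
def StJF : Prop := ∀ (X : Sys.{u}) (p : ℝ), 0 ≤ p → p ≤ 1 →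
  (∀ M m u v, X.eb p M m u = X.eb p M m v) ∧
  (∀ S S' m u, S ⊆ S' → X.ex p S m u ≤ X.ex p S' m u) ∧
  (∀ (S : Finset (X.T × X.T')) u, ∃ M, S ⊆ X.BlF M u) ∧
  (∀ S m u, 0 ≤ X.ex p S m u ∧ X.ex p S m u ≤ 1)

/-- [JE] (MEDIUM) Supermultiplicativity of the exit probabilities. `u = (t, x)`, `K_u = within G (insert u (Dn x)ᶜ)`,
`E₁` = the edges of `EI K_u (BlF M u)` with an endpoint in `Dn x_(m-1)`. For `s ⊆ EI K_u (BlF M u)` the event `A_m(s)`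
(the cluster of `u` contains `w` with `w.2 ∉ desc x_(m-1)`) is equivalent to `A_m(s ∩ E₁)` (first such vertex
on a path). For `t₁ ⊆ E₁` with `A_m(t₁)` choose such a `w = w(t₁)`; it is an endpoint of an edge of `E₁`, so it
is adjacent to a vertex of `Dn x_(m-1)` and `w.2 = x_k`, `k ≥ m` (`cmp`, `StRF`). Let `E₂ = EI K_w (BlF M' w)`: it is
disjoint from `E₁` (no endpoint in `Dn x_(m-1)`), contained in `EI K_u (BlF (M+M') u)` (triangle inequality);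
if the exit event of `w` (with `m'`) occurs in `E₂`, then the cluster of `u` contains a vertex outside
`desc(x_(k+m'-1)) ⊇ desc(x_(m+m'-1))`. `StFA` with `E₁` and `E \ E₁` (`E = EI K_u (BlF (M+M') u)`), `StPL`, `eb .. w = eb .. u`.
(hPB : StPB) (hPL : StPL) (hCB : StCB) (hFA : StFA) (hRA : StRA) (hRB : StRB) (hRF : StRF) (hVC : StVC) (hJF : StJF) -/
def StJE : Prop := ∀ (X : Sys.{u}) (p : ℝ), 0 ≤ p → p ≤ 1 → ∀ M M' m m' : ℕ, 1 ≤ m → 1 ≤ m' →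
  ∀ u, X.eb p M m u * X.eb p M' m' u ≤ X.eb p (M + M') (m + m') u

/-- [JG] (MEDIUM) Union bound for the exit. The first vertex `w` of a path from `u = (t, x)` with
`w.2 ∉ desc x_(m-1)` is adjacent to a vertex of `Dn x_(m-1)`: `w = (r, x_k)`, `m ≤ k < m + L`, `d t r ≤ M`. The probability
that `w ∈ Cluster s u` is at most `tau G p (BlF M u) u w ≤ a^(-d t r) √b^(-k) ≤ a^(-d t r) √b^(-m)` (`StQB`, `Bd`), and
`∑_(r : d t r ≤ M) a^(-d t r) ≤ ∑_(e ≤ M) 2 a^e a^(-e) = 2 (M + 1)`.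
(hPB : StPB) (hCB : StCB) (hQB : StQB) (hRA : StRA) (hRB : StRB) (hRF : StRF) (hVC : StVC) -/
def StJG : Prop := ∀ (X : Sys.{u}) (Δ L : ℕ), X.Const Δ L → ∀ p : ℝ, 0 ≤ p → p ≤ 1 → X.Bd p →
  ∀ M m : ℕ, 1 ≤ m → ∀ u, X.eb p M m u ≤ 2 * L * (M + 1) * ((√(X.b : ℝ))⁻¹) ^ m

/-- [JH] (EASY-MEDIUM) `(eb M m)^k ≤ eb (k M) (k m) ≤ 2 L (M k + 1) √b^(-m k)` for `k ≥ 1` (induction, `StJE`),
`StRZ` gives `eb M m ≤ √b^(-m)`; `ex p S m u ≤ eb p M m u` for some `M` (`StJF`).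
(hRZ : StRZ) (hVA : StVA) (hJE : StJE) (hJF : StJF) (hJG : StJG) -/
def StJH : Prop := ∀ (X : Sys.{u}) (p : ℝ), 0 ≤ p → p ≤ 1 → X.Bd p →
  ∀ (S : Finset (X.T × X.T')) (m : ℕ), 1 ≤ m → ∀ u, X.ex p S m u ≤ ((√(X.b : ℝ))⁻¹) ^ m

/-- [JI] (EASY-MEDIUM) Windows. There is a real `ε > 0` with `g N ≥ ε` for infinitely many `N`; for `n ≥ 1` take such
an `N ≥ n + L`: `ε ≤ Δ ∑_(m ∈ window) g m · C`, so some `g m ≥ c = ε / (Δ L C + 1)`-ish (`c` with `Δ L C c < ε`). -/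
def StJI : Prop := ∀ (g : ℕ → ℝ≥0∞) (C : ℝ≥0∞) (Δ L : ℕ), C ≠ ⊤ → (∀ n, g n ≤ C) →
  (∀ n n' : ℕ, 1 ≤ n → L ≤ n' →
    g (n + n') ≤ Δ * ∑ m ∈ Finset.Ico n (n + L), g m * g (n + n' - m)) →
  ¬ Tendsto g atTop (𝓝 0) → ∃ c : ℝ≥0∞, 0 < c ∧ ∀ n : ℕ, 1 ≤ n →
    ∃ m ∈ Finset.Ico n (n + L), c ≤ g m

/-- [JJ] (EASY-MEDIUM) Summability. `n₀ ≥ 1` with `Δ ∑_(m ∈ Ico n₀ (n₀+L)) g m ≤ 1/2`. For `N ≥ n₀ + L`:
`g N ≤ ∑_m Δ g m g (N - m)`; sum over `N ∈ [n₀+L, M]`: at most `∑_m Δ g m S_M ≤ S_M / 2`, `S_M = ∑_(N ≤ M) g N` finite. So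
`S_M ≤ (n₀ + L) C + S_M / 2`, `S_M ≤ 2 (n₀ + L) C`. -/
def StJJ : Prop := ∀ (g : ℕ → ℝ≥0∞) (C : ℝ≥0∞) (Δ L : ℕ), C ≠ ⊤ → (∀ n, g n ≤ C) →
  (∀ n n' : ℕ, 1 ≤ n → L ≤ n' →
    g (n + n') ≤ Δ * ∑ m ∈ Finset.Ico n (n + L), g m * g (n + n' - m)) →
  Tendsto g atTop (𝓝 0) → ∑' n, g n ≠ ⊤

/-- [JK] (MEDIUM) Lower bounds for some `u_k`. `Const` from `StVA`; `StJB`, `StJA`, `StJI` (for `g n = gg p n x₀ t₀`,
independent of `x₀, t₀` by `StVD`): every window `Ico n (n+L)` contains `m` with `gg m ≥ c₁`; `StJD`: some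
`k ∈ Ico n (n + 3 L)` with `gu k ≥ c₂ > 0` (`c₂ = c₁ / (C L²)`-ish; `C ≠ ⊤`). Domination: the terms of `gu k` are
`ω(t, s) √b^k uu ≤ ω(t, s) a^(-d t s)` (`StJA`, `StVE`), whose sum is finite (`StRE`), so outside a finite set `F` of
`s` (not depending on `k`) they contribute less than `c₂ / 2` (`ENNReal.tendsto_tsum_compl_atTop_zero`); so
some `s ∈ F` has `ω(t, s) √b^k uu ≥ c₂ / (2 |F|)`, `uu ≥ c √b^(-k)` (`ω(t, s)` bounded on `F`). `R` = maximum of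
`d t s` on `F`; `uu` depends only on `d t s` (`StVD`).
(hRE : StRE) (hVA : StVA) (hVD : StVD) (hVE : StVE) (hJA : StJA) (hJB : StJB) (hJD : StJD) (hJI : StJI) -/
def StJK : Prop := ∀ (X : Sys.{u}) (p : ℝ), 0 ≤ p → p ≤ 1 → X.Bd p → ∀ (x₀ : X.T') (t₀ : X.T),
  ¬ Tendsto (fun n => X.gg p n x₀ t₀) atTop (𝓝 0) →
  ∃ (c : ℝ) (R W : ℕ), 0 < c ∧ ∀ n : ℕ, 1 ≤ n → ∃ k ∈ Finset.Ico n (n + W), ∃ e ≤ R,
    ∀ t s x, X.d t s = e → ENNReal.ofReal (c * ((√(X.b : ℝ))⁻¹) ^ k) ≤ X.uu p k x t s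

/-- [JL] (EASY-MEDIUM) All large `N`. `q₀` = maximum of the `q₀` of `StVP` for `e ≤ R`; `N₀ = q₀ + W + 1`; for `N ≥ N₀`
the window starting at `n = N - q₀ - W` gives `k`, `e`; `q = N - k ∈ (q₀, q₀ + W]`; `δ` = minimum of the `δ(e, q)`, `e ≤ R`,
`q₀ ≤ q ≤ q₀ + W`. With `d t s = e` (`StRB`): `uu N x t t ≥ uu k x t s · uu q x_k s t ≥ c √b^(-k) δ ≥ c δ √b^(-N)` (`StJS`;
`d` symmetric; `√b ≥ 1`; `k ≥ 1`, `q ≥ 1`). (hRB : StRB) (hVP : StVP) (hJS : StJS) -/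
def StJL : Prop := ∀ (X : Sys.{u}) (p : ℝ), 0 < p → p ≤ 1 → ∀ (c : ℝ) (R W : ℕ), 0 < c →
  (∀ n : ℕ, 1 ≤ n → ∃ k ∈ Finset.Ico n (n + W), ∃ e ≤ R,
    ∀ t s x, X.d t s = e → ENNReal.ofReal (c * ((√(X.b : ℝ))⁻¹) ^ k) ≤ X.uu p k x t s) →
  ∃ (c' : ℝ) (N₀ : ℕ), 0 < c' ∧ 1 ≤ N₀ ∧ ∀ N ≥ N₀, ∀ t x,
    ENNReal.ofReal (c' * ((√(X.b : ℝ))⁻¹) ^ N) ≤ X.uu p N x t t

/-- The event that `u` and `v` are connected in `W ∩ S`. -/
def cn {V : Type u} (G : SimpleGraph V) (W : Set V) (S : Finset V) (u v : V) :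
    Set (Set (Sym2 V)) := {r | v ∈ Cluster (r ∩ (EI (within G W) S : Set (Sym2 V))) u}

/-- `u_n` in finite volume. -/
noncomputable def uf (X : Sys.{u}) (p : ℝ) (S : Finset (X.T × X.T')) (n : ℕ) (x : X.T')
    (t s : X.T) : ℝ := tau (within X.G (X.WO x n t s)) p S (t, x) (s, X.up n x)

/-- The event `(t, x) → (t, x_n) → (s, x_(n+q)) → (s, x_j)`. -/
def Ev (X : Sys.{u}) (S : Finset (X.T × X.T')) (x : X.T') (t s : X.T) (q j n : ℕ) :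
    Set (Set (Sym2 (X.T × X.T'))) :=
  cn X.G (X.WO x n t t) S (t, x) (t, X.up n x) ∩
  cn X.G (X.WO (X.up n x) q t s) S (t, X.up n x) (s, X.up (n + q) x) ∩
  cn X.G (X.WO (X.up (n + q) x) (j - (n + q)) s s) S (s, X.up (n + q) x) (s, X.up j x)

/-- [JM] (MEDIUM) The probability of `Ev`. The three events depend on the edge sets
`E_i = EI (within G W_i) S`, contained in `EI G S`, and these are disjoint: an edge of `E₁` has both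
endpoints in `Dn x_n` and one in `Dn x_(n-1)`; `W₂` has no vertex in `Dn x_(n-1)`, and its only vertex in `Dn x_n` is
`(t, x_n)`; an edge of `E₂` has both endpoints in `Dn x_(n+q)` and one in `Dn x_(n+q-1)`; `W₃` has no vertex in
`Dn x_(n+q-1)`. `StFI` (`n = 3`) or `StPI`, `StPL`; `Pr (E_i) = uf`. Last part: the event implies a connection of
`(t, x)` and `(s, x_j)` in `S`. (hPB : StPB) (hPI : StPI) (hPL : StPL) (hCB : StCB) (hFI : StFI) (hRA : StRA) -/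
def StJM : Prop := ∀ (X : Sys.{u}) (p : ℝ), 0 ≤ p → p ≤ 1 → ∀ (S : Finset (X.T × X.T'))
  (x : X.T') (t s : X.T) (q j n : ℕ), 1 ≤ n → 1 ≤ q → n + q < j →
  Pr (EI X.G S) p (Ev X S x t s q j n) = uf X p S n x t t * uf X p S q (X.up n x) t s *
    uf X p S (j - (n + q)) (X.up (n + q) x) s s ∧
  Ev X S x t s q j n ⊆ {r | (s, X.up j x) ∈ Cluster (r ∩ (EI X.G S : Set (Sym2 (X.T × X.T')))) (t, x)}

/-- [JN] (MEDIUM) The pair bound. Let `m = n' - (n + q) ≥ 0`, `w = (s, x_(n+q))`. `Ev n ∩ Ev n'` is contained in the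
intersection of: (1) `cn` in `WO x n t t`, (2) `cn` in `WO x_n q t s`, (3) if `m ≥ 1`: the exit event of `w` with `m`, in
the edges `E₃` = the edges of `EI (within G (insert w (Dn w.2)ᶜ)) S` which have an endpoint in
`Dn x_(n'-1)` (the third connection of `Ev n` leads from `w` to `(s, x_j)`, outside `Dn x_(n'-1)`, in
`WO x_(n+q) .. ⊆ insert w (Dn w.2)ᶜ`; take the first vertex outside `Dn x_(n'-1)`), (4) `cn` in `WO x_n' q t s`, (5) `cn` in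
`WO x_(n'+q) (j-(n'+q)) s s`. The five edge sets are disjoint (as in `StJM`; the edges of (1), (2) have both
endpoints in `Dn x_(n+q)`, and at least one different from `w`...: precisely an edge of (2) has an endpoint in
`Dn x_(n+q-1)`, which is not in `insert w (Dn w.2)ᶜ`; the edges of (3) have an endpoint in `Dn x_(n'-1)`, those of
(4), (5) do not). `StFI`. The probability of (3) is `ex p S m w ≤ √b^(-m)` (`StPL`, `StJH`), (1) and (5): `≤ √b^(-n)`,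
`≤ √b^(-(j-n'-q))` (`Bd` with `d = 0`, `StQC` second part: `tau (within ..) S = tau G (filter)`), (2), (4): `≤ ξ`. The sum of the exponents is `j - 2q`.
(hPB : StPB) (hPI : StPI) (hPL : StPL) (hCB : StCB) (hFI : StFI) (hQC : StQC) (hRA : StRA) (hRB : StRB) (hJH : StJH) -/
def StJN : Prop := ∀ (X : Sys.{u}) (p : ℝ), 0 ≤ p → p ≤ 1 → X.Bd p → ∀ (S : Finset (X.T × X.T'))
  (x : X.T') (t s : X.T) (q j n n' : ℕ) (ξ : ℝ), 1 ≤ n → 1 ≤ q → n + q ≤ n' → n' + q < j →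
  (∀ y, uf X p S q y t s ≤ ξ) →
  Pr (EI X.G S) p (Ev X S x t s q j n ∩ Ev X S x t s q j n') ≤
    ξ ^ 2 * ((√(X.b : ℝ))⁻¹) ^ (j - 2 * q)

/-- [JO] (MEDIUM) The contradiction. `e` with `a^e > 128 / c⁴`, `d t s = e` (`StRB`), `q` and `δ` from `StVP`,
`ξ = (uu p q x t s).toReal ≥ δ > 0` (independent of `x`, `≤ 1`). `K ≥ 1/ξ`, `K ≥ 1`, `J = {N₀ + i q : i < K}`,
`j = 2 N₀ + (K + 1) q`. Finite `S` such that for all `n ∈ J`: `uf n x t t ≥ (c/2) √b^(-n)`,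
`uf q x_n t s ≥ ξ/2`, `uf (j-(n+q)) x_(n+q) s s ≥ (c/2) √b^(-(j-n-q))` (`uu` is the supremum of the `uf`, `StQB`). So by
`StJM` `Pr (Ev n) ≥ α = (c² ξ / 8) √b^(-(j-q))`; `Pr (Ev n) ≤ β = ξ √b^(-(j-q))` (`Bd`); pairs `≤ γ = ξ² √b^(-(j-2q))`
(`StJN`, `n + q ≤ n'`). `StFE`; the union is contained in the connection event (`StJM`), of probability
`tau G p S (t, x) (s, x_j) ≤ a^(-e) √b^(-j)` (`Bd`). So `K² (c⁴ ξ²/64) √b^(-2j+2q) ≤ a^(-e) √b^(-j) (K ξ √b^(-j+q) + K² ξ² √b^(-j+2q))`,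
so `c⁴ / 64 ≤ a^(-e) (1/(K ξ) + 1) ≤ 2 a^(-e)`, contradiction.
(hPB : StPB) (hFE : StFE) (hQA : StQA) (hQB : StQB) (hQC : StQC) (hQF : StQF) (hRB : StRB) (hVD : StVD) (hVP : StVP) (hJM : StJM) (hJN : StJN) -/
def StJO : Prop := ∀ (X : Sys.{u}) (p : ℝ), 0 < p → p ≤ 1 → X.Bd p → ∀ (c : ℝ) (N₀ : ℕ), 0 < c →
  1 ≤ N₀ → ¬ ∀ N ≥ N₀, ∀ t x, ENNReal.ofReal (c * ((√(X.b : ℝ))⁻¹) ^ N) ≤ X.uu p N x t t

/-- [JQ] (EASY) `gg → 0` by `StJK`, `StJL`, `StJO`; then `StJJ` with `StJA`, `StJB`, `StVA`.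
(hVA : StVA) (hJA : StJA) (hJB : StJB) (hJJ : StJJ) (hJK : StJK) (hJL : StJL) (hJO : StJO) -/
def StJQ : Prop := ∀ (X : Sys.{u}) (p : ℝ), 0 < p → p ≤ 1 → X.Bd p → ∀ x t,
  ∑' n, X.gg p n x t ≠ ⊤

/-- [JP] (MEDIUM) The descendants. `v = (s, y)` with `up j y = x` for a unique `j`:
`tt((t,x),(s,y)) = tt((s,y),(t,up j y)) = tt((t,x),(s,x_j))` (`StVD`; `d` symmetric), `Ω = ω(t, s) √b^(-j)`, and
there are `b^j` such `y`: `∑_j ∑_s b^j √b^(-j) ω(t, s) tt((t,x),(s,x_j)) = ∑_j g_j`.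
(hQF : StQF) (hRA : StRA) (hRB : StRB) (hVD : StVD) -/
def StJP : Prop := ∀ (X : Sys.{u}) (p : ℝ), 0 ≤ p → p ≤ 1 → ∀ x t,
  ∑' v : X.T × X.T', (if v.2 ∈ desc X.par' x then
    ENNReal.ofReal (X.Om (t, x) v) * tt X.G p (t, x) v else 0) ≤ ∑' n, X.gg p n x t

/-- [JR] (MEDIUM-HARD) The other vertices. For `v = (s, y)`, `y ∉ desc x`, let `n ≥ 1` be minimal with `y ∈ desc x_n`,
and `up j y = x_n`. `StQU` for `A = Dn x_(n-1)`, `u = (t, x)`, `v`: exits `w = (r, x_(n+i))`, `i < L`. So the sum is at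
most `Δ ∑_(n ≥ 1) ∑_j ∑_(i < L) ∑_r ∑_s ∑_(y : up j y = x_n) Ω tt(u, w) tt(w, v)`, `Ω = ω(t, s) √b^(n-j)`,
`up (j+i) y = x_(n+i)`, `tt(w, v) = tt((s,y),(r,up (j+i) y)) = tt((r,x'),(s,up (j+i) x'))` for any `x'` (`StVD`), `b^j`
values of `y`. `ω(t, s) √b^(n-j) b^j = (ω(t, r) √b^(n+i)) (ω(r, s) √b^(j+i)) √b^(-2i)`. So it is at most
`Δ ∑_(i < L) (∑_n g_(n+i)) (∑_j g_(j+i)) ≤ Δ L (∑ g)²`.
(hQF : StQF) (hQU : StQU) (hRA : StRA) (hRB : StRB) (hRF : StRF) (hVD : StVD) -/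
def StJR : Prop := ∀ (X : Sys.{u}) (Δ L : ℕ), X.Const Δ L → ∀ p : ℝ, 0 ≤ p → p ≤ 1 → ∀ x t,
  ∑' v : X.T × X.T', (if v.2 ∉ desc X.par' x then
    ENNReal.ofReal (X.Om (t, x) v) * tt X.G p (t, x) v else 0) ≤
      Δ * (L * (∑' n, X.gg p n x t) ^ 2)

/-- [JT] (MEDIUM) A good finite set. `ENNReal.tendsto_tsum_compl_atTop_zero`: a finite `S ∋ u` with
`Δ ∑_(w ∉ S) Ω(u, w) tt(u, w) < 1` (`Δ` from `StVA`). For `z ∈ S`, `w ∉ S` adjacent: `p tau G p S u z ≤ tt(u, w)`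
(`StQA`, `StQF`: `tau ≤ tt`, `tt(u,z) tt(z,w) ≤ tt(u,w)`, `p ≤ tt(z, w)`), and each `w` has at most `Δ` neighbours `z`: the sum at `p` is
`< 1`. It is continuous in `p` (`StQB`), so it is `< 1` for some `p' ∈ (p, 1]`.
(hWB : StWB) (hQA : StQA) (hQB : StQB) (hQF : StQF) (hVA : StVA) -/
def StJT : Prop := ∀ (X : Sys.{u}) (p : ℝ) (u : X.T × X.T'), 0 ≤ p → p < 1 → X.XX p u ≠ ⊤ →
  ∃ S : Finset (X.T × X.T'), u ∈ S ∧ ∃ p' : ℝ, p < p' ∧ p' ≤ 1 ∧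
    ∑ z ∈ S, ∑ w ∈ (nb X.G z).filter (· ∉ S), tau X.G p' S u z * (p' * X.Om u w) < 1

/-- [JU] (MEDIUM) Finite susceptibility. Let `φ < 1` be the sum, `C = ∑_(v ∈ S) Ω(u, v)`. For a finite `Λ` let
`F(v) = ∑_(w ∈ Λ) Ω(v, w) tau G p Λ v w` and `M` its maximum over `v ∈ Λ`. For `v ∈ Λ` let `γ = (α, β)`, `α` commuting with
`par`, `γ u = v` (`mov`, `mov'`), `A = γ(S)`. For `w ∉ A` `StQT` (volume `Λ`): `tau Λ v w ≤ ∑_(z ∈ A ∩ Λ, y ∈ Λ \ A, z ~ y)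
tau (Λ ∩ A) v z p tau Λ y w`, `tau (Λ ∩ A) v z ≤ tau A v z = tau S u (γ⁻¹ z)` (`StQB`, `StQC`). Multiply by
`Ω(v, w) = Ω(v, y) Ω(y, w)`, sum over `w`: `F(v) ≤ C + φ M` (`Ω(v, y) = Ω(u, γ⁻¹ y)`, `StVC`; terms with `w ∈ A`: `C`). So
`M ≤ C / (1 - φ)` for all `Λ`; then `XX p u = sup` over finite sets of vertices and over the finite volumes
(`ENNReal.tsum_eq_iSup_sum`, finite sums of suprema of directed families).
(hWB : StWB) (hQA : StQA) (hQB : StQB) (hQC : StQC) (hQT : StQT) (hVC : StVC) -/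
def StJU : Prop := ∀ (X : Sys.{u}) (p : ℝ) (u : X.T × X.T') (S : Finset (X.T × X.T')), 0 ≤ p →
  p ≤ 1 → u ∈ S →
  ∑ z ∈ S, ∑ w ∈ (nb X.G z).filter (· ∉ S), tau X.G p S u z * (p * X.Om u w) < 1 →
  X.XX p u ≠ ⊤

/-- [JV] (MEDIUM) No uniqueness. `SO.StU2` needs: for `ε > 0` a `D` with `perc(y ∈ Cluster s x) ≤ ofReal ε` for
`dist x y ≥ D`; `perc(..) = tt` (`StQP`). By the symmetry of `tt` and `Ω(x, y) Ω(y, x) = 1` we may assume `Ω(x, y) ≥ 1`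
(exchange `x`, `y`); move `x` to `u` by `γ` (commuting with `par`): `tt(x, y) = tt(u, γ y) ≤ Ω(u, γ y) tt(u, γ y)`, a term of the
convergent sum `XX p u`, so it is `< ε` for `γ y` outside a finite set `F`; `D` larger than the distances from `u`
to `F` (`dist u (γ y) = dist x y`). (hB : Basics.{u}) (hU2 : SO.StU2.{u}) (hQF : StQF) (hQP : StQP) (hVB : StVB) (hVC : StVC) -/
def StJV : Prop := ∀ (X : Sys.{u}) (p : I) (u : X.T × X.T'), X.XX p u ≠ ⊤ →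
  perc X.G p (UniqueEvent (X.T × X.T')) ≠ 1

/-- [JW] (EASY-MEDIUM) PART II. `XX p u ≠ ⊤`: for `p > 0` by `StJQ`, `StJP`, `StJR` (`Const` from `StVA`; the two sums
together are `XX p u`), for `p = 0` all `tt 0 u v` with `v ≠ u` vanish. `StJT` gives `S`, `p'`; `StJU`: `XX p' u ≠ ⊤`; for
`q ≤ p'`: `XX q u ≤ XX p' u` (`StQF`), `StJV`.
(hPB : StPB) (hQF : StQF) (hVA : StVA) (hJP : StJP) (hJQ : StJQ) (hJR : StJR) (hJT : StJT) (hJU : StJU) (hJV : StJV) -/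
def StJW : Prop := ∀ (X : Sys.{u}) (p : ℝ), 0 ≤ p → p < 1 → X.Bd p → ∃ p' : ℝ, p < p' ∧ p' ≤ 1 ∧
  ∀ q : I, (q : ℝ) ≤ p' → perc X.G q (UniqueEvent (X.T × X.T')) ≠ 1

/-- [ZZ] (EASY-MEDIUM) THE THEOREM. `p₁ = sSup {p : 0 ≤ p ≤ 1, Bd p}` (nonempty, bounded); `Bd p₁` (`StVE`: for `p₁ > 0`
all `q < p₁` satisfy `Bd`), `p₁ < 1`. `p'` from `StJW` for `p₁`. `pu ≥ p'`: every `q : I` with `P_q(Unique) = 1` has
`q > p'`, and the set is not empty: for `q = 1` the set of open edges is a.s. `G.edgeSet` and the only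
cluster is the whole vertex set, infinite (`setBernoulli_one`-type lemma, see `SO/I_U3.lean`). For
`p'' = (p₁ + p')/2` and `p = (p₁ + p'')/2 > p₁`: `¬ Bd p`, so by `StIK` `P_p''(Heavy) > 0`, `ph ≤ p'' < p' ≤ pu`.
(hVB : StVB) (hVE : StVE) (hIK : StIK) (hJW : StJW) -/
def StZZ : Prop := ∀ X : Sys.{u}, ph X.G X.Γ < pu X.G

end Pool.Agent.Work.MP_c58d8b_pr.PT
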