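import Pool.Agent.Work.MP_c58d8b_pr.PT.Stmts2

/-!
# MP_c58d8b_pr, block PT (captain helper62): part 3, the full groups satisfy the hypotheses
-/

set_option autoImplicit false

namespace Pool.Agent.Work.MP_c58d8b_pr.PT

open MeasureTheory ProbabilityTheory Set Filter Topology
open scoped ENNReal unitInterval Classical
open Pool.Agent.Work.MP_c58d8b_pr.SO

universe u

/-- The group of all automorphisms (isometries) of the tree. -/
def fullA {T : Type u} (par : T → T) : Subgroup (Equiv.Perm T) where
  carrier := {α | ∀ x y, td par (α x) (α y) = td par x y}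
  mul_mem' := by
    intro α β hα hβ x y
    exact (hα (β x) (β y)).trans (hβ x y)
  one_mem' := fun _ _ => rfl
  inv_mem' := by
    intro α hα x y
    have h := hα (α⁻¹ x) (α⁻¹ y)
    have h1 : ∀ z, α (α⁻¹ z) = z := fun z => α.apply_symm_apply z
    rw [h1, h1] at h
    exact h.symm

/-- The group of all automorphisms of the tree which fix the end (they commute with `par`). -/
def fullB {T : Type u} (par : T → T) : Subgroup (Equiv.Perm T) where
  carrier := {β | ∀ z, β (par z) = par (β z)}
  mul_mem' := by
    intro α β hα hβ z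
    change α (β (par z)) = par (α (β z))
    rw [hβ z, hα (β z)]
  one_mem' := fun _ => rfl
  inv_mem' := by
    intro β hβ z
    apply β.injective
    have h1 : ∀ z, β (β⁻¹ z) = z := fun z => β.apply_symm_apply z
    rw [hβ (β⁻¹ z), h1, h1]

/-- [EA] (MEDIUM) Any two trees with parent maps are isomorphic, with prescribed base points. For all
`v : T₁`, `w : T₂` the finite sets of children have the same number `a` of elements, choose a bijection
`φ v w` between them; if `v = par₁^(m+1) x`, `w = par₂^(m+1) y`, choose it such that `par₁^m x ↦ par₂^m y` (possible: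
compose with a transposition). For `v : T₁` let `k v` be the smallest `k` such that `par₁^k v` is one of the
`par₁^m x` (exists: `common`). Define `f` by recursion on `k v`: `f (par₁^m x) = par₂^m y`, otherwise
`f v = φ (par₁ v) (f (par₁ v)) v`. Then `f (par₁ v) = par₂ (f v)`. Injective: if `f v = f w` then (common ancestors)
descend: `f` is injective on the children of each vertex, and it preserves `h - const`; surjective: same
recursion for `w : T₂`. (Or define `f` and `g` symmetric with the inverse bijections.) -/
def StEA : Prop := ∀ (T₁ T₂ : Type u) (par₁ : T₁ → T₁) (h₁ : T₁ → ℤ) (par₂ : T₂ → T₂)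
  (h₂ : T₂ → ℤ) (a : ℕ), Tr par₁ h₁ a → Tr par₂ h₂ a → ∀ (x : T₁) (y : T₂),
  ∃ f : T₁ ≃ T₂, (∀ z, f (par₁ z) = par₂ (f z)) ∧ f x = y

/-- [EC] (EASY-MEDIUM) The distance depends only on the adjacency relation. `td par x y` is the length of
a shortest chain `x = v_0, ..., v_n = y` with `par v_i = v_(i+1)` or `par v_(i+1) = v_i`: there is such a chain of length
`td` (`StRB`: up `m`, down `n`), and along a chain `td par x v_i ≤ i` (triangle inequality, `td par v (par v) = 1`).
(hRB : StRB) -/
def StEC : Prop := ∀ (T : Type u) (par : T → T) (h : T → ℤ) (par₂ : T → T) (h₂ : T → ℤ) (a : ℕ),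
  Tr par h a → Tr par₂ h₂ a → (∀ v w, (par v = w ∨ par w = v) ↔ (par₂ v = w ∨ par₂ w = v)) →
  ∀ x y, td par x y = td par₂ x y

/-- [ED] (MEDIUM) Changing the end. `td par x y = m + n`, `par^m x = par^n y = c` (`StRB`). If `n = 0` take
`par₂ = par`. Let `n ≥ 1`. Take a line `l : ℤ → T` with `par (l i) = l (i-1)`, `l 0 = c`, `l n = y`: `l (-i) = par^i c`,
`l i = par^(n-i) y` for `0 ≤ i ≤ n`, and further down arbitrary children. The heights are different.
`par₂ (l i) = l (i+1)`, `par₂ v = par v` for `v` not on the line. For every `v` the set of the `i` with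
`v ∈ desc (l i)` is nonempty and bounded above, of the form `i ≤ N v`; `h₂ v = h v + 2 N v`. `v = l i`: `N (l i) = i`,
`h₂ (l (i+1)) = h₂ (l i) + 1`. `v` not on the line: `N (par v) = N v`. Children for `par₂`: of `v` not on the line:
the same set; of `l i`: the children without `l (i+1)`, and `l (i-1)`. Common ancestors: every `v` reaches the
line. `par₂^(m+n) x = y`: `par^k x` is not on the line for `k < m` (otherwise `x ∈ desc (l 1)` and
`par^(m-1) x = l 1 = par^(n-1) y`, so `td ≤ m + n - 2`), so `par₂^m x = c = l 0` and `par₂^n c = l n = y`.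
(hRA : StRA) (hRB : StRB) -/
def StED : Prop := ∀ (T : Type u) (par : T → T) (h : T → ℤ) (a : ℕ), Tr par h a → ∀ x y : T,
  ∃ (par₂ : T → T) (h₂ : T → ℤ), Tr par₂ h₂ a ∧
    (∀ v w, (par v = w ∨ par w = v) ↔ (par₂ v = w ∨ par₂ w = v)) ∧ par₂^[td par x y] x = y

/-- [EB] (EASY-MEDIUM) The full groups satisfy the hypotheses of the theorem. First and second part: `StEA`
for `par₁ = par₂ = par`, and `StRC` (a permutation commuting with `par` is in `fullA`). Third part: `StED` for
`(x, y)` and for `(x₁, y₁)` (equal distances `n`) gives `par₂`, `par₃`; `StEA` gives `f` with `f (par₂ z) = par₃ (f z)`,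
`f x = x₁`, so `f y = f (par₂^n x) = par₃^n x₁ = y₁`; `f` preserves the distance: `td par₃ (f v) (f w) = td par₂ v w` from
the definition of `td` and injectivity, and `td par₂ = td par = td par₃` (`StEC`).
(hRC : StRC) (hEA : StEA) (hEC : StEC) (hED : StED) -/
def StEB : Prop := ∀ (T : Type u) (par : T → T) (h : T → ℤ) (a : ℕ), Tr par h a →
  (∀ x y, ∃ β ∈ fullB par, β x = y) ∧
  (∀ x y, ∃ α ∈ fullA par, (∀ z, α (par z) = par (α z)) ∧ α x = y) ∧
  (∀ x y x₁ y₁, td par x y = td par x₁ y₁ → ∃ α ∈ fullA par, α x = x₁ ∧ α y = y₁)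

end Pool.Agent.Work.MP_c58d8b_pr.PT
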